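import Pool.Agent.BW.Alg

set_option autoImplicit false

/-!
# The algorithm

Elements are natural numbers, sets are lists; `ρ : List ℕ → ℕ` is the rank function on lists, `B` a
basis. For a set `T ⊆ B` of three elements, `M / (B \ T)` is a plane; a chart of the plane assigns
to its points (normalized) vectors.
-/

namespace Pool.Agent.AM

open N487b59b3 Pool.Agent.Helper22
open Pool.Agent.G4 (nor dif word prd)
open Pool.Agent.BW (rkX grdy)

/-- three codes of elements of the field -/
abbrev Tri : Type := ℕ × (ℕ × ℕ)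

/-- the constants: number of points of a plane, code of zero and one, the candidates for the charts,
the singular triples of vectors, division -/
structure Prm where
  num : ℕ
  zer : ℕ
  one : ℕ
  maps : List (List Tri)
  sg : List (Tri × (Tri × Tri))
  dv : ℕ → ℕ → ℕ

/-- the rank of `Y` in `M / (B \ T)` -/
def cr (ρ : List ℕ → ℕ) (B T Y : List ℕ) : ℕ := ρ (dif B T ++ Y) - ρ (dif B T)

/-- representatives of the points of `M / (B \ T)` -/
def pts (ρ : List ℕ → ℕ) (B E T : List ℕ) : List ℕ :=
  (T ++ E).foldl (fun L y => if decide (cr ρ B T [y] = 0) ||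
    L.any (fun s => decide (cr ρ B T [s, y] ≤ 1)) then L else L ++ [y]) []

/-- the candidates for the chart of `M / (B \ T)` -/
def zips (P : Prm) (ρ : List ℕ → ℕ) (B E T : List ℕ) : List (List (ℕ × Tri)) :=
  P.maps.map fun φ => (pts ρ B E T).zip φ

/-- the vector of the element `y` in the chart `Z` -/
def chv (P : Prm) (ρ : List ℕ → ℕ) (B T : List ℕ) (Z : List (ℕ × Tri)) (y : ℕ) : Tri :=
  if cr ρ B T [y] = 0 then (P.zer, (P.zer, P.zer))
  else ((Z.filter fun p => decide (cr ρ B T [p.1, y] ≤ 1)).headD (0, (P.zer, (P.zer, P.zer)))).2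

/-- the chart `Z` is correct: the same triples are singular -/
def conB (P : Prm) (ρ : List ℕ → ℕ) (B T : List ℕ) (Z : List (ℕ × Tri)) : Bool :=
  (prd Z (prd Z Z)).all fun t => decide (cr ρ B T [t.1.1, t.2.1.1, t.2.2.1] < 3) ==
    decide ((t.1.2, (t.2.1.2, t.2.2.2)) ∈ P.sg)

/-- the chart `Z` agrees with the chart `Z₁` of `M / (B \ T₁)` in the first two coordinates -/
def ancB (P : Prm) (ρ : List ℕ → ℕ) (B T₁ : List ℕ) (Z₁ Z : List (ℕ × Tri)) : Bool :=
  Z.all fun p => decide (p.2.1 = (chv P ρ B T₁ Z₁ p.1).1) &&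
    decide (p.2.2.1 = (chv P ρ B T₁ Z₁ p.1).2.1)

/-- the first chart -/
def cht1 (P : Prm) (ρ : List ℕ → ℕ) (B E T₁ : List ℕ) : List (ℕ × Tri) :=
  ((zips P ρ B E T₁).filter fun Z => conB P ρ B T₁ Z).headD []

/-- the other charts -/
def cht2 (P : Prm) (ρ : List ℕ → ℕ) (B E T₁ T : List ℕ) : List (ℕ × Tri) :=
  ((zips P ρ B E T).filter fun Z => conB P ρ B T Z &&
    ancB P ρ B T₁ (cht1 P ρ B E T₁) Z).headD []

/-- the first three elements of the basis -/
def trip (B : List ℕ) : List ℕ := [B.headD 0, B.tail.headD 0, B.tail.tail.headD 0]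

/-- the coordinate `i` of the element `y`, if the first coordinate of `y` is normalized to one -/
def tv (P : Prm) (ρ : List ℕ → ℕ) (B E : List ℕ) (i y : ℕ) : ℕ :=
  if i = B.tail.headD 0 then (chv P ρ B (trip B) (cht1 P ρ B E (trip B)) y).2.1
  else (chv P ρ B [B.headD 0, B.tail.headD 0, i]
    (cht2 P ρ B E (trip B) [B.headD 0, B.tail.headD 0, i]) y).2.2

/-- the first coordinate of `y` that is not zero -/
def piv (ρ : List ℕ → ℕ) (B : List ℕ) (y : ℕ) : ℕ :=
  (B.filter fun k => !decide (cr ρ B [k] [y] = 0)).headD 0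

/-- an element whose first coordinate is not zero and whose coordinates `i`, `k` are proportional to
those of `y` -/
def prox (ρ : List ℕ → ℕ) (B E : List ℕ) (i k y : ℕ) : ℕ :=
  (E.filter fun x => !decide (cr ρ B [B.headD 0] [x] = 0) &&
    (!decide (cr ρ B [i, k] [x] = 0) && decide (cr ρ B [i, k] [x, y] ≤ 1))).headD 0

/-- the entry of the matrix in the row `i` and the column `y` -/
def ent (P : Prm) (ρ : List ℕ → ℕ) (B E : List ℕ) (i y : ℕ) : ℕ :=
  if cr ρ B [i] [y] = 0 then P.zer
  else if i = piv ρ B y then P.one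
  else if piv ρ B y = B.headD 0 then tv P ρ B E i y
  else P.dv (tv P ρ B E i (prox ρ B E i (piv ρ B y) y))
    (tv P ρ B E (piv ρ B y) (prox ρ B E i (piv ρ B y) y))

/-- all planes that are needed have the maximal number of points -/
def flg (P : Prm) (ρ : List ℕ → ℕ) (B E : List ℕ) : Bool :=
  decide (3 ≤ B.length) && (prd B.tail B.tail).all fun p => decide (p.1 = p.2) ||
    decide ((pts ρ B E [B.headD 0, p.1, p.2]).length = P.num)

/-- the result for the rank function `ρ` and the basis `B` -/
def outA (P : Prm) (ρ : List ℕ → ℕ) (B E : List ℕ) : Bool × List (List ℕ) :=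
  if flg P ρ B E then (true, B.map fun i => E.map fun y => ent P ρ B E i y) else (false, [])

/-- the algorithm: input in unary, output a flag and the rows of a matrix (codes of elements of the
field) -/
def algA (P : Prm) (X : Oracle) (a : List Bool) : Bool × List (List ℕ) :=
  outA P (fun T => rkX X (List.range a.length) T)
    (grdy (fun T => rkX X (List.range a.length) T) (List.range a.length) [])
    (List.range a.length)

end Pool.Agent.AM
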