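import Pool.Agent.AM.GbB

set_option autoImplicit false

/-!
# Module BadA: analysis of the bound for bad matrices
-/

namespace Pool.Agent.AM

private theorem ba_poly {z : ℝ} (h0 : 0 ≤ z) (h1 : z < 1) :
    ∃ C : ℝ, 0 ≤ C ∧ ∀ n : ℕ, ((n : ℝ) + 1) ^ 2 * z ^ n ≤ C := by
  have ht := tendsto_pow_const_mul_const_pow_of_abs_lt_one 2 (r := z) (by rw [abs_of_nonneg h0]; exact h1)
  obtain ⟨B, hB⟩ := ht.bddAbove_range
  have hB' : ∀ n : ℕ, (n : ℝ) ^ 2 * z ^ n ≤ B := fun n => hB ⟨n, rfl⟩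
  have hB0 : 0 ≤ B := by
    have := hB' 0
    simpa using this
  refine ⟨3 * B + 1, by linarith, fun n => ?_⟩
  have h2 : z ^ n ≤ 1 := pow_le_one₀ h0 h1.le
  have h3 : 0 ≤ z ^ n := pow_nonneg h0 n
  have h4 : (n : ℝ) ≤ (n : ℝ) ^ 2 := by
    have : n ≤ n ^ 2 := Nat.le_self_pow (by norm_num) n
    exact_mod_cast this
  have h5 := hB' n
  have h6 : (n : ℝ) * z ^ n ≤ (n : ℝ) ^ 2 * z ^ n := mul_le_mul_of_nonneg_right h4 h3
  have e : ((n : ℝ) + 1) ^ 2 * z ^ n = (n : ℝ) ^ 2 * z ^ n + 2 * ((n : ℝ) * z ^ n) + z ^ n := by ring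
  rw [e]
  linarith

private theorem ba_exp {x : ℝ} (h0 : 0 < x) (h1 : x < 1) :
    ∃ C c : ℝ, 0 ≤ C ∧ 0 < c ∧ ∀ n : ℕ, ((n : ℝ) + 1) ^ 2 * x ^ n ≤ C * Real.exp (-c * n) := by
  obtain ⟨y, hy⟩ : ∃ y : ℝ, y = (1 + x) / 2 := ⟨_, rfl⟩
  have hy0 : 0 < y := by
    rw [hy]
    linarith
  have hy1 : y < 1 := by
    rw [hy]
    linarith
  have hxy : x < y := by
    rw [hy]
    linarith
  obtain ⟨C, hC0, hC⟩ := ba_poly (z := x / y) (by positivity) ((div_lt_one hy0).2 hxy)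
  refine ⟨C, -Real.log y, hC0, by
    have := Real.log_neg hy0 hy1
    linarith, fun n => ?_⟩
  have e1 : Real.exp (-(-Real.log y) * n) = y ^ n := by
    rw [neg_neg, mul_comm, Real.exp_nat_mul, Real.exp_log hy0]
  rw [e1]
  have h2 := hC n
  have h3 : 0 < y ^ n := pow_pos hy0 n
  rw [div_pow, mul_div_assoc', div_le_iff₀ h3] at h2
  exact h2

private theorem ba_one {q : ℕ} (hq : 2 ≤ q) (n r : ℕ) (hr : r ≤ 2) :
    (gb q n r : ℝ) ≤ 4 * (q : ℝ) ^ (2 * n) := by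
  have hq1 : (1 : ℝ) ≤ (q : ℝ) := by
    have : 1 ≤ q := by omega
    exact_mod_cast this
  rcases Nat.lt_or_ge n r with h | h
  · rw [gb_zero h]
    push_cast
    positivity
  · have h1 : (gb q n r : ℝ) ≤ 4 * (q : ℝ) ^ (r * (n - r)) := by exact_mod_cast gb_le hq h
    refine h1.trans ?_
    refine mul_le_mul_of_nonneg_left (pow_le_pow_right₀ hq1 ?_) (by norm_num)
    exact (Nat.mul_le_mul hr (Nat.sub_le n r)).trans (le_refl _)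

private theorem ba_ex {n p r : ℕ} (hn : 2 ≤ n) (hp : 7 * n ≤ 8 * p) (hpn : p < n) (hr : r ≤ p) :
    ((r * (p - r) + (r + 1) * (n - 1 - p) : ℕ) : ℝ) ≤ (n : ℝ) ^ 2 / 4 - n / 8 := by
  obtain ⟨a, rfl⟩ := Nat.exists_eq_add_of_le hr
  obtain ⟨b, hb⟩ := Nat.exists_eq_add_of_lt hpn
  subst hb
  have e1 : r + a - r = a := by omega
  have e2 : r + a + b + 1 - 1 - (r + a) = b := by omega
  rw [e1, e2]
  have h7 : 7 * ((r : ℝ) + a + b + 1) ≤ 8 * (r + a) := by exact_mod_cast hp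
  have h2 : (2 : ℝ) ≤ (r : ℝ) + a + b + 1 := by exact_mod_cast hn
  have hr0 : (0 : ℝ) ≤ (r : ℝ) := Nat.cast_nonneg _
  have ha0 : (0 : ℝ) ≤ (a : ℝ) := Nat.cast_nonneg _
  have hb0 : (0 : ℝ) ≤ (b : ℝ) := Nat.cast_nonneg _
  push_cast
  obtain ⟨N, hN⟩ : ∃ N : ℝ, N = (r : ℝ) + a + b + 1 := ⟨_, rfl⟩
  obtain ⟨R, hR⟩ : ∃ R : ℝ, R = (r : ℝ) + 1 := ⟨_, rfl⟩
  have e3 : (r : ℝ) * a + (r + 1) * b = R * (N - R) - a := by
    rw [hR, hN]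
    ring
  rw [e3, ← hN]
  rw [← hN] at h7 h2
  rcases le_or_gt (4 * R) (3 * N) with h | h
  · have h3 : R * (N - R) ≤ N ^ 2 / 4 := by nlinarith [sq_nonneg (N - 2 * R)]
    have h4 : N / 8 ≤ a := by
      have : (a : ℝ) = (r + a) - R + 1 := by
        rw [hR]
        ring
      linarith
    linarith
  · have hRN : R ≤ N := by
      rw [hR, hN]
      linarith
    have h3 : R * (N - R) ≤ 3 * N ^ 2 / 16 := by nlinarith
    have h4 : 3 * N ^ 2 / 16 ≤ N ^ 2 / 4 - N / 8 := by nlinarith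
    linarith

private theorem ba_two {q : ℕ} (hq : 2 ≤ q) {n p r : ℕ} (hn : 2 ≤ n) (hp : 7 * n ≤ 8 * p) (hpn : p < n) :
    (gb q p r : ℝ) * (q : ℝ) ^ ((r + 1) * (n - 1 - p)) ≤ 4 * (q : ℝ) ^ ((n : ℝ) ^ 2 / 4 - n / 8) := by
  have hq0 : (0 : ℝ) < (q : ℝ) := by
    have : 0 < q := by omega
    exact_mod_cast this
  have hq1 : (1 : ℝ) ≤ (q : ℝ) := by
    have : 1 ≤ q := by omega
    exact_mod_cast this
  rcases Nat.lt_or_ge p r with h | h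
  · rw [gb_zero h]
    push_cast
    rw [zero_mul]
    positivity
  · have h1 : (gb q p r : ℝ) ≤ 4 * (q : ℝ) ^ (r * (p - r)) := by exact_mod_cast gb_le hq h
    calc (gb q p r : ℝ) * (q : ℝ) ^ ((r + 1) * (n - 1 - p))
        ≤ 4 * (q : ℝ) ^ (r * (p - r)) * (q : ℝ) ^ ((r + 1) * (n - 1 - p)) :=
          mul_le_mul_of_nonneg_right h1 (by positivity)
      _ = 4 * (q : ℝ) ^ (((r * (p - r) + (r + 1) * (n - 1 - p) : ℕ) : ℝ)) := by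
          rw [Real.rpow_natCast, pow_add]
          ring
      _ ≤ 4 * (q : ℝ) ^ ((n : ℝ) ^ 2 / 4 - n / 8) :=
          mul_le_mul_of_nonneg_left (Real.rpow_le_rpow_of_exponent_le hq1 (ba_ex hn hp hpn h))
            (by norm_num)

private theorem ba_sum {q : ℕ} (hq : 2 ≤ q) (n : ℕ) :
    ((∑ p ∈ Finset.Ico (n - n / 8) n, ∑ r ∈ Finset.range (n + 1),
      gb q p r * q ^ ((r + 1) * (n - 1 - p)) : ℕ) : ℝ) ≤
        4 * ((n : ℝ) + 1) ^ 2 * (q : ℝ) ^ ((n : ℝ) ^ 2 / 4 - n / 8) := by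
  have hq0 : (0 : ℝ) < (q : ℝ) := by
    have : 0 < q := by omega
    exact_mod_cast this
  obtain ⟨X, hX⟩ : ∃ X : ℝ, X = (q : ℝ) ^ ((n : ℝ) ^ 2 / 4 - n / 8) := ⟨_, rfl⟩
  have hX0 : 0 ≤ X := by
    rw [hX]
    positivity
  push_cast
  rw [← hX]
  have h1 : ∀ p ∈ Finset.Ico (n - n / 8) n, ∑ r ∈ Finset.range (n + 1),
      (gb q p r : ℝ) * (q : ℝ) ^ ((r + 1) * (n - 1 - p)) ≤ ((n : ℝ) + 1) * (4 * X) := by
    intro p hp
    rw [Finset.mem_Ico] at hp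
    have hn : 2 ≤ n := by omega
    calc ∑ r ∈ Finset.range (n + 1), (gb q p r : ℝ) * (q : ℝ) ^ ((r + 1) * (n - 1 - p))
        ≤ ∑ _r ∈ Finset.range (n + 1), 4 * X := by
          refine Finset.sum_le_sum fun r _ => ?_
          rw [hX]
          exact ba_two hq hn (by omega) hp.2
      _ = ((n : ℝ) + 1) * (4 * X) := by
          rw [Finset.sum_const, Finset.card_range, nsmul_eq_mul]
          push_cast
          ring
  have h2 : ((Finset.Ico (n - n / 8) n).card : ℝ) ≤ (n : ℝ) + 1 := by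
    rw [Nat.card_Ico]
    have : n - (n - n / 8) ≤ n + 1 := by omega
    exact_mod_cast this
  calc ∑ p ∈ Finset.Ico (n - n / 8) n, ∑ r ∈ Finset.range (n + 1),
        (gb q p r : ℝ) * (q : ℝ) ^ ((r + 1) * (n - 1 - p))
      ≤ ∑ _p ∈ Finset.Ico (n - n / 8) n, ((n : ℝ) + 1) * (4 * X) := Finset.sum_le_sum h1
    _ = ((Finset.Ico (n - n / 8) n).card : ℝ) * (((n : ℝ) + 1) * (4 * X)) := by
        rw [Finset.sum_const, nsmul_eq_mul]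
    _ ≤ ((n : ℝ) + 1) * (((n : ℝ) + 1) * (4 * X)) :=
        mul_le_mul_of_nonneg_right h2 (by positivity)
    _ = 4 * ((n : ℝ) + 1) ^ 2 * X := by ring

theorem bad_ana (q : ℕ) (hq : 2 ≤ q) (b : ℕ → ℕ)
    (hb : ∀ n t : ℕ, t ≤ n → (b n : ℝ) ≤ ((gb q n 0 + gb q n 1 + gb q n 2 : ℕ) : ℝ) +
      ((∑ p ∈ Finset.Ico t n, ∑ r ∈ Finset.range (n + 1),
        gb q p r * q ^ ((r + 1) * (n - 1 - p)) : ℕ) : ℝ) +
      (n : ℝ) ^ 2 * (q : ℝ) ^ 3 * (1 - ((q : ℝ) ^ 3)⁻¹) ^ (n - t) * (gal q n : ℝ)) :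
    ∃ C c : ℝ, 0 < c ∧ ∀ n : ℕ, (b n : ℝ) ≤ C * Real.exp (-c * n) * (gal q n : ℝ) := by
  obtain ⟨Q, hQ⟩ : ∃ Q : ℝ, Q = (q : ℝ) := ⟨_, rfl⟩
  have hQ2 : (2 : ℝ) ≤ Q := by
    rw [hQ]
    exact_mod_cast hq
  have hQ0 : 0 < Q := by linarith
  have hQ1 : 1 < Q := by linarith
  obtain ⟨u, hu⟩ : ∃ u : ℝ, u = (Q ^ 3)⁻¹ := ⟨_, rfl⟩
  have hu0 : 0 < u := by
    rw [hu]
    positivity
  have hu1 : u < 1 := by
    rw [hu]
    refine inv_lt_one_of_one_lt₀ ?_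
    exact one_lt_pow₀ hQ1 (by norm_num)
  -- the three bases
  obtain ⟨x1, hx1⟩ : ∃ x1 : ℝ, x1 = Q⁻¹ := ⟨_, rfl⟩
  obtain ⟨x2, hx2⟩ : ∃ x2 : ℝ, x2 = Q ^ (-(1 / 8 : ℝ)) := ⟨_, rfl⟩
  obtain ⟨x3, hx3⟩ : ∃ x3 : ℝ, x3 = 1 - u / 8 := ⟨_, rfl⟩
  have h10 : 0 < x1 := by
    rw [hx1]
    positivity
  have h11 : x1 < 1 := by
    rw [hx1]
    exact inv_lt_one_of_one_lt₀ hQ1
  have h20 : 0 < x2 := by
    rw [hx2]
    positivity
  have h21 : x2 < 1 := by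
    rw [hx2]
    exact Real.rpow_lt_one_of_one_lt_of_neg hQ1 (by norm_num)
  have h30 : 0 < x3 := by
    rw [hx3]
    linarith
  have h31 : x3 < 1 := by
    rw [hx3]
    linarith
  obtain ⟨x, hx⟩ : ∃ x : ℝ, x = max x1 (max x2 x3) := ⟨_, rfl⟩
  have l1 : x1 ≤ x := by
    rw [hx]
    exact le_max_left _ _
  have l2 : x2 ≤ x := by
    rw [hx]
    exact (le_max_left _ _).trans (le_max_right _ _)
  have l3 : x3 ≤ x := by
    rw [hx]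
    exact (le_max_right _ _).trans (le_max_right _ _)
  have hx0 : 0 < x := h10.trans_le l1
  have hx1' : x < 1 := by
    rw [hx]
    exact max_lt h11 (max_lt h21 h31)
  obtain ⟨C, c, hC, hc, hCc⟩ := ba_exp hx0 hx1'
  obtain ⟨D, hD⟩ : ∃ D : ℝ, D = 12 * Q ^ 10 + 4 * Q ^ (1 / 4 : ℝ) + Q ^ 3 / x3 ^ 7 := ⟨_, rfl⟩
  have hD0 : 0 ≤ D := by
    rw [hD]
    positivity
  refine ⟨D * C, c, hc, fun n => ?_⟩
  obtain ⟨G, hG⟩ : ∃ G : ℝ, G = (gal q n : ℝ) := ⟨_, rfl⟩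
  have hG1 : Q ^ (((n : ℝ) ^ 2 - 1) / 4) ≤ G := by
    rw [hQ, hG]
    exact le_gal hq n
  have hG0 : 0 < G := lt_of_lt_of_le (by positivity) hG1
  have hn0 : (0 : ℝ) ≤ (n : ℝ) := Nat.cast_nonneg _
  have hb' := hb n (n - n / 8) (Nat.sub_le _ _)
  rw [← hQ, ← hG, ← hu] at hb'
  have hP1 : (1 : ℝ) ≤ ((n : ℝ) + 1) ^ 2 := by nlinarith
  -- first term
  have T1 : ((gb q n 0 + gb q n 1 + gb q n 2 : ℕ) : ℝ) ≤ 12 * Q ^ 10 * (((n : ℝ) + 1) ^ 2 * x ^ n) * G := by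
    have a0 := ba_one hq n 0 (by norm_num)
    have a1 := ba_one hq n 1 (by norm_num)
    have a2 := ba_one hq n 2 (by norm_num)
    rw [← hQ] at a0 a1 a2
    push_cast
    have a3 : Q ^ (2 * n) ≤ Q ^ 10 * x1 ^ n * G := by
      have e1 : Q ^ (2 * n) = Q ^ (((2 * n : ℕ) : ℝ)) := (Real.rpow_natCast _ _).symm
      have e2 : Q ^ 10 * x1 ^ n = Q ^ ((10 : ℝ) - n) := by
        rw [Real.rpow_sub hQ0, Real.rpow_natCast, hx1, inv_pow]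
        have : Q ^ (10 : ℝ) = Q ^ 10 := by
          rw [← Real.rpow_natCast]
          norm_num
        rw [this]
        rfl
      calc Q ^ (2 * n) = Q ^ (((2 * n : ℕ) : ℝ)) := e1
        _ ≤ Q ^ (((10 : ℝ) - n) + ((n : ℝ) ^ 2 - 1) / 4) := by
            refine Real.rpow_le_rpow_of_exponent_le hQ1.le ?_
            push_cast
            nlinarith [sq_nonneg ((n : ℝ) - 6)]
        _ = Q ^ ((10 : ℝ) - n) * Q ^ (((n : ℝ) ^ 2 - 1) / 4) := Real.rpow_add hQ0 _ _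
        _ ≤ Q ^ ((10 : ℝ) - n) * G := mul_le_mul_of_nonneg_left hG1 (by positivity)
        _ = Q ^ 10 * x1 ^ n * G := by rw [e2]
    have a4 : x1 ^ n ≤ ((n : ℝ) + 1) ^ 2 * x ^ n := by
      have a5 : x1 ^ n ≤ x ^ n := pow_le_pow_left₀ h10.le l1 n
      have a6 : 0 ≤ x ^ n := pow_nonneg hx0.le n
      nlinarith
    have a7 : Q ^ 10 * x1 ^ n * G ≤ Q ^ 10 * (((n : ℝ) + 1) ^ 2 * x ^ n) * G :=
      mul_le_mul_of_nonneg_right (mul_le_mul_of_nonneg_left a4 (by positivity)) hG0.le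
    linarith
  -- second term
  have T2 : ((∑ p ∈ Finset.Ico (n - n / 8) n, ∑ r ∈ Finset.range (n + 1),
      gb q p r * q ^ ((r + 1) * (n - 1 - p)) : ℕ) : ℝ) ≤
        4 * Q ^ (1 / 4 : ℝ) * (((n : ℝ) + 1) ^ 2 * x ^ n) * G := by
    refine (ba_sum hq n).trans ?_
    rw [← hQ]
    have e1 : Q ^ ((n : ℝ) ^ 2 / 4 - n / 8) = Q ^ (1 / 4 : ℝ) * x2 ^ n * Q ^ (((n : ℝ) ^ 2 - 1) / 4) := by
      have e2 : x2 ^ n = Q ^ (-(1 / 8 : ℝ) * n) := by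
        rw [hx2, ← Real.rpow_natCast, ← Real.rpow_mul hQ0.le]
      rw [e2, ← Real.rpow_add hQ0, ← Real.rpow_add hQ0]
      congr 1
      ring
    rw [e1]
    have a5 : x2 ^ n ≤ x ^ n := pow_le_pow_left₀ h20.le l2 n
    have a6 : Q ^ (1 / 4 : ℝ) * x2 ^ n * Q ^ (((n : ℝ) ^ 2 - 1) / 4) ≤ Q ^ (1 / 4 : ℝ) * x ^ n * G :=
      mul_le_mul (mul_le_mul_of_nonneg_left a5 (by positivity)) hG1 (by positivity) (by positivity)
    calc 4 * ((n : ℝ) + 1) ^ 2 * (Q ^ (1 / 4 : ℝ) * x2 ^ n * Q ^ (((n : ℝ) ^ 2 - 1) / 4))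
        ≤ 4 * ((n : ℝ) + 1) ^ 2 * (Q ^ (1 / 4 : ℝ) * x ^ n * G) :=
          mul_le_mul_of_nonneg_left a6 (by positivity)
      _ = 4 * Q ^ (1 / 4 : ℝ) * (((n : ℝ) + 1) ^ 2 * x ^ n) * G := by ring
  -- third term
  have T3 : (n : ℝ) ^ 2 * Q ^ 3 * (1 - u) ^ (n - (n - n / 8)) * G ≤
      Q ^ 3 / x3 ^ 7 * (((n : ℝ) + 1) ^ 2 * x ^ n) * G := by
    have e0 : n - (n - n / 8) = n / 8 := by omega
    rw [e0]
    have a1 : 1 - u ≤ x3 ^ 8 := by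
      have h := one_add_mul_le_pow (a := -(u / 8)) (by linarith) 8
      rw [hx3]
      have e1 : (1 : ℝ) + -(u / 8) = 1 - u / 8 := by ring
      rw [e1] at h
      push_cast at h
      linarith
    have a2 : (1 - u) ^ (n / 8) ≤ x3 ^ n / x3 ^ 7 := by
      have a3 : (1 - u) ^ (n / 8) ≤ x3 ^ (8 * (n / 8)) := by
        rw [pow_mul]
        exact pow_le_pow_left₀ (by linarith) a1 _
      have a4 : x3 ^ (8 * (n / 8)) * x3 ^ 7 ≤ x3 ^ n := by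
        rw [← pow_add]
        exact pow_le_pow_of_le_one h30.le h31.le (by omega)
      rw [le_div_iff₀ (by positivity)]
      exact (mul_le_mul_of_nonneg_right a3 (by positivity)).trans a4
    have a5 : x3 ^ n ≤ x ^ n := pow_le_pow_left₀ h30.le l3 n
    have a6 : (n : ℝ) ^ 2 ≤ ((n : ℝ) + 1) ^ 2 := by nlinarith
    have a7 : (1 - u) ^ (n / 8) ≤ x ^ n / x3 ^ 7 :=
      a2.trans (div_le_div_of_nonneg_right a5 (by positivity))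
    have a8 : 0 ≤ (1 - u) ^ (n / 8) := pow_nonneg (by linarith) _
    refine mul_le_mul_of_nonneg_right ?_ hG0.le
    calc (n : ℝ) ^ 2 * Q ^ 3 * (1 - u) ^ (n / 8) ≤ ((n : ℝ) + 1) ^ 2 * Q ^ 3 * (x ^ n / x3 ^ 7) := by
          refine mul_le_mul (mul_le_mul_of_nonneg_right a6 (by positivity)) a7 a8 (by positivity)
      _ = Q ^ 3 / x3 ^ 7 * (((n : ℝ) + 1) ^ 2 * x ^ n) := by ring
  have hfin : (b n : ℝ) ≤ D * (((n : ℝ) + 1) ^ 2 * x ^ n) * G := by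
    have e : D * (((n : ℝ) + 1) ^ 2 * x ^ n) * G = 12 * Q ^ 10 * (((n : ℝ) + 1) ^ 2 * x ^ n) * G +
        4 * Q ^ (1 / 4 : ℝ) * (((n : ℝ) + 1) ^ 2 * x ^ n) * G +
        Q ^ 3 / x3 ^ 7 * (((n : ℝ) + 1) ^ 2 * x ^ n) * G := by
      rw [hD]
      ring
    rw [e]
    linarith
  refine hfin.trans ?_
  rw [← hG, mul_assoc D C]
  exact mul_le_mul_of_nonneg_right (mul_le_mul_of_nonneg_left (hCc n) hD0) hG0.le

end Pool.Agent.AM
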