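import Pool.Agent.AM.CntD

set_option autoImplicit false

/-!
# Module CardE: the number of echelon matrices
-/

namespace Pool.Agent.AM

variable {K : Type} [Field K] [Fintype K] {n : ℕ}

omit [Fintype K] in
private theorem ech_ext {p q : Ech K n} (h1 : p.B = q.B) (h2 : p.D = q.D) : p = q := by
  cases p
  cases q
  simp only at h1 h2
  subst h1
  subst h2
  rfl

theorem finite_ech : Finite (Ech K n) := by
  refine Finite.of_injective (fun p : Ech K n => (p.B, p.D)) ?_
  intro p q h
  exact ech_ext (congrArg Prod.fst h) (congrArg Prod.snd h)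

private theorem card_BP (P : Fin n → Fin n → Prop) (B : Finset (Fin n)) :
    Nat.card {p : Ech K n // (∀ y i, p.D y i ≠ 0 → P i y) ∧ p.B = B} = Fintype.card K ^ wP P B := by
  classical
  let T := {t : Fin n × Fin n // t.1 ∈ B ∧ t.2 ∉ B ∧ t.1 < t.2 ∧ P t.1 t.2}
  let φ : {p : Ech K n // (∀ y i, p.D y i ≠ 0 → P i y) ∧ p.B = B} ≃ (T → K) :=
    { toFun := fun p t => p.1.D t.1.2 t.1.1
      invFun := fun g => ⟨⟨B, fun y i => if h : i ∈ B ∧ y ∉ B ∧ i < y ∧ P i y then g ⟨(i, y), h⟩ else 0, by
          intro y i hne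
          by_cases h : i ∈ B ∧ y ∉ B ∧ i < y ∧ P i y
          · exact ⟨h.1, h.2.1, h.2.2.1⟩
          · rw [dif_neg h] at hne
            exact absurd rfl hne⟩, by
          intro y i hne
          by_cases h : i ∈ B ∧ y ∉ B ∧ i < y ∧ P i y
          · exact h.2.2.2
          · simp only at hne
            rw [dif_neg h] at hne
            exact absurd rfl hne, rfl⟩
      left_inv := by
        rintro ⟨p, hp, rfl⟩
        apply Subtype.ext
        refine ech_ext rfl ?_
        funext y i
        show (if h : i ∈ p.B ∧ y ∉ p.B ∧ i < y ∧ P i y then p.D y i else 0) = p.D y i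
        by_cases h : i ∈ p.B ∧ y ∉ p.B ∧ i < y ∧ P i y
        · rw [dif_pos h]
        · rw [dif_neg h]
          by_contra hne
          have h1 : p.D y i ≠ 0 := fun h2 => hne h2.symm
          have h3 := p.ech y i h1
          exact h ⟨h3.1, h3.2.1, h3.2.2, hp y i h1⟩
      right_inv := by
        intro g
        funext t
        show (if h : t.1.1 ∈ B ∧ t.1.2 ∉ B ∧ t.1.1 < t.1.2 ∧ P t.1.1 t.1.2 then g ⟨(t.1.1, t.1.2), h⟩ else 0) = g t
        rw [dif_pos t.2] }
  have hT : Nat.card T = wP P B := by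
    unfold wP
    refine Nat.subtype_card _ fun t => ?_
    rw [Finset.mem_filter]
    exact ⟨fun h => h.2, fun h => ⟨Finset.mem_univ _, h⟩⟩
  rw [Nat.card_congr φ, Nat.card_fun, hT, Nat.card_eq_fintype_card]

theorem card_ech_B (B : Finset (Fin n)) :
    Nat.card {p : Ech K n // p.B = B} = Fintype.card K ^ wP (fun _ _ => True) B := by
  rw [← card_BP (K := K) (fun _ _ => True) B]
  refine Nat.card_congr (Equiv.subtypeEquivRight fun p => ?_)
  exact ⟨fun h => ⟨fun _ _ _ => trivial, h⟩, fun h => h.2⟩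

theorem card_ech_P (P : Fin n → Fin n → Prop) :
    Nat.card {p : Ech K n // ∀ y i, p.D y i ≠ 0 → P i y} =
      ∑ B : Finset (Fin n), Fintype.card K ^ wP P B := by
  have hf : Finite (Ech K n) := finite_ech
  rw [Nat.card_congr (Equiv.sigmaFiberEquiv
    (fun p : {p : Ech K n // ∀ y i, p.D y i ≠ 0 → P i y} => p.1.B)).symm, Nat.card_sigma]
  refine Finset.sum_congr rfl fun B _ => ?_
  rw [← card_BP (K := K) P B]
  exact Nat.card_congr (Equiv.subtypeSubtypeEquivSubtypeInter
    (fun p : Ech K n => ∀ y i, p.D y i ≠ 0 → P i y) (fun p => p.B = B))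

end Pool.Agent.AM
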