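import Pool.Agent.AM.EchE
import Pool.Agent.AM.CardE

set_option autoImplicit false

/-!
# Module Burn: Burnside lemma for the torus
-/

namespace Pool.Agent.AM

section act

variable {K : Type} [Field K] {n : ℕ}

private theorem ech_ext {p q : Ech K n} (h1 : p.B = q.B) (h2 : ∀ y i, p.D y i = q.D y i) : p = q := by
  obtain ⟨B, D, h⟩ := p
  obtain ⟨B', D', h'⟩ := q
  obtain rfl : B = B' := h1
  obtain rfl : D = D' := funext fun y => funext fun i => h2 y i
  rfl

/-- the action of the torus -/
private def bact (g : Fin n → Kˣ) (p : Ech K n) : Ech K n where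
  B := p.B
  D := fun y i => (g i : K) * p.D y i * ((g y)⁻¹ : Kˣ)
  ech := fun y i h => p.ech y i fun h0 => h (by rw [h0, mul_zero, zero_mul])

private theorem bact_one (p : Ech K n) : bact 1 p = p := by
  refine ech_ext rfl fun y i => ?_
  show ((1 : Kˣ) : K) * p.D y i * (((1 : Kˣ)⁻¹ : Kˣ) : K) = p.D y i
  rw [inv_one, Units.val_one, one_mul, mul_one]

private theorem bact_mul (g h : Fin n → Kˣ) (p : Ech K n) : bact (g * h) p = bact g (bact h p) := by
  refine ech_ext rfl fun y i => ?_
  show ((g i * h i : Kˣ) : K) * p.D y i * ((g y * h y)⁻¹ : Kˣ) =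
    (g i : K) * ((h i : K) * p.D y i * ((h y)⁻¹ : Kˣ)) * ((g y)⁻¹ : Kˣ)
  rw [mul_inv_rev, Units.val_mul, Units.val_mul]
  ring

private theorem bact_col (g : Fin n → Kˣ) (p : Ech K n) (y i : Fin n) :
    (bact g p).col y i = ((g y)⁻¹ : Kˣ) * ((g i : K) * p.col y i) := by
  unfold Ech.col
  show (if y ∈ p.B then (if i = y then (1 : K) else 0) else (g i : K) * p.D y i * ((g y)⁻¹ : Kˣ)) = _
  by_cases hy : y ∈ p.B
  · rw [if_pos hy, if_pos hy]
    by_cases hi : i = y
    · rw [if_pos hi, hi, mul_one, Units.inv_mul]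
    · rw [if_neg hi, mul_zero, mul_zero]
  · rw [if_neg hy, if_neg hy]
    ring

/-- the diagonal map -/
private def dgl (g : Fin n → Kˣ) : (Fin n → K) →ₗ[K] (Fin n → K) where
  toFun v := fun i => (g i : K) * v i
  map_add' v w := funext fun i => mul_add _ _ _
  map_smul' c v := funext fun i => by
    show (g i : K) * (c * v i) = c * ((g i : K) * v i)
    ring

private theorem dgl_ker (g : Fin n → Kˣ) : LinearMap.ker (dgl g) = ⊥ := by
  rw [LinearMap.ker_eq_bot']
  intro v hv
  funext i
  have h1 : (g i : K) * v i = 0 := congrFun hv i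
  rcases mul_eq_zero.1 h1 with h2 | h2
  · exact absurd h2 (g i).ne_zero
  · exact h2

private theorem bact_lin (g : Fin n → Kˣ) (p : Ech K n) : linM (bact g p).mat = linM p.mat := by
  symm
  refine linM_unique (linM_E _) fun J => ?_
  rw [linM_rep p.mat J]
  have h1 : (fun j : J => fun i => (bact g p).mat i j) =
      (fun j : J => (g (j : Fin n))⁻¹) • (dgl g ∘ fun j : J => fun i => p.mat i j) := by
    funext j i
    exact bact_col g p j i
  rw [h1, LinearIndependent.units_smul_iff, LinearMap.linearIndependent_iff _ (dgl_ker g)]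

private theorem bact_fix (g : Fin n → Kˣ) (p : Ech K n) :
    bact g p = p ↔ ∀ y i, p.D y i ≠ 0 → g i = g y := by
  constructor
  · intro h y i hne
    have h1 : (g i : K) * p.D y i * ((g y)⁻¹ : Kˣ) = p.D y i := by
      have h2 : (bact g p).D y i = p.D y i := by rw [h]
      exact h2
    rw [Units.mul_inv_eq_iff_eq_mul, mul_comm] at h1
    exact Units.ext (mul_left_cancel₀ hne h1)
  · intro h
    refine ech_ext rfl fun y i => ?_
    show (g i : K) * p.D y i * ((g y)⁻¹ : Kˣ) = p.D y i
    by_cases hne : p.D y i = 0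
    · rw [hne, mul_zero, zero_mul]
    · rw [h y i hne, Units.mul_inv_eq_iff_eq_mul, mul_comm]

/-- the action on the matrices whose matroid is not rich -/
@[instance_reducible] private def bmul (K : Type) [Field K] [Fintype K] (n : ℕ) :
    MulAction (Fin n → Kˣ) {p : Ech K n // ¬ Rich (Fintype.card K) (linM p.mat)} where
  smul g p := ⟨bact g p.1, by
    rw [bact_lin]
    exact p.2⟩
  one_smul p := Subtype.ext (bact_one p.1)
  mul_smul g h p := Subtype.ext (bact_mul g h p.1)

end act

theorem burn (K : Type) [Field K] [Fintype K] (n : ℕ) :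
    {M ∈ RepM K n | ¬ Rich (Fintype.card K) M}.ncard * (Fintype.card K - 1) ^ n ≤
      ∑ g : Fin n → Fin (Fintype.card K - 1),
        Nat.card {p : Ech K n // ¬ Rich (Fintype.card K) (linM p.mat) ∧
          ∀ y i, p.D y i ≠ 0 → g i = g y} := by
  classical
  have : Finite (Ech K n) := finite_ech
  let _ := bmul K n
  -- Burnside
  have hb := Nat.card_congr (MulAction.sigmaFixedByEquivOrbitsProdGroup (Fin n → Kˣ)
    {p : Ech K n // ¬ Rich (Fintype.card K) (linM p.mat)})
  rw [Nat.card_sigma, Nat.card_prod] at hb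
  -- the number of orbits
  have ho : {M ∈ RepM K n | ¬ Rich (Fintype.card K) M}.ncard ≤
      Nat.card (Quotient (MulAction.orbitRel (Fin n → Kˣ)
        {p : Ech K n // ¬ Rich (Fintype.card K) (linM p.mat)})) := by
    let f : Quotient (MulAction.orbitRel (Fin n → Kˣ)
        {p : Ech K n // ¬ Rich (Fintype.card K) (linM p.mat)}) → Matroid (Fin n) :=
      Quotient.lift (fun p => linM p.1.mat) (by
        rintro a b ⟨g, hg⟩
        have h1 : bact g b.1 = a.1 := congrArg Subtype.val hg
        show linM a.1.mat = linM b.1.mat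
        rw [← h1, bact_lin])
    have h1 : {M ∈ RepM K n | ¬ Rich (Fintype.card K) M} ⊆ Set.range f := by
      rintro M ⟨hM, hR⟩
      obtain ⟨p, rfl⟩ := exists_ech hM
      exact ⟨Quotient.mk _ ⟨p, hR⟩, rfl⟩
    refine (Set.ncard_le_ncard h1 (Set.finite_range f)).trans ?_
    rw [← Nat.card_coe_set_eq]
    exact Finite.card_range_le f
  -- the group
  have hG : Nat.card (Fin n → Kˣ) = (Fintype.card K - 1) ^ n := by
    rw [Nat.card_eq_fintype_card, Fintype.card_fun, Fintype.card_fin, Fintype.card_units]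
  -- the fixed points
  have hf : ∀ g : Fin n → Kˣ, Nat.card (MulAction.fixedBy
      {p : Ech K n // ¬ Rich (Fintype.card K) (linM p.mat)} g) =
      Nat.card {p : Ech K n // ¬ Rich (Fintype.card K) (linM p.mat) ∧
          ∀ y i, p.D y i ≠ 0 → g i = g y} := by
    intro g
    refine Nat.card_congr ?_
    refine ⟨fun x => ⟨x.1.1, x.1.2, (bact_fix g x.1.1).1 (congrArg Subtype.val x.2)⟩,
      fun x => ⟨⟨x.1, x.2.1⟩, Subtype.ext ((bact_fix g x.1).2 x.2.2)⟩, fun x => rfl, fun x => rfl⟩
  have e : Kˣ ≃ Fin (Fintype.card K - 1) :=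
    Fintype.equivFinOfCardEq (Fintype.card_units K)
  have hs : ∑ g : Fin n → Kˣ, Nat.card (MulAction.fixedBy
      {p : Ech K n // ¬ Rich (Fintype.card K) (linM p.mat)} g) =
      ∑ g : Fin n → Fin (Fintype.card K - 1),
        Nat.card {p : Ech K n // ¬ Rich (Fintype.card K) (linM p.mat) ∧
          ∀ y i, p.D y i ≠ 0 → g i = g y} := by
    refine Fintype.sum_equiv (Equiv.arrowCongr (Equiv.refl _) e) _ _ fun g => ?_
    rw [hf g]
    refine Nat.card_congr (Equiv.subtypeEquivRight fun p => and_congr_right fun _ => ?_)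
    refine forall_congr' fun y => forall_congr' fun i => imp_congr_right fun _ => ?_
    exact (e.apply_eq_iff_eq).symm
  rw [← hs, hb, hG]
  exact Nat.mul_le_mul_right _ ho

end Pool.Agent.AM
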