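import Pool.Agent.AM.CntD

set_option autoImplicit false

/-!
# Module EchE: every representable matroid has an echelon matrix

The pivots are the columns that are not in the span of the smaller columns; all columns are
combinations of smaller pivots, and the coefficients give the echelon matrix.
-/

namespace Pool.Agent.AM

variable {K : Type} [Field K] {n : ℕ}

private theorem ee_span {V : Type} [AddCommGroup V] [Module K V] (a : Fin n → V)
    (B : Finset (Fin n)) (hB : ∀ x, x ∉ B → a x ∈ Submodule.span K (a '' {y | y < x})) (k : ℕ) :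
    ∀ y : Fin n, y.val < k → a y ∈ Submodule.span K (a '' {i | i ∈ B ∧ i.val < k}) := by
  induction k with
  | zero =>
    intro y hy
    omega
  | succ k ih =>
    intro y hy
    have hmono : Submodule.span K (a '' {i | i ∈ B ∧ i.val < k}) ≤
        Submodule.span K (a '' {i | i ∈ B ∧ i.val < k + 1}) :=
      Submodule.span_mono (Set.image_mono fun i hi => ⟨hi.1, Nat.lt_succ_of_lt hi.2⟩)
    rcases Nat.lt_or_ge y.val k with h | h
    · exact hmono (ih y h)
    · by_cases hyB : y ∈ B
      · exact Submodule.subset_span ⟨y, ⟨hyB, hy⟩, rfl⟩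
      · refine hmono ((Submodule.span_le.2 ?_) (hB y hyB))
        rintro _ ⟨z, hz, rfl⟩
        have hz' : z.val < y.val := hz
        exact ih z (by omega)

private theorem ee_indep {V : Type} [AddCommGroup V] [Module K V] (a : Fin n → V)
    (B : Finset (Fin n)) (hB : ∀ x ∈ B, a x ∉ Submodule.span K (a '' {y | y < x})) (k : ℕ) :
    LinearIndepOn K a {i | i ∈ B ∧ i.val < k} := by
  induction k with
  | zero =>
    have h0 : {i : Fin n | i ∈ B ∧ i.val < 0} = ∅ := by
      ext i
      simp
    rw [h0]
    exact linearIndepOn_empty K a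
  | succ k ih =>
    by_cases hk : ∃ x ∈ B, x.val = k
    · obtain ⟨x, hx, hxk⟩ := hk
      have h1 : {i : Fin n | i ∈ B ∧ i.val < k + 1} = insert x {i | i ∈ B ∧ i.val < k} := by
        ext i
        simp only [Set.mem_ofPred_eq, Set.mem_insert_iff]
        constructor
        · rintro ⟨h2, h3⟩
          rcases Nat.lt_or_ge i.val k with h | h
          · exact Or.inr ⟨h2, h⟩
          · exact Or.inl (Fin.ext (by omega))
        · rintro (h2 | ⟨h2, h3⟩)
          · rw [h2]
            exact ⟨hx, by omega⟩
          · exact ⟨h2, by omega⟩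
      rw [h1, linearIndepOn_insert (fun h => by have := h.2; omega)]
      refine ⟨ih, fun h => hB x hx (Submodule.span_mono (Set.image_mono fun i hi => ?_) h)⟩
      show i.val < x.val
      rw [hxk]
      exact hi.2
    · have h1 : {i : Fin n | i ∈ B ∧ i.val < k + 1} = {i | i ∈ B ∧ i.val < k} := by
        ext i
        simp only [Set.mem_ofPred_eq]
        constructor
        · rintro ⟨h2, h3⟩
          refine ⟨h2, ?_⟩
          rcases Nat.lt_or_ge i.val k with h | h
          · exact h
          · exact absurd ⟨i, h2, by omega⟩ hk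
        · rintro ⟨h2, h3⟩
          exact ⟨h2, by omega⟩
      rw [h1]
      exact ih

theorem exists_ech {M : Matroid (Fin n)} (hM : M ∈ RepM K n) : ∃ p : Ech K n, M = linM p.mat := by
  classical
  obtain ⟨hE, m, A, hA⟩ := hM
  obtain ⟨a, ha⟩ : ∃ a : Fin n → Fin m → K, a = fun y i => A i y := ⟨_, rfl⟩
  obtain ⟨B, hBd⟩ : ∃ B : Finset (Fin n),
      B = Finset.univ.filter fun x => a x ∉ Submodule.span K (a '' {y | y < x}) := ⟨_, rfl⟩
  have hB : ∀ x, x ∈ B ↔ a x ∉ Submodule.span K (a '' {y | y < x}) := by
    intro x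
    rw [hBd, Finset.mem_filter]
    exact ⟨fun h => h.2, fun h => ⟨Finset.mem_univ _, h⟩⟩
  have hB2 : ∀ x, x ∉ B → a x ∈ Submodule.span K (a '' {y | y < x}) := by
    intro x hx
    by_contra hc
    exact hx ((hB x).2 hc)
  have hdep : ∀ y : Fin n, ∃ c : Fin n → K, y ∉ B →
      ∑ i ∈ B.filter (fun i => i < y), c i • a i = a y := by
    intro y
    by_cases hy : y ∈ B
    · exact ⟨0, fun h => absurd hy h⟩
    · have h1 : a y ∈ Submodule.span K (a '' (B.filter (fun i => i < y) : Finset (Fin n))) := by
        refine (Submodule.span_le.2 ?_) (hB2 y hy)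
        rintro _ ⟨z, hz, rfl⟩
        have h2 := ee_span a B hB2 y.val z hz
        refine Submodule.span_mono (Set.image_mono fun i hi => ?_) h2
        exact Finset.mem_coe.2 (Finset.mem_filter.2 ⟨hi.1, hi.2⟩)
      obtain ⟨c, hc⟩ := (Submodule.mem_span_image_finset_iff_exists_fun' K).1 h1
      exact ⟨c, fun _ => hc⟩
  choose c hc using hdep
  let p : Ech K n :=
    { B := B
      D := fun y i => if y ∉ B ∧ i ∈ B ∧ i < y then c y i else 0
      ech := by
        intro y i h
        by_contra hcon
        refine h (if_neg fun h2 => hcon ⟨h2.2.1, h2.1, h2.2.2⟩) }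
  have hpc1 : ∀ y ∈ B, ∀ i, p.col y i = if i = y then 1 else 0 := by
    intro y hy i
    exact if_pos hy
  have hpc2 : ∀ y, y ∉ B → ∀ i, p.col y i = if i ∈ B ∧ i < y then c y i else 0 := by
    intro y hy i
    have h1 : p.col y i = if y ∉ B ∧ i ∈ B ∧ i < y then c y i else 0 := if_neg hy
    rw [h1]
    by_cases h2 : i ∈ B ∧ i < y
    · rw [if_pos ⟨hy, h2⟩, if_pos h2]
    · rw [if_neg fun h => h2 h.2, if_neg h2]
  obtain ⟨L, hL⟩ : ∃ L : (Fin n → K) →ₗ[K] (Fin m → K), L = Fintype.linearCombination K a :=
    ⟨_, rfl⟩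
  have hLa : ∀ x, L x = ∑ i, x i • a i := by
    intro x
    rw [hL]
    rfl
  have hLc : ∀ y, L (p.col y) = a y := by
    intro y
    rw [hLa]
    by_cases hy : y ∈ B
    · rw [Finset.sum_eq_single y]
      · rw [hpc1 y hy y, if_pos rfl, one_smul]
      · intro i _ hi
        rw [hpc1 y hy i, if_neg hi, zero_smul]
      · intro h
        exact absurd (Finset.mem_univ _) h
    · rw [← hc y hy, Finset.sum_filter]
      symm
      rw [← Finset.sum_subset (Finset.subset_univ B)]
      · refine Finset.sum_congr rfl fun i hi => ?_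
        rw [hpc2 y hy i]
        by_cases h : i < y
        · rw [if_pos h, if_pos ⟨hi, h⟩]
        · rw [if_neg h, if_neg fun h2 => h h2.2, zero_smul]
      · intro i _ hi
        rw [hpc2 y hy i, if_neg fun h2 => hi h2.1, zero_smul]
  have hindB : LinearIndepOn K a (B : Set (Fin n)) := by
    refine (ee_indep a B (fun x hx => (hB x).1 hx) n).mono fun i hi => ?_
    exact ⟨hi, i.2⟩
  let W : Submodule K (Fin n → K) :=
    { carrier := {x | ∀ i, i ∉ B → x i = 0}
      zero_mem' := fun i _ => rfl
      add_mem' := fun {x y} hx hy i hi => by rw [Pi.add_apply, hx i hi, hy i hi, add_zero]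
      smul_mem' := fun r x hx i hi => by rw [Pi.smul_apply, hx i hi, smul_zero] }
  have hW : ∀ y, p.col y ∈ W := by
    intro y i hi
    by_cases hy : y ∈ B
    · rw [hpc1 y hy i, if_neg]
      intro h
      exact hi (h ▸ hy)
    · rw [hpc2 y hy i, if_neg fun h => hi h.1]
  have hinj : ∀ x ∈ W, L x = 0 → x = 0 := by
    intro x hx h0
    rw [hLa, ← Finset.sum_subset (Finset.subset_univ B)
      (fun i _ hi => by rw [hx i hi, zero_smul])] at h0
    have h1 := linearIndepOn_finset_iff.1 hindB x h0
    funext i
    by_cases hi : i ∈ B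
    · exact h1 i hi
    · exact hx i hi
  refine ⟨p, linM_unique hE ?_⟩
  intro J
  rw [hA J]
  have e1 : (fun j : J => fun i => A i j) = L ∘ fun j : J => p.col j := by
    funext j
    rw [Function.comp_apply, hLc, ha]
  have e2 : (fun j : J => fun i => p.mat i j) = fun j : J => p.col j := rfl
  rw [e1, e2]
  constructor
  · exact LinearIndependent.of_comp L
  · intro h
    refine h.map_injOn L ?_
    have hle : Submodule.span K (Set.range fun j : J => p.col j) ≤ W := by
      rw [Submodule.span_le]
      rintro _ ⟨j, rfl⟩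
      exact hW j
    intro x hx y hy hxy
    have h1 := hinj (x - y) (W.sub_mem (hle hx) (hle hy)) (by rw [map_sub, hxy, sub_self])
    exact sub_eq_zero.1 h1

end Pool.Agent.AM
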