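import Pool.Agent.AM.EchQ
import Pool.Agent.AM.EchE
import Pool.Agent.AM.CardE

set_option autoImplicit false

/-!
# Module Fib: at most `|Aut K| (q - 1) ^ n` echelon matrices for a rich matroid
-/

namespace Pool.Agent.AM

private theorem ech_ext {K : Type} [Field K] {n : ℕ} {p p' : Ech K n} (hB : p.B = p'.B)
    (hD : p.D = p'.D) : p = p' := by
  cases p
  cases p'
  simp only at hB hD
  subst hB
  subst hD
  rfl

theorem fibre (K : Type) [Field K] [Fintype K] (n : ℕ) :
    nRich K n ≤ Nat.card (K ≃+* K) * (Fintype.card K - 1) ^ n *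
      {M ∈ RepM K n | Rich (Fintype.card K) M}.ncard := by
  classical
  have hfE := finite_ech (K := K) (n := n)
  obtain ⟨S, hS⟩ : ∃ S : Set (Matroid (Fin n)), S = {M ∈ RepM K n | Rich (Fintype.card K) M} :=
    ⟨_, rfl⟩
  rw [← hS]
  have hmem : ∀ M, M ∈ S ↔ M ∈ RepM K n ∧ Rich (Fintype.card K) M := by
    intro M
    rw [hS]
    exact Iff.rfl
  have hex : ∀ M : S, ∃ p : Ech K n, M.1 = linM p.mat := fun M =>
    exists_ech ((hmem M.1).1 M.2).1
  choose P hP using hex
  have hfin : S.Finite := by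
    refine Set.Finite.subset (Set.finite_range fun p : Ech K n => linM p.mat) fun M hM => ?_
    exact ⟨P ⟨M, hM⟩, (hP ⟨M, hM⟩).symm⟩
  have hfS : Finite S := hfin
  have hfA : Finite (K ≃+* K) :=
    Finite.of_injective (fun σ : K ≃+* K => (σ : K → K)) DFunLike.coe_injective
  let mem : ∀ p : {p : Ech K n // Rich (Fintype.card K) (linM p.mat)}, linM p.1.mat ∈ S := fun p =>
    (hmem _).2 ⟨linM_mem _, p.2⟩
  have hσ : ∀ p : {p : Ech K n // Rich (Fintype.card K) (linM p.mat)},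
      ∃ sg : (K ≃+* K) × (Fin n → Kˣ), p.1.B = (P ⟨_, mem p⟩).B ∧ ∀ y i,
        p.1.D y i = (sg.2 i : K) * sg.1 ((P ⟨_, mem p⟩).D y i) * ((sg.2 y)⁻¹ : Kˣ) := by
    intro p
    have h1 := hP ⟨_, mem p⟩
    have h2 : Rich (Fintype.card K) (linM (P ⟨_, mem p⟩).mat) := by
      rw [← h1]
      exact p.2
    obtain ⟨hB, σ, g, hg⟩ := ech_equiv p.1 (P ⟨_, mem p⟩) h1 h2
    exact ⟨(σ, g), hB, hg⟩
  choose F hFB hFD using hσ
  have hinj : Function.Injective fun p : {p : Ech K n // Rich (Fintype.card K) (linM p.mat)} =>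
      ((⟨_, mem p⟩ : S), F p) := by
    intro p p' hpp
    have h1 : (⟨_, mem p⟩ : S) = ⟨_, mem p'⟩ := congrArg Prod.fst hpp
    have h2 : F p = F p' := congrArg Prod.snd hpp
    apply Subtype.ext
    apply ech_ext
    · rw [hFB p, hFB p', h1]
    · funext y i
      rw [hFD p y i, hFD p' y i, h1, h2]
  have h3 := Nat.card_le_card_of_injective _ hinj
  rw [Nat.card_prod, Nat.card_prod, Nat.card_fun, Nat.card_fin, Nat.card_units, Nat.card_eq_fintype_card (α := K)] at h3
  refine h3.trans (le_of_eq ?_)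
  rw [mul_comm]
  rfl

end Pool.Agent.AM
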