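import Mathlib

set_option autoImplicit false

/-!
# Module FinA: the final inequality
-/

namespace Pool.Agent.AM

theorem fin_ineq (q A : ℕ) (hq : 2 ≤ q) (G b φ bM rM : ℕ → ℕ)
    (h1 : ∃ C c : ℝ, 0 < c ∧ ∀ n : ℕ, (b n : ℝ) ≤ C * Real.exp (-c * n) * (G n : ℝ))
    (h2 : ∃ C c : ℝ, 0 < c ∧ ∀ n : ℕ, (φ n : ℝ) ≤ C * Real.exp (-c * n) * (G n : ℝ))
    (h3 : ∀ n, bM n * (q - 1) ^ n ≤ (q - 1) * b n + φ n)
    (h4 : ∀ n, G n ≤ b n + A * (q - 1) ^ n * rM n) :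
    ∃ C c : ℝ, 0 < c ∧ ∀ n : ℕ,
      (bM n : ℝ) ≤ C * Real.exp (-c * n) * ((bM n : ℝ) + (rM n : ℝ)) := by
  obtain ⟨C₁, c₁, hc₁, h1⟩ := h1
  obtain ⟨C₂, c₂, hc₂, h2⟩ := h2
  obtain ⟨k, hk⟩ : ∃ k : ℕ, k = q - 1 := ⟨_, rfl⟩
  have hk1 : 1 ≤ k := by omega
  rw [← hk] at h3 h4
  set D₁ : ℝ := max C₁ 0 with hD₁
  set D₂ : ℝ := max C₂ 0 with hD₂
  have hD₁0 : 0 ≤ D₁ := le_max_right _ _
  have hD₂0 : 0 ≤ D₂ := le_max_right _ _
  set c : ℝ := min c₁ c₂ with hc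
  have hc0 : 0 < c := lt_min hc₁ hc₂
  have hle : ∀ (C' : ℝ) (c' : ℝ), c ≤ c' → ∀ n : ℕ,
      C' * Real.exp (-c' * n) ≤ max C' 0 * Real.exp (-c * n) := by
    intro C' c' h n
    have e1 : Real.exp (-c' * n) ≤ Real.exp (-c * n) := by
      apply Real.exp_le_exp.2
      have : (0 : ℝ) ≤ n := Nat.cast_nonneg n
      nlinarith
    calc C' * Real.exp (-c' * n) ≤ max C' 0 * Real.exp (-c' * n) :=
          mul_le_mul_of_nonneg_right (le_max_left _ _) (Real.exp_pos _).le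
      _ ≤ max C' 0 * Real.exp (-c * n) := mul_le_mul_of_nonneg_left e1 (le_max_right _ _)
  have hb : ∀ n : ℕ, (b n : ℝ) ≤ D₁ * Real.exp (-c * n) * G n := fun n =>
    (h1 n).trans (mul_le_mul_of_nonneg_right (hle C₁ c₁ (min_le_left _ _) n) (Nat.cast_nonneg _))
  have hf : ∀ n : ℕ, (φ n : ℝ) ≤ D₂ * Real.exp (-c * n) * G n := fun n =>
    (h2 n).trans (mul_le_mul_of_nonneg_right (hle C₂ c₂ (min_le_right _ _) n) (Nat.cast_nonneg _))
  have hlim : Filter.Tendsto (fun n : ℕ => D₁ * Real.exp (-c * n)) Filter.atTop (nhds (D₁ * 0)) := by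
    apply Filter.Tendsto.const_mul
    have h5 : Filter.Tendsto (fun n : ℕ => -c * (n : ℝ)) Filter.atTop Filter.atBot :=
      Filter.Tendsto.const_mul_atTop_of_neg (by linarith) tendsto_natCast_atTop_atTop
    exact Real.tendsto_exp_atBot.comp h5
  rw [mul_zero] at hlim
  obtain ⟨n₀, hn₀⟩ := Filter.eventually_atTop.1 (hlim.eventually (gt_mem_nhds (show (0 : ℝ) < 1 / 2 by norm_num)))
  set D₀ : ℝ := k * D₁ + D₂ with hD₀
  have hD₀0 : 0 ≤ D₀ := by positivity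
  refine ⟨max (2 * A * D₀) (Real.exp (c * n₀)), c, hc0, fun n => ?_⟩
  have hbr : (0 : ℝ) ≤ (bM n : ℝ) + rM n := by positivity
  by_cases hn : n₀ ≤ n
  · have e1 : (b n : ℝ) ≤ 1 / 2 * G n :=
      (hb n).trans (mul_le_mul_of_nonneg_right (hn₀ n hn).le (Nat.cast_nonneg _))
    have e2 : (G n : ℝ) ≤ b n + A * (k : ℝ) ^ n * rM n := by exact_mod_cast h4 n
    have e3 : (G n : ℝ) ≤ 2 * (A * (k : ℝ) ^ n * rM n) := by linarith
    have e4 : (bM n : ℝ) * (k : ℝ) ^ n ≤ k * b n + φ n := by exact_mod_cast h3 n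
    have hkr : (0 : ℝ) ≤ k := Nat.cast_nonneg k
    have hx : 0 < Real.exp (-c * n) := Real.exp_pos _
    have e5 : (bM n : ℝ) * (k : ℝ) ^ n ≤ D₀ * Real.exp (-c * n) * G n := by
      have := mul_le_mul_of_nonneg_left (hb n) hkr
      have := hf n
      calc (bM n : ℝ) * (k : ℝ) ^ n ≤ k * b n + φ n := e4
        _ ≤ k * (D₁ * Real.exp (-c * n) * G n) + D₂ * Real.exp (-c * n) * G n := by linarith
        _ = D₀ * Real.exp (-c * n) * G n := by rw [hD₀]; ring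
    have e6 : (bM n : ℝ) * (k : ℝ) ^ n ≤
        D₀ * Real.exp (-c * n) * (2 * (A * (k : ℝ) ^ n * rM n)) :=
      e5.trans (mul_le_mul_of_nonneg_left e3 (by positivity))
    have hkn : (0 : ℝ) < (k : ℝ) ^ n := by
      have : (0 : ℝ) < k := by exact_mod_cast hk1
      positivity
    have e7 : (bM n : ℝ) ≤ 2 * A * D₀ * Real.exp (-c * n) * rM n := by
      refine le_of_mul_le_mul_right ?_ hkn
      calc (bM n : ℝ) * (k : ℝ) ^ n ≤
          D₀ * Real.exp (-c * n) * (2 * (A * (k : ℝ) ^ n * rM n)) := e6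
        _ = 2 * A * D₀ * Real.exp (-c * n) * rM n * (k : ℝ) ^ n := by ring
    calc (bM n : ℝ) ≤ 2 * A * D₀ * Real.exp (-c * n) * rM n := e7
      _ ≤ max (2 * A * D₀) (Real.exp (c * n₀)) * Real.exp (-c * n) * rM n := by
          gcongr
          exact le_max_left _ _
      _ ≤ max (2 * A * D₀) (Real.exp (c * n₀)) * Real.exp (-c * n) * ((bM n : ℝ) + rM n) := by
          apply mul_le_mul_of_nonneg_left
          · have : (0 : ℝ) ≤ bM n := Nat.cast_nonneg _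
            linarith
          · have : 0 ≤ max (2 * A * D₀) (Real.exp (c * n₀)) :=
              le_max_of_le_right (Real.exp_pos _).le
            positivity
  · have e1 : (1 : ℝ) ≤ Real.exp (c * n₀) * Real.exp (-c * n) := by
      rw [← Real.exp_add]
      apply Real.one_le_exp
      have : (n : ℝ) ≤ n₀ := by exact_mod_cast (not_le.1 hn).le
      nlinarith
    calc (bM n : ℝ) ≤ 1 * ((bM n : ℝ) + rM n) := by
          have : (0 : ℝ) ≤ rM n := Nat.cast_nonneg _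
          linarith
      _ ≤ Real.exp (c * n₀) * Real.exp (-c * n) * ((bM n : ℝ) + rM n) :=
          mul_le_mul_of_nonneg_right e1 hbr
      _ ≤ max (2 * A * D₀) (Real.exp (c * n₀)) * Real.exp (-c * n) * ((bM n : ℝ) + rM n) := by
          gcongr
          exact le_max_right _ _

end Pool.Agent.AM
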