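import Pool.Agent.AM.CntD

set_option autoImplicit false

/-!
# Module GbT: echelon forms with two colours

(Checked numerically.) See Module GbS for the definitions and the induction.

Plan. Let `S ⊆ Fin n`, `P i y := (i ∈ S ↔ y ∈ S)`. Claim: for all `r₀, r₁`,
`∑ q ^ wP P B` over the `B` with `|B ∩ S| = r₀`, `|B \ S| = r₁` is `gb q |S| r₀ * gb q (n - |S|) r₁`.
Induction on `n` removing the last element (`Fin.castSucc`, `Fin.last`): say `last ∈ S`. If `last ∈ B` we
get the sum for `(r₀ - 1, r₁)` in `Fin (n - 1)`; if `last ∉ B`, the column `last` adds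
`|B ∩ S| = r₀` free entries. So the sum is `q ^ r₀ * (..r₀, r₁) + (..r₀ - 1, r₁)`, which is the
recursion for the first factor. Same for `last ∉ S`. Finally sum over `r₀ ≤ |S|`, `r₁ ≤ n - |S|`.
-/

namespace Pool.Agent.AM

/-- the sum with weights -/
private def gbtL (q s : ℕ) (F : ℕ → ℕ) : ℕ := ∑ r ∈ Finset.range (s + 1), gb q s r * F r

private theorem gbt_zero (q : ℕ) : ∀ s r : ℕ, s < r → gb q s r = 0
  | 0, 0, h => absurd h (lt_irrefl 0)
  | 0, _ + 1, _ => rfl
  | s + 1, 0, h => absurd h (by omega)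
  | s + 1, r + 1, h => by
    rw [gb, gbt_zero q s (r + 1) (by omega), gbt_zero q s r (by omega)]
    simp

private theorem gbt_gb0 (q s : ℕ) : gb q s 0 = 1 := by
  cases s <;> rfl

private theorem gbtL_succ (q s : ℕ) (F : ℕ → ℕ) :
    gbtL q (s + 1) F = gbtL q s (fun r => q ^ r * F r + F (r + 1)) := by
  unfold gbtL
  rw [Finset.sum_range_succ']
  have h1 : ∀ r, gb q (s + 1) (r + 1) * F (r + 1) = gb q s (r + 1) * (q ^ (r + 1) * F (r + 1)) + gb q s r * F (r + 1) := by
    intro r
    rw [gb]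
    ring
  simp only [h1, mul_add, Finset.sum_add_distrib]
  have h2 : ∑ r ∈ Finset.range (s + 1), gb q s (r + 1) * (q ^ (r + 1) * F (r + 1)) + gb q (s + 1) 0 * F 0 =
      ∑ r ∈ Finset.range (s + 1), gb q s r * (q ^ r * F r) := by
    have h3 := Finset.sum_range_succ' (fun r => gb q s r * (q ^ r * F r)) (s + 1)
    rw [Finset.sum_range_succ, gbt_zero q s (s + 1) (by omega), zero_mul, add_zero] at h3
    rw [h3, gbt_gb0, gbt_gb0]
    simp
  rw [← h2]
  ring

/-- the weight -/
private def gbtW (S B : Finset ℕ) (n : ℕ) : ℕ :=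
  ((Finset.range n ×ˢ Finset.range n).filter fun t : ℕ × ℕ =>
    t.1 ∈ B ∧ t.2 ∉ B ∧ t.1 < t.2 ∧ (t.1 ∈ S ↔ t.2 ∈ S)).card

private theorem gbtW_insert {S B : Finset ℕ} {n : ℕ} (hB : B ⊆ Finset.range n) :
    gbtW S (insert n B) (n + 1) = gbtW S B n := by
  unfold gbtW
  congr 1
  ext ⟨i, y⟩
  simp only [Finset.mem_filter, Finset.mem_product, Finset.mem_range, Finset.mem_insert]
  constructor
  · rintro ⟨⟨h1, h2⟩, h3, h4, h5, h6⟩
    have hy : y ≠ n := fun h => h4 (Or.inl h)
    have hi : i ≠ n := by omega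
    exact ⟨⟨by omega, by omega⟩, h3.resolve_left hi, fun h => h4 (Or.inr h), h5, h6⟩
  · rintro ⟨⟨h1, h2⟩, h3, h4, h5, h6⟩
    refine ⟨⟨by omega, by omega⟩, Or.inr h3, ?_, h5, h6⟩
    rintro (h | h)
    · omega
    · exact h4 h

private theorem gbtW_succ {S B : Finset ℕ} {n : ℕ} (hB : B ⊆ Finset.range n) :
    gbtW S B (n + 1) = gbtW S B n + (B.filter fun i => (i ∈ S ↔ n ∈ S)).card := by
  unfold gbtW
  have h1 : ((Finset.range (n + 1) ×ˢ Finset.range (n + 1)).filter fun t : ℕ × ℕ =>
      t.1 ∈ B ∧ t.2 ∉ B ∧ t.1 < t.2 ∧ (t.1 ∈ S ↔ t.2 ∈ S)) =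
      ((Finset.range n ×ˢ Finset.range n).filter fun t : ℕ × ℕ =>
        t.1 ∈ B ∧ t.2 ∉ B ∧ t.1 < t.2 ∧ (t.1 ∈ S ↔ t.2 ∈ S)) ∪
      (B.filter fun i => (i ∈ S ↔ n ∈ S)).image (fun i => (i, n)) := by
    ext ⟨i, y⟩
    simp only [Finset.mem_filter, Finset.mem_product, Finset.mem_range, Finset.mem_union, Finset.mem_image,
      Prod.mk.injEq]
    constructor
    · rintro ⟨⟨h1, h2⟩, h3, h4, h5, h6⟩
      by_cases hy : y = n
      · right
        subst hy
        exact ⟨i, ⟨h3, h6⟩, rfl, rfl⟩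
      · left
        exact ⟨⟨by omega, by omega⟩, h3, h4, h5, h6⟩
    · rintro (⟨⟨h1, h2⟩, h3, h4, h5, h6⟩ | ⟨i', ⟨h1, h2⟩, rfl, rfl⟩)
      · exact ⟨⟨by omega, by omega⟩, h3, h4, h5, h6⟩
      · have h3 := Finset.mem_range.mp (hB h1)
        refine ⟨⟨by omega, by omega⟩, h1, ?_, h3, h2⟩
        intro h4
        exact lt_irrefl _ (Finset.mem_range.mp (hB h4))
  rw [h1, Finset.card_union_of_disjoint, Finset.card_image_of_injective]
  · intro a b h
    exact (Prod.mk.injEq _ _ _ _ ▸ h).1
  · rw [Finset.disjoint_left]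
    rintro ⟨i, y⟩ h2 h3
    simp only [Finset.mem_filter, Finset.mem_product, Finset.mem_range, Finset.mem_image, Prod.mk.injEq] at h2 h3
    obtain ⟨_, _, _, h4⟩ := h3
    omega

private theorem gbt_main (q : ℕ) (S : Finset ℕ) : ∀ (n : ℕ) (F : ℕ → ℕ → ℕ),
    ∑ B ∈ (Finset.range n).powerset, q ^ gbtW S B n * F (B ∩ S).card (B \ S).card =
      gbtL q (S ∩ Finset.range n).card (fun r0 => gbtL q (n - (S ∩ Finset.range n).card) (fun r1 => F r0 r1))
  | 0, F => by
    simp [gbtW, gbtL, gb]
  | n + 1, F => by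
    have hn : n ∉ Finset.range n := by simp
    rw [Finset.range_add_one, Finset.sum_powerset_insert hn]
    have hs : (S ∩ Finset.range n).card ≤ n := by
      have := Finset.card_le_card (Finset.inter_subset_right (s₁ := S) (s₂ := Finset.range n))
      rwa [Finset.card_range] at this
    have hnB : ∀ B ∈ (Finset.range n).powerset, n ∉ B := fun B hB h =>
      hn (Finset.mem_powerset.mp hB h)
    by_cases hS : n ∈ S
    · have e1 : (S ∩ insert n (Finset.range n)).card = (S ∩ Finset.range n).card + 1 := by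
        rw [Finset.inter_insert_of_mem hS, Finset.card_insert_of_notMem (by simp)]
      rw [e1, gbtL_succ]
      have e2 : n + 1 - ((S ∩ Finset.range n).card + 1) = n - (S ∩ Finset.range n).card := by omega
      rw [e2]
      have e3 : (fun r => q ^ r * gbtL q (n - (S ∩ Finset.range n).card) (fun r1 => F r r1) +
          gbtL q (n - (S ∩ Finset.range n).card) (fun r1 => F (r + 1) r1)) =
          fun r => gbtL q (n - (S ∩ Finset.range n).card) (fun r1 => q ^ r * F r r1 + F (r + 1) r1) := by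
        funext r
        unfold gbtL
        rw [Finset.mul_sum, ← Finset.sum_add_distrib]
        refine Finset.sum_congr rfl fun x _ => ?_
        ring
      rw [e3, ← gbt_main q S n (fun r0 r1 => q ^ r0 * F r0 r1 + F (r0 + 1) r1), ← Finset.sum_add_distrib]
      refine Finset.sum_congr rfl fun B hB => ?_
      have hB' := Finset.mem_powerset.mp hB
      rw [gbtW_insert hB', gbtW_succ hB']
      have e4 : (B.filter fun i => (i ∈ S ↔ n ∈ S)).card = (B ∩ S).card := by
        congr 1
        ext i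
        simp [hS]
      have e5 : (insert n B ∩ S).card = (B ∩ S).card + 1 := by
        rw [Finset.insert_inter_of_mem hS, Finset.card_insert_of_notMem]
        intro h
        exact hnB B hB (Finset.mem_inter.mp h).1
      have e6 : insert n B \ S = B \ S := Finset.insert_sdiff_of_mem _ hS
      rw [e4, e5, e6, pow_add]
      ring
    · have e1 : (S ∩ insert n (Finset.range n)).card = (S ∩ Finset.range n).card := by
        rw [Finset.inter_insert_of_notMem hS]
      rw [e1]
      have e2 : n + 1 - (S ∩ Finset.range n).card = (n - (S ∩ Finset.range n).card) + 1 := by omega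
      simp only [e2, gbtL_succ q (n - (S ∩ Finset.range n).card)]
      rw [← gbt_main q S n (fun r0 r1 => q ^ r1 * F r0 r1 + F r0 (r1 + 1)), ← Finset.sum_add_distrib]
      refine Finset.sum_congr rfl fun B hB => ?_
      have hB' := Finset.mem_powerset.mp hB
      rw [gbtW_insert hB', gbtW_succ hB']
      have e4 : (B.filter fun i => (i ∈ S ↔ n ∈ S)).card = (B \ S).card := by
        congr 1
        ext i
        simp [hS]
      have e5 : insert n B ∩ S = B ∩ S := Finset.insert_inter_of_notMem hS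
      have e6 : (insert n B \ S).card = (B \ S).card + 1 := by
        rw [Finset.insert_sdiff_of_notMem _ hS, Finset.card_insert_of_notMem]
        intro h
        exact hnB B hB (Finset.mem_sdiff.mp h).1
      rw [e4, e5, e6, pow_add]
      ring

private theorem gbt_w {n : ℕ} (S B : Finset (Fin n)) : wP (fun i y => i ∈ S ↔ y ∈ S) B =
    gbtW (S.map Fin.valEmbedding) (B.map Fin.valEmbedding) n := by
  classical
  unfold wP gbtW
  refine Finset.card_bij (fun t _ => ((t.1 : ℕ), (t.2 : ℕ))) ?_ ?_ ?_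
  · rintro ⟨i, y⟩ h
    simp only [Finset.mem_filter, Finset.mem_univ, true_and] at h
    simp only [Finset.mem_filter, Finset.mem_product, Finset.mem_range, Fin.is_lt, true_and,
      Finset.mem_map, Fin.valEmbedding_apply, Fin.val_inj, exists_eq_right]
    exact ⟨h.1, h.2.1, h.2.2.1, h.2.2.2⟩
  · rintro ⟨i, y⟩ _ ⟨i', y'⟩ _ h
    simp only [Prod.mk.injEq, Fin.val_inj] at h ⊢
    exact h
  · rintro ⟨i, y⟩ h
    simp only [Finset.mem_filter, Finset.mem_product, Finset.mem_range] at h
    obtain ⟨⟨h1, h2⟩, h3, h4, h5, h6⟩ := h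
    refine ⟨(⟨i, h1⟩, ⟨y, h2⟩), ?_, rfl⟩
    simp only [Finset.mem_filter, Finset.mem_univ, true_and]
    have key : ∀ (T : Finset (Fin n)) (x : ℕ) (hx : x < n), x ∈ T.map Fin.valEmbedding ↔ (⟨x, hx⟩ : Fin n) ∈ T := by
      intro T x hx
      rw [Finset.mem_map]
      constructor
      · rintro ⟨a, ha, rfl⟩
        exact ha
      · intro ha
        exact ⟨_, ha, rfl⟩
    rw [key B i h1] at h3
    rw [key B y h2] at h4
    rw [key S i h1, key S y h2] at h6
    exact ⟨h3, h4, h5, h6⟩

theorem sum_two (q n : ℕ) (S : Finset (Fin n)) :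
    ∑ B : Finset (Fin n), q ^ wP (fun i y => i ∈ S ↔ y ∈ S) B =
      gal q S.card * gal q (n - S.card) := by
  classical
  have h1 := gbt_main q (S.map Fin.valEmbedding) n (fun _ _ => 1)
  have h2 : (S.map Fin.valEmbedding ∩ Finset.range n).card = S.card := by
    rw [Finset.inter_eq_left.mpr, Finset.card_map]
    intro x hx
    obtain ⟨a, _, rfl⟩ := Finset.mem_map.mp hx
    exact Finset.mem_range.mpr a.2
  rw [h2] at h1
  have h3 : gbtL q S.card (fun _ => gbtL q (n - S.card) (fun _ => 1)) = gal q S.card * gal q (n - S.card) := by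
    unfold gbtL gal
    simp only [mul_one]
    rw [Finset.sum_mul]
  rw [← h3, ← h1]
  refine Finset.sum_bij (fun B _ => B.map Fin.valEmbedding) ?_ ?_ ?_ ?_
  · intro B _
    rw [Finset.mem_powerset]
    intro x hx
    obtain ⟨a, _, rfl⟩ := Finset.mem_map.mp hx
    exact Finset.mem_range.mpr a.2
  · intro B _ B' _ h
    exact Finset.map_injective _ h
  · intro B' hB'
    rw [Finset.mem_powerset] at hB'
    refine ⟨Finset.univ.filter (fun i : Fin n => (i : ℕ) ∈ B'), Finset.mem_univ _, ?_⟩
    ext x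
    simp only [Finset.mem_map, Finset.mem_filter, Finset.mem_univ, true_and, Fin.valEmbedding_apply]
    constructor
    · rintro ⟨a, ha, rfl⟩
      exact ha
    · intro hx
      exact ⟨⟨x, Finset.mem_range.mp (hB' hx)⟩, hx, rfl⟩
  · intro B _
    rw [gbt_w, mul_one]

end Pool.Agent.AM
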