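import Pool.Agent.AM.CardE
import Pool.Agent.AM.GbT

set_option autoImplicit false

/-!
# Module NonC: the sum over the colourings
-/

namespace Pool.Agent.AM

private theorem card_fix {n k : ℕ} (T : Finset (Fin n)) (c : Fin k) :
    (Finset.univ.filter fun g : Fin n → Fin k => ∀ x, x ∉ T → g x = c).card = k ^ T.card := by
  classical
  have h1 : (Finset.univ.filter fun g : Fin n → Fin k => ∀ x, x ∉ T → g x = c) =
      Fintype.piFinset (fun x => if x ∈ T then (Finset.univ : Finset (Fin k)) else {c}) := by
    ext g
    rw [Fintype.mem_piFinset, Finset.mem_filter]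
    constructor
    · rintro ⟨_, h⟩ x
      by_cases hx : x ∈ T
      · rw [if_pos hx]
        exact Finset.mem_univ _
      · rw [if_neg hx, Finset.mem_singleton]
        exact h x hx
    · intro h
      refine ⟨Finset.mem_univ _, fun x hx => ?_⟩
      have h2 := h x
      rw [if_neg hx, Finset.mem_singleton] at h2
      exact h2
  have h2 : ∀ x : Fin n, (if x ∈ T then (Finset.univ : Finset (Fin k)) else {c}).card =
      if x ∈ T then k else 1 := by
    intro x
    split_ifs
    · exact Finset.card_fin k
    · exact Finset.card_singleton c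
  rw [h1, Fintype.card_piFinset, Finset.prod_congr rfl (fun x _ => h2 x), Finset.prod_ite_mem,
    Finset.univ_inter, Finset.prod_const]

private theorem card_col {n k : ℕ} (j : ℕ) :
    (Finset.univ.filter fun g : Fin n → Fin k =>
      ∃ c, (Finset.univ.filter fun x => g x ≠ c).card = j).card ≤ n.choose j * k ^ (j + 1) := by
  classical
  have h1 : (Finset.univ.filter fun g : Fin n → Fin k =>
      ∃ c, (Finset.univ.filter fun x => g x ≠ c).card = j) ⊆
      (Finset.univ : Finset (Fin k)).biUnion fun c =>
        (Finset.powersetCard j (Finset.univ : Finset (Fin n))).biUnion fun T =>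
          Finset.univ.filter fun g : Fin n → Fin k => ∀ x, x ∉ T → g x = c := by
    intro g hg
    obtain ⟨c, hc⟩ := (Finset.mem_filter.1 hg).2
    rw [Finset.mem_biUnion]
    refine ⟨c, Finset.mem_univ _, ?_⟩
    rw [Finset.mem_biUnion]
    refine ⟨Finset.univ.filter fun x => g x ≠ c, ?_, ?_⟩
    · rw [Finset.mem_powersetCard]
      exact ⟨Finset.subset_univ _, hc⟩
    · refine Finset.mem_filter.2 ⟨Finset.mem_univ _, fun x hx => ?_⟩
      by_contra h
      exact hx (Finset.mem_filter.2 ⟨Finset.mem_univ _, h⟩)
  refine (Finset.card_le_card h1).trans ?_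
  refine Finset.card_biUnion_le.trans ?_
  have h2 : ∀ c ∈ (Finset.univ : Finset (Fin k)),
      ((Finset.powersetCard j (Finset.univ : Finset (Fin n))).biUnion fun T =>
          Finset.univ.filter fun g : Fin n → Fin k => ∀ x, x ∉ T → g x = c).card ≤
        n.choose j * k ^ j := by
    intro c _
    refine Finset.card_biUnion_le.trans ?_
    have h3 : ∀ T ∈ Finset.powersetCard j (Finset.univ : Finset (Fin n)),
        (Finset.univ.filter fun g : Fin n → Fin k => ∀ x, x ∉ T → g x = c).card ≤ k ^ j := by
      intro T hT
      rw [card_fix, (Finset.mem_powersetCard.1 hT).2]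
    refine (Finset.sum_le_sum h3).trans ?_
    rw [Finset.sum_const, Finset.card_powersetCard, Finset.card_fin, smul_eq_mul]
  refine (Finset.sum_le_sum h2).trans ?_
  rw [Finset.sum_const, Finset.card_fin, smul_eq_mul, pow_succ]
  apply le_of_eq
  ring

private theorem big_class {n k : ℕ} (hk : 1 ≤ k) (g : Fin n → Fin k) :
    ∃ c, n ≤ (Finset.univ.filter fun x => g x = c).card * k := by
  classical
  by_contra hc
  push Not at hc
  have h1 : (Finset.univ : Finset (Fin n)).card =
      ∑ c : Fin k, (Finset.univ.filter fun x => g x = c).card :=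
    Finset.card_eq_sum_card_fiberwise (fun x _ => Finset.mem_coe.2 (Finset.mem_univ (g x)))
  rw [Finset.card_fin] at h1
  have h2 : n * k = ∑ c : Fin k, (Finset.univ.filter fun x => g x = c).card * k := by
    rw [← Finset.sum_mul, ← h1]
  have h3 : ∑ c : Fin k, (Finset.univ.filter fun x => g x = c).card * k < ∑ _c : Fin k, n := by
    have : Nonempty (Fin k) := ⟨⟨0, hk⟩⟩
    exact Finset.sum_lt_sum_of_nonempty Finset.univ_nonempty fun c _ => hc c
  rw [← h2, Finset.sum_const, Finset.card_fin, smul_eq_mul] at h3
  rw [mul_comm] at h3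
  exact lt_irrefl _ h3

private theorem card_class (K : Type) [Field K] [Fintype K] {n k : ℕ} (g : Fin n → Fin k)
    (c : Fin k) :
    Nat.card {p : Ech K n // ¬ Rich (Fintype.card K) (linM p.mat) ∧
          ∀ y i, p.D y i ≠ 0 → g i = g y} ≤
      gal (Fintype.card K) (Finset.univ.filter fun x => g x = c).card *
        gal (Fintype.card K) (n - (Finset.univ.filter fun x => g x = c).card) := by
  classical
  have hf : Finite (Ech K n) := finite_ech
  have h1 := card_ech_P (K := K) (n := n)
    (fun i y => i ∈ (Finset.univ.filter fun x => g x = c) ↔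
      y ∈ (Finset.univ.filter fun x => g x = c))
  rw [sum_two] at h1
  rw [← h1]
  refine Nat.card_le_card_of_injective
    (fun p : {p : Ech K n // ¬ Rich (Fintype.card K) (linM p.mat) ∧
          ∀ y i, p.D y i ≠ 0 → g i = g y} =>
      (⟨p.1, fun y i hne => ?_⟩ : {p : Ech K n // ∀ y i, p.D y i ≠ 0 →
        (i ∈ (Finset.univ.filter fun x => g x = c) ↔
          y ∈ (Finset.univ.filter fun x => g x = c))})) ?_
  · have h2 := p.2.2 y i hne
    rw [Finset.mem_filter, Finset.mem_filter, h2]
    constructor
    · intro h
      exact ⟨Finset.mem_univ _, h.2⟩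
    · intro h
      exact ⟨Finset.mem_univ _, h.2⟩
  · intro p p' h
    exact Subtype.ext (congrArg (fun z => z.1) h)

private theorem main (K : Type) [Field K] [Fintype K] (n k : ℕ) (hk : Fintype.card K = k + 1)
    (hk1 : 1 ≤ k) :
    ∑ g : Fin n → Fin k,
        Nat.card {p : Ech K n // ¬ Rich (Fintype.card K) (linM p.mat) ∧
          ∀ y i, p.D y i ≠ 0 → g i = g y} ≤
      k * nBad K n + phi (Fintype.card K) n := by
  classical
  have hf : Finite (Ech K n) := finite_ech
  let C : Finset (Fin n → Fin k) := Finset.univ.image fun c : Fin k => fun _ : Fin n => c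
  let N : (Fin n → Fin k) → ℕ := fun g =>
    Nat.card {p : Ech K n // ¬ Rich (Fintype.card K) (linM p.mat) ∧
          ∀ y i, p.D y i ≠ 0 → g i = g y}
  have hC : C.card ≤ k := by
    refine Finset.card_image_le.trans ?_
    rw [Finset.card_fin]
  have hN : ∀ g, N g ≤ nBad K n := by
    intro g
    refine Nat.card_le_card_of_injective
      (fun p : {p : Ech K n // ¬ Rich (Fintype.card K) (linM p.mat) ∧
          ∀ y i, p.D y i ≠ 0 → g i = g y} =>
        (⟨p.1, p.2.1⟩ : {p : Ech K n // ¬ Rich (Fintype.card K) (linM p.mat)})) ?_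
    intro p p' h
    exact Subtype.ext (congrArg (fun z => z.1) h)
  let J : Finset ℕ := (Finset.range n).filter (fun j => 1 ≤ j ∧ n ≤ (n - j) * k)
  let W : ℕ → ℕ := fun j => gal (Fintype.card K) (n - j) * gal (Fintype.card K) j
  have key : ∀ g ∈ Finset.univ \ C, N g ≤
      ∑ j ∈ J, if (∃ c, (Finset.univ.filter fun x => g x ≠ c).card = j) then W j else 0 := by
    intro g hg
    have hgC : g ∉ C := (Finset.mem_sdiff.1 hg).2
    obtain ⟨c, hc⟩ := big_class hk1 g
    have h1 := card_class K g c
    have hsum : (Finset.univ.filter fun x => g x = c).card +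
        (Finset.univ.filter fun x => g x ≠ c).card = n := by
      have := Finset.card_filter_add_card_filter_not (s := (Finset.univ : Finset (Fin n)))
        (fun x => g x = c)
      rw [Finset.card_fin] at this
      exact this
    have hne : (Finset.univ.filter fun x => g x ≠ c).card ≠ 0 := by
      intro h0
      rw [Finset.card_eq_zero] at h0
      apply hgC
      refine Finset.mem_image.2 ⟨c, Finset.mem_univ _, ?_⟩
      funext x
      by_contra hx
      have : x ∈ (Finset.univ.filter fun x => g x ≠ c) :=
        Finset.mem_filter.2 ⟨Finset.mem_univ _, fun h => hx h.symm⟩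
      rw [h0] at this
      exact Finset.notMem_empty _ this
    have hS0 : (Finset.univ.filter fun x => g x = c).card ≠ 0 := by
      intro h0
      rw [h0, zero_mul] at hc
      omega
    have hj : (Finset.univ.filter fun x => g x ≠ c).card ∈ J := by
      refine Finset.mem_filter.2 ⟨Finset.mem_range.2 (by omega), by omega, ?_⟩
      have e : n - (Finset.univ.filter fun x => g x ≠ c).card =
          (Finset.univ.filter fun x => g x = c).card := by omega
      rw [e]
      exact hc
    have h2 : N g ≤ (fun j => if (∃ c, (Finset.univ.filter fun x => g x ≠ c).card = j) then W j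
        else 0) (Finset.univ.filter fun x => g x ≠ c).card := by
      show N g ≤ if _ then _ else _
      rw [if_pos ⟨c, rfl⟩]
      have e1 : n - (Finset.univ.filter fun x => g x ≠ c).card =
          (Finset.univ.filter fun x => g x = c).card := by omega
      have e2 : n - (Finset.univ.filter fun x => g x = c).card =
          (Finset.univ.filter fun x => g x ≠ c).card := by omega
      rw [e2] at h1
      show N g ≤ gal (Fintype.card K) (n - _) * gal (Fintype.card K) _
      rw [e1]
      exact h1
    exact h2.trans (Finset.single_le_sum (f := fun j =>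
      if (∃ c, (Finset.univ.filter fun x => g x ≠ c).card = j) then W j else 0)
      (fun _ _ => Nat.zero_le _) hj)
  have h1 : ∑ g ∈ Finset.univ \ C, N g ≤ phi (Fintype.card K) n := by
    refine (Finset.sum_le_sum key).trans ?_
    refine (Finset.sum_le_sum_of_subset (f := fun g : Fin n → Fin k =>
      ∑ j ∈ J, if (∃ c, (Finset.univ.filter fun x => g x ≠ c).card = j) then W j else 0)
      (Finset.subset_univ _)).trans ?_
    rw [Finset.sum_comm]
    unfold phi
    have e : Fintype.card K - 1 = k := by omega
    rw [e]
    refine Finset.sum_le_sum fun j _ => ?_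
    rw [← Finset.sum_filter, Finset.sum_const, smul_eq_mul]
    exact Nat.mul_le_mul_right _ (card_col j)
  have h2 : ∑ g ∈ C, N g ≤ k * nBad K n := by
    refine (Finset.sum_le_sum fun g _ => hN g).trans ?_
    rw [Finset.sum_const, smul_eq_mul]
    exact Nat.mul_le_mul_right _ hC
  have h3 := Finset.sum_sdiff (f := N) (Finset.subset_univ C)
  show ∑ g, N g ≤ _
  rw [← h3, add_comm]
  exact Nat.add_le_add h2 h1

theorem non_const (K : Type) [Field K] [Fintype K] (n : ℕ) :
    ∑ g : Fin n → Fin (Fintype.card K - 1),
        Nat.card {p : Ech K n // ¬ Rich (Fintype.card K) (linM p.mat) ∧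
          ∀ y i, p.D y i ≠ 0 → g i = g y} ≤
      (Fintype.card K - 1) * nBad K n + phi (Fintype.card K) n := by
  have hq : 1 < Fintype.card K := Fintype.one_lt_card
  exact main K n (Fintype.card K - 1) (by omega) (by omega)

end Pool.Agent.AM
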