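import Pool.Agent.AM.LinM

set_option autoImplicit false

/-!
# Definitions for the counting part

`q` is the number of elements of the field. `Ech K n` (file `Defs.lean`) is the set of `n × n` matrices
in echelon form; their matroids `linM p.mat` are all representable matroids.
-/

namespace Pool.Agent.AM

variable {K : Type} [Field K] {n : ℕ}


/-- the number of free entries `(i, y)` in echelon form with pivots `B` that are allowed by `P` -/
noncomputable def wP (P : Fin n → Fin n → Prop) (B : Finset (Fin n)) : ℕ := by
  classical
  exact (Finset.univ.filter fun t : Fin n × Fin n =>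
    t.1 ∈ B ∧ t.2 ∉ B ∧ t.1 < t.2 ∧ P t.1 t.2).card

/-- the number of echelon matrices whose matroid is not rich -/
noncomputable def nBad (K : Type) [Field K] [Fintype K] (n : ℕ) : ℕ :=
  Nat.card {p : Ech K n // ¬ Rich (Fintype.card K) (linM p.mat)}

/-- the number of echelon matrices whose matroid is rich -/
noncomputable def nRich (K : Type) [Field K] [Fintype K] (n : ℕ) : ℕ :=
  Nat.card {p : Ech K n // Rich (Fintype.card K) (linM p.mat)}

/-- bound for the number of fixed points -/
def phi (q n : ℕ) : ℕ :=
  ∑ j ∈ (Finset.range n).filter (fun j => 1 ≤ j ∧ n ≤ (n - j) * (q - 1)),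
    n.choose j * (q - 1) ^ (j + 1) * (gal q (n - j) * gal q j)

end Pool.Agent.AM
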