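import Pool.Agent.AM.GbB
import Pool.Agent.AM.CntD

set_option autoImplicit false

/-!
# Module PhiA: analysis of the bound for fixed points

Plan. `phi q n = ∑_{1 ≤ j < n, n ≤ (n - j) (q - 1)} choose n j * (q - 1) ^ (j + 1) *
(gal q (n - j) * gal q j)`. With `gal_le`, `le_gal`, `choose n j ≤ n ^ j`:
`gal q (n - j) * gal q j ≤ 16 (n + 1) ^ 2 q ^ ((n - j) ^ 2 / 4 + j ^ 2 / 4)`
`= 16 (n + 1) ^ 2 q ^ (n ^ 2 / 4 - j (n - j) / 2) ≤ 16 (n + 1) ^ 2 q ^ (1 / 4 - j (n - j) / 2) * gal q n`,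
and `n - j ≥ n / (q - 1)`, so the term is at most
`16 (q - 1) (n + 1) ^ 2 q ^ (1 / 4) * (x n) ^ j * gal q n` with `x n := n (q - 1) q ^ (- n / (2 (q - 1)))`.
`x n → 0`, so for `n ≥ n₀` we have `x n ≤ 1`, `(x n) ^ j ≤ x n`, and the sum is at most
`16 (q - 1) (n + 1) ^ 2 q ^ (1 / 4) * n * x n * gal q n`, a polynomial in `n` times
`(q ^ (- 1 / (2 (q - 1)))) ^ n`. For `n < n₀` take the constant large (`gal q n ≥ 1`). To get
`C * exp (- c n)`: `n ^ k * x ^ n` is bounded for `0 ≤ x < 1`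
(`tendsto_pow_const_mul_const_pow_of_abs_lt_one`), write `x = (√x) ^ 2`.
-/

namespace Pool.Agent.AM

private theorem rpow_split (q : ℕ) (hq : 2 ≤ q) (n j : ℕ) (hj : j < n) (h3 : n ≤ (n - j) * (q - 1)) :
    (q : ℝ) ^ (((n - j : ℕ) : ℝ) ^ 2 / 4 + (j : ℝ) ^ 2 / 4) ≤
      (q : ℝ) ^ ((1 : ℝ) / 4) * Real.exp (-(Real.log q / (2 * ((q : ℝ) - 1))) * n) ^ j *
        (q : ℝ) ^ (((n : ℝ) ^ 2 - 1) / 4) := by
  have hq0 : (0 : ℝ) < q := by positivity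
  have hq1 : (0 : ℝ) < (q : ℝ) - 1 := by
    have : (2 : ℝ) ≤ q := by exact_mod_cast hq
    linarith
  have hlog : 0 < Real.log q := Real.log_pos (by linarith)
  rw [← Real.exp_nat_mul, Real.rpow_def_of_pos hq0, Real.rpow_def_of_pos hq0, Real.rpow_def_of_pos hq0,
    ← Real.exp_add, ← Real.exp_add, Real.exp_le_exp]
  have hc : ((n - j : ℕ) : ℝ) = (n : ℝ) - j := by
    rw [Nat.cast_sub hj.le]
  have h4 : (n : ℝ) ≤ ((n : ℝ) - j) * ((q : ℝ) - 1) := by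
    have h5 : ((n : ℕ) : ℝ) ≤ (((n - j) * (q - 1) : ℕ) : ℝ) := by exact_mod_cast h3
    rw [Nat.cast_mul, hc, Nat.cast_sub (by omega : 1 ≤ q), Nat.cast_one] at h5
    exact h5
  have h6 : (n : ℝ) / ((q : ℝ) - 1) ≤ (n : ℝ) - j := by
    rw [div_le_iff₀ hq1]
    exact h4
  rw [hc]
  have h7 : Real.log q / (2 * ((q : ℝ) - 1)) * n = Real.log q / 2 * ((n : ℝ) / ((q : ℝ) - 1)) := by
    field_simp
  have h8 : Real.log q / (2 * ((q : ℝ) - 1)) * n ≤ Real.log q / 2 * ((n : ℝ) - j) := by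
    rw [h7]
    exact mul_le_mul_of_nonneg_left h6 (by positivity)
  have h9 := mul_le_mul_of_nonneg_left h8 (Nat.cast_nonneg (α := ℝ) j)
  have h10 : (j : ℝ) * (-(Real.log q / (2 * ((q : ℝ) - 1))) * n) =
      -((j : ℝ) * (Real.log q / (2 * ((q : ℝ) - 1)) * n)) := by ring
  rw [h10]
  nlinarith [h9]

private theorem term_le (q : ℕ) (hq : 2 ≤ q) (n j : ℕ) (hj : j < n) (h3 : n ≤ (n - j) * (q - 1)) :
    ((n.choose j * (q - 1) ^ (j + 1) * (gal q (n - j) * gal q j) : ℕ) : ℝ) ≤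
      16 * ((q : ℝ) - 1) * ((n : ℝ) + 1) ^ 2 * (q : ℝ) ^ ((1 : ℝ) / 4) *
        ((n : ℝ) * ((q : ℝ) - 1) * Real.exp (-(Real.log q / (2 * ((q : ℝ) - 1))) * n)) ^ j *
          (gal q n : ℝ) := by
  have hq0 : (0 : ℝ) < q := by positivity
  have hq1 : (0 : ℝ) < (q : ℝ) - 1 := by
    have : (2 : ℝ) ≤ q := by exact_mod_cast hq
    linarith
  set E := Real.exp (-(Real.log q / (2 * ((q : ℝ) - 1))) * n) with hE
  have hE0 : 0 < E := Real.exp_pos _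
  have g1 := gal_le hq (n - j)
  have g2 := gal_le hq j
  have hjn : (j : ℝ) ≤ n := by exact_mod_cast hj.le
  have hnj : ((n - j : ℕ) : ℝ) ≤ n := by exact_mod_cast Nat.sub_le n j
  have g1' : (gal q (n - j) : ℝ) ≤ 4 * ((n : ℝ) + 1) * (q : ℝ) ^ (((n - j : ℕ) : ℝ) ^ 2 / 4) := by
    refine g1.trans (mul_le_mul_of_nonneg_right ?_ (by positivity))
    linarith
  have g2' : (gal q j : ℝ) ≤ 4 * ((n : ℝ) + 1) * (q : ℝ) ^ ((j : ℝ) ^ 2 / 4) := by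
    refine g2.trans (mul_le_mul_of_nonneg_right ?_ (by positivity))
    linarith
  have g3 : (gal q (n - j) : ℝ) * gal q j ≤ 16 * ((n : ℝ) + 1) ^ 2 *
      ((q : ℝ) ^ ((1 : ℝ) / 4) * E ^ j * (gal q n : ℝ)) := by
    have h1 := mul_le_mul g1' g2' (Nat.cast_nonneg _) (by positivity)
    have h2 : 4 * ((n : ℝ) + 1) * (q : ℝ) ^ (((n - j : ℕ) : ℝ) ^ 2 / 4) *
        (4 * ((n : ℝ) + 1) * (q : ℝ) ^ ((j : ℝ) ^ 2 / 4)) = 16 * ((n : ℝ) + 1) ^ 2 *
          (q : ℝ) ^ (((n - j : ℕ) : ℝ) ^ 2 / 4 + (j : ℝ) ^ 2 / 4) := by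
      rw [Real.rpow_add hq0]
      ring
    rw [h2] at h1
    refine h1.trans (mul_le_mul_of_nonneg_left ?_ (by positivity))
    refine (rpow_split q hq n j hj h3).trans ?_
    exact mul_le_mul_of_nonneg_left (le_gal hq n) (by positivity)
  have g4 : (n.choose j : ℝ) ≤ (n : ℝ) ^ j := by exact_mod_cast Nat.choose_le_pow n j
  have g5 : (((q - 1 : ℕ)) : ℝ) = (q : ℝ) - 1 := by
    rw [Nat.cast_sub (by omega : 1 ≤ q), Nat.cast_one]
  push_cast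
  rw [g5]
  have g6 : (n.choose j : ℝ) * ((q : ℝ) - 1) ^ (j + 1) ≤ (n : ℝ) ^ j * ((q : ℝ) - 1) ^ (j + 1) :=
    mul_le_mul_of_nonneg_right g4 (by positivity)
  refine (mul_le_mul g6 g3 (by positivity) (by positivity)).trans (le_of_eq ?_)
  rw [mul_pow, mul_pow, pow_succ]
  ring

private theorem phi_le (q : ℕ) (hq : 2 ≤ q) (n : ℕ)
    (hx : (n : ℝ) * ((q : ℝ) - 1) * Real.exp (-(Real.log q / (2 * ((q : ℝ) - 1))) * n) ≤ 1) :
    (phi q n : ℝ) ≤ (n : ℝ) * (16 * ((q : ℝ) - 1) * ((n : ℝ) + 1) ^ 2 * (q : ℝ) ^ ((1 : ℝ) / 4) *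
        ((n : ℝ) * ((q : ℝ) - 1) * Real.exp (-(Real.log q / (2 * ((q : ℝ) - 1))) * n)) *
          (gal q n : ℝ)) := by
  have hq1 : (0 : ℝ) < (q : ℝ) - 1 := by
    have : (2 : ℝ) ≤ q := by exact_mod_cast hq
    linarith
  set x := (n : ℝ) * ((q : ℝ) - 1) * Real.exp (-(Real.log q / (2 * ((q : ℝ) - 1))) * n) with hxd
  have hx0 : 0 ≤ x := by positivity
  have h1 : ∀ j ∈ (Finset.range n).filter (fun j => 1 ≤ j ∧ n ≤ (n - j) * (q - 1)),
      ((n.choose j * (q - 1) ^ (j + 1) * (gal q (n - j) * gal q j) : ℕ) : ℝ) ≤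
      16 * ((q : ℝ) - 1) * ((n : ℝ) + 1) ^ 2 * (q : ℝ) ^ ((1 : ℝ) / 4) * x * (gal q n : ℝ) := by
    intro j hj
    rw [Finset.mem_filter, Finset.mem_range] at hj
    obtain ⟨hjn, hj1, hj2⟩ := hj
    refine (term_le q hq n j hjn hj2).trans ?_
    rw [← hxd]
    refine mul_le_mul_of_nonneg_right ?_ (Nat.cast_nonneg _)
    refine mul_le_mul_of_nonneg_left ?_ (by positivity)
    exact pow_le_of_le_one hx0 hx (by omega)
  unfold phi
  rw [Nat.cast_sum]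
  refine (Finset.sum_le_card_nsmul _ _ _ h1).trans ?_
  rw [nsmul_eq_mul]
  refine mul_le_mul_of_nonneg_right ?_ (by positivity)
  have h2 : ((Finset.range n).filter (fun j => 1 ≤ j ∧ n ≤ (n - j) * (q - 1))).card ≤ n := by
    refine (Finset.card_filter_le _ _).trans ?_
    rw [Finset.card_range]
  exact_mod_cast h2

private theorem ev_const (f g : ℕ → ℝ) (hf : ∀ n, 0 ≤ f n) (hg : ∀ n, 0 < g n) (N : ℕ)
    (h : ∀ n, N ≤ n → f n ≤ g n) : ∃ C : ℝ, ∀ n, f n ≤ C * g n := by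
  refine ⟨1 + ∑ m ∈ Finset.range N, f m / g m, fun n => ?_⟩
  have h0 : ∀ m, 0 ≤ f m / g m := fun m => div_nonneg (hf m) (hg m).le
  by_cases hn : N ≤ n
  · refine (h n hn).trans ?_
    have h1 : (1 : ℝ) ≤ 1 + ∑ m ∈ Finset.range N, f m / g m :=
      le_add_of_nonneg_right (Finset.sum_nonneg fun m _ => h0 m)
    nlinarith [hg n]
  · have h1 : f n / g n ≤ ∑ m ∈ Finset.range N, f m / g m :=
      Finset.single_le_sum (f := fun m => f m / g m) (fun m _ => h0 m)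
        (Finset.mem_range.2 (by omega))
    have h2 : f n = f n / g n * g n := by
      rw [div_mul_cancel₀ _ (hg n).ne']
    rw [h2]
    refine mul_le_mul_of_nonneg_right ?_ (hg n).le
    linarith

theorem phi_ana (q : ℕ) (hq : 2 ≤ q) :
    ∃ C c : ℝ, 0 < c ∧ ∀ n : ℕ, (phi q n : ℝ) ≤ C * Real.exp (-c * n) * (gal q n : ℝ) := by
  have hq0 : (0 : ℝ) < q := by positivity
  have hq2 : (2 : ℝ) ≤ q := by exact_mod_cast hq
  have hq1 : (0 : ℝ) < (q : ℝ) - 1 := by linarith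
  have hlog : 0 < Real.log q := Real.log_pos (by linarith)
  set a := Real.log q / (2 * ((q : ℝ) - 1)) with ha
  have ha0 : 0 < a := by positivity
  have hgal : ∀ n, (0 : ℝ) < (gal q n : ℝ) := fun n =>
    lt_of_lt_of_le (Real.rpow_pos_of_pos hq0 _) (le_gal hq n)
  set r := Real.exp (-(a / 2)) with hr
  have hr0 : 0 < r := Real.exp_pos _
  have hr1 : r < 1 := by
    rw [hr, Real.exp_lt_one_iff]
    linarith
  have hrn : ∀ n : ℕ, Real.exp (-(a / 2) * n) = r ^ n := by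
    intro n
    rw [hr, ← Real.exp_nat_mul]
    ring_nf
  have hrn2 : ∀ n : ℕ, Real.exp (-a * n) = r ^ n * r ^ n := by
    intro n
    rw [← hrn, ← Real.exp_add]
    ring_nf
  set Q := (q : ℝ) ^ ((1 : ℝ) / 4) with hQ
  have hQ1 : 1 ≤ Q := Real.one_le_rpow (by linarith) (by norm_num)
  have ht := tendsto_pow_const_mul_const_pow_of_abs_lt_one 4 (r := r) (by rwa [abs_of_pos hr0])
  have ht2 := ht.const_mul (64 * ((q : ℝ) - 1) ^ 2 * Q)
  rw [mul_zero] at ht2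
  have hev := (ht2.eventually (gt_mem_nhds (zero_lt_one (α := ℝ)))).and (Filter.eventually_ge_atTop 1)
  obtain ⟨N, hN⟩ := Filter.eventually_atTop.1 hev
  obtain ⟨C, hC⟩ := ev_const (fun n => (phi q n : ℝ)) (fun n => Real.exp (-(a / 2) * n) * (gal q n : ℝ))
    (fun n => Nat.cast_nonneg _) (fun n => mul_pos (Real.exp_pos _) (hgal n)) N (by
      intro n hn
      obtain ⟨h1, h2⟩ := hN n hn
      have hn1 : (1 : ℝ) ≤ n := by exact_mod_cast h2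
      have hrn0 : 0 < r ^ n := pow_pos hr0 n
      have hrn1 : r ^ n ≤ 1 := pow_le_one₀ hr0.le hr1.le
      have hx : (n : ℝ) * ((q : ℝ) - 1) * Real.exp (-a * n) ≤ 1 := by
        rw [hrn2]
        have h3 : (n : ℝ) * ((q : ℝ) - 1) ≤ 64 * ((q : ℝ) - 1) ^ 2 * Q * (n : ℝ) ^ 4 := by
          have e1 : (n : ℝ) ≤ (n : ℝ) ^ 4 := le_self_pow₀ hn1 (by norm_num)
          have e2 : (q : ℝ) - 1 ≤ 64 * ((q : ℝ) - 1) ^ 2 * Q := by
            have e3 : (q : ℝ) - 1 ≤ ((q : ℝ) - 1) ^ 2 := le_self_pow₀ (by linarith) (by norm_num)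
            nlinarith [sq_nonneg ((q : ℝ) - 1)]
          rw [mul_comm]
          exact mul_le_mul e2 e1 (by linarith) (by positivity)
        calc (n : ℝ) * ((q : ℝ) - 1) * (r ^ n * r ^ n)
            ≤ 64 * ((q : ℝ) - 1) ^ 2 * Q * (n : ℝ) ^ 4 * (r ^ n * r ^ n) :=
              mul_le_mul_of_nonneg_right h3 (by positivity)
          _ = 64 * ((q : ℝ) - 1) ^ 2 * Q * ((n : ℝ) ^ 4 * r ^ n) * r ^ n := by ring
          _ ≤ 1 * 1 := mul_le_mul h1.le hrn1 hrn0.le zero_le_one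
          _ = 1 := one_mul 1
      have h4 := phi_le q hq n hx
      refine h4.trans ?_
      rw [← hQ, ← ha, hrn2, hrn]
      have h5 : (n : ℝ) * (16 * ((q : ℝ) - 1) * ((n : ℝ) + 1) ^ 2 * Q *
          ((n : ℝ) * ((q : ℝ) - 1) * (r ^ n * r ^ n)) * (gal q n : ℝ)) =
          (16 * ((q : ℝ) - 1) ^ 2 * Q * (n : ℝ) ^ 2 * ((n : ℝ) + 1) ^ 2 * r ^ n) *
            (r ^ n * (gal q n : ℝ)) := by ring
      rw [h5]
      have h6 : 16 * ((q : ℝ) - 1) ^ 2 * Q * (n : ℝ) ^ 2 * ((n : ℝ) + 1) ^ 2 * r ^ n ≤ 1 := by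
        have h7 : ((n : ℝ) + 1) ^ 2 ≤ 4 * (n : ℝ) ^ 2 := by nlinarith
        have h8 : 16 * ((q : ℝ) - 1) ^ 2 * Q * (n : ℝ) ^ 2 * ((n : ℝ) + 1) ^ 2 ≤
            16 * ((q : ℝ) - 1) ^ 2 * Q * (n : ℝ) ^ 2 * (4 * (n : ℝ) ^ 2) :=
          mul_le_mul_of_nonneg_left h7 (by positivity)
        have h9 := mul_le_mul_of_nonneg_right h8 hrn0.le
        refine h9.trans ?_
        have h10 : 16 * ((q : ℝ) - 1) ^ 2 * Q * (n : ℝ) ^ 2 * (4 * (n : ℝ) ^ 2) * r ^ n =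
            64 * ((q : ℝ) - 1) ^ 2 * Q * ((n : ℝ) ^ 4 * r ^ n) := by ring
        rw [h10]
        exact h1.le
      have h11 : 0 ≤ r ^ n * (gal q n : ℝ) := mul_nonneg hrn0.le (hgal n).le
      nlinarith [mul_le_mul_of_nonneg_right h6 h11])
  refine ⟨C, a / 2, by positivity, fun n => ?_⟩
  have h := hC n
  rw [mul_assoc]
  exact h

end Pool.Agent.AM
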