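import Pool.Agent.AM.BadS
import Pool.Agent.AM.BadA
import Pool.Agent.AM.Burn
import Pool.Agent.AM.NonC
import Pool.Agent.AM.PhiA
import Pool.Agent.AM.Fib
import Pool.Agent.AM.FinA

set_option autoImplicit false

/-!
# Module AllM: almost all representable matroids are rich
-/

namespace Pool.Agent.AM

variable (K : Type) [Field K] [Fintype K]

theorem card_split (n : ℕ) : gal (Fintype.card K) n = nBad K n + nRich K n := by
  have h1 : Nat.card (Ech K n) = gal (Fintype.card K) n := by
    have h2 := card_ech_P (K := K) (n := n) fun _ _ => True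
    rw [sum_gal] at h2
    rw [← h2]
    exact Nat.card_congr (Equiv.subtypeUnivEquiv fun _ _ _ _ => trivial).symm
  have := finite_ech (K := K) (n := n)
  rw [← h1, nBad, nRich, add_comm]
  classical
  rw [← Nat.card_sum]
  exact Nat.card_congr (Equiv.sumCompl fun p : Ech K n => Rich (Fintype.card K) (linM p.mat)).symm

theorem finite_repM (n : ℕ) : (RepM K n).Finite := by
  have := finite_ech (K := K) (n := n)
  refine Set.Finite.subset (Set.finite_range fun p : Ech K n => linM p.mat) fun M hM => ?_
  obtain ⟨p, hp⟩ := exists_ech hM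
  exact ⟨p, hp.symm⟩

theorem almost_all : ∃ C c : ℝ, 0 < c ∧ ∀ n : ℕ,
    ({M ∈ RepM K n | ¬ Rich (Fintype.card K) M}.ncard : ℝ) ≤
      C * Real.exp (-c * n) * ((RepM K n).ncard : ℝ) := by
  have hq : 2 ≤ Fintype.card K := Fintype.one_lt_card
  have h1 := bad_ana (Fintype.card K) hq (nBad K) fun n t ht => bad_sum K n t ht
  have h2 := phi_ana (Fintype.card K) hq
  obtain ⟨C, c, hc, h⟩ := fin_ineq (Fintype.card K) (Nat.card (K ≃+* K)) hq
    (fun n => gal (Fintype.card K) n) (nBad K) (phi (Fintype.card K))
    (fun n => {M ∈ RepM K n | ¬ Rich (Fintype.card K) M}.ncard)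
    (fun n => {M ∈ RepM K n | Rich (Fintype.card K) M}.ncard) h1 h2
    (fun n => (burn K n).trans (non_const K n))
    (fun n => by
      show gal (Fintype.card K) n ≤ _
      rw [card_split]
      exact Nat.add_le_add_left (fibre K n) _)
  refine ⟨C, c, hc, fun n => (h n).trans (le_of_eq ?_)⟩
  have h5 : (RepM K n).ncard = {M ∈ RepM K n | ¬ Rich (Fintype.card K) M}.ncard +
      {M ∈ RepM K n | Rich (Fintype.card K) M}.ncard := by
    rw [← Set.ncard_union_eq ?_ ((finite_repM K n).subset fun M hM => hM.1)
      ((finite_repM K n).subset fun M hM => hM.1)]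
    · congr 1
      ext M
      constructor
      · intro hM
        by_cases hR : Rich (Fintype.card K) M
        · exact Or.inr ⟨hM, hR⟩
        · exact Or.inl ⟨hM, hR⟩
      · rintro (hM | hM)
        · exact hM.1
        · exact hM.1
    · rw [Set.disjoint_left]
      intro M hM hM'
      exact hM.2 hM'.2
  rw [h5]
  push_cast
  rfl

end Pool.Agent.AM
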