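import Pool.Agent.AM.LinM
import Pool.Agent.BW.Grdy
import Pool.Agent.BW.Orc

set_option autoImplicit false

/-!
# Module GrB: the greedy basis is the first basis
-/

namespace Pool.Agent.AM

open Pool.Agent.G4 (nor dif word prd)
open Pool.Agent.BW (rkX grdy cod dcd RkS crk)

open Pool.Agent.Helper22 in
/-- closure in the matroid is the span of the columns -/
theorem mem_closure_span {K : Type} [Field K] {m n : ℕ} {M : Matroid (Fin n)}
    (hE : M.E = Set.univ) {A : Matrix (Fin m) (Fin n) K} (hA : IsRep M A) (S : Set (Fin n))
    (x : Fin n) : x ∈ M.closure S ↔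
      (fun i => A i x) ∈ Submodule.span K ((fun j : Fin n => fun i => A i j) '' S) := by
  have hM := linM_unique hE hA
  have hind : ∀ I : Set (Fin n), M.Indep I ↔ LinearIndepOn K (fun j : Fin n => fun i => A i j) I := by
    intro I
    rw [hM]
    exact linM_indep A I
  obtain ⟨I, hI⟩ := M.exists_isBasis S (by rw [hE]; exact Set.subset_univ _)
  have hIL := (hind I).1 hI.indep
  have key : ∀ y : Fin n, (y ∈ I ∨ ¬ M.Indep (insert y I)) ↔
      (fun i => A i y) ∈ Submodule.span K ((fun j : Fin n => fun i => A i j) '' I) := by
    intro y
    by_cases hy : y ∈ I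
    · exact ⟨fun _ => Submodule.subset_span ⟨y, hy, rfl⟩, fun _ => Or.inl hy⟩
    · rw [hind, linearIndepOn_insert hy]
      constructor
      · rintro (h | h)
        · exact absurd h hy
        · by_contra hc
          exact h ⟨hIL, hc⟩
      · intro h
        exact Or.inr fun h' => h'.2 h
  have hspan : Submodule.span K ((fun j : Fin n => fun i => A i j) '' S) =
      Submodule.span K ((fun j : Fin n => fun i => A i j) '' I) := by
    apply le_antisymm
    · rw [Submodule.span_le]
      rintro _ ⟨y, hy, rfl⟩
      refine (key y).1 ?_
      by_cases hyI : y ∈ I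
      · exact Or.inl hyI
      · exact Or.inr fun h => hyI (hI.mem_of_insert_indep hy h)
    · exact Submodule.span_mono (Set.image_mono hI.subset)
  rw [hspan, ← key, ← hI.closure_eq_closure, hI.indep.mem_closure_iff]
  constructor
  · rintro (h | h)
    · exact Or.inr h.not_indep
    · exact Or.inl h
  · rintro (h | h)
    · exact Or.inr h
    · exact Or.inl ⟨h, by rw [hE]; exact Set.subset_univ _⟩

section

variable {K : Type} [Field K] {m n : ℕ}

/-- span of the columns with numbers in `P` -/
private def gS (A : Matrix (Fin m) (Fin n) K) (P : ℕ → Prop) : Submodule K (Fin m → K) :=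
  Submodule.span K {w : Fin m → K | ∃ j : Fin n, P (j : ℕ) ∧ (fun i => A i j) = w}

private theorem gS_or (A : Matrix (Fin m) (Fin n) K) (P Q : ℕ → Prop) :
    gS A (fun k => P k ∨ Q k) = gS A P ⊔ gS A Q := by
  unfold gS
  rw [← Submodule.span_union]
  congr 1
  ext w
  constructor
  · rintro ⟨j, hj | hj, hw⟩
    · exact Or.inl ⟨j, hj, hw⟩
    · exact Or.inr ⟨j, hj, hw⟩
  · rintro (⟨j, hj, hw⟩ | ⟨j, hj, hw⟩)
    · exact ⟨j, Or.inl hj, hw⟩
    · exact ⟨j, Or.inr hj, hw⟩

private theorem gS_one (A : Matrix (Fin m) (Fin n) K) (x : Fin n) :
    gS A (fun k => k = (x : ℕ)) = Submodule.span K {fun i => A i x} := by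
  unfold gS
  congr 1
  ext w
  constructor
  · rintro ⟨j, hj, hw⟩
    have h1 : j = x := Fin.ext hj
    rw [← hw, h1]
    exact Set.mem_singleton _
  · intro hw
    exact ⟨x, rfl, (Set.mem_singleton_iff.1 hw).symm⟩

private theorem gS_congr (A : Matrix (Fin m) (Fin n) K) {P Q : ℕ → Prop} (h : ∀ k, P k ↔ Q k) :
    gS A P = gS A Q := by
  have h1 : P = Q := funext fun k => propext (h k)
  rw [h1]

end

open Pool.Agent.Helper22 in
theorem grdy_first {K : Type} [Field K] {m n : ℕ} {M : Matroid (Fin n)} (hE : M.E = Set.univ)
    {A : Matrix (Fin m) (Fin n) K} (hA : IsRep M A) {X : Oracle} (hX : IsOracle X M) (x : Fin n) :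
    (x : ℕ) ∈ grdy (fun T => rkX X (List.range n) T) (List.range n) [] ↔ x ∈ firstBasis M := by
  have hX' : ∀ J : Finset (Fin n), X (List.ofFn fun i => decide (i ∈ J)) = true ↔
      LinearIndependent K fun j : J => fun i => A i j := fun J => (hX J).trans (hA J)
  have hrk : ∀ T : List ℕ, (∀ t ∈ T, t < n) →
      rkX X (List.range n) T = Module.finrank K (gS A (fun k => k ∈ T)) := by
    intro T hT
    have h1 := Pool.Agent.BW.rkX_spec A hX' T (fun t ht => List.mem_range.2 (hT t ht))
    have h2 : (rkX X (List.range n) T : ℤ) = (Module.finrank K (gS A (fun k => k ∈ T.toFinset)) : ℤ) := h1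
    rw [gS_congr A (Q := fun k => k ∈ T) (fun k => List.mem_toFinset)] at h2
    exact_mod_cast h2
  have key : ∀ k ≤ n, (∀ t ∈ grdy (fun T => rkX X (List.range n) T) (List.range k) [], t < k) ∧
      (∀ y : Fin n, (y : ℕ) < k → ((y : ℕ) ∈ grdy (fun T => rkX X (List.range n) T) (List.range k) [] ↔
        (fun i => A i y) ∉ gS A (fun k => k < (y : ℕ)))) ∧
      gS A (fun j => j ∈ grdy (fun T => rkX X (List.range n) T) (List.range k) []) =
        gS A (fun j => j < k) := by
    intro k
    induction k with
    | zero =>
      intro _
      refine ⟨fun t ht => absurd ht (by simp [grdy]), fun y hy => absurd hy (Nat.not_lt_zero _), ?_⟩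
      exact gS_congr A fun j => ⟨fun h => absurd h (by simp [grdy]), fun h => absurd h (Nat.not_lt_zero _)⟩
    | succ k ih =>
      intro hk
      obtain ⟨h1, h2, h3⟩ := ih (by omega)
      have hstep : grdy (fun T => rkX X (List.range n) T) (List.range (k + 1)) [] =
          if rkX X (List.range n) (grdy (fun T => rkX X (List.range n) T) (List.range k) []) <
            rkX X (List.range n) (k :: grdy (fun T => rkX X (List.range n) T) (List.range k) []) then
          grdy (fun T => rkX X (List.range n) T) (List.range k) [] ++ [k] else
          grdy (fun T => rkX X (List.range n) T) (List.range k) [] := by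
        unfold grdy
        rw [List.range_succ, List.foldl_append]
        rfl
      obtain ⟨T, hT⟩ : ∃ T, T = grdy (fun T => rkX X (List.range n) T) (List.range k) [] := ⟨_, rfl⟩
      rw [← hT] at h1 h2 h3 hstep
      have hkn : k < n := hk
      have hr1 := hrk T (fun t ht => (h1 t ht).trans hkn)
      have hr2 := hrk (k :: T) (by
        intro t ht
        rcases List.mem_cons.1 ht with h | h
        · rw [h]; exact hkn
        · exact (h1 t h).trans hkn)
      have hS : gS A (fun j => j ∈ k :: T) = Submodule.span K {fun i => A i ⟨k, hkn⟩} ⊔ gS A (fun j => j < k) := by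
        rw [gS_congr A (Q := fun j => j = k ∨ j ∈ T) (fun j => List.mem_cons), gS_or, h3]
        congr 1
        exact gS_one A ⟨k, hkn⟩
      have hS' : gS A (fun j => j < k + 1) = Submodule.span K {fun i => A i ⟨k, hkn⟩} ⊔ gS A (fun j => j < k) := by
        rw [gS_congr A (Q := fun j => j = k ∨ j < k) (fun j => by omega), gS_or]
        congr 1
        exact gS_one A ⟨k, hkn⟩
      rw [h3] at hr1
      rw [hS] at hr2
      have hiff : rkX X (List.range n) T < rkX X (List.range n) (k :: T) ↔
          (fun i => A i ⟨k, hkn⟩) ∉ gS A (fun j => j < k) := by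
        rw [hr1, hr2]
        constructor
        · intro h h'
          have h4 : Submodule.span K {fun i => A i ⟨k, hkn⟩} ⊔ gS A (fun j => j < k) = gS A (fun j => j < k) := by
            rw [sup_eq_right, Submodule.span_singleton_le_iff_mem]
            exact h'
          rw [h4] at h
          exact lt_irrefl _ h
        · intro h
          apply Submodule.finrank_lt_finrank_of_lt
          refine lt_of_le_of_ne le_sup_right fun h4 => h ?_
          have h5 : (fun i => A i ⟨k, hkn⟩) ∈ Submodule.span K {fun i => A i ⟨k, hkn⟩} ⊔ gS A (fun j => j < k) :=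
            Submodule.mem_sup_left (Submodule.mem_span_singleton_self _)
          rw [← h4] at h5
          exact h5
      rw [hstep]
      by_cases hc : rkX X (List.range n) T < rkX X (List.range n) (k :: T)
      · rw [if_pos hc]
        refine ⟨?_, ?_, ?_⟩
        · intro t ht
          rcases List.mem_append.1 ht with h | h
          · exact (h1 t h).trans (Nat.lt_succ_self k)
          · rw [List.mem_singleton.1 h]
            exact Nat.lt_succ_self k
        · intro y hy
          rw [List.mem_append, List.mem_singleton]
          by_cases hyk : (y : ℕ) = k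
          · have h4 : y = ⟨k, hkn⟩ := Fin.ext hyk
            constructor
            · intro _
              rw [h4]
              exact hiff.1 hc
            · intro _
              exact Or.inr hyk
          · rw [← h2 y (by omega)]
            exact ⟨fun h => h.resolve_right hyk, fun h => Or.inl h⟩
        · rw [hS', ← hS]
          refine gS_congr A fun j => ?_
          rw [List.mem_append, List.mem_singleton, List.mem_cons, or_comm]
      · rw [if_neg hc]
        have hc' : (fun i => A i ⟨k, hkn⟩) ∈ gS A (fun j => j < k) := by
          by_contra h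
          exact hc (hiff.2 h)
        refine ⟨fun t ht => (h1 t ht).trans (Nat.lt_succ_self k), ?_, ?_⟩
        · intro y hy
          by_cases hyk : (y : ℕ) = k
          · have h4 : y = ⟨k, hkn⟩ := Fin.ext hyk
            constructor
            · intro h
              exact absurd (h1 _ h) (by omega)
            · intro h
              rw [h4] at h
              exact absurd hc' h
          · exact h2 y (by omega)
        · rw [hS', h3]
          symm
          rw [sup_eq_right, Submodule.span_singleton_le_iff_mem]
          exact hc'
  rw [(key n le_rfl).2.1 x x.2]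
  show _ ↔ x ∉ M.closure {y | y < x}
  rw [mem_closure_span hE hA]
  have h1 : gS A (fun k => k < (x : ℕ)) =
      Submodule.span K ((fun j : Fin n => fun i => A i j) '' {y | y < x}) := by
    unfold gS
    congr 1
  rw [h1]

open Pool.Agent.Helper22 in
theorem grdy_sorted (n : ℕ) (ρ : List ℕ → ℕ) :
    (grdy ρ (List.range n) []).Sublist (List.range n) := by
  have key : ∀ (l₂ l₁ T : List ℕ), T.Sublist l₁ →
      (l₂.foldl (fun T y => if ρ ([] ++ T) < ρ (y :: ([] ++ T)) then T ++ [y] else T) T).Sublist
        (l₁ ++ l₂) := by
    intro l₂
    induction l₂ with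
    | nil =>
      intro l₁ T h
      rw [List.append_nil]
      exact h
    | cons y l₂ ih =>
      intro l₁ T h
      rw [List.foldl_cons]
      have e1 : l₁ ++ y :: l₂ = (l₁ ++ [y]) ++ l₂ := by rw [List.append_assoc]; rfl
      rw [e1]
      apply ih
      split_ifs
      · exact h.append (List.Sublist.refl _)
      · exact h.trans (List.sublist_append_left _ _)
  have h := key (List.range n) [] [] (List.Sublist.refl _)
  exact h

end Pool.Agent.AM
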