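import Pool.Agent.AM.Defs

set_option autoImplicit false

/-!
# Module PtsC: a projective plane over `K` has `q ^ 2 + q + 1` points

`Prp` is an equivalence relation on nonzero vectors; its classes are the points of
`ℙ K (Fin 3 → K)`.
-/

namespace Pool.Agent.AM

variable {K : Type} [Field K] [Fintype K]

open scoped LinearAlgebra.Projectivization

omit [Fintype K] in
private theorem prp_iff {x y : Fin 3 → K} (hx : x ≠ 0) (hy : y ≠ 0) :
    Prp x y ↔ Projectivization.mk K x hx = Projectivization.mk K y hy := by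
  rw [Projectivization.mk_eq_mk_iff]
  constructor
  · rintro ⟨c, hc, rfl⟩
    refine ⟨(Units.mk0 c hc)⁻¹, ?_⟩
    rw [Units.smul_def, Units.val_inv_eq_inv_val, Units.val_mk0, smul_smul,
      inv_mul_cancel₀ hc, one_smul]
  · rintro ⟨a, ha⟩
    refine ⟨((a⁻¹ : Kˣ) : K), (a⁻¹).ne_zero, ?_⟩
    rw [← ha, ← Units.smul_def, inv_smul_smul]

private theorem card_pts : Nat.card (ℙ K (Fin 3 → K)) =
    Fintype.card K ^ 2 + Fintype.card K + 1 := by
  rw [Projectivization.card_of_finrank K (Fin 3 → K) (n := 3) (by simp)]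
  simp only [Finset.sum_range_succ, Finset.sum_range_zero, pow_zero, pow_one, zero_add,
    Nat.card_eq_fintype_card]
  ring

theorem pts_card {ι : Type} (V : ι → Fin 3 → K) (S : Finset ι) (h0 : ∀ s ∈ S, V s ≠ 0)
    (hp : ∀ s ∈ S, ∀ t ∈ S, s ≠ t → ¬ Prp (V s) (V t)) :
    S.card ≤ Fintype.card K ^ 2 + Fintype.card K + 1 ∧
    (S.card = Fintype.card K ^ 2 + Fintype.card K + 1 ↔
      ∀ z : Fin 3 → K, z ≠ 0 → ∃ s ∈ S, Prp z (V s)) := by
  classical
  haveI : Finite (ℙ K (Fin 3 → K)) := inferInstance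
  letI : Fintype (ℙ K (Fin 3 → K)) := Fintype.ofFinite _
  obtain ⟨g, hg⟩ : ∃ g : {s // s ∈ S} → ℙ K (Fin 3 → K),
      ∀ s, g s = Projectivization.mk K (V s.1) (h0 s.1 s.2) := ⟨_, fun _ => rfl⟩
  have hinj : Function.Injective g := by
    intro s t hst
    rw [hg, hg, ← prp_iff] at hst
    by_contra hne
    exact hp s.1 s.2 t.1 t.2 (fun h => hne (Subtype.ext h)) hst
  have hc : Fintype.card (ℙ K (Fin 3 → K)) = Fintype.card K ^ 2 + Fintype.card K + 1 := by
    rw [← Nat.card_eq_fintype_card, card_pts]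
  have hS : Fintype.card {s // s ∈ S} = S.card := Fintype.card_coe S
  refine ⟨?_, ?_, ?_⟩
  · rw [← hc, ← hS]
    exact Fintype.card_le_of_injective g hinj
  · intro h z hz
    have hbij : Function.Bijective g :=
      (Fintype.bijective_iff_injective_and_card g).2 ⟨hinj, by rw [hS, hc, h]⟩
    obtain ⟨s, hs⟩ := hbij.2 (Projectivization.mk K z hz)
    refine ⟨s.1, s.2, (prp_iff hz (h0 s.1 s.2)).2 ?_⟩
    rw [← hs, hg]
  · intro h
    have hsur : Function.Surjective g := by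
      intro P
      obtain ⟨s, hs, hsz⟩ := h P.rep P.rep_nonzero
      refine ⟨⟨s, hs⟩, ?_⟩
      rw [hg, ← (prp_iff P.rep_nonzero (h0 s hs)).1 hsz, Projectivization.mk_rep]
    rw [← hS, ← hc]
    exact Fintype.card_of_bijective ⟨hinj, hsur⟩

theorem pts_ex {ι : Type} (V : ι → Fin 3 → K) (P : Set ι)
    (hf : ∀ z : Fin 3 → K, z ≠ 0 → ∃ s ∈ P, Prp z (V s)) :
    ∃ S : Finset ι, (∀ s ∈ S, s ∈ P ∧ V s ≠ 0) ∧
      (∀ s ∈ S, ∀ t ∈ S, s ≠ t → ¬ Prp (V s) (V t)) ∧
      S.card = Fintype.card K ^ 2 + Fintype.card K + 1 := by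
  classical
  haveI : Finite (ℙ K (Fin 3 → K)) := inferInstance
  letI : Fintype (ℙ K (Fin 3 → K)) := Fintype.ofFinite _
  have h1 : ∀ Q : ℙ K (Fin 3 → K), ∃ s, s ∈ P ∧ Prp Q.rep (V s) :=
    fun Q => hf Q.rep Q.rep_nonzero
  choose f hf1 hf2 using h1
  have h0 : ∀ Q, V (f Q) ≠ 0 := by
    intro Q
    obtain ⟨c, hc, h⟩ := hf2 Q
    rw [h]
    exact smul_ne_zero hc Q.rep_nonzero
  have hmk : ∀ Q, Projectivization.mk K (V (f Q)) (h0 Q) = Q := by
    intro Q
    rw [← (prp_iff Q.rep_nonzero (h0 Q)).1 (hf2 Q), Projectivization.mk_rep]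
  refine ⟨Finset.univ.image f, ?_, ?_, ?_⟩
  · intro s hs
    obtain ⟨Q, -, rfl⟩ := Finset.mem_image.1 hs
    exact ⟨hf1 Q, h0 Q⟩
  · intro s hs t ht hst hPrp
    obtain ⟨Q, -, rfl⟩ := Finset.mem_image.1 hs
    obtain ⟨R, -, rfl⟩ := Finset.mem_image.1 ht
    have h2 := (prp_iff (h0 Q) (h0 R)).1 hPrp
    rw [hmk, hmk] at h2
    exact hst (by rw [h2])
  · have hinj : Function.Injective f := by
      intro Q R hQR
      have h2 : Projectivization.mk K (V (f Q)) (h0 Q) =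
          Projectivization.mk K (V (f R)) (h0 R) := by
        congr 1
        rw [hQR]
      rwa [hmk, hmk] at h2
    rw [Finset.card_image_of_injective _ hinj, Finset.card_univ, ← Nat.card_eq_fintype_card,
      card_pts]

end Pool.Agent.AM
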