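import Pool.Agent.AM.Ctr
import Pool.Agent.AM.PtsC
import Pool.Agent.AM.GrB

set_option autoImplicit false

/-!
# Module RichI: `Rich` in coordinates
-/

namespace Pool.Agent.AM

open Pool.Agent.G4 (nor dif word prd)
open Pool.Agent.BW (rkX grdy cod dcd RkS crk)

private theorem ncard_fb {n : ℕ} {B : List ℕ} (hnd : B.Nodup) (hlt : ∀ b ∈ B, b < n)
    {F : Set (Fin n)} (hF : ∀ x : Fin n, (x : ℕ) ∈ B ↔ x ∈ F) : F.ncard = B.length := by
  classical
  have h1 : F = ((Finset.univ.filter fun x : Fin n => (x : ℕ) ∈ B : Finset (Fin n)) :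
      Set (Fin n)) := by
    ext x
    rw [Finset.mem_coe, Finset.mem_filter]
    exact ⟨fun h => ⟨Finset.mem_univ _, (hF x).2 h⟩, fun h => (hF x).1 h.2⟩
  rw [h1, Set.ncard_coe_finset, ← List.toFinset_card_of_nodup hnd,
    ← Finset.card_map Fin.valEmbedding]
  congr 1
  ext y
  rw [Finset.mem_map, List.mem_toFinset]
  constructor
  · rintro ⟨x, hx, rfl⟩
    exact (Finset.mem_filter.1 hx).2
  · intro hy
    exact ⟨⟨y, hlt y hy⟩, Finset.mem_filter.2 ⟨Finset.mem_univ _, hy⟩, rfl⟩

open Pool.Agent.Helper22 in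
theorem rich_iff {K : Type} [Field K] [Fintype K] {m n : ℕ} {M : Matroid (Fin n)}
    (hE : M.E = Set.univ) {A : Matrix (Fin m) (Fin n) K} (hA : IsRep M A) {X : Oracle}
    (hX : IsOracle X M) {u : ℕ → ℕ → K}
    (h : SRep (fun T => rkX X (List.range n) T) (List.range n)
      (grdy (fun T => rkX X (List.range n) T) (List.range n) []) u) :
    Rich (Fintype.card K) M ↔ RichU (List.range n)
      (grdy (fun T => rkX X (List.range n) T) (List.range n) []) u := by
  classical
  have hF := fun x : Fin n => grdy_first hE hA hX x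
  have hsub := grdy_sorted n (fun T => rkX X (List.range n) T)
  have hρ : RkS (fun T => rkX X (List.range n) T) (List.range n) (crk A) := by
    intro T hT
    exact Pool.Agent.BW.rkX_spec A (fun J => (hX J).trans (hA J)) T hT
  obtain ⟨B, hB⟩ : ∃ B : List ℕ, B = grdy (fun T => rkX X (List.range n) T) (List.range n) [] :=
    ⟨_, rfl⟩
  rw [← hB] at h hsub ⊢
  simp only [← hB] at hF
  have hlt : ∀ b ∈ B, b < n := fun b hb => List.mem_range.1 (h.BE b hb)
  have hlen := ncard_fb h.nd hlt hF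
  have hq : 0 < Fintype.card K := Fintype.card_pos
  have hkey : ∀ a i j : Fin n, a ∈ firstBasis M → i ∈ firstBasis M → j ∈ firstBasis M →
      a ≠ i → a ≠ j → i ≠ j →
      (HasPoints M (firstBasis M \ {a, i, j}) (Fintype.card K ^ 2 + Fintype.card K + 1) ↔
        Full (List.range n) u a i j) := by
    intro a i j ha hi hj hai haj hij
    have hC : ∀ x : Fin n, x ∈ firstBasis M \ {a, i, j} ↔
        (x : ℕ) ∈ B ∧ (x : ℕ) ≠ a ∧ (x : ℕ) ≠ i ∧ (x : ℕ) ≠ j := by
      intro x
      rw [Set.mem_sdiff, ← hF x]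
      simp only [Set.mem_insert_iff, Set.mem_singleton_iff, not_or, Fin.ext_iff, ne_eq]
    have hct : ∀ {x y : Fin n}, x ≠ y → ((M.contract (firstBasis M \ {a, i, j})).Indep {x, y} ↔
        v3 u a i j x ≠ 0 ∧ v3 u a i j y ≠ 0 ∧ ¬ Prp (v3 u a i j x) (v3 u a i j y)) := by
      intro x y hxy
      exact contract_indep hE hA hρ h ((hF a).2 ha) ((hF i).2 hi) ((hF j).2 hj)
        (fun h1 => hai (Fin.ext h1)) (fun h1 => haj (Fin.ext h1)) (fun h1 => hij (Fin.ext h1))
        _ hC hxy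
    constructor
    · rintro ⟨S, hS, hSi⟩
      have h0 : ∀ s ∈ S, v3 u a i j (s : ℕ) ≠ 0 := by
        intro s hs
        have h2 : 1 < S.card := by
          rw [hS]
          nlinarith
        obtain ⟨t, ht, hts⟩ := Finset.exists_mem_ne h2 s
        exact ((hct hts.symm).1 (hSi s hs t ht hts.symm)).1
      have hp : ∀ s ∈ S, ∀ t ∈ S, s ≠ t → ¬ Prp (v3 u a i j (s : ℕ)) (v3 u a i j (t : ℕ)) :=
        fun s hs t ht hst => ((hct hst).1 (hSi s hs t ht hst)).2.2
      have h3 := (pts_card (fun s : Fin n => v3 u a i j (s : ℕ)) S h0 hp).2.1 hS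
      intro z hz
      obtain ⟨s, -, hsz⟩ := h3 z hz
      exact ⟨s, List.mem_range.2 s.2, hsz⟩
    · intro hfull
      obtain ⟨S, h1, h2, h3⟩ := pts_ex (fun s : Fin n => v3 u a i j (s : ℕ)) Set.univ (by
        intro z hz
        obtain ⟨y, hy, hyz⟩ := hfull z hz
        exact ⟨⟨y, List.mem_range.1 hy⟩, Set.mem_univ _, hyz⟩)
      refine ⟨S, h3, fun x hx y hy hxy => ?_⟩
      exact (hct hxy).2 ⟨(h1 x hx).2, (h1 y hy).2, h2 x hx y hy hxy⟩
  unfold Rich RichU
  rw [hlen]
  refine and_congr_right fun hB3 => ?_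
  cases B with
  | nil => simp at hB3
  | cons b B' =>
    rw [List.headD_cons, List.tail_cons]
    have hpw : (b :: B').Pairwise (· < ·) := (List.pairwise_lt_range).sublist hsub
    rw [List.pairwise_cons] at hpw
    have hbn : b < n := hlt b List.mem_cons_self
    have hbF : (⟨b, hbn⟩ : Fin n) ∈ firstBasis M := (hF ⟨b, hbn⟩).1 List.mem_cons_self
    have hbmin : ∀ x ∈ firstBasis M, (⟨b, hbn⟩ : Fin n) ≤ x := by
      intro x hx
      rcases List.mem_cons.1 ((hF x).2 hx) with h1 | h1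
      · exact (Fin.ext h1 : x = ⟨b, hbn⟩).ge
      · exact (hpw.1 x h1).le
    constructor
    · rintro ⟨a, ha, hmin, hall⟩ i hi j hj hij
      have hab : a = ⟨b, hbn⟩ := le_antisymm (hmin _ hbF) (hbmin a ha)
      subst hab
      have hin : i < n := hlt i (List.mem_cons_of_mem _ hi)
      have hjn : j < n := hlt j (List.mem_cons_of_mem _ hj)
      have hiF : (⟨i, hin⟩ : Fin n) ∈ firstBasis M := (hF ⟨i, hin⟩).1 (List.mem_cons_of_mem _ hi)
      have hjF : (⟨j, hjn⟩ : Fin n) ∈ firstBasis M := (hF ⟨j, hjn⟩).1 (List.mem_cons_of_mem _ hj)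
      have hib : b < i := hpw.1 i hi
      have hjb : b < j := hpw.1 j hj
      have hia : (⟨i, hin⟩ : Fin n) ≠ ⟨b, hbn⟩ := by
        intro h1
        rw [Fin.ext_iff] at h1
        simp only at h1
        omega
      have hja : (⟨j, hjn⟩ : Fin n) ≠ ⟨b, hbn⟩ := by
        intro h1
        rw [Fin.ext_iff] at h1
        simp only at h1
        omega
      have hij' : (⟨i, hin⟩ : Fin n) ≠ ⟨j, hjn⟩ := by
        intro h1
        rw [Fin.ext_iff] at h1
        exact hij h1
      exact (hkey _ _ _ hbF hiF hjF hia.symm hja.symm hij').1 (hall _ hiF _ hjF hia hja hij')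
    · intro hall
      refine ⟨⟨b, hbn⟩, hbF, hbmin, ?_⟩
      intro i hi j hj hia hja hij
      refine (hkey _ _ _ hbF hi hj hia.symm hja.symm hij).2 ?_
      have hmem : ∀ x : Fin n, x ∈ firstBasis M → x ≠ ⟨b, hbn⟩ → (x : ℕ) ∈ B' := by
        intro x hx hxb
        rcases List.mem_cons.1 ((hF x).2 hx) with h1 | h1
        · exact absurd (Fin.ext h1) hxb
        · exact h1
      exact hall _ (hmem i hi hia) _ (hmem j hj hja) (fun h1 => hij (Fin.ext h1))

end Pool.Agent.AM
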