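import Pool.Agent.AM.SrP
import Pool.Agent.AM.RichI

set_option autoImplicit false

/-!
# Module RichO: a sufficient condition
-/

namespace Pool.Agent.AM

open Pool.Agent.G4 (nor dif word prd)
open Pool.Agent.BW (rkX grdy cod dcd RkS crk)

variable {K : Type} [Field K] [Fintype K] {n : ℕ}

omit [Fintype K] in
private theorem fn_off (p : Ech K n) {y x : Fin n} (hy : y ∉ p.B) : p.fn y x = p.D y x := by
  unfold Ech.fn
  rw [dif_pos ⟨y.2, x.2⟩]
  unfold Ech.col
  rw [if_neg hy]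

theorem rich_of (p : Ech K n) (a : Fin n) (ha : a ∈ p.B) (hm : ∀ x ∈ p.B, a ≤ x)
    (h3 : 3 ≤ p.B.card)
    (h : ∀ i ∈ p.B, ∀ j ∈ p.B, i ≠ a → j ≠ a → i ≠ j → ∀ z : Fin 3 → K,
      ∃ y, y ∉ p.B ∧ p.D y a = z 0 ∧ p.D y i = z 1 ∧ p.D y j = z 2) :
    Rich (Fintype.card K) (linM p.mat) := by
  obtain ⟨X, hX⟩ := exists_oracle (linM p.mat)
  have hS := srep_ech p hX
  rw [rich_iff (linM_E _) (linM_rep _) hX hS]
  have hmem := fun x : Fin n => mem_grdy_ech p hX x
  have hsub := grdy_sorted n (fun T => rkX X (List.range n) T)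
  obtain ⟨L, hL⟩ : ∃ L : List ℕ, L = grdy (fun T => rkX X (List.range n) T) (List.range n) [] :=
    ⟨_, rfl⟩
  rw [← hL] at hsub ⊢
  simp only [← hL] at hmem
  have hlt : ∀ b ∈ L, b < n := fun b hb => List.mem_range.1 (hsub.subset hb)
  have hlen : p.B.card ≤ L.length := by
    classical
    have h1 : p.B.map Fin.valEmbedding ⊆ L.toFinset := by
      intro x hx
      obtain ⟨y, hy, rfl⟩ := Finset.mem_map.1 hx
      exact List.mem_toFinset.2 ((hmem y).2 hy)
    have h2 := Finset.card_le_card h1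
    rw [Finset.card_map] at h2
    exact h2.trans (List.toFinset_card_le L)
  refine ⟨h3.trans hlen, ?_⟩
  cases L with
  | nil =>
    intro i hi
    exact absurd hi List.not_mem_nil
  | cons b L' =>
    rw [List.headD_cons, List.tail_cons]
    have hpw : (b :: L').Pairwise (· < ·) := (List.pairwise_lt_range).sublist hsub
    rw [List.pairwise_cons] at hpw
    have hbn : b < n := hlt b List.mem_cons_self
    have hbB : (⟨b, hbn⟩ : Fin n) ∈ p.B := (hmem ⟨b, hbn⟩).1 List.mem_cons_self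
    have hab : a = ⟨b, hbn⟩ := by
      refine le_antisymm (hm _ hbB) ?_
      rcases List.mem_cons.1 ((hmem a).2 ha) with h1 | h1
      · exact (Fin.ext h1 : a = ⟨b, hbn⟩).ge
      · exact (hpw.1 a h1).le
    intro i hi j hj hij z _
    have hin : i < n := hlt i (List.mem_cons_of_mem _ hi)
    have hjn : j < n := hlt j (List.mem_cons_of_mem _ hj)
    have hiB : (⟨i, hin⟩ : Fin n) ∈ p.B := (hmem ⟨i, hin⟩).1 (List.mem_cons_of_mem _ hi)
    have hjB : (⟨j, hjn⟩ : Fin n) ∈ p.B := (hmem ⟨j, hjn⟩).1 (List.mem_cons_of_mem _ hj)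
    have hib : b < i := hpw.1 i hi
    have hjb : b < j := hpw.1 j hj
    have hia : (⟨i, hin⟩ : Fin n) ≠ a := by
      rw [hab]
      intro h1
      rw [Fin.ext_iff] at h1
      simp only at h1
      omega
    have hja : (⟨j, hjn⟩ : Fin n) ≠ a := by
      rw [hab]
      intro h1
      rw [Fin.ext_iff] at h1
      simp only at h1
      omega
    have hij' : (⟨i, hin⟩ : Fin n) ≠ ⟨j, hjn⟩ := by
      intro h1
      rw [Fin.ext_iff] at h1
      exact hij h1
    obtain ⟨y, hy, h4, h5, h6⟩ := h _ hiB _ hjB hia hja hij' z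
    refine ⟨y, List.mem_range.2 y.2, 1, one_ne_zero, ?_⟩
    rw [one_smul]
    have e0 : p.fn (y : ℕ) b = z 0 := by
      have h7 := fn_off p (x := ⟨b, hbn⟩) hy
      rw [← hab, h4] at h7
      rw [← h7, hab]
    have e1 : p.fn (y : ℕ) i = z 1 := (fn_off p (x := ⟨i, hin⟩) hy).trans h5
    have e2 : p.fn (y : ℕ) j = z 2 := (fn_off p (x := ⟨j, hjn⟩) hy).trans h6
    unfold v3
    rw [e0, e1, e2]
    funext k
    fin_cases k <;> rfl

end Pool.Agent.AM
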