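import Pool.Agent.AM.ColC
import Pool.Agent.AM.RichO
import Pool.Agent.AM.CardE

set_option autoImplicit false

/-!
# Module BadF: few bad matrices for given pivots

Union bound over the planes and the missing vectors.
-/

namespace Pool.Agent.AM

variable {K : Type} [Field K] [Fintype K] {n : ℕ}


/-- the number of matrices that avoid a vector in the late columns -/
private theorem bf_one (B : Finset (Fin n)) {a i j t : Fin n} (ha : a ∈ B) (hi : i ∈ B) (hj : j ∈ B)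
    (hai : a ≠ i) (haj : a ≠ j) (hij : i ≠ j) (ht : ∀ x ∈ B, x ≤ t) (z : Fin 3 → K) :
    (Nat.card {p : Ech K n // p.B = B ∧
        ∀ y, t < y → ¬ (p.D y a = z 0 ∧ p.D y i = z 1 ∧ p.D y j = z 2)} : ℝ) =
      (1 - ((Fintype.card K : ℝ) ^ 3)⁻¹) ^ (n - 1 - (t : ℕ)) *
        (Nat.card {p : Ech K n // p.B = B} : ℝ) := by
  have h := col_count B ha hi hj hai haj hij ht z
  have hq : 1 ≤ Fintype.card K ^ 3 := Nat.one_le_pow _ _ Fintype.card_pos
  have hq0 : (Fintype.card K : ℝ) ^ 3 ≠ 0 := by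
    have : (Fintype.card K : ℝ) ≠ 0 := by exact_mod_cast Fintype.card_pos.ne'
    exact pow_ne_zero _ this
  have h2 : (Nat.card {p : Ech K n // p.B = B ∧
        ∀ y, t < y → ¬ (p.D y a = z 0 ∧ p.D y i = z 1 ∧ p.D y j = z 2)} : ℝ) *
      ((Fintype.card K : ℝ) ^ 3) ^ (n - 1 - (t : ℕ)) =
      ((Fintype.card K : ℝ) ^ 3 - 1) ^ (n - 1 - (t : ℕ)) *
        (Nat.card {p : Ech K n // p.B = B} : ℝ) := by
    have h3 : ((Fintype.card K ^ 3 - 1 : ℕ) : ℝ) = (Fintype.card K : ℝ) ^ 3 - 1 := by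
      rw [Nat.cast_sub hq]
      push_cast
      ring
    rw [← h3, ← pow_mul]
    exact_mod_cast h
  have h4 : (1 - ((Fintype.card K : ℝ) ^ 3)⁻¹) * (Fintype.card K : ℝ) ^ 3 =
      (Fintype.card K : ℝ) ^ 3 - 1 := by
    rw [sub_mul, inv_mul_cancel₀ hq0, one_mul]
  have h5 : ((Fintype.card K : ℝ) ^ 3) ^ (n - 1 - (t : ℕ)) ≠ 0 := pow_ne_zero _ hq0
  refine mul_right_cancel₀ h5 ?_
  rw [h2, ← h4, mul_pow]
  ring

theorem bad_fix (B : Finset (Fin n)) (h3 : 3 ≤ B.card) (t : Fin n) (ht : ∀ x ∈ B, x ≤ t) :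
    (Nat.card {p : Ech K n // p.B = B ∧ ¬ Rich (Fintype.card K) (linM p.mat)} : ℝ) ≤
      (n : ℝ) ^ 2 * (Fintype.card K : ℝ) ^ 3 *
        (1 - ((Fintype.card K : ℝ) ^ 3)⁻¹) ^ (n - 1 - (t : ℕ)) *
        (Nat.card {p : Ech K n // p.B = B} : ℝ) := by
  classical
  have : Finite (Ech K n) := finite_ech
  have : Fintype (Ech K n) := Fintype.ofFinite _
  have hne : B.Nonempty := Finset.card_pos.mp (by omega)
  set a := B.min' hne with hadef
  have ha : a ∈ B := B.min'_mem hne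
  have hm : ∀ x ∈ B, a ≤ x := fun x hx => B.min'_le x hx
  have hcard : ∀ (P : Ech K n → Prop) (S : Finset (Ech K n)), (∀ p, p ∈ S ↔ P p) →
      Nat.card {p : Ech K n // P p} = S.card := by
    intro P S hS
    rw [Nat.card_eq_fintype_card, Fintype.card_of_subtype S hS]
  -- the index set
  let F : Finset ((Fin n × Fin n) × (Fin 3 → K)) := Finset.univ.filter fun x =>
    x.1.1 ∈ B ∧ x.1.2 ∈ B ∧ x.1.1 ≠ a ∧ x.1.2 ≠ a ∧ x.1.1 ≠ x.1.2
  let A : ((Fin n × Fin n) × (Fin 3 → K)) → Finset (Ech K n) := fun x =>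
    Finset.univ.filter fun p : Ech K n => p.B = B ∧
      ∀ y, t < y → ¬ (p.D y a = x.2 0 ∧ p.D y x.1.1 = x.2 1 ∧ p.D y x.1.2 = x.2 2)
  let S : Finset (Ech K n) := Finset.univ.filter fun p : Ech K n => p.B = B ∧
      ¬ Rich (Fintype.card K) (linM p.mat)
  have hsub : S ⊆ F.biUnion A := by
    intro p hp
    rw [Finset.mem_filter] at hp
    obtain ⟨_, hpB, hpR⟩ := hp
    have h1 : ¬ ∀ i ∈ p.B, ∀ j ∈ p.B, i ≠ a → j ≠ a → i ≠ j → ∀ z : Fin 3 → K,
        ∃ y, y ∉ p.B ∧ p.D y a = z 0 ∧ p.D y i = z 1 ∧ p.D y j = z 2 := by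
      intro h
      apply hpR
      exact rich_of p a (by rw [hpB]; exact ha) (by rw [hpB]; exact hm) (by rw [hpB]; exact h3) h
    push Not at h1
    obtain ⟨i, hi, j, hj, hia, hja, hij, z, hz⟩ := h1
    rw [hpB] at hi hj hz
    rw [Finset.mem_biUnion]
    refine ⟨((i, j), z), ?_, ?_⟩
    · rw [Finset.mem_filter]
      exact ⟨Finset.mem_univ _, hi, hj, hia, hja, hij⟩
    · rw [Finset.mem_filter]
      refine ⟨Finset.mem_univ _, hpB, fun y hy h2 => ?_⟩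
      have hyB : y ∉ B := fun hyB => absurd (ht y hyB) (not_le.mpr hy)
      exact hz y hyB h2.1 h2.2.1 h2.2.2
  set c : ℝ := (1 - ((Fintype.card K : ℝ) ^ 3)⁻¹) ^ (n - 1 - (t : ℕ)) *
    (Nat.card {p : Ech K n // p.B = B} : ℝ) with hc
  have hA : ∀ x ∈ F, ((A x).card : ℝ) = c := by
    intro x hx
    rw [Finset.mem_filter] at hx
    obtain ⟨_, h1, h2, h4, h5, h6⟩ := hx
    rw [hc, ← bf_one B ha h1 h2 (Ne.symm h4) (Ne.symm h5) h6 ht x.2,
      hcard _ (A x) (fun p => by rw [Finset.mem_filter]; exact and_iff_right (Finset.mem_univ _))]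
  have hc0 : 0 ≤ c := by
    have h1 : (1 : ℝ) ≤ (Fintype.card K : ℝ) ^ 3 := by
      exact_mod_cast Nat.one_le_pow _ _ Fintype.card_pos
    have h2 : ((Fintype.card K : ℝ) ^ 3)⁻¹ ≤ 1 := inv_le_one_of_one_le₀ h1
    have h4 : 0 ≤ 1 - ((Fintype.card K : ℝ) ^ 3)⁻¹ := by linarith
    rw [hc]
    positivity
  have hF : (F.card : ℝ) ≤ (n : ℝ) ^ 2 * (Fintype.card K : ℝ) ^ 3 := by
    have h1 : F.card ≤ Fintype.card ((Fin n × Fin n) × (Fin 3 → K)) := Finset.card_le_univ F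
    have h2 : Fintype.card ((Fin n × Fin n) × (Fin 3 → K)) = n ^ 2 * Fintype.card K ^ 3 := by
      rw [Fintype.card_prod, Fintype.card_prod, Fintype.card_fin, Fintype.card_pi]
      simp only [Finset.prod_const, Finset.card_univ, Fintype.card_fin]
      ring
    rw [h2] at h1
    exact_mod_cast h1
  rw [hcard _ S (fun p => by rw [Finset.mem_filter]; exact and_iff_right (Finset.mem_univ _))]
  calc (S.card : ℝ)
      ≤ ((F.biUnion A).card : ℝ) := by exact_mod_cast Finset.card_le_card hsub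
    _ ≤ ((∑ x ∈ F, (A x).card : ℕ) : ℝ) := by exact_mod_cast Finset.card_biUnion_le
    _ = ∑ x ∈ F, ((A x).card : ℝ) := by rw [Nat.cast_sum]
    _ = ∑ _x ∈ F, c := Finset.sum_congr rfl hA
    _ = F.card * c := by rw [Finset.sum_const, nsmul_eq_mul]
    _ ≤ ((n : ℝ) ^ 2 * (Fintype.card K : ℝ) ^ 3) * c := mul_le_mul_of_nonneg_right hF hc0
    _ = (n : ℝ) ^ 2 * (Fintype.card K : ℝ) ^ 3 *
        (1 - ((Fintype.card K : ℝ) ^ 3)⁻¹) ^ (n - 1 - (t : ℕ)) *
        (Nat.card {p : Ech K n // p.B = B} : ℝ) := by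
      rw [hc]
      ring

end Pool.Agent.AM
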