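import Pool.Agent.AM.CntD

set_option autoImplicit false

/-!
# Module GbS: Gaussian binomial coefficients count echelon forms

(All identities checked numerically.) `gb q n 0 = 1`, `gb q 0 (r + 1) = 0`,
`gb q (n + 1) (r + 1) = q ^ (r + 1) * gb q n (r + 1) + gb q n r`.

Plan. Induction on `n`, removing the last element: a set `B ⊆ Fin (n + 1)` is `B'` or `B' ∪ {last}` with
`B' ⊆ Fin n` (embedded by `Fin.castSucc`); `wP` of `B' ∪ {last}` is `wP` of `B'` (no element after `last`),
and if `last ∉ B` the column `last` adds the number of `i ∈ B'` with `P i last`. It may be easiest to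
prove one statement for sums over functions `b : Fin n → Bool` (`Fin.snocEquiv`,
`Fintype.sum_prod_type`, `Fintype.sum_bool`), or to use `Finset.powerset`.
`sum_gb`: `|B| = r`: `last ∉ B` gives `q ^ r * gb q n r`, `last ∈ B` gives `gb q n (r - 1)`.
`sum_gal`: sum of `sum_gb` over `r ≤ n`.
`sum_last`: induction on `n`; if `p = last` then `B = B' ∪ {last}`, `|B'| = r`, sum `gb q n r`; otherwise
`last ∉ B`, factor `q ^ (r + 1)`.
`sum_two`: refine by the numbers `r₀ = |B ∩ S|`, `r₁ = |B \ S|`: the sum over these `B` is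
`gb q |S| r₀ * gb q (n - |S|) r₁` (same induction: if `last ∈ S` only the first factor changes), then sum
over all `r₀`, `r₁`; `gb q n r = 0` for `n < r`.
-/

namespace Pool.Agent.AM

private theorem gb_zero (q n : ℕ) : gb q n 0 = 1 := by
  cases n <;> rfl

private theorem gb_succ (q n r : ℕ) :
    gb q (n + 1) (r + 1) = q ^ (r + 1) * gb q n (r + 1) + gb q n r := rfl

/-- the weight as a sum over the columns -/
private def ww {n : ℕ} (B : Finset (Fin n)) : ℕ :=
  ∑ y : Fin n, if y ∈ B then 0 else (B.filter fun x => x < y).card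

private theorem wP_eq {n : ℕ} (B : Finset (Fin n)) : wP (fun _ _ => True) B = ww B := by
  unfold wP ww
  rw [Finset.card_filter, Fintype.sum_prod_type_right]
  refine Finset.sum_congr rfl fun y _ => ?_
  by_cases hy : y ∈ B
  · rw [if_pos hy]
    refine Finset.sum_eq_zero fun x _ => ?_
    rw [if_neg]
    rintro ⟨_, h, _⟩
    exact h hy
  · have e : (B.filter fun x => x < y) = Finset.univ.filter fun x => x ∈ B ∧ x < y := by
      ext x
      simp
    rw [if_neg hy, e, Finset.card_filter]
    refine Finset.sum_congr rfl fun x _ => ?_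
    by_cases h : x ∈ B ∧ x < y
    · rw [if_pos h, if_pos ⟨h.1, hy, h.2, trivial⟩]
    · rw [if_neg h, if_neg (fun h' => h ⟨h'.1, h'.2.2.1⟩)]

/-- the embedding -/
private def up {n : ℕ} (B : Finset (Fin n)) : Finset (Fin (n + 1)) := B.map Fin.castSuccEmb

private theorem mem_up {n : ℕ} (B : Finset (Fin n)) (x : Fin n) : Fin.castSucc x ∈ up B ↔ x ∈ B := by
  unfold up
  rw [Finset.mem_map]
  constructor
  · rintro ⟨y, hy, h⟩
    have h' : y = x := Fin.castSucc_injective n h
    rw [← h']
    exact hy
  · intro h
    exact ⟨x, h, rfl⟩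

private theorem last_up {n : ℕ} (B : Finset (Fin n)) : Fin.last n ∉ up B := by
  unfold up
  rw [Finset.mem_map]
  rintro ⟨y, _, h⟩
  exact (Fin.castSucc_lt_last y).ne h

private theorem card_up {n : ℕ} (B : Finset (Fin n)) : (up B).card = B.card := Finset.card_map _

/-- the part without the last element -/
private def dn {n : ℕ} (B : Finset (Fin (n + 1))) : Finset (Fin n) :=
  Finset.univ.filter fun x => Fin.castSucc x ∈ B

private theorem mem_dn {n : ℕ} (B : Finset (Fin (n + 1))) (x : Fin n) : x ∈ dn B ↔ Fin.castSucc x ∈ B := by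
  unfold dn
  simp

private theorem up_dn {n : ℕ} {B : Finset (Fin (n + 1))} (h : Fin.last n ∉ B) : up (dn B) = B := by
  ext x
  refine Fin.lastCases ?_ (fun x => ?_) x
  · exact ⟨fun h1 => absurd h1 (last_up _), fun h1 => absurd h1 h⟩
  · rw [mem_up, mem_dn]

private theorem ins_dn {n : ℕ} {B : Finset (Fin (n + 1))} (h : Fin.last n ∈ B) :
    insert (Fin.last n) (up (dn B)) = B := by
  ext x
  refine Fin.lastCases ?_ (fun x => ?_) x
  · exact ⟨fun _ => h, fun _ => Finset.mem_insert_self _ _⟩
  · rw [Finset.mem_insert, mem_up, mem_dn]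
    exact ⟨fun h1 => h1.resolve_left (Fin.castSucc_lt_last x).ne, Or.inr⟩

private theorem dn_up {n : ℕ} (B : Finset (Fin n)) : dn (up B) = B := by
  ext x
  rw [mem_dn, mem_up]

private theorem dn_ins {n : ℕ} (B : Finset (Fin n)) : dn (insert (Fin.last n) (up B)) = B := by
  ext x
  rw [mem_dn, Finset.mem_insert, mem_up]
  exact ⟨fun h1 => h1.resolve_left (Fin.castSucc_lt_last x).ne, Or.inr⟩

private theorem sum_split {n : ℕ} (f : Finset (Fin (n + 1)) → ℕ) :
    ∑ B, f B = ∑ B : Finset (Fin n), f (up B) + ∑ B : Finset (Fin n), f (insert (Fin.last n) (up B)) := by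
  rw [← Finset.sum_filter_add_sum_filter_not Finset.univ (fun B => Fin.last n ∉ B) f]
  refine congrArg₂ (· + ·) ?_ ?_
  · refine Finset.sum_bij' (fun B _ => dn B) (fun B _ => up B) ?_ ?_ ?_ ?_ ?_
    · intro B _
      exact Finset.mem_univ _
    · intro B _
      exact Finset.mem_filter.2 ⟨Finset.mem_univ _, last_up B⟩
    · intro B hB
      exact up_dn (Finset.mem_filter.1 hB).2
    · intro B _
      exact dn_up B
    · intro B hB
      show f B = f (up (dn B))
      rw [up_dn (Finset.mem_filter.1 hB).2]
  · refine Finset.sum_bij' (fun B _ => dn B) (fun B _ => insert (Fin.last n) (up B)) ?_ ?_ ?_ ?_ ?_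
    · intro B _
      exact Finset.mem_univ _
    · intro B _
      exact Finset.mem_filter.2 ⟨Finset.mem_univ _, not_not.2 (Finset.mem_insert_self _ _)⟩
    · intro B hB
      exact ins_dn (not_not.1 (Finset.mem_filter.1 hB).2)
    · intro B _
      exact dn_ins B
    · intro B hB
      show f B = f (insert (Fin.last n) (up (dn B)))
      rw [ins_dn (not_not.1 (Finset.mem_filter.1 hB).2)]

private theorem card_ins {n : ℕ} (B : Finset (Fin n)) : (insert (Fin.last n) (up B)).card = B.card + 1 := by
  rw [Finset.card_insert_of_notMem (last_up B), card_up]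

private theorem filter_up {n : ℕ} (B : Finset (Fin n)) (y : Fin n) :
    ((up B).filter fun x => x < Fin.castSucc y).card = (B.filter fun x => x < y).card := by
  unfold up
  rw [Finset.filter_map, Finset.card_map]
  rfl

private theorem ww_up {n : ℕ} (B : Finset (Fin n)) : ww (up B) = ww B + B.card := by
  unfold ww
  rw [Fin.sum_univ_castSucc, if_neg (last_up B)]
  congr 1
  · refine Finset.sum_congr rfl fun y _ => ?_
    by_cases hy : y ∈ B
    · rw [if_pos hy, if_pos ((mem_up B y).2 hy)]
    · rw [if_neg hy, if_neg (fun h => hy ((mem_up B y).1 h)), filter_up]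
  · rw [← card_up B]
    congr 1
    refine Finset.filter_true_of_mem fun x hx => ?_
    refine lt_of_le_of_ne (Fin.le_last x) fun h => ?_
    rw [h] at hx
    exact last_up B hx

private theorem ww_ins {n : ℕ} (B : Finset (Fin n)) : ww (insert (Fin.last n) (up B)) = ww B := by
  unfold ww
  rw [Fin.sum_univ_castSucc, if_pos (Finset.mem_insert_self _ _), add_zero]
  refine Finset.sum_congr rfl fun y _ => ?_
  have hm : Fin.castSucc y ∈ insert (Fin.last n) (up B) ↔ y ∈ B := by
    rw [Finset.mem_insert, mem_up]
    exact ⟨fun h1 => h1.resolve_left (Fin.castSucc_lt_last y).ne, Or.inr⟩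
  by_cases hy : y ∈ B
  · rw [if_pos hy, if_pos (hm.2 hy)]
  · rw [if_neg hy, if_neg (fun h => hy (hm.1 h)), Finset.filter_insert, if_neg, filter_up]
    exact not_lt.2 (Fin.le_last _)

private theorem sum_gb' (q n : ℕ) : ∀ r : ℕ,
    (∑ B : Finset (Fin n), if B.card = r then q ^ ww B else 0) = gb q n r := by
  induction n with
  | zero =>
    intro r
    have h1 : (Finset.univ : Finset (Finset (Fin 0))) = {∅} := rfl
    rw [h1, Finset.sum_singleton, Finset.card_empty]
    cases r with
    | zero =>
      rw [if_pos rfl]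
      rfl
    | succ r =>
      rw [if_neg (by omega)]
      rfl
  | succ n ih =>
    intro r
    rw [sum_split]
    have h1 : (∑ B : Finset (Fin n), if (up B).card = r then q ^ ww (up B) else 0) = q ^ r * gb q n r := by
      rw [← ih r, Finset.mul_sum]
      refine Finset.sum_congr rfl fun B _ => ?_
      rw [card_up, ww_up]
      by_cases h : B.card = r
      · rw [if_pos h, if_pos h, h, pow_add, mul_comm]
      · rw [if_neg h, if_neg h, mul_zero]
    rw [h1]
    cases r with
    | zero =>
      have h2 : (∑ B : Finset (Fin n), if (insert (Fin.last n) (up B)).card = 0 then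
          q ^ ww (insert (Fin.last n) (up B)) else 0) = 0 := by
        refine Finset.sum_eq_zero fun B _ => ?_
        rw [if_neg]
        rw [card_ins]
        omega
      rw [h2, gb_zero, gb_zero, pow_zero, one_mul, add_zero]
    | succ r =>
      rw [gb_succ, ← ih r]
      congr 1
      refine Finset.sum_congr rfl fun B _ => ?_
      rw [card_ins, ww_ins]
      by_cases h : B.card = r
      · rw [if_pos h, if_pos (by omega)]
      · rw [if_neg h, if_neg (by omega)]

theorem sum_gb (q n r : ℕ) :
    ∑ B ∈ Finset.univ.filter (fun B : Finset (Fin n) => B.card = r),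
      q ^ wP (fun _ _ => True) B = gb q n r := by
  rw [← sum_gb' q n r, Finset.sum_filter]
  refine Finset.sum_congr rfl fun B _ => ?_
  rw [wP_eq]

theorem sum_gal (q n : ℕ) :
    ∑ B : Finset (Fin n), q ^ wP (fun _ _ => True) B = gal q n := by
  unfold gal
  rw [← Finset.sum_fiberwise_of_maps_to (s := Finset.univ) (t := Finset.range (n + 1))
    (g := fun B : Finset (Fin n) => B.card) (fun B _ => ?_)]
  · exact Finset.sum_congr rfl fun r _ => sum_gb q n r
  · rw [Finset.mem_range]
    have h := Finset.card_le_univ B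
    rw [Fintype.card_fin] at h
    omega

private theorem sum_last' (q r : ℕ) : ∀ (n : ℕ) (p : Fin n),
    (∑ B : Finset (Fin n), if B.card = r + 1 ∧ p ∈ B ∧ ∀ x ∈ B, x ≤ p then q ^ ww B else 0) =
      gb q p r * q ^ ((r + 1) * (n - 1 - p)) := by
  intro n
  induction n with
  | zero => exact fun p => p.elim0
  | succ n ih =>
    intro p
    rw [sum_split]
    refine Fin.lastCases ?_ (fun p => ?_) p
    · rw [Finset.sum_eq_zero, zero_add]
      · rw [Fin.val_last, Nat.add_sub_cancel, Nat.sub_self, mul_zero, pow_zero, mul_one, ← sum_gb' q n r]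
        refine Finset.sum_congr rfl fun B _ => ?_
        rw [card_ins, ww_ins]
        by_cases h : B.card = r
        · rw [if_pos h, if_pos ⟨by omega, Finset.mem_insert_self _ _, fun x _ => Fin.le_last x⟩]
        · rw [if_neg h, if_neg (fun h1 => h (by omega))]
      · intro B _
        rw [if_neg]
        rintro ⟨_, h, _⟩
        exact last_up B h
    · have h2 : (∑ B : Finset (Fin n), if (insert (Fin.last n) (up B)).card = r + 1 ∧
          Fin.castSucc p ∈ insert (Fin.last n) (up B) ∧
          ∀ x ∈ insert (Fin.last n) (up B), x ≤ Fin.castSucc p then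
            q ^ ww (insert (Fin.last n) (up B)) else 0) = 0 := by
        refine Finset.sum_eq_zero fun B _ => ?_
        rw [if_neg]
        rintro ⟨_, _, h⟩
        exact absurd (h _ (Finset.mem_insert_self _ _)) (not_le.2 (Fin.castSucc_lt_last p))
      rw [h2, add_zero]
      have hp := p.2
      have h3 : (r + 1) * (n + 1 - 1 - ((Fin.castSucc p : Fin (n + 1)) : ℕ)) =
          (r + 1) * (n - 1 - p) + (r + 1) := by
        rw [Fin.val_castSucc]
        have h4 : n + 1 - 1 - (p : ℕ) = (n - 1 - p) + 1 := by omega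
        rw [h4, mul_add, mul_one]
      rw [h3, pow_add, ← mul_assoc, Fin.val_castSucc, ← ih p, Finset.sum_mul]
      refine Finset.sum_congr rfl fun B _ => ?_
      rw [card_up, ww_up]
      have h5 : (∀ x ∈ up B, x ≤ Fin.castSucc p) ↔ ∀ x ∈ B, x ≤ p := by
        constructor
        · intro h x hx
          exact Fin.castSucc_le_castSucc_iff.1 (h _ ((mem_up B x).2 hx))
        · intro h x
          refine Fin.lastCases ?_ (fun x => ?_) x
          · intro hx
            exact absurd hx (last_up B)
          · intro hx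
            exact Fin.castSucc_le_castSucc_iff.2 (h x ((mem_up B x).1 hx))
      by_cases h : B.card = r + 1 ∧ p ∈ B ∧ ∀ x ∈ B, x ≤ p
      · rw [if_pos h, if_pos ⟨h.1, (mem_up B p).2 h.2.1, h5.2 h.2.2⟩, h.1, pow_add]
      · rw [if_neg h, if_neg (fun h' => h ⟨h'.1, (mem_up B p).1 h'.2.1, h5.1 h'.2.2⟩), zero_mul]

theorem sum_last (q n r : ℕ) (p : Fin n) :
    ∑ B ∈ Finset.univ.filter (fun B : Finset (Fin n) => B.card = r + 1 ∧ p ∈ B ∧ ∀ x ∈ B, x ≤ p),
      q ^ wP (fun _ _ => True) B = gb q p r * q ^ ((r + 1) * (n - 1 - p)) := by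
  rw [← sum_last' q r n p, Finset.sum_filter]
  refine Finset.sum_congr rfl fun B _ => ?_
  rw [wP_eq]

end Pool.Agent.AM
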