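import Pool.Agent.AM.BadF
import Pool.Agent.AM.CardE
import Pool.Agent.AM.GbS

set_option autoImplicit false

/-!
# Module BadS: the number of bad matrices, explicit bound

Plan. `nBad K n = ∑ B, |{p // p.B = B ∧ bad}|` (fibers of `p ↦ p.B`). Let `W B := q ^ wP .. B =
Nat.card {p // p.B = B}` (`card_ech_B`). Divide the sets `B`:
* `|B| ≤ 2`: at most `W B`; total `gb q n 0 + gb q n 1 + gb q n 2` (`sum_gb`).
* `|B| = r + 1 ≥ 3` with largest element `p ≥ t`: at most `W B`; total at most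
  `∑_{p ∈ [t, n)} ∑_{r ≤ n} gb q p r * q ^ ((r + 1) * (n - 1 - p))` (`sum_last`; convert the sum over
  `p : Fin n` with `t ≤ p` to `Finset.Ico t n`).
* `|B| ≥ 3` with largest element `p < t`: `bad_fix` with `n - 1 - p ≥ n - t` and
  `0 ≤ 1 - (q ^ 3)⁻¹ ≤ 1`: at most `n ^ 2 * q ^ 3 * (1 - (q ^ 3)⁻¹) ^ (n - t) * W B`; the sum of all
  `W B` is `gal q n` (`sum_gal`).
-/

namespace Pool.Agent.AM

private theorem bs_fib (K : Type) [Field K] [Fintype K] (n : ℕ) :
    nBad K n = ∑ B : Finset (Fin n),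
      Nat.card {p : Ech K n // p.B = B ∧ ¬ Rich (Fintype.card K) (linM p.mat)} := by
  haveI : Finite (Ech K n) := finite_ech
  unfold nBad
  rw [← Nat.card_sigma]
  refine Nat.card_congr
    { toFun := fun p => ⟨p.1.B, ⟨p.1, rfl, p.2⟩⟩
      invFun := fun x => ⟨x.2.1, x.2.2.2⟩
      left_inv := fun p => rfl
      right_inv := ?_ }
  rintro ⟨B, p, rfl, hp⟩
  rfl

private theorem bs_le (K : Type) [Field K] [Fintype K] (n : ℕ) (B : Finset (Fin n)) :
    Nat.card {p : Ech K n // p.B = B ∧ ¬ Rich (Fintype.card K) (linM p.mat)} ≤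
      Fintype.card K ^ wP (fun _ _ => True) B := by
  haveI : Finite (Ech K n) := finite_ech
  rw [← card_ech_B]
  exact Nat.card_le_card_of_injective
    (fun x : {p : Ech K n // p.B = B ∧ ¬ Rich (Fintype.card K) (linM p.mat)} =>
      (⟨x.1, x.2.1⟩ : {p : Ech K n // p.B = B}))
    (fun x y hxy => Subtype.ext (congrArg (fun z : {p : Ech K n // p.B = B} => z.1) hxy))

private theorem bs_one (q n : ℕ) :
    ∑ B : Finset (Fin n), (if B.card ≤ 2 then q ^ wP (fun _ _ => True) B else 0) =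
      gb q n 0 + gb q n 1 + gb q n 2 := by
  rw [← sum_gb q n 0, ← sum_gb q n 1, ← sum_gb q n 2, Finset.sum_filter, Finset.sum_filter,
    Finset.sum_filter, ← Finset.sum_add_distrib, ← Finset.sum_add_distrib]
  refine Finset.sum_congr rfl fun B _ => ?_
  by_cases h0 : B.card = 0
  · simp [h0]
  by_cases h1 : B.card = 1
  · simp [h1]
  by_cases h2 : B.card = 2
  · simp [h2]
  have h3 : ¬ B.card ≤ 2 := by omega
  simp [h0, h1, h2, h3]

private theorem bs_two (q n t : ℕ) :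
    ∑ B : Finset (Fin n), (if 3 ≤ B.card ∧ ∃ p ∈ B, t ≤ (p : ℕ) then
      q ^ wP (fun _ _ => True) B else 0) ≤
      ∑ p ∈ Finset.Ico t n, ∑ r ∈ Finset.range (n + 1),
        gb q p r * q ^ ((r + 1) * (n - 1 - p)) := by
  classical
  have e1 : ∑ p ∈ Finset.Ico t n, ∑ r ∈ Finset.range (n + 1),
        gb q p r * q ^ ((r + 1) * (n - 1 - p)) =
      ∑ p : Fin n, if t ≤ (p : ℕ) then ∑ r ∈ Finset.range (n + 1),
        gb q p r * q ^ ((r + 1) * (n - 1 - p)) else 0 := by
    rw [Fin.sum_univ_eq_sum_range (fun p => if t ≤ p then ∑ r ∈ Finset.range (n + 1),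
        gb q p r * q ^ ((r + 1) * (n - 1 - p)) else 0) n, ← Finset.sum_filter]
    refine Finset.sum_congr ?_ fun _ _ => rfl
    ext x
    rw [Finset.mem_Ico, Finset.mem_filter, Finset.mem_range]
    exact and_comm
  rw [e1]
  have e2 : ∀ p : Fin n, (if t ≤ (p : ℕ) then ∑ r ∈ Finset.range (n + 1),
        gb q p r * q ^ ((r + 1) * (n - 1 - p)) else 0) =
      ∑ B : Finset (Fin n), if t ≤ (p : ℕ) then ∑ r ∈ Finset.range (n + 1),
        (if B.card = r + 1 ∧ p ∈ B ∧ ∀ x ∈ B, x ≤ p then q ^ wP (fun _ _ => True) B else 0)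
        else 0 := by
    intro p
    by_cases hp : t ≤ (p : ℕ)
    · simp only [if_pos hp]
      rw [Finset.sum_comm]
      refine Finset.sum_congr rfl fun r _ => ?_
      rw [← sum_last q n r p, Finset.sum_filter]
    · simp only [if_neg hp, Finset.sum_const_zero]
  rw [Finset.sum_congr rfl fun p _ => e2 p, Finset.sum_comm]
  refine Finset.sum_le_sum fun B _ => ?_
  by_cases hB : 3 ≤ B.card ∧ ∃ p ∈ B, t ≤ (p : ℕ)
  · rw [if_pos hB]
    obtain ⟨h3, p0, hp0, hp0t⟩ := hB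
    have hne : B.Nonempty := ⟨p0, hp0⟩
    have hmB := B.max'_mem hne
    have hmax : ∀ x ∈ B, x ≤ B.max' hne := fun x hx => B.le_max' x hx
    have htm : t ≤ ((B.max' hne : Fin n) : ℕ) := le_trans hp0t (hmax p0 hp0)
    refine le_trans ?_ (Finset.single_le_sum (fun p _ => Nat.zero_le _)
      (Finset.mem_univ (B.max' hne)))
    rw [if_pos htm]
    have hcard : B.card ≤ n := by
      have := Finset.card_le_univ B
      rwa [Fintype.card_fin] at this
    refine le_trans ?_ (Finset.single_le_sum (fun r _ => Nat.zero_le _)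
      (Finset.mem_range.mpr (show B.card - 1 < n + 1 by omega)))
    rw [if_pos ⟨by omega, hmB, hmax⟩]
  · rw [if_neg hB]
    exact Nat.zero_le _

theorem bad_sum (K : Type) [Field K] [Fintype K] (n t : ℕ) (ht : t ≤ n) :
    (nBad K n : ℝ) ≤ ((gb (Fintype.card K) n 0 + gb (Fintype.card K) n 1 +
        gb (Fintype.card K) n 2 : ℕ) : ℝ) +
      ((∑ p ∈ Finset.Ico t n, ∑ r ∈ Finset.range (n + 1),
        gb (Fintype.card K) p r * Fintype.card K ^ ((r + 1) * (n - 1 - p)) : ℕ) : ℝ) +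
      (n : ℝ) ^ 2 * (Fintype.card K : ℝ) ^ 3 * (1 - ((Fintype.card K : ℝ) ^ 3)⁻¹) ^ (n - t) *
        (gal (Fintype.card K) n : ℝ) := by
  classical
  have hq : 2 ≤ Fintype.card K := Fintype.one_lt_card
  set q := Fintype.card K with hqdef
  have hq1 : (1 : ℝ) ≤ (q : ℝ) ^ 3 := one_le_pow₀ (by exact_mod_cast (by omega : 1 ≤ q))
  have hx0 : (0 : ℝ) ≤ 1 - ((q : ℝ) ^ 3)⁻¹ := by
    have := inv_le_one_of_one_le₀ hq1
    linarith
  have hx1 : 1 - ((q : ℝ) ^ 3)⁻¹ ≤ 1 := by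
    have : 0 ≤ ((q : ℝ) ^ 3)⁻¹ := inv_nonneg.mpr (by positivity)
    linarith
  set c : ℝ := (n : ℝ) ^ 2 * (q : ℝ) ^ 3 * (1 - ((q : ℝ) ^ 3)⁻¹) ^ (n - t) with hc
  have hc0 : 0 ≤ c := by positivity
  have key : ∀ B : Finset (Fin n),
      ((Nat.card {p : Ech K n // p.B = B ∧ ¬ Rich q (linM p.mat)} : ℕ) : ℝ) ≤
      ((if B.card ≤ 2 then q ^ wP (fun _ _ => True) B else 0 : ℕ) : ℝ) +
      ((if 3 ≤ B.card ∧ ∃ p ∈ B, t ≤ (p : ℕ) then q ^ wP (fun _ _ => True) B else 0 : ℕ) : ℝ) +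
      c * ((q ^ wP (fun _ _ => True) B : ℕ) : ℝ) := by
    intro B
    have hle : ((Nat.card {p : Ech K n // p.B = B ∧ ¬ Rich q (linM p.mat)} : ℕ) : ℝ) ≤
        ((q ^ wP (fun _ _ => True) B : ℕ) : ℝ) := by exact_mod_cast bs_le K n B
    have hW : (0 : ℝ) ≤ ((q ^ wP (fun _ _ => True) B : ℕ) : ℝ) := Nat.cast_nonneg _
    have hcW := mul_nonneg hc0 hW
    by_cases h2 : B.card ≤ 2
    · rw [if_pos h2, if_neg (fun h => by omega)]
      rw [Nat.cast_zero, add_zero]
      linarith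
    · have h3 : 3 ≤ B.card := by omega
      rw [if_neg h2]
      by_cases hp : ∃ p ∈ B, t ≤ (p : ℕ)
      · rw [if_pos ⟨h3, hp⟩, Nat.cast_zero, zero_add]
        linarith
      · rw [if_neg (fun h => hp h.2), Nat.cast_zero, zero_add, zero_add]
        have hne : B.Nonempty := Finset.card_pos.mp (by omega)
        have hmB := B.max'_mem hne
        have hmt : ((B.max' hne : Fin n) : ℕ) < t := by
          by_contra h
          exact hp ⟨_, hmB, not_lt.mp h⟩
        have hb := bad_fix (K := K) B h3 (B.max' hne) (fun x hx => B.le_max' x hx)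
        rw [card_ech_B] at hb
        refine le_trans hb ?_
        refine mul_le_mul_of_nonneg_right ?_ hW
        rw [hc]
        refine mul_le_mul_of_nonneg_left ?_ (by positivity)
        exact pow_le_pow_of_le_one hx0 hx1 (by omega)
  calc (nBad K n : ℝ) = ∑ B : Finset (Fin n),
        ((Nat.card {p : Ech K n // p.B = B ∧ ¬ Rich q (linM p.mat)} : ℕ) : ℝ) := by
          rw [bs_fib K n, Nat.cast_sum]
    _ ≤ ∑ B : Finset (Fin n),
        (((if B.card ≤ 2 then q ^ wP (fun _ _ => True) B else 0 : ℕ) : ℝ) +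
      ((if 3 ≤ B.card ∧ ∃ p ∈ B, t ≤ (p : ℕ) then q ^ wP (fun _ _ => True) B else 0 : ℕ) : ℝ) +
      c * ((q ^ wP (fun _ _ => True) B : ℕ) : ℝ)) := Finset.sum_le_sum fun B _ => key B
    _ = ((∑ B : Finset (Fin n), (if B.card ≤ 2 then q ^ wP (fun _ _ => True) B else 0) : ℕ) : ℝ) +
        ((∑ B : Finset (Fin n), (if 3 ≤ B.card ∧ ∃ p ∈ B, t ≤ (p : ℕ) then
          q ^ wP (fun _ _ => True) B else 0) : ℕ) : ℝ) +
        c * ((∑ B : Finset (Fin n), q ^ wP (fun _ _ => True) B : ℕ) : ℝ) := by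
          rw [Finset.sum_add_distrib, Finset.sum_add_distrib, ← Finset.mul_sum]
          push_cast
          rfl
    _ ≤ _ := by
          rw [bs_one, sum_gal]
          have := bs_two q n t
          have h' : ((∑ B : Finset (Fin n), (if 3 ≤ B.card ∧ ∃ p ∈ B, t ≤ (p : ℕ) then
            q ^ wP (fun _ _ => True) B else 0) : ℕ) : ℝ) ≤
              ((∑ p ∈ Finset.Ico t n, ∑ r ∈ Finset.range (n + 1),
                gb q p r * q ^ ((r + 1) * (n - 1 - p)) : ℕ) : ℝ) := by exact_mod_cast this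
          linarith

end Pool.Agent.AM
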