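import Pool.Agent.AM.RichO

set_option autoImplicit false

/-!
# Module Blk: matrices `[I | D | A]`

The matrix is a matrix in echelon form with some zero rows added.
-/

namespace Pool.Agent.AM
private theorem bk_left {K : Type} [Field K] {r s t : ℕ} (D : Matrix (Fin r) (Fin s) K)
    (A : Matrix (Fin r) (Fin t) K) (i : Fin r) {y : Fin (r + s + t)} (hy : (y : ℕ) < r) :
    blk D A i y = if (⟨y, hy⟩ : Fin r) = i then 1 else 0 := by
  have h1 : y = Fin.castAdd t (Fin.castAdd s ⟨y, hy⟩) := Fin.ext rfl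
  unfold blk
  conv_lhs => rw [h1]
  rw [Fin.append_left, Fin.append_left]

private theorem bk_mid {K : Type} [Field K] {r s t : ℕ} (D : Matrix (Fin r) (Fin s) K)
    (A : Matrix (Fin r) (Fin t) K) (i : Fin r) (y : Fin s) :
    blk D A i (Fin.castAdd t (Fin.natAdd r y)) = D i y := by
  unfold blk
  rw [Fin.append_left, Fin.append_right]

private def bkE {K : Type} [Field K] {r s t : ℕ} (D : Matrix (Fin r) (Fin s) K)
    (A : Matrix (Fin r) (Fin t) K) : Ech K (r + s + t) where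
  B := Finset.univ.filter fun x : Fin (r + s + t) => (x : ℕ) < r
  D y i := if h : (i : ℕ) < r ∧ r ≤ (y : ℕ) then blk D A ⟨i, h.1⟩ y else 0
  ech := by
    intro y i hi
    by_cases h : (i : ℕ) < r ∧ r ≤ (y : ℕ)
    · refine ⟨Finset.mem_filter.2 ⟨Finset.mem_univ _, h.1⟩, ?_, ?_⟩
      · intro h2
        have h3 : (y : ℕ) < r := (Finset.mem_filter.1 h2).2
        omega
      · exact Fin.lt_def.2 (by omega)
    · exact absurd (dif_neg h) hi

private theorem bkE_mem {K : Type} [Field K] {r s t : ℕ} (D : Matrix (Fin r) (Fin s) K)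
    (A : Matrix (Fin r) (Fin t) K) (x : Fin (r + s + t)) : x ∈ (bkE D A).B ↔ (x : ℕ) < r := by
  constructor
  · intro h
    exact (Finset.mem_filter.1 h).2
  · intro h
    exact Finset.mem_filter.2 ⟨Finset.mem_univ _, h⟩

private theorem bkE_D {K : Type} [Field K] {r s t : ℕ} (D : Matrix (Fin r) (Fin s) K)
    (A : Matrix (Fin r) (Fin t) K) (y i : Fin (r + s + t)) (hi : (i : ℕ) < r)
    (hy : r ≤ (y : ℕ)) : (bkE D A).D y i = blk D A ⟨i, hi⟩ y := dif_pos ⟨hi, hy⟩

private theorem bkE_mat {K : Type} [Field K] {r s t : ℕ} (D : Matrix (Fin r) (Fin s) K)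
    (A : Matrix (Fin r) (Fin t) K) (i y : Fin (r + s + t)) :
    (bkE D A).mat i y = if h : (i : ℕ) < r then blk D A ⟨i, h⟩ y else 0 := by
  unfold Ech.mat Ech.col
  by_cases hy : (y : ℕ) < r
  · rw [if_pos ((bkE_mem D A y).2 hy)]
    by_cases hi : (i : ℕ) < r
    · rw [dif_pos hi, bk_left D A ⟨i, hi⟩ hy]
      by_cases h : i = y
      · have h4 : (⟨(y : ℕ), hy⟩ : Fin r) = ⟨(i : ℕ), hi⟩ :=
          Fin.ext (congrArg (fun x : Fin (r + s + t) => (x : ℕ)) h).symm
        rw [if_pos h, if_pos h4]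
      · rw [if_neg h, if_neg]
        intro h2
        apply h
        have h3 : (y : ℕ) = (i : ℕ) := congrArg (fun x : Fin r => (x : ℕ)) h2
        exact Fin.ext h3.symm
    · rw [dif_neg hi, if_neg]
      intro h
      rw [h] at hi
      exact hi hy
  · rw [if_neg (fun h => hy ((bkE_mem D A y).1 h))]
    by_cases hi : (i : ℕ) < r
    · rw [dif_pos hi, bkE_D D A y i hi (by omega)]
    · rw [dif_neg hi]
      exact dif_neg fun h => hi h.1

private def bkX {K : Type} [Field K] {r N : ℕ} : (Fin r → K) →ₗ[K] (Fin N → K) where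
  toFun x i := if h : (i : ℕ) < r then x ⟨i, h⟩ else 0
  map_add' x y := by
    funext i
    show (if h : (i : ℕ) < r then (x + y) ⟨i, h⟩ else 0) =
      (if h : (i : ℕ) < r then x ⟨i, h⟩ else 0) + (if h : (i : ℕ) < r then y ⟨i, h⟩ else 0)
    by_cases h : (i : ℕ) < r
    · rw [dif_pos h, dif_pos h, dif_pos h]
      rfl
    · rw [dif_neg h, dif_neg h, dif_neg h, add_zero]
  map_smul' c x := by
    funext i
    show (if h : (i : ℕ) < r then (c • x) ⟨i, h⟩ else 0) =
      c * (if h : (i : ℕ) < r then x ⟨i, h⟩ else 0)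
    by_cases h : (i : ℕ) < r
    · rw [dif_pos h, dif_pos h]
      rfl
    · rw [dif_neg h, dif_neg h, mul_zero]

private theorem bkX_apply {K : Type} [Field K] {r N : ℕ} (x : Fin r → K) (i : Fin N) :
    bkX x i = if h : (i : ℕ) < r then x ⟨i, h⟩ else 0 := rfl

private theorem bkX_inj {K : Type} [Field K] {r N : ℕ} (h : r ≤ N) :
    Function.Injective (bkX : (Fin r → K) →ₗ[K] (Fin N → K)) := by
  intro x y hxy
  funext j
  have h1 := congrFun hxy (⟨j, lt_of_lt_of_le j.2 h⟩ : Fin N)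
  rw [bkX_apply, bkX_apply, dif_pos j.2, dif_pos j.2] at h1
  exact h1

private theorem bk_linM {K : Type} [Field K] {r s t : ℕ} (D : Matrix (Fin r) (Fin s) K)
    (A : Matrix (Fin r) (Fin t) K) : linM (bkE D A).mat = linM (blk D A) := by
  refine linM_unique (linM_E _) fun J => (linM_rep (bkE D A).mat J).trans ?_
  have h1 : (fun j : J => fun i => (bkE D A).mat i j) =
      (bkX : (Fin r → K) →ₗ[K] (Fin (r + s + t) → K)) ∘ fun j : J => fun i => blk D A i j := by
    funext j i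
    rw [bkE_mat]
    rfl
  rw [h1]
  exact LinearMap.linearIndependent_iff _ (LinearMap.ker_eq_bot.2 (bkX_inj (by omega)))

theorem rich_blk {K : Type} [Field K] [Fintype K] {r s t : ℕ} (hr : 3 ≤ r)
    (D : Matrix (Fin r) (Fin s) K) (A : Matrix (Fin r) (Fin t) K)
    (h : ∀ i j : Fin r, (i : ℕ) ≠ 0 → (j : ℕ) ≠ 0 → i ≠ j → ∀ z : Fin 3 → K,
      ∃ y : Fin s, D ⟨0, by omega⟩ y = z 0 ∧ D i y = z 1 ∧ D j y = z 2) :
    Rich (Fintype.card K) (linM (blk D A)) := by
  rw [← bk_linM]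
  have h0 : (0 : ℕ) < r := by omega
  refine rich_of (bkE D A) ⟨0, by omega⟩ ((bkE_mem D A _).2 h0) (fun x _ => Fin.le_def.2 (Nat.zero_le _))
    ?_ ?_
  · have h1 : (Finset.univ : Finset (Fin r)).map
        (Fin.castLEEmb (show r ≤ r + s + t by omega)) ⊆ (bkE D A).B := by
      intro x hx
      obtain ⟨y, _, rfl⟩ := Finset.mem_map.1 hx
      exact (bkE_mem D A _).2 y.2
    have h2 := Finset.card_le_card h1
    rw [Finset.card_map, Finset.card_univ, Fintype.card_fin] at h2
    omega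
  · intro i hi j hj hia hja hij z
    have hi' : (i : ℕ) < r := (bkE_mem D A i).1 hi
    have hj' : (j : ℕ) < r := (bkE_mem D A j).1 hj
    obtain ⟨y, h1, h2, h3⟩ := h ⟨i, hi'⟩ ⟨j, hj'⟩ (fun h4 => hia (Fin.ext h4))
      (fun h4 => hja (Fin.ext h4)) (fun h4 => hij (Fin.ext (by
        have h5 := congrArg (fun x : Fin r => (x : ℕ)) h4
        exact h5))) z
    have hy : r ≤ ((Fin.castAdd t (Fin.natAdd r y) : Fin (r + s + t)) : ℕ) := by
      show r ≤ r + (y : ℕ)
      omega
    refine ⟨Fin.castAdd t (Fin.natAdd r y), ?_, ?_, ?_, ?_⟩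
    · intro h4
      have h5 := (bkE_mem D A _).1 h4
      omega
    · rw [bkE_D D A _ _ h0 hy, bk_mid, h1]
    · rw [bkE_D D A _ _ hi' hy, bk_mid, h2]
    · rw [bkE_D D A _ _ hj' hy, bk_mid, h3]

end Pool.Agent.AM
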