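import Pool.Agent.AM.Defs

set_option autoImplicit false

/-!
# Module ColO: one random column
-/

namespace Pool.Agent.AM

theorem col_one {K : Type} [Field K] [Fintype K] {ι : Type} [Fintype ι] {a i j : ι}
    (hai : a ≠ i) (haj : a ≠ j) (hij : i ≠ j) (z : Fin 3 → K) :
    Nat.card {c : ι → K // ¬ (c a = z 0 ∧ c i = z 1 ∧ c j = z 2)} * Fintype.card K ^ 3 =
      (Fintype.card K ^ 3 - 1) * Fintype.card K ^ Fintype.card ι := by
  classical
  have h1 : Fintype.card {c : ι → K // c a = z 0 ∧ c i = z 1 ∧ c j = z 2} =
      Fintype.card K ^ (Fintype.card ι - 3) := by
    let t : ι → Finset K := fun x => if x = a then {z 0} else if x = i then {z 1}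
      else if x = j then {z 2} else Finset.univ
    have h2 : (Finset.univ.filter fun c : ι → K => c a = z 0 ∧ c i = z 1 ∧ c j = z 2) =
        Fintype.piFinset t := by
      ext c
      rw [Finset.mem_filter, Fintype.mem_piFinset]
      constructor
      · rintro ⟨_, h3, h4, h5⟩ x
        show c x ∈ (if x = a then {z 0} else if x = i then {z 1}
          else if x = j then {z 2} else Finset.univ : Finset K)
        by_cases hxa : x = a
        · rw [if_pos hxa, hxa, Finset.mem_singleton]
          exact h3
        · rw [if_neg hxa]
          by_cases hxi : x = i
          · rw [if_pos hxi, hxi, Finset.mem_singleton]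
            exact h4
          · rw [if_neg hxi]
            by_cases hxj : x = j
            · rw [if_pos hxj, hxj, Finset.mem_singleton]
              exact h5
            · rw [if_neg hxj]
              exact Finset.mem_univ _
      · intro h3
        refine ⟨Finset.mem_univ _, ?_, ?_, ?_⟩
        · have h4 : c a ∈ (if a = a then {z 0} else if a = i then {z 1}
            else if a = j then {z 2} else Finset.univ : Finset K) := h3 a
          rw [if_pos rfl, Finset.mem_singleton] at h4
          exact h4
        · have h4 : c i ∈ (if i = a then {z 0} else if i = i then {z 1}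
            else if i = j then {z 2} else Finset.univ : Finset K) := h3 i
          rw [if_neg hai.symm, if_pos rfl, Finset.mem_singleton] at h4
          exact h4
        · have h4 : c j ∈ (if j = a then {z 0} else if j = i then {z 1}
            else if j = j then {z 2} else Finset.univ : Finset K) := h3 j
          rw [if_neg haj.symm, if_neg hij.symm, if_pos rfl, Finset.mem_singleton] at h4
          exact h4
    rw [Fintype.card_subtype, h2, Fintype.card_piFinset]
    have h3 : ∀ x : ι, (t x).card = if x ∈ ({a, i, j} : Finset ι) then 1 else Fintype.card K := by
      intro x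
      show (if x = a then {z 0} else if x = i then {z 1}
          else if x = j then {z 2} else Finset.univ : Finset K).card = _
      have hm : x ∈ ({a, i, j} : Finset ι) ↔ x = a ∨ x = i ∨ x = j := by
        rw [Finset.mem_insert, Finset.mem_insert, Finset.mem_singleton]
      by_cases hxa : x = a
      · rw [if_pos hxa, if_pos (hm.2 (Or.inl hxa)), Finset.card_singleton]
      · rw [if_neg hxa]
        by_cases hxi : x = i
        · rw [if_pos hxi, if_pos (hm.2 (Or.inr (Or.inl hxi))), Finset.card_singleton]
        · rw [if_neg hxi]
          by_cases hxj : x = j
          · rw [if_pos hxj, if_pos (hm.2 (Or.inr (Or.inr hxj))), Finset.card_singleton]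
          · rw [if_neg hxj, if_neg (fun hh => by
              rcases hm.1 hh with h | h | h
              · exact hxa h
              · exact hxi h
              · exact hxj h), Finset.card_univ]
    rw [Finset.prod_congr rfl fun x _ => h3 x, Finset.prod_ite, Finset.prod_const_one, one_mul,
      Finset.prod_const]
    congr 1
    have h4 : (Finset.univ.filter fun x : ι => x ∉ ({a, i, j} : Finset ι)) =
        Finset.univ \ {a, i, j} := by
      ext x
      simp
    rw [h4, Finset.card_sdiff_of_subset (Finset.subset_univ _), Finset.card_univ]
    have h5 : ({a, i, j} : Finset ι).card = 3 := by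
      rw [Finset.card_insert_of_notMem, Finset.card_insert_of_notMem, Finset.card_singleton]
      · rw [Finset.mem_singleton]
        exact hij
      · rw [Finset.mem_insert, Finset.mem_singleton]
        tauto
    rw [h5]
  have h6 : 3 ≤ Fintype.card ι := by
    have h5 : ({a, i, j} : Finset ι).card = 3 := by
      rw [Finset.card_insert_of_notMem, Finset.card_insert_of_notMem, Finset.card_singleton]
      · rw [Finset.mem_singleton]
        exact hij
      · rw [Finset.mem_insert, Finset.mem_singleton]
        tauto
    rw [← h5]
    exact Finset.card_le_univ _
  have h7 : Fintype.card K ^ Fintype.card ι =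
      Fintype.card K ^ 3 * Fintype.card K ^ (Fintype.card ι - 3) := by
    rw [← pow_add]
    congr 1
    omega
  rw [Nat.card_eq_fintype_card, Fintype.card_subtype_compl, h1, Fintype.card_fun, h7]
  generalize Fintype.card K ^ (Fintype.card ι - 3) = N
  generalize Fintype.card K ^ 3 = Q
  rw [Nat.sub_mul, Nat.sub_mul, one_mul]
  congr 1
  · ring
  · ring

end Pool.Agent.AM
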