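import Pool.Agent.AM.Blk
import Pool.Agent.AM.ColO

set_option autoImplicit false

/-!
# Module BlkC: random columns
-/

namespace Pool.Agent.AM

private theorem blkC_one {K : Type} [Field K] [Fintype K] {r s : ℕ} (hr : 3 ≤ r)
    (t : Fin r × (Fin r × (Fin 3 → K))) :
    ({D : Matrix (Fin r) (Fin s) K | ((t.1 : ℕ) ≠ 0 ∧ (t.2.1 : ℕ) ≠ 0 ∧ t.1 ≠ t.2.1) ∧
      ∀ y : Fin s, ¬ (D ⟨0, by omega⟩ y = t.2.2 0 ∧ D t.1 y = t.2.2 1 ∧ D t.2.1 y = t.2.2 2)}.ncard : ℝ) ≤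
      (1 - ((Fintype.card K : ℝ) ^ 3)⁻¹) ^ s * (Nat.card (Matrix (Fin r) (Fin s) K) : ℝ) := by
  obtain ⟨i, j, z⟩ := t
  simp only
  have hq0 : 0 < Fintype.card K := Fintype.card_pos
  have hq : (1 : ℝ) ≤ (Fintype.card K : ℝ) := by exact_mod_cast hq0
  have hq3 : (1 : ℝ) ≤ (Fintype.card K : ℝ) ^ 3 := one_le_pow₀ hq
  have hfac : (0 : ℝ) ≤ 1 - ((Fintype.card K : ℝ) ^ 3)⁻¹ := by
    have h1 := inv_le_one_of_one_le₀ hq3
    linarith
  by_cases hc : ((i : ℕ) ≠ 0 ∧ (j : ℕ) ≠ 0 ∧ i ≠ j)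
  · have hai : (⟨0, by omega⟩ : Fin r) ≠ i := by
      intro h
      apply hc.1
      rw [← h]
    have haj : (⟨0, by omega⟩ : Fin r) ≠ j := by
      intro h
      apply hc.2.1
      rw [← h]
    have hcol := col_one (K := K) hai haj hc.2.2 z
    have hcard : {D : Matrix (Fin r) (Fin s) K | ((i : ℕ) ≠ 0 ∧ (j : ℕ) ≠ 0 ∧ i ≠ j) ∧
        ∀ y : Fin s, ¬ (D ⟨0, by omega⟩ y = z 0 ∧ D i y = z 1 ∧ D j y = z 2)}.ncard =
        Nat.card {c : Fin r → K // ¬ (c ⟨0, by omega⟩ = z 0 ∧ c i = z 1 ∧ c j = z 2)} ^ s := by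
      let φ : {D : Matrix (Fin r) (Fin s) K | ((i : ℕ) ≠ 0 ∧ (j : ℕ) ≠ 0 ∧ i ≠ j) ∧
          ∀ y : Fin s, ¬ (D ⟨0, by omega⟩ y = z 0 ∧ D i y = z 1 ∧ D j y = z 2)} ≃
          (Fin s → {c : Fin r → K // ¬ (c ⟨0, by omega⟩ = z 0 ∧ c i = z 1 ∧ c j = z 2)}) :=
        { toFun := fun D y => ⟨fun i => D.1 i y, D.2.2 y⟩
          invFun := fun g => ⟨fun i y => (g y).1 i, hc, fun y => (g y).2⟩
          left_inv := fun _ => rfl
          right_inv := fun _ => rfl }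
      rw [← Nat.card_coe_set_eq, Nat.card_congr φ, Nat.card_fun, Nat.card_eq_fintype_card (α := Fin s),
        Fintype.card_fin]
    rw [hcard]
    have hmat : Nat.card (Matrix (Fin r) (Fin s) K) = (Fintype.card K ^ r) ^ s := by
      show Nat.card (Fin r → Fin s → K) = _
      rw [Nat.card_fun, Nat.card_fun, Nat.card_eq_fintype_card (α := Fin s), Fintype.card_fin,
        Nat.card_eq_fintype_card (α := Fin r), Fintype.card_fin, Nat.card_eq_fintype_card, ← pow_mul,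
        ← pow_mul, mul_comm]
    rw [hmat, Fintype.card_fin] at *
    generalize Nat.card {c : Fin r → K // ¬ (c ⟨0, by omega⟩ = z 0 ∧ c i = z 1 ∧ c j = z 2)} = N at hcol
    have h1 : (N : ℝ) * (Fintype.card K : ℝ) ^ 3 = ((Fintype.card K : ℝ) ^ 3 - 1) * (Fintype.card K : ℝ) ^ r := by
      have h2 : ((Fintype.card K ^ 3 - 1 : ℕ) : ℝ) = (Fintype.card K : ℝ) ^ 3 - 1 := by
        rw [Nat.cast_sub (Nat.one_le_pow _ _ hq0)]
        push_cast
        ring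
      rw [← h2]
      exact_mod_cast hcol
    have h3 : (N : ℝ) = (1 - ((Fintype.card K : ℝ) ^ 3)⁻¹) * (Fintype.card K : ℝ) ^ r := by
      have h4 : (Fintype.card K : ℝ) ^ 3 ≠ 0 := by positivity
      field_simp
      linarith
    rw [Nat.cast_pow, h3, mul_pow]
    push_cast
    exact le_rfl
  · have hempty : {D : Matrix (Fin r) (Fin s) K | ((i : ℕ) ≠ 0 ∧ (j : ℕ) ≠ 0 ∧ i ≠ j) ∧
        ∀ y : Fin s, ¬ (D ⟨0, by omega⟩ y = z 0 ∧ D i y = z 1 ∧ D j y = z 2)} = ∅ := by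
      ext D
      exact ⟨fun h => absurd h.1 hc, fun h => absurd h (Set.notMem_empty D)⟩
    rw [hempty, Set.ncard_empty, Nat.cast_zero]
    positivity

theorem blk_count {K : Type} [Field K] [Fintype K] {r s t : ℕ} (hr : 3 ≤ r)
    (A : Matrix (Fin r) (Fin t) K) :
    ({D : Matrix (Fin r) (Fin s) K | ¬ Rich (Fintype.card K) (linM (blk D A))}.ncard : ℝ) ≤
      (r : ℝ) ^ 2 * (Fintype.card K : ℝ) ^ 3 * (1 - ((Fintype.card K : ℝ) ^ 3)⁻¹) ^ s *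
        (Nat.card (Matrix (Fin r) (Fin s) K) : ℝ) := by
  classical
  have hsub : {D : Matrix (Fin r) (Fin s) K | ¬ Rich (Fintype.card K) (linM (blk D A))} ⊆
      ⋃ u ∈ (Finset.univ : Finset (Fin r × (Fin r × (Fin 3 → K)))),
        {D : Matrix (Fin r) (Fin s) K | ((u.1 : ℕ) ≠ 0 ∧ (u.2.1 : ℕ) ≠ 0 ∧ u.1 ≠ u.2.1) ∧
          ∀ y : Fin s, ¬ (D ⟨0, by omega⟩ y = u.2.2 0 ∧ D u.1 y = u.2.2 1 ∧ D u.2.1 y = u.2.2 2)} := by
    intro D hD
    by_contra hcon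
    apply hD
    apply rich_blk hr D A
    intro i j hi hj hij z
    by_contra hno
    apply hcon
    rw [Set.mem_iUnion₂]
    exact ⟨(i, (j, z)), Finset.mem_univ _, ⟨hi, hj, hij⟩, fun y hy => hno ⟨y, hy⟩⟩
  have h1 := (Set.ncard_le_ncard hsub (Set.toFinite _)).trans (Finset.set_ncard_biUnion_le _ _)
  have h2 : ({D : Matrix (Fin r) (Fin s) K | ¬ Rich (Fintype.card K) (linM (blk D A))}.ncard : ℝ) ≤
      ∑ _u : Fin r × (Fin r × (Fin 3 → K)),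
        (1 - ((Fintype.card K : ℝ) ^ 3)⁻¹) ^ s * (Nat.card (Matrix (Fin r) (Fin s) K) : ℝ) := by
    refine le_trans (Nat.cast_le.2 h1) ?_
    rw [Nat.cast_sum]
    exact Finset.sum_le_sum fun u _ => blkC_one hr u
  refine h2.trans (le_of_eq ?_)
  rw [Finset.sum_const, Finset.card_univ, Fintype.card_prod, Fintype.card_prod, Fintype.card_fin,
    Fintype.card_fun, Fintype.card_fin, nsmul_eq_mul]
  push_cast
  ring

end Pool.Agent.AM
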