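import Pool.Agent.AM.Defs

set_option autoImplicit false

/-!
# Module Cht: a chart of a full plane is a coordinate system, up to an automorphism and scalings

This is the fundamental theorem of projective geometry for a plane over a finite field, in a very
simple form: `U y`, `V y` (`y : ι`) are vectors with the same singular triples, `U` takes all
directions, and the unit vectors correspond to the unit vectors.

Plan. Write `x ~ y` for `Prp x y`. For nonzero `z` choose `Y z : ι` with `z ~ U (Y z)` and put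
`F z := V (Y z) ≠ 0` (`h0`). `det3` is multilinear, so singularity depends only on directions.
(1) If `U x ~ U y` (nonzero) then `V x ~ V y`: for all `w`, `det3 (U x) (U y) (U w) = 0`, so
`det3 (V x) (V y) (V w) = 0` for all `w`; taking `w = e0, e1, e2`-elements gives that all `2 × 2` minors
of `V x, V y` vanish, and both are nonzero.
(2) `F (1, a, b)`: not on the line of `e1, e2` so its first coordinate is not zero: normalized it is
`(1, f a b, g a b)`. `(1, a, b), (1, a, b'), e2` are singular, hence `f a b = f a b' =: f a`; in the same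
way (with `e1`) `g a b =: g b`. `f 0 = 0`, `g 0 = 0` (`(1, 0, b), e0, e2` singular...). `f a ≠ 0` for
`a ≠ 0`, same for `g`. `F (0, 1, m) ~ (0, 1, h m)` (`(0, 1, m), e1, e2` are singular and `(0, 1, m), e0, e2`
are not). `F (0, 0, 1) ~ e2`.
(3) `e0, (0, 1, m), (1, a, m * a)` are singular: `g (m * a) = h m * f a`.
`(0, 1, m), (1, 0, b), (1, a, b + m * a)` are singular: `g (b + m * a) = g b + h m * f a = g b + g (m * a)`.
So with `σ x := g x / g 1`: `σ` is additive, `h m = g m / f 1` (`a = 1`), `f a = g a / h 1` (`m = 1`),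
`g 1 = h 1 * f 1`, and `g (m * a) = g m * g a / g 1`, i.e. `σ` is multiplicative; `σ 1 = 1`. A ring
homomorphism of a finite field is bijective (`RingEquiv.ofBijective`, `Finite.injective_iff_bijective`).
(4) `F (1, a, b) ~ (1, f 1 * σ a, g 1 * σ b)`, `F (0, 1, m) ~ (0, f 1, g 1 * σ m)`, `F (0, 0, 1) ~ e2`. So
with `d = f 1`, `e = g 1`: for all `y` with `U y ≠ 0`, writing `U y = c • z` with `z` normalized,
`V y ~ F z ~ (σ (z 0), d * σ (z 1), e * σ (z 2)) ~ (σ (U y 0), d * σ (U y 1), e * σ (U y 2))`; if
`U y = 0` both sides are `0`.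
-/

namespace Pool.Agent.AM

section aux

variable {K : Type} [Field K]

private theorem prp_rfl (x : Fin 3 → K) : Prp x x := ⟨1, one_ne_zero, by simp⟩

private theorem prp_sym {x y : Fin 3 → K} (h : Prp x y) : Prp y x := by
  obtain ⟨c, hc, rfl⟩ := h
  exact ⟨c⁻¹, inv_ne_zero hc, by rw [smul_smul, inv_mul_cancel₀ hc, one_smul]⟩

private theorem prp_tra {x y z : Fin 3 → K} (h : Prp x y) (h' : Prp y z) : Prp x z := by
  obtain ⟨c, hc, rfl⟩ := h
  obtain ⟨d, hd, rfl⟩ := h'
  exact ⟨d * c, mul_ne_zero hd hc, by rw [smul_smul]⟩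

private theorem prp_min {x y : Fin 3 → K} (hx : x ≠ 0) (hy : y ≠ 0)
    (h01 : x 0 * y 1 = x 1 * y 0) (h02 : x 0 * y 2 = x 2 * y 0)
    (h12 : x 1 * y 2 = x 2 * y 1) : Prp x y := by
  have key : ∀ i : Fin 3, x i ≠ 0 → (∀ j, x i * y j = x j * y i) → Prp x y := by
    intro i hi hm
    have hy' : ∀ j, y j = (y i / x i) * x j := by
      intro j
      field_simp
      linear_combination hm j
    refine ⟨y i / x i, ?_, ?_⟩
    · intro h
      apply hy
      funext j
      rw [hy' j, h, zero_mul]
      rfl
    · funext j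
      rw [Pi.smul_apply, smul_eq_mul]
      exact hy' j
  by_cases h0 : x 0 = 0
  · by_cases h1 : x 1 = 0
    · have h2 : x 2 ≠ 0 := by
        intro h2
        apply hx
        funext j
        fin_cases j <;> simpa
      refine key 2 h2 ?_
      intro j
      fin_cases j
      · show x 2 * y 0 = x 0 * y 2
        exact h02.symm
      · show x 2 * y 1 = x 1 * y 2
        exact h12.symm
      · rfl
    · refine key 1 h1 ?_
      intro j
      fin_cases j
      · show x 1 * y 0 = x 0 * y 1
        exact h01.symm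
      · rfl
      · exact h12
  · refine key 0 h0 ?_
    intro j
    fin_cases j
    · rfl
    · exact h01
    · exact h02

private theorem det3_smul (a b c : K) (x y z : Fin 3 → K) :
    det3 (a • x) (b • y) (c • z) = a * b * c * det3 x y z := by
  simp only [det3, Pi.smul_apply, smul_eq_mul]
  ring

private theorem det3_prp {x y z x' y' z' : Fin 3 → K} (hx : Prp x x') (hy : Prp y y')
    (hz : Prp z z') : det3 x y z = 0 ↔ det3 x' y' z' = 0 := by
  obtain ⟨a, ha, rfl⟩ := hx
  obtain ⟨b, hb, rfl⟩ := hy
  obtain ⟨c, hc, rfl⟩ := hz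
  rw [det3_smul]
  constructor
  · intro h
    rw [h, mul_zero]
  · intro h
    exact (mul_eq_zero.mp h).resolve_left (mul_ne_zero (mul_ne_zero ha hb) hc)

end aux

theorem chart {K : Type} [Field K] [Finite K] {ι : Type} (U V : ι → Fin 3 → K)
    (h0 : ∀ y, U y = 0 ↔ V y = 0)
    (hd : ∀ x y z, det3 (U x) (U y) (U z) = 0 ↔ det3 (V x) (V y) (V z) = 0)
    (hf : ∀ z : Fin 3 → K, z ≠ 0 → ∃ y, Prp z (U y))
    (ea : ∃ y, Prp ![1, 0, 0] (U y) ∧ Prp ![1, 0, 0] (V y))
    (eb : ∃ y, Prp ![0, 1, 0] (U y) ∧ Prp ![0, 1, 0] (V y))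
    (ec : ∃ y, Prp ![0, 0, 1] (U y) ∧ Prp ![0, 0, 1] (V y)) :
    ∃ (σ : K ≃+* K) (d e : K), d ≠ 0 ∧ e ≠ 0 ∧
      ∀ y, Prp ![σ (U y 0), d * σ (U y 1), e * σ (U y 2)] (V y) := by
  classical
  -- the relation between directions
  let R : (Fin 3 → K) → (Fin 3 → K) → Prop := fun z v => ∃ y, Prp z (U y) ∧ Prp v (V y)
  have Ra : R ![1, 0, 0] ![1, 0, 0] := ea
  have Rb : R ![0, 1, 0] ![0, 1, 0] := eb
  have Rc : R ![0, 0, 1] ![0, 0, 1] := ec
  have R2 : ∀ {x y z x' y' z' : Fin 3 → K}, R x x' → R y y' → R z z' →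
      (det3 x y z = 0 ↔ det3 x' y' z' = 0) := by
    rintro x y z x' y' z' ⟨p, hp, hp'⟩ ⟨q, hq, hq'⟩ ⟨r, hr, hr'⟩
    rw [det3_prp hp hq hr, hd p q r, det3_prp hp' hq' hr']
  have Rz : ∀ {z v : Fin 3 → K}, R z v → z ≠ 0 → v ≠ 0 := by
    rintro z v ⟨y, ⟨c, hc, hy⟩, ⟨c', hc', hy'⟩⟩ hz hv
    have h1 : V y = 0 := by rw [hy', hv, smul_zero]
    have h2 : U y = 0 := (h0 y).mpr h1
    rw [hy] at h2
    exact hz ((smul_eq_zero.mp h2).resolve_left hc)
  have R3 : ∀ {z v w : Fin 3 → K}, R z v → R z w → z ≠ 0 → Prp v w := by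
    intro z v w hv hw hz
    have e1 : det3 z z ![1, 0, 0] = 0 := by simp [det3]; ring
    have e2 : det3 z z ![0, 1, 0] = 0 := by simp [det3]; ring
    have e3 : det3 z z ![0, 0, 1] = 0 := by simp [det3]; ring
    have f1 := (R2 hv hw Ra).mp e1
    have f2 := (R2 hv hw Rb).mp e2
    have f3 := (R2 hv hw Rc).mp e3
    simp [det3] at f1 f2 f3
    refine prp_min (Rz hv hz) (Rz hw hz) ?_ ?_ ?_
    · linear_combination f3
    · linear_combination -f2
    · linear_combination f1
  have Rex : ∀ z : Fin 3 → K, z ≠ 0 → ∃ v, R z v := by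
    intro z hz
    obtain ⟨y, hy⟩ := hf z hz
    exact ⟨V y, y, hy, prp_rfl _⟩
  have Rsm : ∀ {z v w : Fin 3 → K}, R z v → Prp w v → R z w := by
    rintro z v w ⟨y, hy, hy'⟩ h
    exact ⟨y, hy, prp_tra h hy'⟩
  have n1 : ∀ a b : K, (![1, a, b] : Fin 3 → K) ≠ 0 := by
    intro a b h
    have := congrFun h 0
    simp at this
  have n2 : ∀ m : K, (![0, 1, m] : Fin 3 → K) ≠ 0 := by
    intro m h
    have := congrFun h 1
    simp at this
  have H1 : ∀ a b : K, ∃ p : K × K, R ![1, a, b] ![1, p.1, p.2] := by
    intro a b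
    obtain ⟨v, hv⟩ := Rex _ (n1 a b)
    have hv0 : v 0 ≠ 0 := by
      intro hv0
      have := (R2 hv Rb Rc).mpr (by simp [det3, hv0])
      simp [det3] at this
    refine ⟨(v 1 / v 0, v 2 / v 0), Rsm hv ⟨v 0, hv0, ?_⟩⟩
    funext j
    fin_cases j
    · simp
    · simp [mul_div_cancel₀, hv0]
    · simp [mul_div_cancel₀, hv0]
  have H2 : ∀ m : K, ∃ k : K, R ![0, 1, m] ![0, 1, k] := by
    intro m
    obtain ⟨v, hv⟩ := Rex _ (n2 m)
    have hv0 : v 0 = 0 := by
      have := (R2 hv Rb Rc).mp (by simp [det3])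
      simpa [det3] using this
    have hv1 : v 1 ≠ 0 := by
      intro hv1
      have := (R2 hv Ra Rc).mpr (by simp [det3, hv1])
      simp [det3] at this
    refine ⟨v 2 / v 1, Rsm hv ⟨v 1, hv1, ?_⟩⟩
    funext j
    fin_cases j
    · simp [hv0]
    · simp
    · simp; field_simp
  choose fg hfg using H1
  choose h hh using H2
  have ff : ∀ a b, (fg a b).1 = (fg a 0).1 := by
    intro a b
    have := (R2 (hfg a b) (hfg a 0) Rc).mp (by simp [det3])
    simp [det3] at this
    linear_combination -this
  have gg : ∀ a b, (fg a b).2 = (fg 0 b).2 := by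
    intro a b
    have := (R2 (hfg a b) (hfg 0 b) Rb).mp (by simp [det3])
    simp [det3] at this
    linear_combination this
  set f : K → K := fun a => (fg a 0).1 with hfdef
  set g : K → K := fun b => (fg 0 b).2 with hgdef
  have hR : ∀ a b, R ![1, a, b] ![1, f a, g b] := by
    intro a b
    have := hfg a b
    rw [ff a b, gg a b] at this
    exact this
  have e1 : ∀ m a, g (m * a) = h m * f a := by
    intro m a
    have := (R2 Ra (hh m) (hR a (m * a))).mp (by simp [det3])
    simp [det3] at this
    linear_combination this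
  have f0 : f 0 = 0 := by
    have := (R2 (hR 0 0) Ra Rc).mp (by simp [det3])
    simpa [det3] using this
  have g0 : g 0 = 0 := by
    have := e1 0 0
    rw [f0, mul_zero, mul_zero] at this
    exact this
  have e2 : ∀ b m a, g (b + m * a) = g b + g (m * a) := by
    intro b m a
    have := (R2 (hh m) (hR 0 b) (hR a (b + m * a))).mp (by simp [det3])
    simp [det3] at this
    rw [f0] at this
    linear_combination -this - e1 m a
  have f1 : f 1 ≠ 0 := by
    intro hf1
    have := (R2 (hR 1 0) Ra Rc).mpr (by simp [det3, hf1])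
    simp [det3] at this
  have g1 : g 1 ≠ 0 := by
    intro hg1
    have := (R2 (hR 0 1) Ra Rb).mpr (by simp [det3, hg1])
    simp [det3] at this
  have e3 : g 1 = h 1 * f 1 := by
    have := e1 1 1
    rwa [mul_one] at this
  have h1 : h 1 ≠ 0 := by
    intro h1
    apply g1
    rw [e3, h1, zero_mul]
  have e4 : ∀ m, g m = h m * f 1 := by
    intro m
    have := e1 m 1
    rwa [mul_one] at this
  have e5 : ∀ a, g a = h 1 * f a := by
    intro a
    have := e1 1 a
    rwa [one_mul] at this
  let s : K →+* K :=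
    { toFun := fun x => g x / g 1
      map_one' := div_self g1
      map_zero' := by rw [g0, zero_div]
      map_add' := by
        intro x y
        have := e2 x y 1
        rw [mul_one] at this
        rw [this, add_div]
      map_mul' := by
        intro x y
        rw [e1 x y]
        have h5 := e5 y
        have h4 := e4 x
        field_simp
        rw [e3, h4, h5]
        ring }
  have hs : ∀ x, s x = g x / g 1 := fun x => rfl
  have sb : Function.Bijective s := Finite.injective_iff_bijective.mp s.injective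
  let σ : K ≃+* K := RingEquiv.ofBijective s sb
  have hσ : ∀ x, σ x = g x / g 1 := fun x => rfl
  have hfσ : ∀ a, f a = f 1 * σ a := by
    intro a
    rw [hσ, e5 a, e3]
    field_simp
  have hgσ : ∀ a, g a = g 1 * σ a := by
    intro a
    rw [hσ]
    field_simp
  have hhσ : ∀ m, h m = g 1 * σ m / f 1 := by
    intro m
    rw [← hgσ, e4 m]
    field_simp
  refine ⟨σ, f 1, g 1, f1, g1, ?_⟩
  intro y
  by_cases hy : U y = 0
  · have hv : V y = 0 := (h0 y).mp hy
    rw [hv, hy]
    refine ⟨1, one_ne_zero, ?_⟩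
    funext j
    fin_cases j <;> simp
  · by_cases y0 : U y 0 = 0
    · by_cases y1 : U y 1 = 0
      · have y2 : U y 2 ≠ 0 := by
          intro y2
          apply hy
          funext j
          fin_cases j <;> simpa
        have hRy : R ![0, 0, 1] (V y) := by
          refine ⟨y, ⟨U y 2, y2, ?_⟩, prp_rfl _⟩
          funext j
          fin_cases j
          · simp [y0]
          · simp [y1]
          · simp
        have hz : (![0, 0, 1] : Fin 3 → K) ≠ 0 := by
          intro h
          have := congrFun h 2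
          simp at this
        refine prp_tra (prp_sym ⟨g 1 * σ (U y 2), ?_, ?_⟩) (R3 Rc hRy hz)
        · exact mul_ne_zero g1 ((map_ne_zero σ).mpr y2)
        · funext j
          fin_cases j
          · simp [y0]
          · simp [y1]
          · simp
      · have hRy : R ![0, 1, U y 2 / U y 1] (V y) := by
          refine ⟨y, ⟨U y 1, y1, ?_⟩, prp_rfl _⟩
          funext j
          fin_cases j
          · simp [y0]
          · simp
          · simp; field_simp
        refine prp_tra (prp_sym ⟨f 1 * σ (U y 1), ?_, ?_⟩) (R3 (hh _) hRy (n2 _))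
        · exact mul_ne_zero f1 ((map_ne_zero σ).mpr y1)
        · have hne : σ (U y 1) ≠ 0 := (map_ne_zero σ).mpr y1
          funext j
          fin_cases j
          · simp [y0]
          · simp
          · simp [hhσ, map_div₀]
            field_simp
    · have hRy : R ![1, U y 1 / U y 0, U y 2 / U y 0] (V y) := by
        refine ⟨y, ⟨U y 0, y0, ?_⟩, prp_rfl _⟩
        funext j
        fin_cases j
        · simp
        · simp; field_simp
        · simp; field_simp
      refine prp_tra (prp_sym ⟨σ (U y 0), ?_, ?_⟩) (R3 (hR _ _) hRy (n1 _ _))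
      · exact (map_ne_zero σ).mpr y0
      · have hne : σ (U y 0) ≠ 0 := (map_ne_zero σ).mpr y0
        funext j
        fin_cases j
        · simp
        · simp [hfσ (U y 1 / U y 0), map_div₀]
          field_simp
        · simp [hgσ (U y 2 / U y 0), map_div₀]
          field_simp

end Pool.Agent.AM
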