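import Pool.Agent.AM.Cht

set_option autoImplicit false

/-!
# Module ChtA: charts of full planes; charts that agree with the coordinates on a line
-/

namespace Pool.Agent.AM

open Pool.Agent.G4 (nor dif word prd)
open Pool.Agent.BW (rkX grdy cod dcd RkS crk)

variable {K : Type} [Field K] {ρ : List ℕ → ℕ} {E B : List ℕ} {u w : ℕ → ℕ → K}


theorem cht_one [Finite K] (h : SRep ρ E B u) {a b c : ℕ} (ha : a ∈ B) (hb : b ∈ B) (hc : c ∈ B)
    (hab : a ≠ b) (hac : a ≠ c) (hbc : b ≠ c) {Ψ : ℕ → Fin 3 → K} (hΨ : IsCht E u a b c Ψ)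
    (hf : Full E u a b c) :
    ∃ (σ : K ≃+* K) (d e : K), d ≠ 0 ∧ e ≠ 0 ∧
      ∀ y ∈ E, Prp ![σ (u y a), d * σ (u y b), e * σ (u y c)] (Ψ y) := by
  obtain ⟨σ, d, e, hd, he, H⟩ := chart (ι := {y // y ∈ E}) (fun y => v3 u a b c y.1)
    (fun y => Ψ y.1) (fun y => hΨ.z y.1 y.2) (fun x y z => hΨ.d x.1 x.2 y.1 y.2 z.1 z.2)
    (fun z hz => by
      obtain ⟨y, hy, hp⟩ := hf z hz
      exact ⟨⟨y, hy⟩, hp⟩)
    ⟨⟨a, h.BE a ha⟩, ⟨u a a, h.dia a ha, by
      funext j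
      fin_cases j
      · simp [v3]
      · simp [v3, h.off a ha b (Ne.symm hab)]
      · simp [v3, h.off a ha c (Ne.symm hac)]⟩, hΨ.ea⟩
    ⟨⟨b, h.BE b hb⟩, ⟨u b b, h.dia b hb, by
      funext j
      fin_cases j
      · simp [v3, h.off b hb a hab]
      · simp [v3]
      · simp [v3, h.off b hb c (Ne.symm hbc)]⟩, hΨ.eb⟩
    ⟨⟨c, h.BE c hc⟩, ⟨u c c, h.dia c hc, by
      funext j
      fin_cases j
      · simp [v3, h.off c hc a hac]
      · simp [v3, h.off c hc b hbc]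
      · simp [v3]⟩, hΨ.ec⟩
  exact ⟨σ, d, e, hd, he, fun y hy => H ⟨y, hy⟩⟩

theorem cht_two [Finite K] (h : SRep ρ E B u) {a b c : ℕ} (ha : a ∈ B) (hb : b ∈ B) (hc : c ∈ B)
    (hab : a ≠ b) (hac : a ≠ c) (hbc : b ≠ c) {Ψ : ℕ → Fin 3 → K} (hΨ : IsCht E u a b c Ψ)
    (hf : Full E u a b c)
    (anc : ∀ y ∈ E, ∃ t : K, t ≠ 0 ∧ Ψ y 0 = t * u y a ∧ Ψ y 1 = t * u y b) :
    ∃ e : K, e ≠ 0 ∧ ∀ y ∈ E, Prp ![u y a, u y b, e * u y c] (Ψ y) := by
  obtain ⟨σ, d, e, hd, he, H⟩ := cht_one h ha hb hc hab hac hbc hΨ hf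
  have key : ∀ t : K, d * σ t = t := by
    intro t
    obtain ⟨y, hy, k, hk, hv⟩ := hf ![1, t, 0] (by
      intro h0
      have := congrFun h0 0
      simp at this)
    have h0 : u y a = k := by
      have := congrFun hv 0
      simpa [v3] using this
    have h1 : u y b = k * t := by
      have := congrFun hv 1
      simpa [v3] using this
    obtain ⟨s, hs, hs0, hs1⟩ := anc y hy
    obtain ⟨κ, hκ, hP⟩ := H y hy
    have e0 : Ψ y 0 = κ * σ k := by
      rw [hP, ← h0]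
      simp
    have e1 : Ψ y 1 = κ * (d * (σ k * σ t)) := by
      rw [hP, ← map_mul, ← h1]
      simp
    have hσk : σ k ≠ 0 := (map_ne_zero σ).mpr hk
    have e2 : κ * σ k = s * k := by rw [← e0, hs0, h0]
    have e3 : κ * (d * (σ k * σ t)) = s * (k * t) := by rw [← e1, hs1, h1]
    have e4 : (κ * σ k) * (d * σ t) = (κ * σ k) * t := by
      linear_combination e3 - t * e2
    exact mul_left_cancel₀ (mul_ne_zero hκ hσk) e4
  have hd1 : d = 1 := by
    have := key 1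
    rwa [map_one, mul_one] at this
  have hσ : ∀ t, σ t = t := by
    intro t
    have := key t
    rwa [hd1, one_mul] at this
  refine ⟨e, he, fun y hy => ?_⟩
  have := H y hy
  rw [hσ, hσ, hσ, hd1, one_mul] at this
  exact this

end Pool.Agent.AM
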