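import Pool.Agent.AM.Defs

set_option autoImplicit false

/-!
# Module SrT: scalings and automorphisms

The rank is preserved by the semilinear bijection `x ↦ (i ↦ d i * σ (x i))` of `ℕ → K`.
-/

namespace Pool.Agent.AM

open Pool.Agent.G4 (nor dif word prd)
open Pool.Agent.BW (rkX grdy cod dcd RkS crk)

variable {K : Type} [Field K] {ρ : List ℕ → ℕ} {E B : List ℕ} {u w : ℕ → ℕ → K}

private noncomputable def srtPhi (σ : K ≃+* K) {d : ℕ → K} (hd : ∀ i, d i ≠ 0) :
    (ℕ → K) ≃+ (ℕ → K) where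
  toFun x i := d i * σ (x i)
  invFun y i := σ.symm ((d i)⁻¹ * y i)
  left_inv x := by
    funext i
    simp [hd i]
  right_inv y := by
    funext i
    simp [hd i]
  map_add' x y := by
    funext i
    simp [mul_add]

private theorem srtPhi_apply (σ : K ≃+* K) {d : ℕ → K} (hd : ∀ i, d i ≠ 0) (x : ℕ → K) (i : ℕ) :
    srtPhi σ hd x i = d i * σ (x i) := rfl

private theorem srtPhi_symm_apply (σ : K ≃+* K) {d : ℕ → K} (hd : ∀ i, d i ≠ 0) (y : ℕ → K)
    (i : ℕ) : (srtPhi σ hd).symm y i = σ.symm ((d i)⁻¹ * y i) := rfl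

private theorem srtPhi_smul (σ : K ≃+* K) {d : ℕ → K} (hd : ∀ i, d i ≠ 0) (c : K) (x : ℕ → K) :
    srtPhi σ hd (c • x) = σ c • srtPhi σ hd x := by
  funext i
  simp only [srtPhi_apply, Pi.smul_apply, smul_eq_mul, map_mul]
  ring

private theorem srtPhi_symm_smul (σ : K ≃+* K) {d : ℕ → K} (hd : ∀ i, d i ≠ 0) (c : K)
    (y : ℕ → K) : (srtPhi σ hd).symm (c • y) = σ.symm c • (srtPhi σ hd).symm y := by
  funext i
  simp only [srtPhi_symm_apply, Pi.smul_apply, smul_eq_mul, map_mul]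
  ring

private theorem srt_mem {σ : K ≃+* K} {d κ : ℕ → K} (hd : ∀ i, d i ≠ 0) (hκ : ∀ y, κ y ≠ 0)
    (T : List ℕ) {x : ℕ → K} (hx : x ∈ Submodule.span K {x : ℕ → K | ∃ t ∈ T, u t = x}) :
    srtPhi σ hd x ∈
      Submodule.span K {x : ℕ → K | ∃ t ∈ T, (fun i => κ t * (d i * σ (u t i))) = x} := by
  induction hx using Submodule.span_induction with
  | mem x hx =>
    obtain ⟨t, ht, rfl⟩ := hx
    have h1 : srtPhi σ hd (u t) = (κ t)⁻¹ • (fun i => κ t * (d i * σ (u t i))) := by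
      funext i
      simp only [srtPhi_apply, Pi.smul_apply, smul_eq_mul]
      rw [inv_mul_cancel_left₀ (hκ t)]
    rw [h1]
    exact Submodule.smul_mem _ _ (Submodule.subset_span ⟨t, ht, rfl⟩)
  | zero =>
    rw [map_zero]
    exact Submodule.zero_mem _
  | add x y _ _ ihx ihy =>
    rw [map_add]
    exact Submodule.add_mem _ ihx ihy
  | smul c x _ ih =>
    rw [srtPhi_smul]
    exact Submodule.smul_mem _ _ ih

private theorem srt_mem_symm {σ : K ≃+* K} {d κ : ℕ → K} (hd : ∀ i, d i ≠ 0)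
    (T : List ℕ) {y : ℕ → K}
    (hy : y ∈ Submodule.span K {x : ℕ → K | ∃ t ∈ T, (fun i => κ t * (d i * σ (u t i))) = x}) :
    (srtPhi σ hd).symm y ∈ Submodule.span K {x : ℕ → K | ∃ t ∈ T, u t = x} := by
  induction hy using Submodule.span_induction with
  | mem x hx =>
    obtain ⟨t, ht, rfl⟩ := hx
    have h1 : (srtPhi σ hd).symm (fun i => κ t * (d i * σ (u t i))) = σ.symm (κ t) • u t := by
      funext i
      simp only [srtPhi_symm_apply, Pi.smul_apply, smul_eq_mul]
      have h2 : (d i)⁻¹ * (κ t * (d i * σ (u t i))) = κ t * σ (u t i) := by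
        have := hd i
        field_simp
      rw [h2, map_mul, RingEquiv.symm_apply_apply]
    rw [h1]
    exact Submodule.smul_mem _ _ (Submodule.subset_span ⟨t, ht, rfl⟩)
  | zero =>
    rw [map_zero]
    exact Submodule.zero_mem _
  | add x y _ _ ihx ihy =>
    rw [map_add]
    exact Submodule.add_mem _ ihx ihy
  | smul c x _ ih =>
    rw [srtPhi_symm_smul]
    exact Submodule.smul_mem _ _ ih

private theorem srt_rkU (σ : K ≃+* K) {d κ : ℕ → K} (hd : ∀ i, d i ≠ 0) (hκ : ∀ y, κ y ≠ 0)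
    (T : List ℕ) : rkU (fun y i => κ y * (d i * σ (u y i))) T = rkU u T := by
  unfold rkU
  unfold Module.finrank
  congr 1
  symm
  let j : ↥(Submodule.span K {x : ℕ → K | ∃ t ∈ T, u t = x}) ≃+
      ↥(Submodule.span K {x : ℕ → K | ∃ t ∈ T, (fun i => κ t * (d i * σ (u t i))) = x}) :=
    { toFun := fun x => ⟨srtPhi σ hd x.1, srt_mem hd hκ T x.2⟩
      invFun := fun y => ⟨(srtPhi σ hd).symm y.1, srt_mem_symm hd T y.2⟩
      left_inv := fun x => Subtype.ext ((srtPhi σ hd).symm_apply_apply x.1)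
      right_inv := fun y => Subtype.ext ((srtPhi σ hd).apply_symm_apply y.1)
      map_add' := fun x y => Subtype.ext (map_add (srtPhi σ hd) x.1 y.1) }
  refine rank_eq_of_equiv_equiv σ j σ.bijective fun r m => ?_
  exact Subtype.ext (srtPhi_smul σ hd r m.1)

private theorem srt_v3_zero {w : ℕ → ℕ → K} {a b c y : ℕ} :
    v3 w a b c y = 0 ↔ w y a = 0 ∧ w y b = 0 ∧ w y c = 0 := by
  constructor
  · intro h
    refine ⟨?_, ?_, ?_⟩
    · exact congrFun h 0
    · exact congrFun h 1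
    · exact congrFun h 2
  · rintro ⟨h1, h2, h3⟩
    funext i
    fin_cases i
    · exact h1
    · exact h2
    · exact h3

private theorem srt_det3 (σ : K ≃+* K) (d κ : ℕ → K) (a b c x y z : ℕ) :
    det3 (v3 (fun y i => κ y * (d i * σ (u y i))) a b c x)
      (v3 (fun y i => κ y * (d i * σ (u y i))) a b c y)
      (v3 (fun y i => κ y * (d i * σ (u y i))) a b c z) =
    κ x * κ y * κ z * (d a * d b * d c) *
      σ (det3 (v3 u a b c x) (v3 u a b c y) (v3 u a b c z)) := by
  unfold det3 v3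
  simp only [Matrix.cons_val_zero, Matrix.cons_val_one, Matrix.cons_val, map_add, map_sub, map_mul]
  ring

theorem SRep.trans (h : SRep ρ E B u) (σ : K ≃+* K) {d κ : ℕ → K} (hd : ∀ i, d i ≠ 0)
    (hκ : ∀ y, κ y ≠ 0) : SRep ρ E B fun y i => κ y * (d i * σ (u y i)) := by
  refine ⟨h.nd, h.BE, ?_, ?_, ?_, ?_⟩
  · intro y i hi
    simp only [h.sup y i hi, map_zero, mul_zero]
  · intro b hb i hi
    simp only [h.off b hb i hi, map_zero, mul_zero]
  · intro b hb
    have h1 : σ (u b b) ≠ 0 := fun h0 => h.dia b hb ((map_eq_zero_iff σ σ.injective).mp h0)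
    exact mul_ne_zero (hκ b) (mul_ne_zero (hd b) h1)
  · intro T hT
    rw [h.rk T hT, srt_rkU σ hd hκ T]

theorem Full.trans {a b c : ℕ} (h : Full E u a b c) (σ : K ≃+* K) {d κ : ℕ → K}
    (hd : ∀ i, d i ≠ 0) (hκ : ∀ y, κ y ≠ 0) :
    Full E (fun y i => κ y * (d i * σ (u y i))) a b c := by
  intro z hz
  have hz' : (![σ.symm (z 0 / d a), σ.symm (z 1 / d b), σ.symm (z 2 / d c)] : Fin 3 → K) ≠ 0 := by
    intro h0
    apply hz
    have e0 : σ.symm (z 0 / d a) = 0 := congrFun h0 0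
    have e1 : σ.symm (z 1 / d b) = 0 := congrFun h0 1
    have e2 : σ.symm (z 2 / d c) = 0 := congrFun h0 2
    have f0 := (div_eq_zero_iff.mp ((map_eq_zero_iff σ.symm σ.symm.injective).mp e0)).resolve_right
      (hd a)
    have f1 := (div_eq_zero_iff.mp ((map_eq_zero_iff σ.symm σ.symm.injective).mp e1)).resolve_right
      (hd b)
    have f2 := (div_eq_zero_iff.mp ((map_eq_zero_iff σ.symm σ.symm.injective).mp e2)).resolve_right
      (hd c)
    funext i
    fin_cases i
    · exact f0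
    · exact f1
    · exact f2
  obtain ⟨y, hy, k, hk, he⟩ := h _ hz'
  have e0 : u y a = k * σ.symm (z 0 / d a) := congrFun he 0
  have e1 : u y b = k * σ.symm (z 1 / d b) := congrFun he 1
  have e2 : u y c = k * σ.symm (z 2 / d c) := congrFun he 2
  have hk' : σ k ≠ 0 := fun h0 => hk ((map_eq_zero_iff σ σ.injective).mp h0)
  have ha := hd a
  have hb := hd b
  have hc := hd c
  refine ⟨y, hy, κ y * σ k, mul_ne_zero (hκ y) hk', ?_⟩
  funext i
  fin_cases i
  · show κ y * (d a * σ (u y a)) = κ y * σ k * z 0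
    rw [e0, map_mul, RingEquiv.apply_symm_apply]
    field_simp
  · show κ y * (d b * σ (u y b)) = κ y * σ k * z 1
    rw [e1, map_mul, RingEquiv.apply_symm_apply]
    field_simp
  · show κ y * (d c * σ (u y c)) = κ y * σ k * z 2
    rw [e2, map_mul, RingEquiv.apply_symm_apply]
    field_simp

theorem IsCht.trans {a b c : ℕ} {Ψ : ℕ → Fin 3 → K} (h : IsCht E u a b c Ψ) (σ : K ≃+* K)
    {d κ : ℕ → K} (hd : ∀ i, d i ≠ 0) (hκ : ∀ y, κ y ≠ 0) :
    IsCht E (fun y i => κ y * (d i * σ (u y i))) a b c Ψ := by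
  refine ⟨?_, ?_, h.ea, h.eb, h.ec⟩
  · intro y hy
    rw [← h.z y hy, srt_v3_zero, srt_v3_zero]
    have h1 : ∀ i, κ y * (d i * σ (u y i)) = 0 ↔ u y i = 0 := by
      intro i
      rw [mul_eq_zero, mul_eq_zero, map_eq_zero_iff σ σ.injective]
      constructor
      · rintro (h0 | h0 | h0)
        · exact absurd h0 (hκ y)
        · exact absurd h0 (hd i)
        · exact h0
      · intro h0
        exact Or.inr (Or.inr h0)
    rw [h1, h1, h1]
  · intro x hx y hy z hz
    rw [← h.d x hx y hy z hz, srt_det3]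
    have h1 : κ x * κ y * κ z * (d a * d b * d c) ≠ 0 :=
      mul_ne_zero (mul_ne_zero (mul_ne_zero (hκ x) (hκ y)) (hκ z))
        (mul_ne_zero (mul_ne_zero (hd a) (hd b)) (hd c))
    rw [mul_eq_zero, map_eq_zero_iff σ σ.injective]
    constructor
    · rintro (h0 | h0)
      · exact absurd h0 h1
      · exact h0
    · intro h0
      exact Or.inr h0

end Pool.Agent.AM
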