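import Pool.Agent.AM.Defs

set_option autoImplicit false

/-!
# Module PrmL: the constants
-/

namespace Pool.Agent.AM

open Pool.Agent.G4 (nor dif word prd)
open Pool.Agent.BW (rkX grdy cod dcd RkS crk)

variable {K : Type} [Field K] [Fintype K] (e : Fin (Fintype.card K) ≃ K)

theorem dcd_cod' (x : K) : dcd e (cod e x) = x := by
  unfold dcd cod
  rw [dif_pos (e.symm x).is_lt]
  exact e.apply_symm_apply x

theorem cod_lt' (x : K) : cod e x < Fintype.card K := (e.symm x).is_lt

theorem cod_inj' {x y : K} : cod e x = cod e y ↔ x = y := by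
  constructor
  · intro h
    rw [← dcd_cod' e x, h, dcd_cod' e y]
  · intro h
    rw [h]

theorem dec_cod3 (x : Fin 3 → K) : dec3 e (cod3 e x) = x := by
  funext i
  unfold dec3 cod3
  simp only [dcd_cod']
  fin_cases i <;> rfl

theorem cod3_inj {x y : Fin 3 → K} : cod3 e x = cod3 e y ↔ x = y := by
  constructor
  · intro h
    rw [← dec_cod3 e x, h, dec_cod3 e y]
  · intro h
    rw [h]

theorem mem_lists {β : Type} (P : List β) (n : ℕ) (l : List β) :
    l ∈ lists P n ↔ l.length = n ∧ ∀ p ∈ l, p ∈ P := by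
  induction n generalizing l with
  | zero =>
    unfold lists
    rw [List.mem_singleton]
    constructor
    · rintro rfl
      exact ⟨rfl, fun p hp => absurd hp List.not_mem_nil⟩
    · rintro ⟨h, -⟩
      exact List.eq_nil_of_length_eq_zero h
  | succ n ih =>
    unfold lists
    rw [List.mem_flatMap]
    constructor
    · rintro ⟨p, hp, h⟩
      obtain ⟨l', hl', rfl⟩ := List.mem_map.1 h
      obtain ⟨h1, h2⟩ := (ih l').1 hl'
      refine ⟨by rw [List.length_cons, h1], fun z hz => ?_⟩
      rcases List.mem_cons.1 hz with rfl | hz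
      · exact hp
      · exact h2 z hz
    · rintro ⟨h1, h2⟩
      cases l with
      | nil => exact absurd h1 (Nat.succ_ne_zero n).symm
      | cons p l' =>
        refine ⟨p, h2 p List.mem_cons_self, List.mem_map.2 ⟨l', (ih l').2 ⟨?_, ?_⟩, rfl⟩⟩
        · rw [List.length_cons] at h1
          omega
        · exact fun z hz => h2 z (List.mem_cons_of_mem _ hz)

theorem prm_maps (φ : List Tri) : φ ∈ (prmQ e).maps ↔ ∃ xs : List (Fin 3 → K),
    (∀ x ∈ xs, Nrm x) ∧ xs.length = Fintype.card K ^ 2 + Fintype.card K - 2 ∧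
      φ = (![1, 0, 0] :: ![0, 1, 0] :: ![0, 0, 1] :: xs).map (cod3 e) := by
  unfold prmQ
  simp only [List.mem_map, mem_lists, Finset.mem_toList, Finset.mem_filter, Finset.mem_univ, true_and]
  constructor
  · rintro ⟨l, ⟨h1, h2⟩, rfl⟩
    have h3 : (l.map (dec3 e)).map (cod3 e) = l := by
      rw [List.map_map]
      refine (List.map_congr_left fun p hp => ?_).trans (List.map_id l)
      obtain ⟨x, _, hx⟩ := h2 p hp
      show cod3 e (dec3 e p) = id p
      rw [← hx, dec_cod3]
      rfl
    refine ⟨l.map (dec3 e), ?_, ?_, ?_⟩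
    · intro x hx
      obtain ⟨p, hp, rfl⟩ := List.mem_map.1 hx
      obtain ⟨y, hy, hyp⟩ := h2 p hp
      rw [← hyp, dec_cod3]
      exact hy
    · rw [List.length_map]
      exact h1
    · rw [List.map_cons, List.map_cons, List.map_cons, h3]
  · rintro ⟨xs, h1, h2, rfl⟩
    refine ⟨xs.map (cod3 e), ⟨?_, ?_⟩, ?_⟩
    · rw [List.length_map]
      exact h2
    · intro p hp
      obtain ⟨x, hx, rfl⟩ := List.mem_map.1 hp
      exact ⟨x, h1 x hx, rfl⟩
    · rw [List.map_cons, List.map_cons, List.map_cons]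

theorem prm_sg (x y z : Fin 3 → K) :
    (cod3 e x, (cod3 e y, cod3 e z)) ∈ (prmQ e).sg ↔ det3 x y z = 0 := by
  unfold prmQ
  simp only [List.mem_map, Finset.mem_toList, Finset.mem_filter, Finset.mem_univ, true_and, Prod.mk.injEq,
    cod3_inj]
  constructor
  · rintro ⟨t, h, h1, h2, h3⟩
    rw [h1, h2, h3] at h
    exact h
  · intro h
    exact ⟨(x, (y, z)), h, rfl, rfl, rfl⟩

theorem prm_dv (x y : K) : (prmQ e).dv (cod e x) (cod e y) = cod e (x / y) := by
  unfold prmQ
  simp only
  rw [if_pos ⟨cod_lt' e x, cod_lt' e y⟩, dcd_cod', dcd_cod']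

end Pool.Agent.AM
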