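import Pool.Agent.AM.PtsF
import Pool.Agent.AM.PrmL

set_option autoImplicit false

/-!
# Module Tru: the true coordinates are among the candidates
-/

namespace Pool.Agent.AM

open Pool.Agent.G4 (nor dif word prd)
open Pool.Agent.BW (rkX grdy cod dcd RkS crk)

variable {K : Type} [Field K] {ρ : List ℕ → ℕ} {E B : List ℕ} {u w : ℕ → ℕ → K}


variable [Fintype K] (e : Fin (Fintype.card K) ≃ K)

private theorem tru_nrm {K : Type} [Field K] {x : Fin 3 → K} (hx : x ≠ 0) :
    ∃ y : Fin 3 → K, Nrm y ∧ Prp x y := by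
  by_cases h0 : x 0 = 0
  · by_cases h1 : x 1 = 0
    · by_cases h2 : x 2 = 0
      · exfalso
        apply hx
        funext k
        fin_cases k
        · exact h0
        · exact h1
        · exact h2
      · refine ⟨(x 2)⁻¹ • x, Or.inr (Or.inr ⟨?_, ?_, ?_⟩), (x 2)⁻¹, inv_ne_zero h2, rfl⟩
        · rw [Pi.smul_apply, h0, smul_zero]
        · rw [Pi.smul_apply, h1, smul_zero]
        · exact inv_mul_cancel₀ h2
    · refine ⟨(x 1)⁻¹ • x, Or.inr (Or.inl ⟨?_, ?_⟩), (x 1)⁻¹, inv_ne_zero h1, rfl⟩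
      · rw [Pi.smul_apply, h0, smul_zero]
      · exact inv_mul_cancel₀ h1
  · exact ⟨(x 0)⁻¹ • x, Or.inl (inv_mul_cancel₀ h0), (x 0)⁻¹, inv_ne_zero h0, rfl⟩

private theorem tru_unit {K : Type} [Field K] {x : Fin 3 → K} {k : Fin 3} (hx : x k ≠ 0)
    (h0 : ∀ l, l ≠ k → x l = 0) {z : Fin 3 → K} (hz : z k = 1) (hz0 : ∀ l, l ≠ k → z l = 0) :
    Prp x z := by
  refine ⟨(x k)⁻¹, inv_ne_zero hx, ?_⟩
  funext l
  rw [Pi.smul_apply, smul_eq_mul]
  by_cases hl : l = k
  · rw [hl, hz, inv_mul_cancel₀ hx]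
  · rw [hz0 l hl, h0 l hl, mul_zero]

private theorem tru_zip {β γ : Type} (L : List β) (f : β → γ) :
    L.zip (L.map f) = L.map fun s => (s, f s) := by
  induction L with
  | nil => rfl
  | cons a L ih => rw [List.map_cons, List.zip_cons_cons, ih, List.map_cons]

private theorem tru_prd {β γ : Type} {l : List β} {m : List γ} {p : β × γ} :
    p ∈ prd l m ↔ p.1 ∈ l ∧ p.2 ∈ m := by
  unfold Pool.Agent.G4.prd
  rw [List.mem_flatMap]
  constructor
  · rintro ⟨a, ha, h⟩
    obtain ⟨b, hb, rfl⟩ := List.mem_map.1 h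
    exact ⟨ha, hb⟩
  · rintro ⟨h1, h2⟩
    exact ⟨p.1, h1, List.mem_map.2 ⟨p.2, h2, rfl⟩⟩

private theorem tru_det {K : Type} [Field K] {x y z x' y' z' : Fin 3 → K} (hx : Prp x x')
    (hy : Prp y y') (hz : Prp z z') : det3 x y z = 0 ↔ det3 x' y' z' = 0 := by
  obtain ⟨c, hc, rfl⟩ := hx
  obtain ⟨d, hd, rfl⟩ := hy
  obtain ⟨e, he, rfl⟩ := hz
  have h : det3 (c • x) (d • y) (e • z) = c * d * e * det3 x y z := by
    unfold det3
    simp only [Pi.smul_apply, smul_eq_mul]
    ring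
  rw [h, mul_eq_zero]
  exact ⟨Or.inr, fun h1 => h1.resolve_left (mul_ne_zero (mul_ne_zero hc hd) he)⟩

theorem tru (h : SRep ρ E B w) {a b c : ℕ} (ha : a ∈ B) (hb : b ∈ B) (hc : c ∈ B)
    (hab : a ≠ b) (hac : a ≠ c) (hbc : b ≠ c) (hf : Full E w a b c) :
    ∃ Z ∈ zips (prmQ e) ρ B E [a, b, c], conB (prmQ e) ρ B [a, b, c] Z = true ∧
      ∀ p ∈ Z, p.1 ∈ E ∧ ∃ x : Fin 3 → K, Nrm x ∧ Prp (v3 w a b c p.1) x ∧ p.2 = cod3 e x := by
  classical
  obtain ⟨⟨L', hL⟩, h1, -, -⟩ := pts_spec h ha hb hc hab hac hbc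
  have hlen := (pts_full h ha hb hc hab hac hbc).2 hf
  obtain ⟨L, hLe⟩ : ∃ L, L = pts ρ B E [a, b, c] := ⟨_, rfl⟩
  rw [← hLe] at hL h1 hlen
  have hex : ∀ s, ∃ x : Fin 3 → K, (s ∈ L → Nrm x ∧ Prp (v3 w a b c s) x) ∧
      (s = a → x = ![1, 0, 0]) ∧ (s = b → x = ![0, 1, 0]) ∧ (s = c → x = ![0, 0, 1]) := by
    intro s
    by_cases hsa : s = a
    · refine ⟨![1, 0, 0], fun _ => ⟨Or.inl rfl, ?_⟩, fun _ => rfl, fun hh => ?_, fun hh => ?_⟩
      · rw [hsa]
        refine tru_unit (k := 0) (h.dia a ha) ?_ rfl ?_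
        · intro l hl
          fin_cases l
          · exact absurd rfl hl
          · exact h.off a ha b hab.symm
          · exact h.off a ha c hac.symm
        · intro l hl
          fin_cases l
          · exact absurd rfl hl
          · rfl
          · rfl
      · exact absurd (hsa.symm.trans hh) hab
      · exact absurd (hsa.symm.trans hh) hac
    by_cases hsb : s = b
    · refine ⟨![0, 1, 0], fun _ => ⟨Or.inr (Or.inl ⟨rfl, rfl⟩), ?_⟩, fun hh => absurd hh hsa,
        fun _ => rfl, fun hh => ?_⟩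
      · rw [hsb]
        refine tru_unit (k := 1) (h.dia b hb) ?_ rfl ?_
        · intro l hl
          fin_cases l
          · exact h.off b hb a hab
          · exact absurd rfl hl
          · exact h.off b hb c hbc.symm
        · intro l hl
          fin_cases l
          · rfl
          · exact absurd rfl hl
          · rfl
      · exact absurd (hsb.symm.trans hh) hbc
    by_cases hsc : s = c
    · refine ⟨![0, 0, 1], fun _ => ⟨Or.inr (Or.inr ⟨rfl, rfl, rfl⟩), ?_⟩, fun hh => absurd hh hsa,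
        fun hh => absurd hh hsb, fun _ => rfl⟩
      rw [hsc]
      refine tru_unit (k := 2) (h.dia c hc) ?_ rfl ?_
      · intro l hl
        fin_cases l
        · exact h.off c hc a hac
        · exact h.off c hc b hbc
        · exact absurd rfl hl
      · intro l hl
        fin_cases l
        · rfl
        · rfl
        · exact absurd rfl hl
    · by_cases hs : s ∈ L
      · obtain ⟨x, hx⟩ := tru_nrm (h1 s hs).2
        exact ⟨x, fun _ => hx, fun hh => absurd hh hsa, fun hh => absurd hh hsb,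
          fun hh => absurd hh hsc⟩
      · exact ⟨0, fun hh => absurd hh hs, fun hh => absurd hh hsa, fun hh => absurd hh hsb,
          fun hh => absurd hh hsc⟩
  choose g hg hga hgb hgc using hex
  have hmem : (L.map fun s => cod3 e (g s)) ∈ (prmQ e).maps := by
    rw [prm_maps]
    refine ⟨L'.map g, ?_, ?_, ?_⟩
    · intro x hx
      obtain ⟨s, hs, rfl⟩ := List.mem_map.1 hx
      refine (hg s ?_).1
      rw [hL]
      exact List.mem_cons_of_mem _ (List.mem_cons_of_mem _ (List.mem_cons_of_mem _ hs))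
    · rw [List.length_map]
      rw [hL, List.length_cons, List.length_cons, List.length_cons] at hlen
      omega
    · rw [hL]
      simp only [List.map_cons, List.map_map]
      rw [hga a rfl, hgb b rfl, hgc c rfl]
      rfl
  refine ⟨L.map fun s => (s, cod3 e (g s)), ?_, ?_, ?_⟩
  · unfold zips
    rw [List.mem_map]
    exact ⟨_, hmem, by rw [← hLe, tru_zip]⟩
  · unfold conB
    rw [List.all_eq_true]
    intro t ht
    obtain ⟨h2, h3⟩ := tru_prd.1 ht
    obtain ⟨h4, h5⟩ := tru_prd.1 h3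
    obtain ⟨x, hx, h6⟩ := List.mem_map.1 h2
    obtain ⟨y, hy, h7⟩ := List.mem_map.1 h4
    obtain ⟨z, hz, h8⟩ := List.mem_map.1 h5
    rw [beq_iff_eq, decide_eq_decide, ← h6, ← h7, ← h8]
    simp only
    rw [prm_sg, cr_v2 h ha hb hc hab hac hbc (h1 x hx).1 (h1 y hy).1 (h1 z hz).1]
    exact tru_det (hg x hx).2 (hg y hy).2 (hg z hz).2
  · intro p hp
    obtain ⟨s, hs, rfl⟩ := List.mem_map.1 hp
    exact ⟨(h1 s hs).1, g s, (hg s hs).1, (hg s hs).2, rfl⟩

end Pool.Agent.AM
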