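import Pool.Agent.AM.Psi
import Pool.Agent.AM.Tru
import Pool.Agent.AM.ChtA
import Pool.Agent.AM.SrT

set_option autoImplicit false

/-!
# Module Chts1: the first chart of the algorithm

The head of the filtered list is a consistent candidate (`tru`), so it is a chart (`psi`, `cht_one`).
-/

namespace Pool.Agent.AM

open Pool.Agent.G4 (nor dif word prd)
open Pool.Agent.BW (rkX grdy cod dcd RkS crk)

variable {K : Type} [Field K] {ρ : List ℕ → ℕ} {E B : List ℕ} {u w : ℕ → ℕ → K}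

private theorem chts1_head {α : Type} (l : List α) (d x : α) (h : x ∈ l) : l.headD d ∈ l := by
  cases l with
  | nil => exact absurd h List.not_mem_nil
  | cons a l => exact List.mem_cons_self

variable [Fintype K] (e : Fin (Fintype.card K) ≃ K)

theorem chts_one (h : SRep ρ E B u) {a b c : ℕ} (ha : a ∈ B) (hb : b ∈ B) (hc : c ∈ B)
    (hab : a ≠ b) (hac : a ≠ c) (hbc : b ≠ c) (hf : Full E u a b c) :
    ∃ (σ : K ≃+* K) (d : ℕ → K), (∀ i, d i ≠ 0) ∧ ∀ y ∈ E, ∃ x : Fin 3 → K,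
      chv (prmQ e) ρ B [a, b, c] (cht1 (prmQ e) ρ B E [a, b, c]) y = cod3 e x ∧
      (x ≠ 0 → Nrm x) ∧ Prp (v3 (fun y i => d i * σ (u y i)) a b c y) x := by
  obtain ⟨Z, hZ, hcon, _⟩ := tru e h ha hb hc hab hac hbc hf
  have hZf : Z ∈ (zips (prmQ e) ρ B E [a, b, c]).filter
      fun Z => conB (prmQ e) ρ B [a, b, c] Z := List.mem_filter.2 ⟨hZ, hcon⟩
  have h1 : cht1 (prmQ e) ρ B E [a, b, c] ∈ (zips (prmQ e) ρ B E [a, b, c]).filter
      fun Z => conB (prmQ e) ρ B [a, b, c] Z := chts1_head _ [] Z hZf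
  obtain ⟨h2, h3⟩ := List.mem_filter.1 h1
  obtain ⟨Ψ, hΨ, hch, _⟩ := psi e h ha hb hc hab hac hbc hf h2 h3
  obtain ⟨σ, d', e', hd', he', hσ⟩ := cht_one h ha hb hc hab hac hbc hΨ hf
  refine ⟨σ, fun i => if i = b then d' else if i = c then e' else 1, fun i => ?_, fun y hy => ?_⟩
  · show (if i = b then d' else if i = c then e' else 1) ≠ 0
    split_ifs
    · exact hd'
    · exact he'
    · exact one_ne_zero
  · refine ⟨Ψ y, (hch y hy).1, (hch y hy).2, ?_⟩
    have h4 : v3 (fun y i => (if i = b then d' else if i = c then e' else 1) * σ (u y i)) a b c y =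
        ![σ (u y a), d' * σ (u y b), e' * σ (u y c)] := by
      unfold v3
      beta_reduce
      rw [if_neg hab, if_neg hac, if_pos rfl, if_neg hbc.symm, if_pos rfl, one_mul]
    rw [h4]
    exact hσ y hy

end Pool.Agent.AM
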