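import Pool.Agent.AM.Psi
import Pool.Agent.AM.Tru
import Pool.Agent.AM.ChtA

set_option autoImplicit false

/-!
# Module Chts2: the other charts of the algorithm
-/

namespace Pool.Agent.AM

open Pool.Agent.G4 (nor dif word prd)
open Pool.Agent.BW (rkX grdy cod dcd RkS crk)

variable {K : Type} [Field K] {ρ : List ℕ → ℕ} {E B : List ℕ} {u w : ℕ → ℕ → K}

private theorem c2_nrm {x x' : Fin 3 → K} (hx : Nrm x) (hx' : x' ≠ 0 → Nrm x') {s : K} (hs : s ≠ 0)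
    (h0 : x' 0 = s * x 0) (h1 : x' 1 = s * x 1) : x 0 = x' 0 ∧ x 1 = x' 1 := by
  have hne : ∀ i : Fin 3, x' i ≠ 0 → Nrm x' := by
    intro i hi
    apply hx'
    rintro rfl
    exact hi rfl
  rcases hx with h | ⟨h, h'⟩ | ⟨h, h', -⟩
  · rw [h, mul_one] at h0
    have h2 : x' 0 ≠ 0 := by
      rw [h0]
      exact hs
    rcases hne 0 h2 with h3 | ⟨h3, -⟩ | ⟨h3, -⟩
    · rw [h3] at h0
      rw [← h0, one_mul] at h1
      exact ⟨h.trans h3.symm, h1.symm⟩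
    · exact absurd h3 h2
    · exact absurd h3 h2
  · rw [h, mul_zero] at h0
    rw [h', mul_one] at h1
    have h2 : x' 1 ≠ 0 := by
      rw [h1]
      exact hs
    rcases hne 1 h2 with h3 | ⟨-, h3⟩ | ⟨-, h3, -⟩
    · rw [h3] at h0
      exact absurd h0 one_ne_zero
    · exact ⟨h.trans h0.symm, h'.trans h3.symm⟩
    · exact absurd h3 h2
  · rw [h, mul_zero] at h0
    rw [h', mul_zero] at h1
    exact ⟨h.trans h0.symm, h'.trans h1.symm⟩

private theorem c2_head {β : Type} (l : List β) (d x : β) (hx : x ∈ l) : l.headD d ∈ l := by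
  cases l with
  | nil => exact absurd hx List.not_mem_nil
  | cons a l => exact List.mem_cons_self

variable [Fintype K] (e : Fin (Fintype.card K) ≃ K)

private theorem c2_cod {x y : K} (h : cod e x = cod e y) : x = y := by
  unfold cod at h
  exact e.symm.injective (Fin.ext h)

theorem chts_two (h : SRep ρ E B w) {a b c i : ℕ} (ha : a ∈ B) (hb : b ∈ B) (hi : i ∈ B)
    (hab : a ≠ b) (hai : a ≠ i) (hbi : b ≠ i) (hf : Full E w a b i)
    (h1 : ∀ y ∈ E, ∃ x : Fin 3 → K,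
      chv (prmQ e) ρ B [a, b, c] (cht1 (prmQ e) ρ B E [a, b, c]) y = cod3 e x ∧
      (x ≠ 0 → Nrm x) ∧ ∃ t : K, t ≠ 0 ∧ x 0 = t * w y a ∧ x 1 = t * w y b) :
    ∃ d : K, d ≠ 0 ∧ ∀ y ∈ E, ∃ x : Fin 3 → K,
      chv (prmQ e) ρ B [a, b, i] (cht2 (prmQ e) ρ B E [a, b, c] [a, b, i]) y = cod3 e x ∧
      (x ≠ 0 → Nrm x) ∧ Prp ![w y a, w y b, d * w y i] x := by
  obtain ⟨Z, hZ, hcon, hZp⟩ := tru e h ha hb hi hab hai hbi hf
  have hanc : ancB (prmQ e) ρ B [a, b, c] (cht1 (prmQ e) ρ B E [a, b, c]) Z = true := by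
    unfold ancB
    rw [List.all_eq_true]
    intro p hp
    obtain ⟨hpE, x, hx, ⟨k, hk, hxk⟩, hpx⟩ := hZp p hp
    obtain ⟨x₁, hch, hx₁, t, ht, ht0, ht1⟩ := h1 p.1 hpE
    have e0 : x 0 = k * w p.1 a := by
      rw [hxk]
      rfl
    have e1 : x 1 = k * w p.1 b := by
      rw [hxk]
      rfl
    have hL := c2_nrm hx hx₁ (s := t * k⁻¹) (mul_ne_zero ht (inv_ne_zero hk))
      (by rw [ht0, e0]; field_simp) (by rw [ht1, e1]; field_simp)
    rw [Bool.and_eq_true, decide_eq_true_eq, decide_eq_true_eq, hch, hpx]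
    unfold cod3
    exact ⟨by rw [hL.1], by rw [hL.2]⟩
  have hfil : Z ∈ (zips (prmQ e) ρ B E [a, b, i]).filter fun Z => conB (prmQ e) ρ B [a, b, i] Z &&
      ancB (prmQ e) ρ B [a, b, c] (cht1 (prmQ e) ρ B E [a, b, c]) Z := by
    refine List.mem_filter.2 ⟨hZ, ?_⟩
    rw [hcon, hanc]
    rfl
  have hmem := c2_head _ ([] : List (ℕ × Tri)) Z hfil
  obtain ⟨hZ2, hZ2'⟩ := List.mem_filter.1 hmem
  rw [Bool.and_eq_true] at hZ2'
  obtain ⟨hcon2, hanc2⟩ := hZ2'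
  obtain ⟨Ψ, hΨ, hchv, hs⟩ := psi e h ha hb hi hab hai hbi hf hZ2 hcon2
  have anc : ∀ y ∈ E, ∃ t : K, t ≠ 0 ∧ Ψ y 0 = t * w y a ∧ Ψ y 1 = t * w y b := by
    intro y hy
    by_cases hv : v3 w a b i y = 0
    · have h2 := (hΨ.z y hy).1 hv
      have h3 : w y a = 0 := congrFun hv 0
      have h4 : w y b = 0 := congrFun hv 1
      refine ⟨1, one_ne_zero, ?_, ?_⟩
      · rw [h2, h3, mul_zero]
        rfl
      · rw [h2, h4, mul_zero]
        rfl
    · obtain ⟨s, hsE, hsZ, k, hk, hsk⟩ := hs y hy hv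
      unfold ancB at hanc2
      have h2 := List.all_eq_true.1 hanc2 _ hsZ
      rw [Bool.and_eq_true, decide_eq_true_eq, decide_eq_true_eq] at h2
      obtain ⟨x₁, hch, -, t, ht, ht0, ht1⟩ := h1 s hsE
      rw [hch] at h2
      have h3 : Ψ y 0 = x₁ 0 := c2_cod e h2.1
      have h4 : Ψ y 1 = x₁ 1 := c2_cod e h2.2
      have e0 : w y a = k * w s a := congrFun hsk 0
      have e1 : w y b = k * w s b := congrFun hsk 1
      refine ⟨t * k⁻¹, mul_ne_zero ht (inv_ne_zero hk), ?_, ?_⟩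
      · rw [h3, ht0, e0]
        field_simp
      · rw [h4, ht1, e1]
        field_simp
  obtain ⟨d, hd, hd'⟩ := cht_two h ha hb hi hab hai hbi hΨ hf anc
  refine ⟨d, hd, fun y hy => ⟨Ψ y, (hchv y hy).1, (hchv y hy).2, hd' y hy⟩⟩

end Pool.Agent.AM
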