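import Pool.Agent.AM.Chts1
import Pool.Agent.AM.Chts2

set_option autoImplicit false

/-!
# Module Chts3: the values of the charts
-/

namespace Pool.Agent.AM

open Pool.Agent.G4 (nor dif word prd)
open Pool.Agent.BW (rkX grdy cod dcd RkS crk)

variable {K : Type} [Field K] {ρ : List ℕ → ℕ} {E B : List ℕ} {u w : ℕ → ℕ → K}

private theorem c3_val {x : Fin 3 → K} {p q r : K} (hx : x ≠ 0 → Nrm x) (hP : Prp ![p, q, r] x)
    (hp : p ≠ 0) : x 1 = q / p ∧ x 2 = r / p := by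
  obtain ⟨k, hk, hxk⟩ := hP
  have e0 : x 0 = k * p := by
    rw [hxk]
    rfl
  have e1 : x 1 = k * q := by
    rw [hxk]
    rfl
  have e2 : x 2 = k * r := by
    rw [hxk]
    rfl
  have h0 : x 0 ≠ 0 := by
    rw [e0]
    exact mul_ne_zero hk hp
  have h1 : x ≠ 0 := by
    rintro rfl
    exact h0 rfl
  have h2 : x 0 = 1 := by
    rcases hx h1 with h | ⟨h, -⟩ | ⟨h, -⟩
    · exact h
    · exact absurd h h0
    · exact absurd h h0
  rw [e0] at h2
  have h3 : k = 1 / p := by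
    rw [eq_div_iff hp]
    exact h2
  rw [e1, e2, h3]
  constructor
  · ring
  · ring

variable [Fintype K] (e : Fin (Fintype.card K) ≃ K)

theorem chts (h : SRep ρ E B u) (hr : RichU E B u) :
    ∃ (σ : K ≃+* K) (d : ℕ → K), (∀ i, d i ≠ 0) ∧
      ∀ y ∈ E, u y (B.headD 0) ≠ 0 → ∀ i ∈ B.tail, tv (prmQ e) ρ B E i y =
        cod e ((d i * σ (u y i)) / (d (B.headD 0) * σ (u y (B.headD 0)))) := by
  obtain ⟨hlen, hfull⟩ := hr
  rcases B with _ | ⟨a, _ | ⟨b, _ | ⟨c, B'⟩⟩⟩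
  · simp at hlen
  · simp at hlen
  · simp at hlen
  have hnd := h.nd
  have ha : a ∈ a :: b :: c :: B' := List.mem_cons_self
  have hbt : b ∈ b :: c :: B' := List.mem_cons_self
  have hb : b ∈ a :: b :: c :: B' := List.mem_cons_of_mem _ hbt
  have hct : c ∈ b :: c :: B' := List.mem_cons_of_mem _ List.mem_cons_self
  have hc : c ∈ a :: b :: c :: B' := List.mem_cons_of_mem _ hct
  have hat : a ∉ b :: c :: B' := (List.nodup_cons.1 hnd).1
  have hbt' : b ∉ c :: B' := (List.nodup_cons.1 (List.nodup_cons.1 hnd).2).1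
  have hab : a ≠ b := fun hh => hat (hh ▸ hbt)
  have hac : a ≠ c := fun hh => hat (hh ▸ hct)
  have hbc : b ≠ c := fun hh => hbt' (hh ▸ List.mem_cons_self)
  have hf : Full E u a b c := hfull b hbt c hct hbc
  obtain ⟨σ, d', hd', H1⟩ := chts_one e h ha hb hc hab hac hbc hf
  have hw : SRep ρ E (a :: b :: c :: B') fun y i => 1 * (d' i * σ (u y i)) :=
    h.trans σ hd' (κ := fun _ => (1 : K)) fun _ => one_ne_zero
  have h1 : ∀ y ∈ E, ∃ x : Fin 3 → K,
      chv (prmQ e) ρ (a :: b :: c :: B') [a, b, c]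
        (cht1 (prmQ e) ρ (a :: b :: c :: B') E [a, b, c]) y = cod3 e x ∧
      (x ≠ 0 → Nrm x) ∧ ∃ t : K, t ≠ 0 ∧
        x 0 = t * (fun (y i : ℕ) => 1 * (d' i * σ (u y i))) y a ∧
        x 1 = t * (fun (y i : ℕ) => 1 * (d' i * σ (u y i))) y b := by
    intro y hy
    obtain ⟨x, hx1, hx2, k, hk, hxk⟩ := H1 y hy
    refine ⟨x, hx1, hx2, k, hk, ?_, ?_⟩
    · rw [hxk]
      show k * (d' a * σ (u y a)) = k * (1 * (d' a * σ (u y a)))
      rw [one_mul]
    · rw [hxk]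
      show k * (d' b * σ (u y b)) = k * (1 * (d' b * σ (u y b)))
      rw [one_mul]
  have key : ∀ i : ℕ, ∃ δ : K, δ ≠ 0 ∧ ((i = a ∨ i = b) → δ = 1) ∧
      (i ∈ b :: c :: B' → i ≠ b → ∀ y ∈ E, ∃ x : Fin 3 → K,
        chv (prmQ e) ρ (a :: b :: c :: B') [a, b, i]
          (cht2 (prmQ e) ρ (a :: b :: c :: B') E [a, b, c] [a, b, i]) y = cod3 e x ∧
        (x ≠ 0 → Nrm x) ∧ Prp ![d' a * σ (u y a), d' b * σ (u y b), δ * (d' i * σ (u y i))] x) := by
    intro i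
    by_cases hi : i ∈ b :: c :: B' ∧ i ≠ b
    · obtain ⟨hi1, hi2⟩ := hi
      have hai : a ≠ i := fun hh => hat (hh ▸ hi1)
      have hfw : Full E (fun y i => 1 * (d' i * σ (u y i))) a b i :=
        Full.trans (hfull b hbt i hi1 hi2.symm) σ hd' (κ := fun _ => (1 : K)) fun _ => one_ne_zero
      obtain ⟨δ, hδ, hδ'⟩ := chts_two e hw ha hb (List.mem_cons_of_mem _ hi1) hab hai hi2.symm hfw h1
      refine ⟨δ, hδ, ?_, fun _ _ y hy => ?_⟩
      · rintro (h2 | h2)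
        · exact absurd h2.symm hai
        · exact absurd h2 hi2
      · obtain ⟨x, hx1, hx2, hx3⟩ := hδ' y hy
        refine ⟨x, hx1, hx2, ?_⟩
        simp only [one_mul] at hx3
        exact hx3
    · exact ⟨1, one_ne_zero, fun _ => rfl, fun h2 h3 => absurd ⟨h2, h3⟩ hi⟩
  choose δ hδ0 hδ1 hδ2 using key
  refine ⟨σ, fun i => d' i * δ i, fun i => mul_ne_zero (hd' i) (hδ0 i), ?_⟩
  intro y hy hya i hi
  have hda : δ a = 1 := hδ1 a (Or.inl rfl)
  have hdb : δ b = 1 := hδ1 b (Or.inr rfl)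
  have hp : d' a * σ (u y a) ≠ 0 := mul_ne_zero (hd' a) (by
    rw [Ne, EmbeddingLike.map_eq_zero_iff]
    exact hya)
  show tv (prmQ e) ρ (a :: b :: c :: B') E i y =
    cod e ((d' i * δ i * σ (u y i)) / (d' a * δ a * σ (u y a)))
  rw [hda, mul_one]
  by_cases hib : i = b
  · subst hib
    obtain ⟨x, hx1, hx2, hx3⟩ := H1 y hy
    have h3 : tv (prmQ e) ρ (a :: i :: c :: B') E i y =
        (chv (prmQ e) ρ (a :: i :: c :: B') [a, i, c]
          (cht1 (prmQ e) ρ (a :: i :: c :: B') E [a, i, c]) y).2.1 := by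
      unfold tv
      exact if_pos rfl
    rw [h3, hx1, hdb, mul_one]
    show cod e (x 1) = _
    rw [(c3_val hx2 hx3 hp).1]
  · obtain ⟨x, hx1, hx2, hx3⟩ := hδ2 i hi hib y hy
    have h3 : tv (prmQ e) ρ (a :: b :: c :: B') E i y =
        (chv (prmQ e) ρ (a :: b :: c :: B') [a, b, i]
          (cht2 (prmQ e) ρ (a :: b :: c :: B') E [a, b, c] [a, b, i]) y).2.2 := by
      unfold tv
      exact if_neg hib
    rw [h3, hx1]
    show cod e (x 2) = _
    rw [(c3_val hx2 hx3 hp).2]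
    have h4 : δ i * (d' i * σ (u y i)) = d' i * δ i * σ (u y i) := by ring
    rw [h4]

end Pool.Agent.AM
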