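import Pool.Agent.AM.ColO
import Pool.Agent.AM.CntD

set_option autoImplicit false

/-!
# Module ColC: the late columns avoid a vector

`B` is fixed, all its elements are `≤ t`; the columns `y > t` (there are `n - 1 - t` of them) are arbitrary
vectors supported in `B`.

The number of matrices is a product over the columns; a late column is counted by `col_one`.
-/

namespace Pool.Agent.AM

variable {K : Type} [Field K] [Fintype K] {n : ℕ}

private theorem cc_pi (B : Finset (Fin n)) (R : Fin n → (Fin n → K) → Prop) :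
    Nat.card {p : Ech K n // p.B = B ∧ ∀ y, R y (p.D y)} =
      ∏ y, Nat.card {c : Fin n → K // (∀ i, c i ≠ 0 → i ∈ B ∧ y ∉ B ∧ i < y) ∧ R y c} := by
  rw [← Nat.card_pi]
  exact Nat.card_congr
    { toFun := fun p y => ⟨p.1.D y, fun i hi => p.2.1 ▸ p.1.ech y i hi, p.2.2 y⟩
      invFun := fun f =>
        ⟨⟨B, fun y => (f y).1, fun y i h => (f y).2.1 i h⟩, rfl, fun y => (f y).2.2⟩
      left_inv := by
        rintro ⟨⟨B', D, h⟩, h1, h2⟩
        have h3 : B' = B := h1
        subst h3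
        rfl
      right_inv := fun f => rfl }

private theorem cc_late (B : Finset (Fin n)) (y : Fin n) (hy : ∀ x ∈ B, x < y)
    (R : ({x // x ∈ B} → K) → Prop) :
    Nat.card {c : Fin n → K // (∀ i, c i ≠ 0 → i ∈ B ∧ y ∉ B ∧ i < y) ∧
        R (fun x : {x // x ∈ B} => c x.1)} =
      Nat.card {c : {x // x ∈ B} → K // R c} := by
  have hyB : y ∉ B := fun h => lt_irrefl y (hy y h)
  exact Nat.card_congr
    { toFun := fun c => ⟨fun x => c.1 x.1, c.2.2⟩
      invFun := fun c => ⟨fun i => if h : i ∈ B then c.1 ⟨i, h⟩ else 0, by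
        intro i hi
        by_cases h : i ∈ B
        · exact ⟨h, hyB, hy i h⟩
        · exact absurd (dif_neg h) hi, by
        have h1 : (fun x : {x // x ∈ B} => if h : (x.1 : Fin n) ∈ B then c.1 ⟨x.1, h⟩ else 0) =
            c.1 := by
          funext x
          rw [dif_pos x.2]
        rw [h1]
        exact c.2⟩
      left_inv := by
        rintro ⟨c, h1, h2⟩
        apply Subtype.ext
        funext i
        show (if h : i ∈ B then c i else 0) = c i
        by_cases h : i ∈ B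
        · rw [dif_pos h]
        · rw [dif_neg h]
          by_contra h3
          exact h (h1 i (Ne.symm h3)).1
      right_inv := by
        rintro ⟨c, h1⟩
        apply Subtype.ext
        funext x
        show (if h : (x.1 : Fin n) ∈ B then c ⟨x.1, h⟩ else 0) = c x
        rw [dif_pos x.2] }

private theorem cc_pow (t : Fin n) (a : ℕ) :
    (∏ y : Fin n, if t < y then a else 1) = a ^ (n - 1 - (t : ℕ)) := by
  rw [← Finset.prod_filter, Finset.prod_const]
  congr 1
  have h1 : (Finset.univ.filter fun y : Fin n => t < y) = Finset.Ioi t := by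
    ext y
    simp
  rw [h1, Fin.card_Ioi]

theorem col_count (B : Finset (Fin n)) {a i j t : Fin n} (ha : a ∈ B) (hi : i ∈ B) (hj : j ∈ B)
    (hai : a ≠ i) (haj : a ≠ j) (hij : i ≠ j) (ht : ∀ x ∈ B, x ≤ t) (z : Fin 3 → K) :
    Nat.card {p : Ech K n // p.B = B ∧
        ∀ y, t < y → ¬ (p.D y a = z 0 ∧ p.D y i = z 1 ∧ p.D y j = z 2)} *
      Fintype.card K ^ (3 * (n - 1 - t)) =
    (Fintype.card K ^ 3 - 1) ^ (n - 1 - t) * Nat.card {p : Ech K n // p.B = B} := by
  have hlt : ∀ y, t < y → ∀ x ∈ B, x < y := fun y hy x hx => lt_of_le_of_lt (ht x hx) hy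
  have h1 : Nat.card {p : Ech K n // p.B = B ∧
        ∀ y, t < y → ¬ (p.D y a = z 0 ∧ p.D y i = z 1 ∧ p.D y j = z 2)} =
      ∏ y, Nat.card {c : Fin n → K // (∀ i, c i ≠ 0 → i ∈ B ∧ y ∉ B ∧ i < y) ∧
        (t < y → ¬ (c a = z 0 ∧ c i = z 1 ∧ c j = z 2))} :=
    cc_pi B fun y c => t < y → ¬ (c a = z 0 ∧ c i = z 1 ∧ c j = z 2)
  have h2 : Nat.card {p : Ech K n // p.B = B} =
      ∏ y, Nat.card {c : Fin n → K // (∀ i, c i ≠ 0 → i ∈ B ∧ y ∉ B ∧ i < y) ∧ True} := by
    rw [← cc_pi B fun _ _ => True]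
    exact Nat.card_congr (Equiv.subtypeEquivRight fun p => by simp)
  have h3 : ∀ y : Fin n,
      Nat.card {c : Fin n → K // (∀ i, c i ≠ 0 → i ∈ B ∧ y ∉ B ∧ i < y) ∧
        (t < y → ¬ (c a = z 0 ∧ c i = z 1 ∧ c j = z 2))} *
        (if t < y then Fintype.card K ^ 3 else 1) =
      (if t < y then Fintype.card K ^ 3 - 1 else 1) *
        Nat.card {c : Fin n → K // (∀ i, c i ≠ 0 → i ∈ B ∧ y ∉ B ∧ i < y) ∧ True} := by
    intro y
    by_cases hy : t < y
    · rw [if_pos hy, if_pos hy]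
      have h4 : Nat.card {c : Fin n → K // (∀ i, c i ≠ 0 → i ∈ B ∧ y ∉ B ∧ i < y) ∧
          (t < y → ¬ (c a = z 0 ∧ c i = z 1 ∧ c j = z 2))} =
          Nat.card {c : {x // x ∈ B} → K //
            ¬ (c ⟨a, ha⟩ = z 0 ∧ c ⟨i, hi⟩ = z 1 ∧ c ⟨j, hj⟩ = z 2)} := by
        rw [← cc_late B y (hlt y hy) fun c : {x // x ∈ B} → K =>
          ¬ (c ⟨a, ha⟩ = z 0 ∧ c ⟨i, hi⟩ = z 1 ∧ c ⟨j, hj⟩ = z 2)]
        exact Nat.card_congr (Equiv.subtypeEquivRight fun c => by
          constructor
          · rintro ⟨h5, h6⟩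
            exact ⟨h5, h6 hy⟩
          · rintro ⟨h5, h6⟩
            exact ⟨h5, fun _ => h6⟩)
      have h5 : Nat.card {c : Fin n → K // (∀ i, c i ≠ 0 → i ∈ B ∧ y ∉ B ∧ i < y) ∧ True} =
          Fintype.card K ^ Fintype.card {x // x ∈ B} := by
        rw [cc_late B y (hlt y hy) fun _ : {x // x ∈ B} → K => True]
        rw [Nat.card_congr (Equiv.subtypeUnivEquiv fun _ => trivial), Nat.card_eq_fintype_card,
          Fintype.card_fun]
      rw [h4, h5]
      exact col_one (fun h => hai (congrArg Subtype.val h)) (fun h => haj (congrArg Subtype.val h))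
        (fun h => hij (congrArg Subtype.val h)) z
    · rw [if_neg hy, if_neg hy, mul_one, one_mul]
      exact Nat.card_congr (Equiv.subtypeEquivRight fun c => by
        constructor
        · rintro ⟨h5, _⟩
          exact ⟨h5, trivial⟩
        · rintro ⟨h5, _⟩
          exact ⟨h5, fun h6 => absurd h6 hy⟩)
  rw [h1, h2, pow_mul, ← cc_pow t (Fintype.card K ^ 3), ← cc_pow t (Fintype.card K ^ 3 - 1),
    ← Finset.prod_mul_distrib, ← Finset.prod_mul_distrib]
  exact Finset.prod_congr rfl fun y _ => h3 y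

end Pool.Agent.AM
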