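import Pool.Agent.AM.Defs

set_option autoImplicit false

/-!
# Module Crk1: the rank in `M / (B \ T)` is the rank of the restricted vectors
-/

namespace Pool.Agent.AM

open Pool.Agent.G4 (nor dif word prd)
open Pool.Agent.BW (rkX grdy cod dcd RkS crk)

variable {K : Type} [Field K] {ρ : List ℕ → ℕ} {E B : List ℕ} {u w : ℕ → ℕ → K}

private theorem crk1_fin (v : ℕ → ℕ → K) (L : List ℕ) :
    FiniteDimensional K (Submodule.span K {x : ℕ → K | ∃ t ∈ L, v t = x}) := by
  have h : ({x : ℕ → K | ∃ t ∈ L, v t = x}).Finite := by
    refine (Set.Finite.image v (L.toFinset.finite_toSet)).subset ?_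
    rintro x ⟨t, ht, rfl⟩
    exact ⟨t, by simpa using ht, rfl⟩
  exact FiniteDimensional.span_of_finite K h

private theorem crk1_dif {t : ℕ} {S T : List ℕ} : t ∈ dif S T ↔ t ∈ S ∧ t ∉ T := by
  unfold dif
  rw [List.mem_filter]
  simp

private noncomputable def crk1_pi (T : List ℕ) : (ℕ → K) →ₗ[K] (ℕ → K) where
  toFun x := fun i => if i ∈ T then x i else 0
  map_add' x y := by
    funext i
    by_cases h : i ∈ T <;> simp [h]
  map_smul' c x := by
    funext i
    by_cases h : i ∈ T <;> simp [h]

theorem cr_eq (h : SRep ρ E B u) (T Y : List ℕ) (hT : ∀ t ∈ T, t ∈ B) (hY : ∀ y ∈ Y, y ∈ E) :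
    cr ρ B T Y = Module.finrank K (Submodule.span K
      {x : ℕ → K | ∃ y ∈ Y, (fun i => if i ∈ T then u y i else 0) = x}) := by
  have h1 : ρ (dif B T ++ Y) = rkU u (dif B T ++ Y) := by
    refine h.rk _ fun t ht => ?_
    rcases List.mem_append.1 ht with ht | ht
    · exact h.BE t (crk1_dif.1 ht).1
    · exact hY t ht
  have h2 : ρ (dif B T) = rkU u (dif B T) := h.rk _ fun t ht => h.BE t (crk1_dif.1 ht).1
  unfold cr
  rw [h1, h2]
  unfold rkU
  set S := Submodule.span K {x : ℕ → K | ∃ t ∈ dif B T ++ Y, u t = x} with hS
  set W := Submodule.span K {x : ℕ → K | ∃ t ∈ dif B T, u t = x} with hW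
  set R := Submodule.span K {x : ℕ → K | ∃ y ∈ Y, (fun i => if i ∈ T then u y i else 0) = x} with hR
  haveI : FiniteDimensional K S := crk1_fin u _
  have hWS : W ≤ S := by
    refine Submodule.span_mono ?_
    rintro x ⟨t, ht, rfl⟩
    exact ⟨t, List.mem_append_left _ ht, rfl⟩
  have hmap : S.map (crk1_pi T) = R := by
    rw [hS, Submodule.map_span]
    refine le_antisymm (Submodule.span_le.2 ?_) (Submodule.span_mono ?_)
    · rintro _ ⟨_, ⟨t, ht, rfl⟩, rfl⟩
      rcases List.mem_append.1 ht with ht | ht
      · have hz : crk1_pi T (u t) = 0 := by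
          funext i
          show (if i ∈ T then u t i else 0) = 0
          obtain ⟨ht1, ht2⟩ := crk1_dif.1 ht
          split_ifs with hi
          · refine h.off t ht1 i ?_
            rintro rfl
            exact ht2 hi
          · rfl
        rw [hz]
        exact R.zero_mem
      · exact Submodule.subset_span ⟨t, ht, rfl⟩
    · rintro x ⟨y, hy, rfl⟩
      exact ⟨u y, ⟨y, List.mem_append_right _ hy, rfl⟩, rfl⟩
  have hsup : ∀ x ∈ S, ∀ i, i ∉ B → x i = 0 := by
    intro x hx
    induction hx using Submodule.span_induction with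
    | mem x hx =>
      obtain ⟨t, _, rfl⟩ := hx
      exact h.sup t
    | zero => intro i _; rfl
    | add x y _ _ hx hy =>
      intro i hi
      rw [Pi.add_apply, hx i hi, hy i hi, add_zero]
    | smul c x _ hx =>
      intro i hi
      rw [Pi.smul_apply, hx i hi, smul_zero]
  have hker : ∀ x ∈ S, (crk1_pi T x = 0 ↔ x ∈ W) := by
    intro x hx
    constructor
    · intro h0
      have hT0 : ∀ i ∈ T, x i = 0 := by
        intro i hi
        have := congrFun h0 i
        have h3 : crk1_pi T x i = if i ∈ T then x i else 0 := rfl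
        rw [h3, if_pos hi] at this
        exact this
      have he : x = ∑ b ∈ (dif B T).toFinset, (x b / u b b) • u b := by
        funext i
        rw [Finset.sum_apply]
        by_cases hi : i ∈ (dif B T).toFinset
        · rw [Finset.sum_eq_single_of_mem i hi]
          · have hiB := (crk1_dif.1 (List.mem_toFinset.1 hi)).1
            rw [Pi.smul_apply, smul_eq_mul, div_mul_cancel₀ _ (h.dia i hiB)]
          · intro b hb hbi
            have hbB := (crk1_dif.1 (List.mem_toFinset.1 hb)).1
            rw [Pi.smul_apply, h.off b hbB i (Ne.symm hbi), smul_zero]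
        · rw [Finset.sum_eq_zero]
          · by_cases hiB : i ∈ B
            · have hiT : i ∈ T := by
                by_contra hiT
                exact hi (List.mem_toFinset.2 (crk1_dif.2 ⟨hiB, hiT⟩))
              exact hT0 i hiT
            · exact hsup x hx i hiB
          · intro b hb
            have hbB := (crk1_dif.1 (List.mem_toFinset.1 hb)).1
            have hne : i ≠ b := by
              rintro rfl
              exact hi hb
            rw [Pi.smul_apply, h.off b hbB i hne, smul_zero]
      rw [he]
      refine Submodule.sum_mem _ fun b hb => Submodule.smul_mem _ _ (Submodule.subset_span ?_)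
      exact ⟨b, List.mem_toFinset.1 hb, rfl⟩
    · intro hxW
      have : W ≤ LinearMap.ker (crk1_pi (K := K) T) := by
        refine Submodule.span_le.2 ?_
        rintro _ ⟨t, ht, rfl⟩
        obtain ⟨ht1, ht2⟩ := crk1_dif.1 ht
        rw [SetLike.mem_coe, LinearMap.mem_ker]
        funext i
        show (if i ∈ T then u t i else 0) = 0
        split_ifs with hi
        · refine h.off t ht1 i ?_
          rintro rfl
          exact ht2 hi
        · rfl
      exact LinearMap.mem_ker.1 (this hxW)
  have hrn := LinearMap.finrank_range_add_finrank_ker ((crk1_pi (K := K) T).domRestrict S)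
  have e1 : LinearMap.range ((crk1_pi (K := K) T).domRestrict S) = R := by
    rw [LinearMap.range_domRestrict, hmap]
  have e2 : LinearMap.ker ((crk1_pi (K := K) T).domRestrict S) = W.comap S.subtype := by
    ext ⟨x, hx⟩
    rw [LinearMap.mem_ker, Submodule.mem_comap]
    exact hker x hx
  have e3 : Module.finrank K (W.comap S.subtype) = Module.finrank K W :=
    (Submodule.comapSubtypeEquivOfLe hWS).finrank_eq
  rw [e1, e2, e3] at hrn
  omega

end Pool.Agent.AM
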