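import Pool.Agent.AM.Crk1

set_option autoImplicit false

/-!
# Module Crk2: one, two and three coordinates

Corollaries of `cr_eq` (Module Crk1) for `T = [i]`, `[i, k]`, `[a, b, c]` and `Y = [y]`, `[x, y]`,
`[x, y, z]`.
-/

namespace Pool.Agent.AM

open Pool.Agent.G4 (nor dif word prd)
open Pool.Agent.BW (rkX grdy cod dcd RkS crk)

variable {K : Type} [Field K] {ρ : List ℕ → ℕ} {E B : List ℕ} {u w : ℕ → ℕ → K}

private theorem crk2_key {n : ℕ} (w : Fin n → ℕ → K) :
    Module.finrank K (Submodule.span K (Set.range w)) < n ↔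
      ∃ g : Fin n → K, g ≠ 0 ∧ ∑ i, g i • w i = 0 := by
  have h1 : Module.finrank K (Submodule.span K (Set.range w)) ≤ n := by
    have := finrank_range_le_card (R := K) w
    rwa [Fintype.card_fin] at this
  have h2 : LinearIndependent K w ↔ n = Module.finrank K (Submodule.span K (Set.range w)) := by
    have := linearIndependent_iff_card_eq_finrank_span (R := K) (b := w)
    rwa [Fintype.card_fin] at this
  constructor
  · intro h
    have h3 : ¬ LinearIndependent K w := fun h4 => by
      have := h2.1 h4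
      omega
    rw [Fintype.linearIndependent_iff] at h3
    push Not at h3
    obtain ⟨g, hg, i, hi⟩ := h3
    exact ⟨g, fun h => hi (by rw [h]; rfl), hg⟩
  · rintro ⟨g, hg, hs⟩
    have h3 : ¬ LinearIndependent K w := fun h4 =>
      hg (funext (Fintype.linearIndependent_iff.1 h4 g hs))
    by_contra h5
    exact h3 (h2.2 (by omega))

/-- the restricted vector -/
private def crk2_r (u : ℕ → ℕ → K) (T : List ℕ) (y : ℕ) : ℕ → K := fun i => if i ∈ T then u y i else 0

private theorem crk2_r0 (T : List ℕ) (y : ℕ) : crk2_r u T y = 0 ↔ ∀ j ∈ T, u y j = 0 := by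
  constructor
  · intro h j hj
    have := congrFun h j
    unfold crk2_r at this
    rwa [if_pos hj] at this
  · intro h
    funext j
    unfold crk2_r
    by_cases hj : j ∈ T
    · rw [if_pos hj, h j hj]
      rfl
    · rw [if_neg hj]
      rfl

private theorem crk2_one (h : SRep ρ E B u) {T : List ℕ} (hT : ∀ t ∈ T, t ∈ B) {y : ℕ} (hy : y ∈ E) :
    cr ρ B T [y] = 0 ↔ ∀ j ∈ T, u y j = 0 := by
  have h1 := cr_eq h T [y] hT (fun z hz => by rw [List.mem_singleton.1 hz]; exact hy)
  have h2 : {x : ℕ → K | ∃ z ∈ [y], (fun i => if i ∈ T then u z i else 0) = x} = {crk2_r u T y} := by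
    ext x
    constructor
    · rintro ⟨z, hz, hx⟩
      rw [List.mem_singleton.1 hz] at hx
      exact hx.symm
    · intro hx
      exact ⟨y, List.mem_singleton.2 rfl, hx.symm⟩
  rw [h1, h2, ← crk2_r0]
  constructor
  · intro h3
    by_contra h4
    rw [finrank_span_singleton h4] at h3
    omega
  · intro h3
    rw [h3, Submodule.span_zero_singleton, finrank_bot]

private theorem crk2_two (h : SRep ρ E B u) {T : List ℕ} (hT : ∀ t ∈ T, t ∈ B) {x y : ℕ}
    (hx : x ∈ E) (hy : y ∈ E) :
    cr ρ B T [x, y] ≤ 1 ↔ ∃ s t : K, (s ≠ 0 ∨ t ≠ 0) ∧ ∀ j ∈ T, s * u x j + t * u y j = 0 := by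
  have h1 := cr_eq h T [x, y] hT (fun z hz => by
    simp only [List.mem_cons, List.not_mem_nil, or_false] at hz
    rcases hz with rfl | rfl
    · exact hx
    · exact hy)
  have h2 : {v : ℕ → K | ∃ z ∈ [x, y], (fun i => if i ∈ T then u z i else 0) = v} =
      Set.range ![crk2_r u T x, crk2_r u T y] := by
    ext v
    simp only [List.mem_cons, List.not_mem_nil, or_false, Set.mem_ofPred_eq, exists_eq_or_imp,
      exists_eq_left, Set.mem_range, Fin.exists_fin_two, Matrix.cons_val_zero, Matrix.cons_val_one]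
    rfl
  have h3 := crk2_key ![crk2_r u T x, crk2_r u T y]
  rw [h1, h2, ← Nat.lt_succ_iff]
  change Module.finrank K (Submodule.span K (Set.range ![crk2_r u T x, crk2_r u T y])) < 2 ↔ _
  rw [h3]
  have h4 : ∀ s t : K, s • crk2_r u T x + t • crk2_r u T y = 0 ↔ ∀ j ∈ T, s * u x j + t * u y j = 0 := by
    intro s t
    constructor
    · intro h5 j hj
      have h6 := congrFun h5 j
      unfold crk2_r at h6
      simp only [Pi.add_apply, Pi.smul_apply, if_pos hj, smul_eq_mul, Pi.zero_apply] at h6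
      exact h6
    · intro h5
      funext j
      unfold crk2_r
      simp only [Pi.add_apply, Pi.smul_apply, smul_eq_mul, Pi.zero_apply]
      by_cases hj : j ∈ T
      · rw [if_pos hj, if_pos hj]
        exact h5 j hj
      · rw [if_neg hj, if_neg hj, mul_zero, mul_zero, add_zero]
  constructor
  · rintro ⟨g, hg, hs⟩
    rw [Fin.sum_univ_two] at hs
    refine ⟨g 0, g 1, ?_, (h4 _ _).1 hs⟩
    by_contra h5
    push Not at h5
    apply hg
    funext i
    fin_cases i
    · exact h5.1
    · exact h5.2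
  · rintro ⟨s, t, hst, hj⟩
    refine ⟨![s, t], ?_, ?_⟩
    · intro h5
      rcases hst with h6 | h6
      · exact h6 (congrFun h5 0)
      · exact h6 (congrFun h5 1)
    · rw [Fin.sum_univ_two]
      exact (h4 s t).2 hj

private theorem crk2_three (h : SRep ρ E B u) {T : List ℕ} (hT : ∀ t ∈ T, t ∈ B) {x y z : ℕ}
    (hx : x ∈ E) (hy : y ∈ E) (hz : z ∈ E) :
    cr ρ B T [x, y, z] < 3 ↔ ∃ g : Fin 3 → K, g ≠ 0 ∧
      ∀ j ∈ T, g 0 * u x j + g 1 * u y j + g 2 * u z j = 0 := by
  have h1 := cr_eq h T [x, y, z] hT (fun z hz => by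
    simp only [List.mem_cons, List.not_mem_nil, or_false] at hz
    rcases hz with rfl | rfl | rfl
    · exact hx
    · exact hy
    · assumption)
  have h2 : {v : ℕ → K | ∃ t ∈ [x, y, z], (fun i => if i ∈ T then u t i else 0) = v} =
      Set.range ![crk2_r u T x, crk2_r u T y, crk2_r u T z] := by
    ext v
    constructor
    · rintro ⟨t, ht, hv⟩
      simp only [List.mem_cons, List.not_mem_nil, or_false] at ht
      rcases ht with rfl | rfl | rfl
      · exact ⟨0, hv⟩
      · exact ⟨1, hv⟩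
      · exact ⟨2, hv⟩
    · rintro ⟨i, hi⟩
      fin_cases i
      · exact ⟨x, by simp, hi⟩
      · exact ⟨y, by simp, hi⟩
      · exact ⟨z, by simp, hi⟩
  have h3 := crk2_key ![crk2_r u T x, crk2_r u T y, crk2_r u T z]
  rw [h1, h2, h3]
  have h4 : ∀ g : Fin 3 → K, (∑ i, g i • (![crk2_r u T x, crk2_r u T y, crk2_r u T z] : Fin 3 → ℕ → K) i = 0) ↔
      ∀ j ∈ T, g 0 * u x j + g 1 * u y j + g 2 * u z j = 0 := by
    intro g
    rw [Fin.sum_univ_three]
    change g 0 • crk2_r u T x + g 1 • crk2_r u T y + g 2 • crk2_r u T z = 0 ↔ _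
    constructor
    · intro h5 j hj
      have h6 := congrFun h5 j
      unfold crk2_r at h6
      simp only [Pi.add_apply, Pi.smul_apply, if_pos hj, smul_eq_mul, Pi.zero_apply] at h6
      exact h6
    · intro h5
      funext j
      unfold crk2_r
      simp only [Pi.add_apply, Pi.smul_apply, smul_eq_mul, Pi.zero_apply]
      by_cases hj : j ∈ T
      · rw [if_pos hj, if_pos hj, if_pos hj]
        exact h5 j hj
      · rw [if_neg hj, if_neg hj, if_neg hj, mul_zero, mul_zero, mul_zero, add_zero, add_zero]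
  exact exists_congr fun g => and_congr_right fun _ => h4 g

theorem cr_one (h : SRep ρ E B u) {i y : ℕ} (hi : i ∈ B) (hy : y ∈ E) :
    cr ρ B [i] [y] = 0 ↔ u y i = 0 := by
  rw [crk2_one h (fun t ht => by rw [List.mem_singleton.1 ht]; exact hi) hy]
  simp

private theorem crk2_B2 {i k : ℕ} (hi : i ∈ B) (hk : k ∈ B) : ∀ t ∈ [i, k], t ∈ B := by
  intro t ht
  simp only [List.mem_cons, List.not_mem_nil, or_false] at ht
  rcases ht with rfl | rfl
  · exact hi
  · exact hk

private theorem crk2_B3 {a b c : ℕ} (ha : a ∈ B) (hb : b ∈ B) (hc : c ∈ B) : ∀ t ∈ [a, b, c], t ∈ B := by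
  intro t ht
  simp only [List.mem_cons, List.not_mem_nil, or_false] at ht
  rcases ht with rfl | rfl | rfl
  · exact ha
  · exact hb
  · exact hc

theorem cr_two0 (h : SRep ρ E B u) {i k y : ℕ} (hi : i ∈ B) (hk : k ∈ B) (hy : y ∈ E) :
    cr ρ B [i, k] [y] = 0 ↔ u y i = 0 ∧ u y k = 0 := by
  rw [crk2_one h (crk2_B2 hi hk) hy]
  simp

theorem cr_two (h : SRep ρ E B u) {i k x y : ℕ} (hi : i ∈ B) (hk : k ∈ B) (hik : i ≠ k)
    (hx : x ∈ E) (hy : y ∈ E) :
    cr ρ B [i, k] [x, y] ≤ 1 ↔ u x i * u y k = u x k * u y i := by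
  have _ := hik
  rw [crk2_two h (crk2_B2 hi hk) hx hy]
  constructor
  · rintro ⟨s, t, hst, hj⟩
    have h1 := hj i (by simp)
    have h2 := hj k (by simp)
    rcases hst with h3 | h3
    · have h4 : s * (u x i * u y k - u x k * u y i) = 0 := by linear_combination u y k * h1 - u y i * h2
      exact sub_eq_zero.1 ((mul_eq_zero.1 h4).resolve_left h3)
    · have h4 : t * (u x i * u y k - u x k * u y i) = 0 := by linear_combination u x i * h2 - u x k * h1
      exact sub_eq_zero.1 ((mul_eq_zero.1 h4).resolve_left h3)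
  · intro h1
    by_cases hyi : u y i = 0
    · by_cases hyk : u y k = 0
      · refine ⟨0, 1, Or.inr one_ne_zero, fun j hj => ?_⟩
        simp only [List.mem_cons, List.not_mem_nil, or_false] at hj
        rcases hj with rfl | rfl
        · rw [hyi]
          ring
        · rw [hyk]
          ring
      · refine ⟨u y k, -u x k, Or.inl hyk, fun j hj => ?_⟩
        simp only [List.mem_cons, List.not_mem_nil, or_false] at hj
        rcases hj with rfl | rfl
        · linear_combination h1
        · ring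
    · refine ⟨u y i, -u x i, Or.inl hyi, fun j hj => ?_⟩
      simp only [List.mem_cons, List.not_mem_nil, or_false] at hj
      rcases hj with rfl | rfl
      · ring
      · linear_combination -h1

private theorem crk2_v0 {a b c y : ℕ} : v3 u a b c y = 0 ↔ u y a = 0 ∧ u y b = 0 ∧ u y c = 0 := by
  constructor
  · intro h
    exact ⟨congrFun h 0, congrFun h 1, congrFun h 2⟩
  · rintro ⟨h1, h2, h3⟩
    funext i
    fin_cases i
    · exact h1
    · exact h2
    · exact h3

theorem cr_v0 (h : SRep ρ E B u) {a b c y : ℕ} (ha : a ∈ B) (hb : b ∈ B) (hc : c ∈ B)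
    (hy : y ∈ E) : cr ρ B [a, b, c] [y] = 0 ↔ v3 u a b c y = 0 := by
  rw [crk2_one h (crk2_B3 ha hb hc) hy, crk2_v0]
  simp

theorem cr_v1 (h : SRep ρ E B u) {a b c s y : ℕ} (ha : a ∈ B) (hb : b ∈ B) (hc : c ∈ B)
    (hab : a ≠ b) (hac : a ≠ c) (hbc : b ≠ c)
    (hs : s ∈ E) (hy : y ∈ E) (hs0 : v3 u a b c s ≠ 0) (hy0 : v3 u a b c y ≠ 0) :
    cr ρ B [a, b, c] [s, y] ≤ 1 ↔ Prp (v3 u a b c s) (v3 u a b c y) := by
  have _ := hab
  have _ := hac
  have _ := hbc
  rw [crk2_two h (crk2_B3 ha hb hc) hs hy]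
  constructor
  · rintro ⟨σ, τ, hst, hj⟩
    have h1 := hj a (by simp)
    have h2 := hj b (by simp)
    have h3 := hj c (by simp)
    have hτ : τ ≠ 0 := by
      intro h4
      have hσ : σ ≠ 0 := hst.resolve_right fun h5 => h5 h4
      rw [h4, zero_mul, add_zero] at h1 h2 h3
      exact hs0 (crk2_v0.2 ⟨(mul_eq_zero.1 h1).resolve_left hσ, (mul_eq_zero.1 h2).resolve_left hσ,
        (mul_eq_zero.1 h3).resolve_left hσ⟩)
    have hσ : σ ≠ 0 := by
      intro h4
      rw [h4, zero_mul, zero_add] at h1 h2 h3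
      exact hy0 (crk2_v0.2 ⟨(mul_eq_zero.1 h1).resolve_left hτ, (mul_eq_zero.1 h2).resolve_left hτ,
        (mul_eq_zero.1 h3).resolve_left hτ⟩)
    have key : ∀ p q : K, σ * p + τ * q = 0 → q = -(σ / τ) * p := by
      intro p q h4
      field_simp
      linear_combination h4
    refine ⟨-(σ / τ), neg_ne_zero.2 (div_ne_zero hσ hτ), ?_⟩
    funext i
    fin_cases i
    · exact key _ _ h1
    · exact key _ _ h2
    · exact key _ _ h3
  · rintro ⟨γ, hγ, hyγ⟩
    refine ⟨γ, -1, Or.inl hγ, fun j hj => ?_⟩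
    simp only [List.mem_cons, List.not_mem_nil, or_false] at hj
    rcases hj with rfl | rfl | rfl
    · have h1 : u y j = γ * u s j := congrFun hyγ 0
      rw [h1]
      ring
    · have h1 : u y j = γ * u s j := congrFun hyγ 1
      rw [h1]
      ring
    · have h1 : u y j = γ * u s j := congrFun hyγ 2
      rw [h1]
      ring

theorem cr_v2 (h : SRep ρ E B u) {a b c x y z : ℕ} (ha : a ∈ B) (hb : b ∈ B) (hc : c ∈ B)
    (hab : a ≠ b) (hac : a ≠ c) (hbc : b ≠ c) (hx : x ∈ E) (hy : y ∈ E) (hz : z ∈ E) :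
    cr ρ B [a, b, c] [x, y, z] < 3 ↔
      det3 (v3 u a b c x) (v3 u a b c y) (v3 u a b c z) = 0 := by
  have _ := hab
  have _ := hac
  have _ := hbc
  rw [crk2_three h (crk2_B3 ha hb hc) hx hy hz]
  obtain ⟨M, hM⟩ : ∃ M : Matrix (Fin 3) (Fin 3) K, M = ![v3 u a b c x, v3 u a b c y, v3 u a b c z] := ⟨_, rfl⟩
  have hdet : M.det = det3 (v3 u a b c x) (v3 u a b c y) (v3 u a b c z) := by
    rw [hM, Matrix.det_fin_three]
    show (v3 u a b c x) 0 * (v3 u a b c y) 1 * (v3 u a b c z) 2 - (v3 u a b c x) 0 * (v3 u a b c y) 2 * (v3 u a b c z) 1 -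
      (v3 u a b c x) 1 * (v3 u a b c y) 0 * (v3 u a b c z) 2 + (v3 u a b c x) 1 * (v3 u a b c y) 2 * (v3 u a b c z) 0 +
      (v3 u a b c x) 2 * (v3 u a b c y) 0 * (v3 u a b c z) 1 - (v3 u a b c x) 2 * (v3 u a b c y) 1 * (v3 u a b c z) 0 = _
    unfold det3
    ring
  rw [← hdet, ← Matrix.exists_vecMul_eq_zero_iff]
  refine exists_congr fun g => and_congr_right fun _ => ?_
  have hv : ∀ i, Matrix.vecMul g M i = g 0 * v3 u a b c x i + g 1 * v3 u a b c y i + g 2 * v3 u a b c z i := by
    intro i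
    rw [hM]
    unfold Matrix.vecMul dotProduct
    rw [Fin.sum_univ_three]
    rfl
  constructor
  · intro h1
    funext i
    rw [hv]
    fin_cases i
    · exact h1 a (by simp)
    · exact h1 b (by simp)
    · exact h1 c (by simp)
  · intro h1 j hj
    simp only [List.mem_cons, List.not_mem_nil, or_false] at hj
    rcases hj with rfl | rfl | rfl
    · have h2 := congrFun h1 0
      rw [hv] at h2
      exact h2
    · have h2 := congrFun h1 1
      rw [hv] at h2
      exact h2
    · have h2 := congrFun h1 2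
      rw [hv] at h2
      exact h2

end Pool.Agent.AM
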