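import Pool.Agent.AM.LiU

set_option autoImplicit false

/-!
# Module Ctr: independence in the contraction
-/

namespace Pool.Agent.AM

open Pool.Agent.G4 (nor dif word prd)
open Pool.Agent.BW (rkX grdy cod dcd RkS crk)

private theorem ct_li {K : Type} [Field K] {n : ℕ} (J : Finset (Fin n)) (u : ℕ → ℕ → K) :
    (LinearIndependent K fun j : J => u (j : ℕ)) ↔
      ∀ c : Fin n → K, ∑ j ∈ J, c j • u (j : ℕ) = 0 → ∀ j ∈ J, c j = 0 := by
  classical
  rw [Fintype.linearIndependent_iff]
  constructor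
  · intro h c hc j hj
    refine h (fun j => c j) ?_ ⟨j, hj⟩
    rw [← hc]
    exact Finset.sum_coe_sort J fun j => c j • u (j : ℕ)
  · intro h g hg j
    have h1 := h (fun k => if hk : k ∈ J then g ⟨k, hk⟩ else 0) ?_ j j.2
    · simpa using h1
    · rw [← hg, ← Finset.sum_coe_sort J]
      exact Finset.sum_congr rfl fun k _ => by simp

private theorem ct_two {K : Type} [Field K] (p q : Fin 3 → K) :
    (∀ α β : K, α • p + β • q = 0 → α = 0 ∧ β = 0) ↔ p ≠ 0 ∧ q ≠ 0 ∧ ¬ Prp p q := by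
  constructor
  · intro h
    refine ⟨fun hp => ?_, fun hq => ?_, ?_⟩
    · exact one_ne_zero (h 1 0 (by rw [hp]; simp)).1
    · exact one_ne_zero (h 0 1 (by rw [hq]; simp)).2
    · rintro ⟨c, -, hc⟩
      exact one_ne_zero (neg_eq_zero.1 (h c (-1) (by rw [hc]; simp)).2)
  · rintro ⟨hp, hq, hpq⟩ α β h
    by_cases hβ : β = 0
    · rw [hβ, zero_smul, add_zero] at h
      exact ⟨(smul_eq_zero.1 h).resolve_right hp, hβ⟩
    · exfalso
      have h1 : q = (-(β⁻¹ * α)) • p := by
        have h2 : β • q = -(α • p) := eq_neg_of_add_eq_zero_right h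
        calc q = β⁻¹ • (β • q) := by rw [smul_smul, inv_mul_cancel₀ hβ, one_smul]
          _ = (-(β⁻¹ * α)) • p := by rw [h2, smul_neg, smul_smul, neg_smul]
      refine hpq ⟨_, ?_, h1⟩
      intro h2
      rw [h2, zero_smul] at h1
      exact hq h1

theorem contract_indep {K : Type} [Field K] {m n : ℕ} {M : Matroid (Fin n)}
    (hE : M.E = Set.univ) {A : Matrix (Fin m) (Fin n) K} (hA : IsRep M A) {ρ : List ℕ → ℕ}
    (hρ : RkS ρ (List.range n) (crk A)) {B : List ℕ} {u : ℕ → ℕ → K}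
    (h : SRep ρ (List.range n) B u) {a i j : ℕ} (ha : a ∈ B) (hi : i ∈ B) (hj : j ∈ B)
    (hai : a ≠ i) (haj : a ≠ j) (hij : i ≠ j) (C : Set (Fin n))
    (hC : ∀ x : Fin n, x ∈ C ↔ (x : ℕ) ∈ B ∧ (x : ℕ) ≠ a ∧ (x : ℕ) ≠ i ∧ (x : ℕ) ≠ j)
    {x y : Fin n} (hxy : x ≠ y) :
    (M.contract C).Indep {x, y} ↔
      v3 u a i j x ≠ 0 ∧ v3 u a i j y ≠ 0 ∧ ¬ Prp (v3 u a i j x) (v3 u a i j y) := by
  classical
  have hind : ∀ J : Finset (Fin n), M.Indep (J : Set (Fin n)) ↔
      ∀ c : Fin n → K, ∑ j ∈ J, c j • u (j : ℕ) = 0 → ∀ j ∈ J, c j = 0 := by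
    intro J
    rw [hA J, ← li_iff A hρ h J, ct_li]
  obtain ⟨D, hD⟩ : ∃ D : Finset (Fin n), (D : Set (Fin n)) = C := ⟨C.toFinset, by simp⟩
  have hDm : ∀ x : Fin n, x ∈ D ↔ (x : ℕ) ∈ B ∧ (x : ℕ) ≠ a ∧ (x : ℕ) ≠ i ∧ (x : ℕ) ≠ j := by
    intro x
    rw [← hC, ← hD, Finset.mem_coe]
  have hev : ∀ (c : Fin n → K) (b : Fin n), b ∈ D →
      (∑ k ∈ D, c k • u (k : ℕ)) (b : ℕ) = c b * u b b := by
    intro c b hb
    rw [Finset.sum_apply, Finset.sum_eq_single b]
    · rfl
    · intro k hk hkb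
      have h1 : (b : ℕ) ≠ k := fun h => hkb (Fin.ext h.symm)
      rw [Pi.smul_apply, h.off k ((hDm k).1 hk).1 b h1, smul_zero]
    · intro h1
      exact absurd hb h1
  have hev0 : ∀ (c : Fin n → K) (t : ℕ), (t = a ∨ t = i ∨ t = j) →
      (∑ k ∈ D, c k • u (k : ℕ)) t = 0 := by
    intro c t ht
    rw [Finset.sum_apply]
    refine Finset.sum_eq_zero fun k hk => ?_
    obtain ⟨h1, h2, h3, h4⟩ := (hDm k).1 hk
    have h5 : t ≠ (k : ℕ) := by
      rcases ht with rfl | rfl | rfl
      · exact fun h => h2 h.symm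
      · exact fun h => h3 h.symm
      · exact fun h => h4 h.symm
    rw [Pi.smul_apply, h.off k h1 t h5, smul_zero]
  have hdia : ∀ b : Fin n, b ∈ D → u b b ≠ 0 := fun b hb => h.dia b ((hDm b).1 hb).1
  have hCi : M.Indep C := by
    rw [← hD, hind]
    intro c hc b hb
    have h1 := hev c b hb
    rw [hc] at h1
    exact (mul_eq_zero.1 h1.symm).resolve_right (hdia b hb)
  have hv0 : ∀ x : Fin n, x ∈ D → v3 u a i j x = 0 := by
    intro x hx
    obtain ⟨h1, h2, h3, h4⟩ := (hDm x).1 hx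
    unfold v3
    rw [h.off x h1 a (Ne.symm h2), h.off x h1 i (Ne.symm h3), h.off x h1 j (Ne.symm h4)]
    funext k
    fin_cases k <;> rfl
  rw [hCi.contract_indep_iff]
  by_cases hx : x ∈ D
  · constructor
    · rintro ⟨h1, -⟩
      exact absurd (hD ▸ (Finset.mem_coe.2 hx)) (Set.disjoint_left.1 h1 (Set.mem_insert _ _))
    · rintro ⟨h1, -⟩
      exact absurd (hv0 x hx) h1
  by_cases hy : y ∈ D
  · constructor
    · rintro ⟨h1, -⟩
      exact absurd (hD ▸ (Finset.mem_coe.2 hy)) (Set.disjoint_left.1 h1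
        (Set.mem_insert_of_mem _ rfl))
    · rintro ⟨-, h1, -⟩
      exact absurd (hv0 y hy) h1
  have hdis : Disjoint ({x, y} : Set (Fin n)) C := by
    rw [Set.disjoint_left]
    rintro z hz hzC
    rw [← hD, Finset.mem_coe] at hzC
    rcases hz with rfl | hz
    · exact hx hzC
    · rw [Set.mem_singleton_iff.1 hz] at hzC
      exact hy hzC
  have hset : ({x, y} ∪ C : Set (Fin n)) = ((insert x (insert y D) : Finset (Fin n)) : Set (Fin n)) := by
    rw [Finset.coe_insert, Finset.coe_insert, hD]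
    ext z
    simp only [Set.mem_union, Set.mem_insert_iff, Set.mem_singleton_iff]
    tauto
  rw [and_iff_right hdis, hset, hind, ← ct_two]
  have hxD : x ∉ insert y D := by
    rw [Finset.mem_insert]
    push Not
    exact ⟨hxy, hx⟩
  have hsum : ∀ c : Fin n → K, ∑ k ∈ insert x (insert y D), c k • u (k : ℕ) =
      c x • u x + (c y • u y + ∑ k ∈ D, c k • u (k : ℕ)) := by
    intro c
    rw [Finset.sum_insert hxD, Finset.sum_insert hy]
  have hv : ∀ (α β : K), (∀ t, (t = a ∨ t = i ∨ t = j) → α * u x t + β * u y t = 0) ↔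
      α • v3 u a i j x + β • v3 u a i j y = 0 := by
    intro α β
    constructor
    · intro h1
      funext k
      fin_cases k
      · exact h1 a (Or.inl rfl)
      · exact h1 i (Or.inr (Or.inl rfl))
      · exact h1 j (Or.inr (Or.inr rfl))
    · intro h1 t ht
      rcases ht with rfl | rfl | rfl
      · exact congrFun h1 0
      · exact congrFun h1 1
      · exact congrFun h1 2
  constructor
  · intro h1 α β hαβ
    have h2 := (hv α β).2 hαβ
    obtain ⟨c, hc⟩ : ∃ c : Fin n → K, c = fun k => if k = x then α else if k = y then β else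
      -((α * u x k + β * u y k) / u k k) := ⟨_, rfl⟩
    have hcx : c x = α := by rw [hc]; simp
    have hcy : c y = β := by rw [hc]; simp [hxy.symm]
    have hcD : ∀ k ∈ D, c k = -((α * u x k + β * u y k) / u k k) := by
      intro k hk
      have h3 : k ≠ x := fun h => hx (h ▸ hk)
      have h4 : k ≠ y := fun h => hy (h ▸ hk)
      rw [hc]
      simp [h3, h4]
    have h3 : ∑ k ∈ insert x (insert y D), c k • u (k : ℕ) = 0 := by
      rw [hsum, hcx, hcy]
      funext t
      show α * u x t + (β * u y t + (∑ k ∈ D, c k • u (k : ℕ)) t) = 0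
      by_cases ht : t = a ∨ t = i ∨ t = j
      · rw [hev0 c t ht, add_zero]
        exact h2 t ht
      · by_cases htB : t ∈ B
        · have htn : t < n := List.mem_range.1 (h.BE t htB)
          push Not at ht
          have h4 : (⟨t, htn⟩ : Fin n) ∈ D := (hDm _).2 ⟨htB, ht⟩
          have h5 := hev c ⟨t, htn⟩ h4
          have h6 := hdia _ h4
          simp only at h5 h6
          rw [h5, hcD _ h4]
          simp only
          field_simp
          ring
        · rw [h.sup x t htB, h.sup y t htB, Finset.sum_apply, Finset.sum_eq_zero]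
          · ring
          · intro k _
            rw [Pi.smul_apply, h.sup k t htB, smul_zero]
    have h4 := h1 c h3
    exact ⟨hcx ▸ h4 x (Finset.mem_insert_self _ _), hcy ▸ h4 y (Finset.mem_insert_of_mem
      (Finset.mem_insert_self _ _))⟩
  · intro h1 c hc
    rw [hsum] at hc
    have h2 : ∀ t, c x * u x t + (c y * u y t + (∑ k ∈ D, c k • u (k : ℕ)) t) = 0 :=
      fun t => congrFun hc t
    obtain ⟨h3, h4⟩ := h1 (c x) (c y) ((hv _ _).1 fun t ht => by
      have h5 := h2 t
      rw [hev0 c t ht, add_zero] at h5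
      exact h5)
    intro k hk
    rcases Finset.mem_insert.1 hk with rfl | hk
    · exact h3
    rcases Finset.mem_insert.1 hk with rfl | hk
    · exact h4
    have h5 := h2 k
    rw [h3, h4, hev c k hk, zero_mul, zero_mul, zero_add, zero_add] at h5
    exact (mul_eq_zero.1 h5).resolve_right (hdia k hk)

end Pool.Agent.AM
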