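import Mathlib
import Pool.Agent.Helper22.OracleDefs

set_option autoImplicit false

/-!
# Definitions for the statement of `MP_c023e2_lc.AlmostAll`
-/

namespace Pool.Agent.AM

open Pool.Agent.Helper22

/-- the columns of the matrix `A` represent the matroid `M` -/
def IsRep {K : Type} [Field K] {m n : ℕ} (M : Matroid (Fin n)) (A : Matrix (Fin m) (Fin n) K) :
    Prop :=
  ∀ J : Finset (Fin n), M.Indep (J : Set (Fin n)) ↔
    LinearIndependent K fun j : J => fun i => A i j

/-- `X` is an independence oracle of the matroid `M`: the set `J` is submitted as its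
characteristic word of length `n` -/
def IsOracle {n : ℕ} (X : Oracle) (M : Matroid (Fin n)) : Prop :=
  ∀ J : Finset (Fin n),
    X (List.ofFn fun i => decide (i ∈ J)) = true ↔ M.Indep (J : Set (Fin n))

/-- the matroids with ground set `{0, …, n - 1}` that are representable over `K` -/
def RepM (K : Type) [Field K] (n : ℕ) : Set (Matroid (Fin n)) :=
  {M | M.E = Set.univ ∧ ∃ (m : ℕ) (A : Matrix (Fin m) (Fin n) K), IsRep M A}

/-- the first basis: the elements that are not spanned by the smaller elements -/
def firstBasis {n : ℕ} (M : Matroid (Fin n)) : Set (Fin n) := {x | x ∉ M.closure {y | y < x}}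

/-- the contraction `M / C` has (at least) `N` points: there are `N` elements that are pairwise
independent in `M / C` -/
def HasPoints {n : ℕ} (M : Matroid (Fin n)) (C : Set (Fin n)) (N : ℕ) : Prop :=
  ∃ S : Finset (Fin n), S.card = N ∧ ∀ x ∈ S, ∀ y ∈ S, x ≠ y → (M.contract C).Indep {x, y}

/-- `B` is the first basis of `M`, of at least three elements, and `a` its first element; for all
other elements `i ≠ j` of `B` the contraction `M / (B \ {a, i, j})`, of rank three, has
`q ^ 2 + q + 1` points -/
def Rich (q : ℕ) {n : ℕ} (M : Matroid (Fin n)) : Prop :=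
  3 ≤ (firstBasis M).ncard ∧ ∃ a ∈ firstBasis M, (∀ x ∈ firstBasis M, a ≤ x) ∧
    ∀ i ∈ firstBasis M, ∀ j ∈ firstBasis M, i ≠ a → j ≠ a → i ≠ j →
      HasPoints M (firstBasis M \ {a, i, j}) (q ^ 2 + q + 1)

/-- the matrix with the rows `R`, where the number `c` stands for the element `e c` of the field -/
def outM (K : Type) [Field K] [Fintype K] (e : Fin (Fintype.card K) ≃ K) (n : ℕ)
    (R : List (List ℕ)) : Matrix (Fin R.length) (Fin n) K :=
  fun i j => if h : (R.get i).getD (j : ℕ) 0 < Fintype.card K then
    e ⟨(R.get i).getD (j : ℕ) 0, h⟩ else 0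

/-- the matrix `[I | D | A]` -/
def blk {K : Type} [Field K] {r s t : ℕ} (D : Matrix (Fin r) (Fin s) K)
    (A : Matrix (Fin r) (Fin t) K) : Matrix (Fin r) (Fin (r + s + t)) K :=
  fun i => Fin.append (Fin.append (fun j => if j = i then 1 else 0) (D i)) (A i)

end Pool.Agent.AM
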