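import Pool.Agent.BW.DpDefs
import Pool.Agent.BW.MatR
import Pool.Agent.AM.Alg
import Pool.Agent.AM.Stmt

set_option autoImplicit false

/-!
# Definitions
-/

namespace Pool.Agent.AM

open Pool.Agent.G4 (nor dif word prd)
open Pool.Agent.BW (rkX grdy cod dcd RkS crk)

section

variable {K : Type} [Field K]

/-- the rank of the vectors `u t`, `t ∈ T` -/
noncomputable def rkU (u : ℕ → ℕ → K) (T : List ℕ) : ℕ :=
  Module.finrank K (Submodule.span K {x : ℕ → K | ∃ t ∈ T, u t = x})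

/-- the vectors `u y`, `y ∈ E`, with the coordinates `u y i`, `i ∈ B`, represent the rank function
`ρ`; the vectors of the elements of `B` are multiples of the unit vectors -/
structure SRep (ρ : List ℕ → ℕ) (E B : List ℕ) (u : ℕ → ℕ → K) : Prop where
  nd : B.Nodup
  BE : ∀ b ∈ B, b ∈ E
  sup : ∀ y i, i ∉ B → u y i = 0
  off : ∀ b ∈ B, ∀ i, i ≠ b → u b i = 0
  dia : ∀ b ∈ B, u b b ≠ 0
  rk : ∀ T : List ℕ, (∀ t ∈ T, t ∈ E) → ρ T = rkU u T

/-- three coordinates -/
def v3 (u : ℕ → ℕ → K) (a b c y : ℕ) : Fin 3 → K := ![u y a, u y b, u y c]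

/-- the determinant -/
def det3 (x y z : Fin 3 → K) : K :=
  x 0 * (y 1 * z 2 - y 2 * z 1) - x 1 * (y 0 * z 2 - y 2 * z 0) + x 2 * (y 0 * z 1 - y 1 * z 0)

/-- `y` is a nonzero multiple of `x` -/
def Prp (x y : Fin 3 → K) : Prop := ∃ c : K, c ≠ 0 ∧ y = c • x

/-- the plane `{a, b, c}` is full: each point is the point of some element of `E` -/
def Full (E : List ℕ) (u : ℕ → ℕ → K) (a b c : ℕ) : Prop :=
  ∀ z : Fin 3 → K, z ≠ 0 → ∃ y ∈ E, Prp z (v3 u a b c y)

/-- all planes `{a, i, j}`, `a` the first element of `B`, are full -/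
def RichU (E B : List ℕ) (u : ℕ → ℕ → K) : Prop :=
  3 ≤ B.length ∧ ∀ i ∈ B.tail, ∀ j ∈ B.tail, i ≠ j → Full E u (B.headD 0) i j

/-- `Ψ` is a chart of the plane `{a, b, c}` -/
structure IsCht (E : List ℕ) (u : ℕ → ℕ → K) (a b c : ℕ) (Ψ : ℕ → Fin 3 → K) : Prop where
  z : ∀ y ∈ E, v3 u a b c y = 0 ↔ Ψ y = 0
  d : ∀ x ∈ E, ∀ y ∈ E, ∀ z ∈ E,
    det3 (v3 u a b c x) (v3 u a b c y) (v3 u a b c z) = 0 ↔ det3 (Ψ x) (Ψ y) (Ψ z) = 0
  ea : Prp ![1, 0, 0] (Ψ a)
  eb : Prp ![0, 1, 0] (Ψ b)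
  ec : Prp ![0, 0, 1] (Ψ c)

/-- the first nonzero coordinate is one -/
def Nrm (x : Fin 3 → K) : Prop :=
  x 0 = 1 ∨ (x 0 = 0 ∧ x 1 = 1) ∨ (x 0 = 0 ∧ x 1 = 0 ∧ x 2 = 1)

end

/-! ## Codes and constants -/

section code

variable {K : Type} [Field K] [Fintype K] (e : Fin (Fintype.card K) ≃ K)

/-- the code of a vector -/
def cod3 (x : Fin 3 → K) : Tri := (cod e (x 0), (cod e (x 1), cod e (x 2)))

/-- decode a vector -/
def dec3 (p : Tri) : Fin 3 → K := ![dcd e p.1, dcd e p.2.1, dcd e p.2.2]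

/-- all lists of length `n` with entries in `P` -/
def lists {β : Type} (P : List β) : ℕ → List (List β)
  | 0 => [[]]
  | n + 1 => P.flatMap fun p => (lists P n).map fun l => p :: l

/-- the constants of the field -/
noncomputable def prmQ : Prm := by
  classical
  exact
  { num := Fintype.card K ^ 2 + Fintype.card K + 1
    zer := cod e 0
    one := cod e 1
    maps := (lists ((Finset.univ.filter fun x : Fin 3 → K => Nrm x).toList.map (cod3 e))
        (Fintype.card K ^ 2 + Fintype.card K - 2)).map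
      fun l => cod3 e ![1, 0, 0] :: cod3 e ![0, 1, 0] :: cod3 e ![0, 0, 1] :: l
    sg := ((Finset.univ.filter fun t : (Fin 3 → K) × ((Fin 3 → K) × (Fin 3 → K)) =>
      det3 t.1 t.2.1 t.2.2 = 0).toList).map fun t => (cod3 e t.1, (cod3 e t.2.1, cod3 e t.2.2))
    dv := fun i j => if i < Fintype.card K ∧ j < Fintype.card K then cod e (dcd e i / dcd e j)
      else 0 }

end code

/-! ## Counting -/

section count

/-- a matrix in echelon form: the set `B` of the elements whose columns are unit vectors, and the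
other columns `D y`; the column `y` has nonzero entries only in the rows `i ∈ B`, `i < y` -/
structure Ech (K : Type) [Field K] (n : ℕ) where
  B : Finset (Fin n)
  D : Fin n → Fin n → K
  ech : ∀ y i, D y i ≠ 0 → i ∈ B ∧ y ∉ B ∧ i < y

variable {K : Type} [Field K] {n : ℕ}

/-- the column `y` of the matrix -/
def Ech.col (p : Ech K n) (y : Fin n) (i : Fin n) : K :=
  if y ∈ p.B then (if i = y then 1 else 0) else p.D y i

/-- the matrix -/
def Ech.mat (p : Ech K n) : Matrix (Fin n) (Fin n) K := fun i y => p.col y i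

/-- the columns as functions of natural numbers -/
def Ech.fn (p : Ech K n) (y i : ℕ) : K := if h : y < n ∧ i < n then p.col ⟨y, h.1⟩ ⟨i, h.2⟩ else 0

/-- Gaussian binomial coefficients -/
def gb (q : ℕ) : ℕ → ℕ → ℕ
  | _, 0 => 1
  | 0, _ + 1 => 0
  | n + 1, r + 1 => q ^ (r + 1) * gb q n (r + 1) + gb q n r

/-- Galois numbers -/
def gal (q n : ℕ) : ℕ := ∑ r ∈ Finset.range (n + 1), gb q n r

end count

end Pool.Agent.AM
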