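import Pool.Agent.AM.Crk2
import Pool.Agent.AM.ChtA
import Pool.Agent.AM.SrT

set_option autoImplicit false

/-!
# Module TwoR: two representations of a rich matroid are equivalent
-/

namespace Pool.Agent.AM

open Pool.Agent.G4 (nor dif word prd)
open Pool.Agent.BW (rkX grdy cod dcd RkS crk)

variable {K : Type} [Field K] {ρ : List ℕ → ℕ} {E B : List ℕ} {u w : ℕ → ℕ → K}


private theorem tr_cht (h : SRep ρ E B u) (h' : SRep ρ E B w) {a b c : ℕ} (ha : a ∈ B) (hb : b ∈ B)
    (hc : c ∈ B) (hab : a ≠ b) (hac : a ≠ c) (hbc : b ≠ c) :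
    IsCht E u a b c fun y => v3 w a b c y where
  z := fun y hy => (cr_v0 h ha hb hc hy).symm.trans (cr_v0 h' ha hb hc hy)
  d := fun x hx y hy z hz => (cr_v2 h ha hb hc hab hac hbc hx hy hz).symm.trans
    (cr_v2 h' ha hb hc hab hac hbc hx hy hz)
  ea := by
    refine ⟨w a a, h'.dia a ha, ?_⟩
    funext k
    fin_cases k
    · show w a a = w a a * 1
      rw [mul_one]
    · show w a b = w a a * 0
      rw [h'.off a ha b hab.symm, mul_zero]
    · show w a c = w a a * 0
      rw [h'.off a ha c hac.symm, mul_zero]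
  eb := by
    refine ⟨w b b, h'.dia b hb, ?_⟩
    funext k
    fin_cases k
    · show w b a = w b b * 0
      rw [h'.off b hb a hab, mul_zero]
    · show w b b = w b b * 1
      rw [mul_one]
    · show w b c = w b b * 0
      rw [h'.off b hb c hbc.symm, mul_zero]
  ec := by
    refine ⟨w c c, h'.dia c hc, ?_⟩
    funext k
    fin_cases k
    · show w c a = w c c * 0
      rw [h'.off c hc a hac, mul_zero]
    · show w c b = w c c * 0
      rw [h'.off c hc b hbc, mul_zero]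
    · show w c c = w c c * 1
      rw [mul_one]

theorem two_reps [Finite K] (h : SRep ρ E B u) (h' : SRep ρ E B w) (hr : RichU E B u) :
    ∃ (σ : K ≃+* K) (d κ : ℕ → K), (∀ i, d i ≠ 0) ∧ (∀ y, κ y ≠ 0) ∧
      ∀ y ∈ E, ∀ i, w y i = κ y * (d i * σ (u y i)) := by
  classical
  obtain ⟨hlen, hfull⟩ := hr
  obtain ⟨a, b, c, B', hB⟩ : ∃ a b c B', B = a :: b :: c :: B' := by
    match B, hlen with
    | a :: b :: c :: B', _ => exact ⟨a, b, c, B', rfl⟩
  have hnd := h.nd
  rw [hB, List.nodup_cons, List.nodup_cons] at hnd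
  have hab : a ≠ b := fun h => hnd.1 (by rw [h]; exact List.mem_cons_self ..)
  have hac : a ≠ c := fun h => hnd.1 (by
    rw [h]
    exact List.mem_cons_of_mem _ (List.mem_cons_self ..))
  have hbc : b ≠ c := fun h => hnd.2.1 (by rw [h]; exact List.mem_cons_self ..)
  have ha : a ∈ B := by rw [hB]; exact List.mem_cons_self ..
  have hb : b ∈ B := by rw [hB]; exact List.mem_cons_of_mem _ (List.mem_cons_self ..)
  have hc : c ∈ B := by
    rw [hB]
    exact List.mem_cons_of_mem _ (List.mem_cons_of_mem _ (List.mem_cons_self ..))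
  have hF : ∀ i ∈ B, ∀ j ∈ B, i ≠ a → j ≠ a → i ≠ j → Full E u a i j := by
    intro i hi j hj hia hja hij
    have h1 := hfull i ?_ j ?_ hij
    · rwa [hB] at h1
    · rw [hB] at hi ⊢
      exact (List.mem_cons.1 hi).resolve_left hia
    · rw [hB] at hj ⊢
      exact (List.mem_cons.1 hj).resolve_left hja
  obtain ⟨σ, d₁, e₁, hd₁, -, h1⟩ := cht_one h ha hb hc hab hac hbc
    (tr_cht h h' ha hb hc hab hac hbc) (hF b hb c hc hab.symm hac.symm hbc)
  obtain ⟨D, hDe⟩ : ∃ D : ℕ → K, D = fun j => if j = b then d₁ else 1 := ⟨_, rfl⟩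
  have hDb : D b = d₁ := by rw [hDe]; simp
  have hDa : D a = 1 := by rw [hDe]; simp [hab]
  have hD : ∀ j, D j ≠ 0 := by
    intro j
    rw [hDe]
    by_cases hj : j = b
    · simp [hj, hd₁]
    · simp [hj]
  have hone : ∀ y : ℕ, (fun _ => 1 : ℕ → K) y ≠ 0 := fun _ => one_ne_zero
  have hu' := h.trans σ hD hone
  have anc : ∀ y ∈ E, ∃ t : K, t ≠ 0 ∧ w y a = t * ((fun _ => 1 : ℕ → K) y * (D a * σ (u y a))) ∧
      w y b = t * ((fun _ => 1 : ℕ → K) y * (D b * σ (u y b))) := by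
    intro y hy
    obtain ⟨t, ht, h2⟩ := h1 y hy
    have h3 : w y a = t * σ (u y a) := congrFun h2 0
    have h4 : w y b = t * (d₁ * σ (u y b)) := congrFun h2 1
    refine ⟨t, ht, ?_, ?_⟩
    · rw [h3, hDa]
      simp only [one_mul]
    · rw [h4, hDb]
      simp only [one_mul]
  have hex : ∀ i, ∃ e : K, e ≠ 0 ∧ ((i = a ∨ i = b) → e = 1) ∧ (i ∈ B → i ≠ a → i ≠ b → ∀ y ∈ E,
      Prp ![(fun _ => 1 : ℕ → K) y * (D a * σ (u y a)), (fun _ => 1 : ℕ → K) y * (D b * σ (u y b)),
        e * ((fun _ => 1 : ℕ → K) y * (D i * σ (u y i)))] (v3 w a b i y)) := by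
    intro i
    by_cases hi : i ∈ B ∧ i ≠ a ∧ i ≠ b
    · obtain ⟨hiB, hia, hib⟩ := hi
      obtain ⟨e, he, h2⟩ := cht_two hu' ha hb hiB hab hia.symm hib.symm
        ((tr_cht h h' ha hb hiB hab hia.symm hib.symm).trans σ hD hone)
        ((hF b hb i hiB hab.symm hia hib.symm).trans σ hD hone) anc
      refine ⟨e, he, fun h3 => ?_, fun _ _ _ => h2⟩
      rcases h3 with h3 | h3
      · exact absurd h3 hia
      · exact absurd h3 hib
    · exact ⟨1, one_ne_zero, fun _ => rfl, fun h2 h3 h4 => absurd ⟨h2, h3, h4⟩ hi⟩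
  choose e he he1 he2 using hex
  have hP : ∀ i ∈ B, ∀ y ∈ E, ∃ t : K, t ≠ 0 ∧ w y a = t * ((D a * e a) * σ (u y a)) ∧
      w y i = t * ((D i * e i) * σ (u y i)) := by
    intro i hi y hy
    by_cases hia : i = a
    · obtain ⟨t, ht, h2, h3⟩ := anc y hy
      refine ⟨t, ht, ?_, ?_⟩
      · rw [he1 a (Or.inl rfl), h2]
        simp only [one_mul, mul_one]
      · rw [hia, he1 a (Or.inl rfl), h2]
        simp only [one_mul, mul_one]
    by_cases hib : i = b
    · obtain ⟨t, ht, h2, h3⟩ := anc y hy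
      refine ⟨t, ht, ?_, ?_⟩
      · rw [he1 a (Or.inl rfl), h2]
        simp only [one_mul, mul_one]
      · rw [hib, he1 b (Or.inr rfl), h3]
        simp only [one_mul, mul_one]
    · obtain ⟨t, ht, h2⟩ := he2 i hi hia hib y hy
      have h3 : w y a = t * (1 * (D a * σ (u y a))) := congrFun h2 0
      have h4 : w y i = t * (e i * (1 * (D i * σ (u y i)))) := congrFun h2 2
      refine ⟨t, ht, ?_, ?_⟩
      · rw [he1 a (Or.inl rfl), h3]
        simp only [one_mul, mul_one]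
      · rw [h4]
        ring
  obtain ⟨d, hde⟩ : ∃ d : ℕ → K, d = fun i => D i * e i := ⟨_, rfl⟩
  have hd : ∀ i, d i ≠ 0 := by
    intro i
    rw [hde]
    exact mul_ne_zero (hD i) (he i)
  have hP' : ∀ i ∈ B, ∀ y ∈ E, ∃ t : K, t ≠ 0 ∧ w y a = t * (d a * σ (u y a)) ∧
      w y i = t * (d i * σ (u y i)) := by
    rw [hde]
    exact hP
  clear hP
  have hσ : ∀ x : K, x ≠ 0 → σ x ≠ 0 := fun x hx => (map_ne_zero σ).2 hx
  have hout : ∀ y i, i ∉ B → ∀ κ : K, w y i = κ * (d i * σ (u y i)) := by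
    intro y i hi κ
    rw [h'.sup y i hi, h.sup y i hi, map_zero, mul_zero, mul_zero]
  have hcase : ∀ y ∈ E, u y a ≠ 0 → ∃ κ : K, κ ≠ 0 ∧ ∀ i, w y i = κ * (d i * σ (u y i)) := by
    intro y hy hya
    obtain ⟨κ, hκ, h2, -⟩ := hP' a ha y hy
    have h3 : d a * σ (u y a) ≠ 0 := mul_ne_zero (hd a) (hσ _ hya)
    refine ⟨κ, hκ, fun i => ?_⟩
    by_cases hi : i ∈ B
    · obtain ⟨t, -, h4, h5⟩ := hP' i hi y hy
      have h6 : t = κ := mul_right_cancel₀ h3 (h4.symm.trans h2)
      rw [h5, h6]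
    · exact hout y i hi κ
  have hall : ∀ y ∈ E, ∃ κ : K, κ ≠ 0 ∧ ∀ i, w y i = κ * (d i * σ (u y i)) := by
    intro y hy
    by_cases hya : u y a = 0
    swap
    · exact hcase y hy hya
    by_cases hz : ∃ k ∈ B, u y k ≠ 0
    swap
    · push Not at hz
      refine ⟨1, one_ne_zero, fun i => ?_⟩
      by_cases hi : i ∈ B
      · obtain ⟨t, -, -, h5⟩ := hP' i hi y hy
        rw [h5, hz i hi, map_zero, mul_zero, mul_zero, mul_zero]
      · exact hout y i hi 1
    · obtain ⟨k, hk, hyk⟩ := hz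
      have hka : k ≠ a := fun h => hyk (by rw [h, hya])
      obtain ⟨κ, hκ, -, hwk⟩ := hP' k hk y hy
      refine ⟨κ, hκ, fun i => ?_⟩
      by_cases hi : i ∈ B
      swap
      · exact hout y i hi κ
      by_cases hik : i = k
      · rw [hik, hwk]
      by_cases hyi : u y i = 0
      · obtain ⟨t, -, -, h5⟩ := hP' i hi y hy
        rw [h5, hyi, map_zero, mul_zero, mul_zero, mul_zero]
      have hia : i ≠ a := fun h => hyi (by rw [h, hya])
      obtain ⟨x, hx, s, hs, h2⟩ := hF i hi k hk hia hka hik ![1, u y i, u y k] (by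
        intro h3
        exact one_ne_zero (congrFun h3 0))
      have hxa : u x a = s := by
        have h3 : u x a = s * 1 := congrFun h2 0
        rw [h3, mul_one]
      have hxi : u x i = s * u y i := congrFun h2 1
      have hxk : u x k = s * u y k := congrFun h2 2
      obtain ⟨κ', hκ', h3⟩ := hcase x hx (by rw [hxa]; exact hs)
      have h4 : w x i * w y k = w x k * w y i :=
        (cr_two h' hi hk hik hx hy).1 ((cr_two h hi hk hik hx hy).2 (by rw [hxi, hxk]; ring))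
      rw [h3 i, h3 k, hwk, hxi, hxk, map_mul, map_mul] at h4
      have h5 : κ' * (d k * (σ s * σ (u y k))) ≠ 0 :=
        mul_ne_zero hκ' (mul_ne_zero (hd k) (mul_ne_zero (hσ _ hs) (hσ _ hyk)))
      apply mul_left_cancel₀ h5
      rw [← h4]
      ring
  have hall' : ∀ y, ∃ κ : K, κ ≠ 0 ∧ (y ∈ E → ∀ i, w y i = κ * (d i * σ (u y i))) := by
    intro y
    by_cases hy : y ∈ E
    · obtain ⟨κ, h2, h3⟩ := hall y hy
      exact ⟨κ, h2, fun _ => h3⟩
    · exact ⟨1, one_ne_zero, fun h2 => absurd h2 hy⟩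
  choose κ hκ h2 using hall'
  exact ⟨σ, d, κ, hd, hκ, h2⟩

end Pool.Agent.AM
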