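import Pool.Agent.AM.SrP
import Pool.Agent.AM.RichI
import Pool.Agent.AM.TwoR

set_option autoImplicit false

/-!
# Module EchQ: echelon matrices of the same rich matroid
-/

namespace Pool.Agent.AM

open Pool.Agent.G4 (nor dif word prd)
open Pool.Agent.BW (rkX grdy cod dcd RkS crk)

variable {K : Type} [Field K] [Fintype K] {n : ℕ}

theorem ech_equiv (p p' : Ech K n) (h : linM p.mat = linM p'.mat)
    (hR : Rich (Fintype.card K) (linM p'.mat)) :
    p.B = p'.B ∧ ∃ (σ : K ≃+* K) (g : Fin n → Kˣ), ∀ y i,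
      p.D y i = (g i : K) * σ (p'.D y i) * ((g y)⁻¹ : Kˣ) := by
  have hB : p.B = p'.B := by
    apply Finset.coe_injective
    rw [← first_ech p, ← first_ech p', h]
  refine ⟨hB, ?_⟩
  obtain ⟨X, hX'⟩ := exists_oracle (linM p'.mat)
  have hX : IsOracle X (linM p.mat) := by rw [h]; exact hX'
  have s := srep_ech p hX
  have s' := srep_ech p' hX'
  have hU := (rich_iff (linM_E _) (linM_rep p'.mat) hX' s').1 hR
  obtain ⟨σ, d, κ, hd, hκ, hw⟩ := two_reps s' s hU
  refine ⟨σ, fun x => if x ∈ p.B then Units.mk0 (d x) (hd x) else (Units.mk0 (κ x) (hκ x))⁻¹, ?_⟩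
  intro y i
  by_cases hi : i ∈ p.B
  · by_cases hy : y ∈ p.B
    · have e1 : p.D y i = 0 := by
        by_contra hne
        exact (p.ech y i hne).2.1 hy
      have e2 : p'.D y i = 0 := by
        by_contra hne
        exact (p'.ech y i hne).2.1 (hB ▸ hy)
      rw [e1, e2, map_zero, mul_zero, zero_mul]
    · have hy' : y ∉ p'.B := hB ▸ hy
      have e3 := hw (y : ℕ) (List.mem_range.2 y.2) (i : ℕ)
      have e4 : p.fn (y : ℕ) (i : ℕ) = p.D y i := by
        unfold Ech.fn
        rw [dif_pos ⟨y.2, i.2⟩]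
        show p.col y i = _
        unfold Ech.col
        rw [if_neg hy]
      have e5 : p'.fn (y : ℕ) (i : ℕ) = p'.D y i := by
        unfold Ech.fn
        rw [dif_pos ⟨y.2, i.2⟩]
        show p'.col y i = _
        unfold Ech.col
        rw [if_neg hy']
      rw [e4, e5] at e3
      simp only [if_pos hi, if_neg hy, inv_inv, Units.val_mk0]
      rw [e3]
      ring
  · have e1 : p.D y i = 0 := by
      by_contra hne
      exact hi (p.ech y i hne).1
    have e2 : p'.D y i = 0 := by
      by_contra hne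
      exact hi (hB ▸ (p'.ech y i hne).1)
    rw [e1, e2, map_zero, mul_zero, zero_mul]

end Pool.Agent.AM
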