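import Pool.Agent.AM.Chts3

set_option autoImplicit false

/-!
# Module Ent: the entries of the matrix

Plan. `σ`, `d` from `chts`; `w y i := d i * σ (u y i)` (zero iff `u y i = 0`); `a := B.headD 0`.
`piv ρ B y` is the first `k ∈ B` with `u y k ≠ 0` (`cr_one`), if there is one. If there is none (all
`u y i = 0`) all entries are `zer = cod e 0`, take `κ y = 1`. Otherwise let `k = piv ρ B y` and
`κ y := (w y k)⁻¹`. Entry `i`: if `u y i = 0` it is `cod e 0`; if `i = k` it is `one = cod e 1`;
if `k = a` it is `tv i y = cod e (w y i / w y a)` (`i ∈ B.tail` because `i ≠ a`). If `k ≠ a`: then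
`u y a = 0` (`a` is the first element of `B`, so otherwise `piv = a`), `i ≠ a`, `i, k ∈ B.tail`, `i ≠ k`. By
`hr` the plane `{a, i, k}` is full: there is `x ∈ E` with `v3 u a i k x` proportional to
`(1, u y i, u y k)`, so the list in `prox` is not empty (`cr_one`, `cr_two0`, `cr_two`), and
`x := prox ρ B E i k y ∈ E` satisfies `u x a ≠ 0`, not both `u x i, u x k` zero and
`u x i * u y k = u x k * u y i`; hence both are nonzero (as `u y i, u y k ≠ 0`) and
`(w x i / w x a) / (w x k / w x a) = w x i / w x k = w y i / w y k = κ y * w y i`. Use `prm_dv`, `chts` for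
`tv i x`, `tv k x`.
-/

namespace Pool.Agent.AM

open Pool.Agent.G4 (nor dif word prd)
open Pool.Agent.BW (rkX grdy cod dcd RkS crk)

variable {K : Type} [Field K] {ρ : List ℕ → ℕ} {E B : List ℕ} {u w : ℕ → ℕ → K}


variable [Fintype K] (e : Fin (Fintype.card K) ≃ K)

omit [Fintype K] in
private theorem ent_head {β : Type} (l : List β) (d x : β) (hx : x ∈ l) : l.headD d ∈ l := by
  cases l with
  | nil => exact absurd hx List.not_mem_nil
  | cons a l => exact List.mem_cons_self

theorem ent_spec (h : SRep ρ E B u) (hr : RichU E B u) :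
    ∃ (σ : K ≃+* K) (d κ : ℕ → K), (∀ i, d i ≠ 0) ∧ (∀ y, κ y ≠ 0) ∧
      ∀ y ∈ E, ∀ i ∈ B, ent (prmQ e) ρ B E i y = cod e (κ y * (d i * σ (u y i))) := by
  classical
  obtain ⟨σ, d, hd, htv⟩ := chts e h hr
  have hBne : B ≠ [] := by
    intro h'
    have := hr.1
    rw [h'] at this
    simp at this
  have hBc : B = B.headD 0 :: B.tail := by
    cases B with
    | nil => exact absurd rfl hBne
    | cons x l => rfl
  have ha : B.headD 0 ∈ B := by
    rw [hBc]
    simp
  have hnt : B.headD 0 ∉ B.tail := by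
    have := h.nd
    rw [hBc] at this
    exact (List.nodup_cons.mp this).1
  have hmt : ∀ i ∈ B, i ≠ B.headD 0 → i ∈ B.tail := by
    intro i hi hia
    rw [hBc] at hi
    rcases List.mem_cons.mp hi with h' | h'
    · exact absurd h' hia
    · exact h'
  have hσ : ∀ x : K, x ≠ 0 → σ x ≠ 0 := fun x hx => (map_ne_zero σ).mpr hx
  refine ⟨σ, d, fun y => if d (piv ρ B y) * σ (u y (piv ρ B y)) = 0 then 1
    else (d (piv ρ B y) * σ (u y (piv ρ B y)))⁻¹, hd, ?_, ?_⟩
  · intro y
    show (if d (piv ρ B y) * σ (u y (piv ρ B y)) = 0 then (1 : K)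
      else (d (piv ρ B y) * σ (u y (piv ρ B y)))⁻¹) ≠ 0
    split_ifs with h'
    · exact one_ne_zero
    · exact inv_ne_zero h'
  intro y hy i hi
  show ent (prmQ e) ρ B E i y = cod e ((if d (piv ρ B y) * σ (u y (piv ρ B y)) = 0 then (1 : K)
      else (d (piv ρ B y) * σ (u y (piv ρ B y)))⁻¹) * (d i * σ (u y i)))
  unfold ent
  by_cases hui : u y i = 0
  · rw [if_pos ((cr_one h hi hy).mpr hui), hui, map_zero, mul_zero, mul_zero]
    rfl
  rw [if_neg (fun h' => hui ((cr_one h hi hy).mp h'))]
  have hiF : i ∈ B.filter fun k => !decide (cr ρ B [k] [y] = 0) := by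
    rw [List.mem_filter]
    refine ⟨hi, ?_⟩
    rw [Bool.not_eq_true', decide_eq_false_iff_not]
    exact fun h' => hui ((cr_one h hi hy).mp h')
  have hkF : piv ρ B y ∈ B.filter fun k => !decide (cr ρ B [k] [y] = 0) := ent_head _ _ _ hiF
  have hk0 : u y (B.headD 0) ≠ 0 → piv ρ B y = B.headD 0 := by
    intro hya
    have hc : cr ρ B [B.headD 0] [y] ≠ 0 := fun h' => hya ((cr_one h ha hy).mp h')
    unfold piv
    have : (B.filter fun k => !decide (cr ρ B [k] [y] = 0)) =
        B.headD 0 :: B.tail.filter fun k => !decide (cr ρ B [k] [y] = 0) := by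
      conv_lhs => rw [show (List.filter (fun k => !decide (cr ρ B [k] [y] = 0)) B) =
        List.filter (fun k => !decide (cr ρ B [k] [y] = 0)) (B.headD 0 :: B.tail) from
          congrArg _ hBc]
      rw [List.filter_cons_of_pos]
      rw [Bool.not_eq_true', decide_eq_false_iff_not]
      exact hc
    rw [this]
    rfl
  set k := piv ρ B y with hkdef
  rw [List.mem_filter, Bool.not_eq_true', decide_eq_false_iff_not] at hkF
  obtain ⟨hkB, hkc⟩ := hkF
  have huk : u y k ≠ 0 := fun h' => hkc ((cr_one h hkB hy).mpr h')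
  have hwk : d k * σ (u y k) ≠ 0 := mul_ne_zero (hd k) (hσ _ huk)
  rw [if_neg hwk]
  by_cases hik : i = k
  · rw [if_pos hik, hik, inv_mul_cancel₀ hwk]
    rfl
  rw [if_neg hik]
  by_cases hka : k = B.headD 0
  · rw [if_pos hka]
    have hia : i ≠ B.headD 0 := fun h' => hik (h'.trans hka.symm)
    rw [htv y hy (by rw [← hka]; exact huk) i (hmt i hi hia), ← hka]
    congr 1
    rw [div_eq_inv_mul]
  rw [if_neg hka]
  have hya : u y (B.headD 0) = 0 := by
    by_contra h'
    exact hka (hk0 h')
  have hia : i ≠ B.headD 0 := by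
    intro h'
    apply hui
    rw [h', hya]
  have hit := hmt i hi hia
  have hkt := hmt k hkB hka
  have hfull := hr.2 i hit k hkt hik
  obtain ⟨x0, hx0E, c, hc, hx0⟩ := hfull ![1, u y i, u y k] (by
    intro h'
    have := congrFun h' 0
    simp at this)
  have e0 : u x0 (B.headD 0) = c := by
    have := congrFun hx0 0
    simpa [v3] using this
  have e1 : u x0 i = c * u y i := by
    have := congrFun hx0 1
    simpa [v3] using this
  have e2 : u x0 k = c * u y k := by
    have := congrFun hx0 2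
    simpa [v3] using this
  have hxF : x0 ∈ E.filter fun x => !decide (cr ρ B [B.headD 0] [x] = 0) &&
    (!decide (cr ρ B [i, k] [x] = 0) && decide (cr ρ B [i, k] [x, y] ≤ 1)) := by
    rw [List.mem_filter]
    refine ⟨hx0E, ?_⟩
    rw [Bool.and_eq_true, Bool.and_eq_true, Bool.not_eq_true', Bool.not_eq_true',
      decide_eq_false_iff_not, decide_eq_false_iff_not, decide_eq_true_iff,
      cr_one h ha hx0E, cr_two0 h hi hkB hx0E, cr_two h hi hkB hik hx0E hy, e0, e1, e2]
    refine ⟨hc, fun h' => mul_ne_zero hc hui h'.1, ?_⟩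
    ring
  have hxP : prox ρ B E i k y ∈ E.filter fun x => !decide (cr ρ B [B.headD 0] [x] = 0) &&
    (!decide (cr ρ B [i, k] [x] = 0) && decide (cr ρ B [i, k] [x, y] ≤ 1)) :=
    ent_head _ _ _ hxF
  set x := prox ρ B E i k y with hxdef
  rw [List.mem_filter] at hxP
  obtain ⟨hxE, hxP⟩ := hxP
  rw [Bool.and_eq_true, Bool.and_eq_true, Bool.not_eq_true', Bool.not_eq_true',
      decide_eq_false_iff_not, decide_eq_false_iff_not, decide_eq_true_iff,
      cr_one h ha hxE, cr_two0 h hi hkB hxE, cr_two h hi hkB hik hxE hy] at hxP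
  obtain ⟨hxa, hx2, hxx⟩ := hxP
  have hxk : u x k ≠ 0 := by
    intro h'
    apply hx2
    rw [h', zero_mul] at hxx
    exact ⟨(mul_eq_zero.mp hxx).resolve_right huk, h'⟩
  rw [htv x hxE hxa i hit, htv x hxE hxa k hkt, prm_dv]
  congr 1
  have h1 := hσ _ hxa
  have h2 := hσ _ hxk
  have h3 := hσ _ huk
  have h4 := hd k
  have h5 := hd (B.headD 0)
  have h6 : σ (u x i) * σ (u y k) = σ (u x k) * σ (u y i) := by
    rw [← map_mul, ← map_mul, hxx]
  field_simp
  linear_combination (d i) * h6

end Pool.Agent.AM
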