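import Pool.Agent.AM.GrB
import Pool.Agent.AM.CntD

set_option autoImplicit false

/-!
# Module FstB: the first basis of an echelon matrix
-/

namespace Pool.Agent.AM

open Pool.Agent.G4 (nor dif word prd)
open Pool.Agent.BW (rkX grdy cod dcd RkS crk)

variable {K : Type} [Field K] {n : ℕ}


theorem first_ech (p : Ech K n) : firstBasis (linM p.mat) = (p.B : Set (Fin n)) := by
  ext x
  have h1 : x ∈ firstBasis (linM p.mat) ↔ ¬ (fun i => p.mat i x) ∈
      Submodule.span K ((fun j : Fin n => fun i => p.mat i j) '' {y | y < x}) := by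
    show ¬ _ ↔ _
    rw [mem_closure_span (linM_E _) (linM_rep _)]
  rw [h1, Finset.mem_coe]
  constructor
  · intro h
    by_contra hx
    apply h
    have h2 : (fun i => p.mat i x) = ∑ i, p.D x i • (Pi.single i 1 : Fin n → K) := by
      funext j
      rw [Finset.sum_apply, Finset.sum_eq_single j]
      · show p.col x j = _
        rw [Ech.col, if_neg hx, Pi.smul_apply, Pi.single_eq_same, smul_eq_mul, mul_one]
      · intro i _ hi
        rw [Pi.smul_apply, Pi.single_eq_of_ne (Ne.symm hi), smul_zero]
      · intro hj
        exact absurd (Finset.mem_univ j) hj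
    rw [h2]
    refine Submodule.sum_mem _ fun i _ => ?_
    by_cases h3 : p.D x i = 0
    · rw [h3, zero_smul]
      exact Submodule.zero_mem _
    · obtain ⟨hiB, _, hix⟩ := p.ech x i h3
      refine Submodule.smul_mem _ _ (Submodule.subset_span ⟨i, hix, ?_⟩)
      funext j
      show p.col i j = _
      rw [Ech.col, if_pos hiB]
      by_cases hji : j = i
      · rw [if_pos hji, hji, Pi.single_eq_same]
      · rw [if_neg hji, Pi.single_eq_of_ne hji]
  · intro hx h
    have h2 : Submodule.span K ((fun j : Fin n => fun i => p.mat i j) '' {y | y < x}) ≤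
        LinearMap.ker (LinearMap.proj x : (Fin n → K) →ₗ[K] K) := by
      rw [Submodule.span_le]
      rintro _ ⟨y, hy, rfl⟩
      show p.col y x = 0
      have hy' : y < x := hy
      by_cases hyB : y ∈ p.B
      · rw [Ech.col, if_pos hyB, if_neg (ne_of_gt hy')]
      · rw [Ech.col, if_neg hyB]
        by_contra hne
        exact absurd (p.ech y x hne).2.2 (not_lt_of_gt hy')
    have h3 : p.col x x = 0 := h2 h
    rw [Ech.col, if_pos hx, if_pos rfl] at h3
    exact one_ne_zero h3

end Pool.Agent.AM
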