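import Pool.Agent.AM.Defs

set_option autoImplicit false

/-!
# Module GbB: bounds for Gaussian binomial coefficients
-/

namespace Pool.Agent.AM

private theorem gb_nil (q n : ℕ) : gb q n 0 = 1 := by
  cases n <;> rfl

private theorem gb_suc (q n r : ℕ) :
    gb q (n + 1) (r + 1) = q ^ (r + 1) * gb q n (r + 1) + gb q n r := rfl

theorem gb_zero {q n r : ℕ} (h : n < r) : gb q n r = 0 := by
  induction n generalizing r with
  | zero =>
    obtain ⟨r, rfl⟩ : ∃ r', r = r' + 1 := ⟨r - 1, by omega⟩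
    rfl
  | succ n ih =>
    obtain ⟨r, rfl⟩ : ∃ r', r = r' + 1 := ⟨r - 1, by omega⟩
    rw [gb_suc, ih (by omega), ih (by omega), mul_zero]

theorem le_gb {q n r : ℕ} (h : r ≤ n) : q ^ (r * (n - r)) ≤ gb q n r := by
  induction n generalizing r with
  | zero =>
    obtain rfl : r = 0 := by omega
    simp [gb_nil]
  | succ n ih =>
    cases r with
    | zero => simp [gb_nil]
    | succ r =>
      rw [gb_suc]
      by_cases h1 : r + 1 ≤ n
      · have h2 := ih h1
        have h3 : (r + 1) * (n + 1 - (r + 1)) = (r + 1) + (r + 1) * (n - (r + 1)) := by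
          have h4 : n + 1 - (r + 1) = (n - (r + 1)) + 1 := by omega
          rw [h4]
          ring
        rw [h3, pow_add]
        exact (Nat.mul_le_mul_left _ h2).trans (Nat.le_add_right _ _)
      · obtain rfl : r = n := by omega
        have h2 := ih (le_refl r)
        rw [Nat.sub_self, mul_zero, pow_zero] at h2
        rw [Nat.sub_self, mul_zero, pow_zero]
        omega

private noncomputable def PP (m : ℕ) : ℝ := ∏ k ∈ Finset.range m, (1 - (1 / 2 : ℝ) ^ (k + 1))

private theorem PP_succ (m : ℕ) : PP (m + 1) = PP m * (1 - (1 / 2 : ℝ) ^ (m + 1)) := by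
  unfold PP
  rw [Finset.prod_range_succ]

private theorem half_le (m : ℕ) : (1 / 2 : ℝ) ^ (m + 1) ≤ 1 / 2 := by
  have h : (1 / 2 : ℝ) ^ m ≤ 1 := pow_le_one₀ (by norm_num) (by norm_num)
  rw [pow_succ]
  linarith

private theorem PP_pos (m : ℕ) : 0 < PP m := by
  unfold PP
  refine Finset.prod_pos fun k _ => ?_
  have := half_le k
  linarith

private theorem PP_le (m : ℕ) : PP m ≤ 1 := by
  unfold PP
  refine Finset.prod_le_one (fun k _ => ?_) fun k _ => ?_
  · have := half_le k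
    linarith
  · have : (0 : ℝ) ≤ (1 / 2 : ℝ) ^ (k + 1) := by positivity
    linarith

private theorem PP_ge (m : ℕ) : 1 / 4 + (1 / 2 : ℝ) ^ (m + 2) ≤ PP (m + 1) := by
  induction m with
  | zero =>
    rw [PP_succ]
    unfold PP
    norm_num
  | succ m ih =>
    rw [PP_succ]
    have h1 : (0 : ℝ) < (1 / 2 : ℝ) ^ (m + 2) := by positivity
    have h2 : (1 / 2 : ℝ) ^ (m + 2) ≤ 1 / 4 := by
      have h3 : (1 / 2 : ℝ) ^ m ≤ 1 := pow_le_one₀ (by norm_num) (by norm_num)
      rw [pow_add]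
      norm_num at h3 ⊢
      linarith
    have h3 : (1 / 2 : ℝ) ^ (m + 1 + 2) = (1 / 2 : ℝ) ^ (m + 2) / 2 := by
      rw [show m + 1 + 2 = m + 2 + 1 by ring, pow_succ]
      ring
    rw [h3, show m + 1 + 1 = m + 2 by ring]
    have h4 : (1 / 4 + (1 / 2 : ℝ) ^ (m + 2)) * (1 - (1 / 2 : ℝ) ^ (m + 2)) ≤
        PP (m + 1) * (1 - (1 / 2 : ℝ) ^ (m + 2)) :=
      mul_le_mul_of_nonneg_right ih (by linarith)
    refine le_trans ?_ h4
    nlinarith

private theorem PP_quarter (m : ℕ) : 1 / 4 ≤ PP m := by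
  cases m with
  | zero =>
    unfold PP
    norm_num
  | succ m =>
    have h := PP_ge m
    have h1 : (0 : ℝ) < (1 / 2 : ℝ) ^ (m + 2) := by positivity
    linarith

private theorem gb_mul {q : ℕ} (hq : 2 ≤ q) (n : ℕ) : ∀ r : ℕ, r ≤ n →
    (gb q n r : ℝ) * PP (n - r) ≤ (q : ℝ) ^ (r * (n - r)) := by
  have hq' : (2 : ℝ) ≤ q := by exact_mod_cast hq
  induction n with
  | zero =>
    intro r h
    obtain rfl : r = 0 := by omega
    rw [gb_nil]
    have := PP_le 0
    simpa using this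
  | succ n ih =>
    intro r h
    cases r with
    | zero =>
      rw [gb_nil, Nat.sub_zero, zero_mul, pow_zero]
      have := PP_le (n + 1)
      simpa using this
    | succ r =>
      rw [gb_suc, Nat.add_sub_add_right]
      push_cast
      by_cases h1 : r + 1 ≤ n
      · obtain ⟨m, hm⟩ : ∃ m, n - r = m + 1 := ⟨n - r - 1, by omega⟩
        have hm' : n - (r + 1) = m := by omega
        have h2 := ih (r + 1) h1
        have h3 := ih r (by omega)
        rw [hm'] at h2
        rw [hm] at h3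
        rw [hm]
        have h4 : (0 : ℝ) ≤ 1 - (1 / 2 : ℝ) ^ (m + 1) := by
          have := half_le m
          linarith
        have hqp : (0 : ℝ) ≤ (q : ℝ) ^ (r + 1) := by positivity
        have h5 : (q : ℝ) ^ (r + 1) * (gb q n (r + 1) : ℝ) * PP (m + 1) ≤
            (q : ℝ) ^ ((r + 1) * (m + 1)) * (1 - (1 / 2 : ℝ) ^ (m + 1)) := by
          have e1 : (q : ℝ) ^ (r + 1) * (gb q n (r + 1) : ℝ) * PP (m + 1) =
              (q : ℝ) ^ (r + 1) * ((gb q n (r + 1) : ℝ) * PP m) *
                (1 - (1 / 2 : ℝ) ^ (m + 1)) := by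
            rw [PP_succ]
            ring
          have e2 : (q : ℝ) ^ ((r + 1) * (m + 1)) =
              (q : ℝ) ^ (r + 1) * (q : ℝ) ^ ((r + 1) * m) := by
            rw [← pow_add]
            congr 1
            ring
          rw [e1, e2]
          exact mul_le_mul_of_nonneg_right (mul_le_mul_of_nonneg_left h2 hqp) h4
        have h6 : (q : ℝ) ^ (r * (m + 1)) ≤
            (q : ℝ) ^ ((r + 1) * (m + 1)) * (1 / 2 : ℝ) ^ (m + 1) := by
          have e1 : (q : ℝ) ^ ((r + 1) * (m + 1)) =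
              (q : ℝ) ^ (r * (m + 1)) * (q : ℝ) ^ (m + 1) := by
            rw [← pow_add]
            congr 1
            ring
          have e2 : (1 : ℝ) ≤ (q : ℝ) ^ (m + 1) * (1 / 2 : ℝ) ^ (m + 1) := by
            rw [← mul_pow]
            exact one_le_pow₀ (by linarith)
          rw [e1, mul_assoc]
          exact le_mul_of_one_le_right (by positivity) e2
        have h7 : ((q : ℝ) ^ (r + 1) * (gb q n (r + 1) : ℝ) + (gb q n r : ℝ)) * PP (m + 1) =
            (q : ℝ) ^ (r + 1) * (gb q n (r + 1) : ℝ) * PP (m + 1) +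
              (gb q n r : ℝ) * PP (m + 1) := by ring
        rw [h7]
        have h8 : (q : ℝ) ^ ((r + 1) * (m + 1)) * (1 - (1 / 2 : ℝ) ^ (m + 1)) =
            (q : ℝ) ^ ((r + 1) * (m + 1)) -
              (q : ℝ) ^ ((r + 1) * (m + 1)) * (1 / 2 : ℝ) ^ (m + 1) := by ring
        rw [h8] at h5
        linarith
      · obtain rfl : r = n := by omega
        have h2 := ih r (le_refl r)
        rw [Nat.sub_self, mul_zero, pow_zero] at h2
        have h3 : gb q r (r + 1) = 0 := gb_zero (Nat.lt_succ_self r)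
        rw [Nat.sub_self, mul_zero, pow_zero, h3]
        simpa using h2

theorem gb_le {q n r : ℕ} (hq : 2 ≤ q) (h : r ≤ n) : gb q n r ≤ 4 * q ^ (r * (n - r)) := by
  have h1 := gb_mul hq n r h
  have h2 := PP_quarter (n - r)
  have h3 : (gb q n r : ℝ) * (1 / 4) ≤ (gb q n r : ℝ) * PP (n - r) :=
    mul_le_mul_of_nonneg_left h2 (by positivity)
  have h4 : (gb q n r : ℝ) ≤ 4 * (q : ℝ) ^ (r * (n - r)) := by linarith
  exact_mod_cast h4

theorem gal_le {q : ℕ} (hq : 2 ≤ q) (n : ℕ) :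
    (gal q n : ℝ) ≤ 4 * (n + 1) * (q : ℝ) ^ ((n : ℝ) ^ 2 / 4) := by
  have hq' : (1 : ℝ) ≤ q := by exact_mod_cast (by omega : 1 ≤ q)
  unfold gal
  push_cast
  have h1 : ∀ r ∈ Finset.range (n + 1), (gb q n r : ℝ) ≤ 4 * (q : ℝ) ^ ((n : ℝ) ^ 2 / 4) := by
    intro r hr
    have hr' : r ≤ n := by
      rw [Finset.mem_range] at hr
      omega
    have h2 : (gb q n r : ℝ) ≤ 4 * (q : ℝ) ^ (r * (n - r)) := by
      exact_mod_cast gb_le hq hr'
    refine h2.trans ?_
    rw [← Real.rpow_natCast (q : ℝ) (r * (n - r))]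
    refine mul_le_mul_of_nonneg_left (Real.rpow_le_rpow_of_exponent_le hq' ?_) (by norm_num)
    push_cast [Nat.cast_sub hr']
    nlinarith [sq_nonneg ((n : ℝ) - 2 * r)]
  refine (Finset.sum_le_sum h1).trans ?_
  rw [Finset.sum_const, Finset.card_range, nsmul_eq_mul]
  push_cast
  apply le_of_eq
  ring

theorem le_gal {q : ℕ} (hq : 2 ≤ q) (n : ℕ) :
    (q : ℝ) ^ (((n : ℝ) ^ 2 - 1) / 4) ≤ (gal q n : ℝ) := by
  have hq' : (1 : ℝ) ≤ q := by exact_mod_cast (by omega : 1 ≤ q)
  have h1 : gb q n (n / 2) ≤ gal q n := by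
    unfold gal
    exact Finset.single_le_sum (f := fun r => gb q n r) (fun _ _ => Nat.zero_le _)
      (Finset.mem_range.2 (by omega))
  have h2 : q ^ (n / 2 * (n - n / 2)) ≤ gb q n (n / 2) := le_gb (Nat.div_le_self n 2)
  have h3 : ((q ^ (n / 2 * (n - n / 2)) : ℕ) : ℝ) ≤ (gal q n : ℝ) := by
    exact_mod_cast h2.trans h1
  refine le_trans ?_ h3
  push_cast
  rw [← Real.rpow_natCast (q : ℝ) (n / 2 * (n - n / 2))]
  refine Real.rpow_le_rpow_of_exponent_le hq' ?_
  rcases Nat.even_or_odd' n with ⟨k, rfl | rfl⟩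
  · have e1 : 2 * k / 2 = k := by omega
    have e2 : 2 * k - k = k := by omega
    rw [e1, e2]
    push_cast
    nlinarith
  · have e1 : (2 * k + 1) / 2 = k := by omega
    have e2 : 2 * k + 1 - k = k + 1 := by omega
    rw [e1, e2]
    push_cast
    nlinarith

end Pool.Agent.AM
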