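import Pool.Agent.AM.Defs

set_option autoImplicit false

/-!
# Module LiU: linear independence of the coordinate vectors

Both sides say that the rank of the vectors is `|J|`.
-/

namespace Pool.Agent.AM

open Pool.Agent.G4 (nor dif word prd)
open Pool.Agent.BW (rkX grdy cod dcd RkS crk)

theorem li_iff {K : Type} [Field K] {a n : ℕ} (A : Matrix (Fin a) (Fin n) K) {ρ : List ℕ → ℕ}
    (hρ : RkS ρ (List.range n) (crk A)) {B : List ℕ} {u : ℕ → ℕ → K}
    (h : SRep ρ (List.range n) B u) (J : Finset (Fin n)) :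
    (LinearIndependent K fun j : J => u (j : ℕ)) ↔
      LinearIndependent K fun j : J => fun i => A i j := by
  have h1 : {x : ℕ → K | ∃ t ∈ (J.image fun j : Fin n => (j : ℕ)).toList, u t = x} =
      Set.range (fun j : J => u (j : ℕ)) := by
    ext w
    constructor
    · rintro ⟨t, ht, rfl⟩
      obtain ⟨j, hj, rfl⟩ := Finset.mem_image.1 (Finset.mem_toList.1 ht)
      exact ⟨⟨j, hj⟩, rfl⟩
    · rintro ⟨⟨j, hj⟩, rfl⟩
      exact ⟨(j : ℕ), Finset.mem_toList.2 (Finset.mem_image.2 ⟨j, hj, rfl⟩), rfl⟩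
  have hT : ∀ t ∈ (J.image fun j : Fin n => (j : ℕ)).toList, t ∈ List.range n := by
    intro t ht
    obtain ⟨j, _, rfl⟩ := Finset.mem_image.1 (Finset.mem_toList.1 ht)
    exact List.mem_range.2 j.2
  have h2 := hρ _ hT
  rw [Finset.toList_toFinset] at h2
  rw [Pool.Agent.BW.indep_iff_crk, ← h2, h.rk _ hT, Nat.cast_inj,
    linearIndependent_iff_card_eq_finrank_span, Fintype.card_coe]
  unfold rkU
  rw [h1]
  exact eq_comm

end Pool.Agent.AM
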