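import Pool.Agent.AM.Defs

set_option autoImplicit false

/-!
# Module LinM: the matroid of a matrix
-/

namespace Pool.Agent.AM

variable {K : Type} [Field K] {m n : ℕ}

/-- the set `J` of columns is linearly independent -/
def LiJ (A : Matrix (Fin m) (Fin n) K) (J : Set (Fin n)) : Prop :=
  LinearIndepOn K (fun j : Fin n => fun i => A i j) J

theorem liJ_aug (A : Matrix (Fin m) (Fin n) K) {I J : Set (Fin n)} (hI : LiJ A I) (hJ : LiJ A J)
    (h : I.ncard < J.ncard) : ∃ e ∈ J, e ∉ I ∧ LiJ A (insert e I) := by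
  by_contra hc
  have h1 : ∀ e ∈ J, (fun i => A i e) ∈ Submodule.span K ((fun j : Fin n => fun i => A i j) '' I) := by
    intro e he
    by_cases heI : e ∈ I
    · exact Submodule.subset_span ⟨e, heI, rfl⟩
    · by_contra hs
      exact hc ⟨e, he, heI, (linearIndepOn_insert heI).2 ⟨hI, hs⟩⟩
  have h2 : Submodule.span K ((fun j : Fin n => fun i => A i j) '' J) ≤
      Submodule.span K ((fun j : Fin n => fun i => A i j) '' I) := by
    rw [Submodule.span_le]
    rintro _ ⟨e, he, rfl⟩
    exact h1 e he
  have h3 : ∀ T : Set (Fin n), LiJ A T → Module.finrank K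
      (Submodule.span K ((fun j : Fin n => fun i => A i j) '' T)) = T.ncard := by
    intro T hT
    haveI : Fintype T := T.toFinite.fintype
    have h4 := finrank_span_eq_card (LinearIndependent.comp hT id Function.injective_id)
    have h5 : Set.range ((fun x : T => fun i => A i x.1) ∘ id) =
        (fun j : Fin n => fun i => A i j) '' T := by
      ext w
      constructor
      · rintro ⟨x, rfl⟩
        exact ⟨x.1, x.2, rfl⟩
      · rintro ⟨x, hx, rfl⟩
        exact ⟨⟨x, hx⟩, rfl⟩
    rw [h5] at h4
    rw [h4, ← Nat.card_eq_fintype_card]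
    rfl
  have h6 := Submodule.finrank_mono h2
  rw [h3 I hI, h3 J hJ] at h6
  omega

/-- the matroid of the columns of a matrix -/
noncomputable def linM (A : Matrix (Fin m) (Fin n) K) : Matroid (Fin n) :=
  (IndepMatroid.ofFinite (E := Set.univ) Set.finite_univ (LiJ A)
    (linearIndepOn_empty K _) (fun _ _ hJ hIJ => LinearIndepOn.mono hJ hIJ)
    (fun _ _ hI hJ h => liJ_aug A hI hJ h) (fun _ _ => Set.subset_univ _)).matroid

theorem linM_E (A : Matrix (Fin m) (Fin n) K) : (linM A).E = Set.univ := rfl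

theorem linM_indep (A : Matrix (Fin m) (Fin n) K) (J : Set (Fin n)) :
    (linM A).Indep J ↔ LiJ A J := Iff.rfl

theorem linM_rep (A : Matrix (Fin m) (Fin n) K) : IsRep (linM A) A := fun _ => Iff.rfl

theorem linM_unique {M : Matroid (Fin n)} (hE : M.E = Set.univ) {A : Matrix (Fin m) (Fin n) K}
    (h : IsRep M A) : M = linM A := by
  refine Matroid.ext_indep hE ?_
  intro I _
  obtain ⟨J, rfl⟩ : ∃ J : Finset (Fin n), (J : Set (Fin n)) = I :=
    ⟨I.toFinite.toFinset, I.toFinite.coe_toFinset⟩
  exact (h J).trans (linM_rep A J).symm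

theorem linM_mem (A : Matrix (Fin m) (Fin n) K) : linM A ∈ RepM K n :=
  ⟨linM_E A, m, A, linM_rep A⟩

end Pool.Agent.AM
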