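import Pool.Agent.AM.Defs
import Pool.Agent.BW.Grdy

set_option autoImplicit false

/-!
# Module SrE: existence of the coordinates
-/

namespace Pool.Agent.AM

open Pool.Agent.G4 (nor dif word prd)
open Pool.Agent.BW (rkX grdy cod dcd RkS crk)

section

variable {K : Type} [Field K] {a n : ℕ}

/-- the column `y` -/
private def sreW (A : Matrix (Fin a) (Fin n) K) (y : ℕ) : Fin a → K :=
  if h : y < n then fun i => A i ⟨y, h⟩ else 0

private theorem sre_crk (A : Matrix (Fin a) (Fin n) K) (F : Finset ℕ) :
    crk A F = (Module.finrank K (Submodule.span K (sreW A '' (F : Set ℕ))) : ℤ) := by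
  have h : Submodule.span K {w : Fin a → K | ∃ j : Fin n, (j : ℕ) ∈ F ∧ (fun i => A i j) = w} =
      Submodule.span K (sreW A '' (F : Set ℕ)) := by
    refine le_antisymm (Submodule.span_mono ?_) (Submodule.span_le.2 ?_)
    · rintro _ ⟨j, hj, rfl⟩
      refine ⟨j, hj, ?_⟩
      unfold sreW
      rw [dif_pos j.2]
    · rintro _ ⟨y, hy, rfl⟩
      by_cases h : y < n
      · refine Submodule.subset_span ⟨⟨y, h⟩, hy, ?_⟩
        unfold sreW
        rw [dif_pos h]
      · have hz : sreW A y = 0 := by
          unfold sreW
          rw [dif_neg h]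
        rw [hz]
        exact Submodule.zero_mem _
  unfold BW.crk
  rw [h]

private theorem sre_rk (A : Matrix (Fin a) (Fin n) K) : G4.IsRk (crk A) := by
  refine ⟨?_, ?_, ?_, ?_⟩
  · rw [sre_crk]
    simp
  · intro F e
    rw [sre_crk, sre_crk]
    have h : Submodule.span K (sreW A '' (F : Set ℕ)) ≤
        Submodule.span K (sreW A '' ((insert e F : Finset ℕ) : Set ℕ)) :=
      Submodule.span_mono (Set.image_mono (by simp))
    exact_mod_cast Submodule.finrank_mono h
  · intro F e
    rw [sre_crk, sre_crk]
    have h : Submodule.span K (sreW A '' ((insert e F : Finset ℕ) : Set ℕ)) =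
        Submodule.span K {sreW A e} ⊔ Submodule.span K (sreW A '' (F : Set ℕ)) := by
      rw [Finset.coe_insert, Set.image_insert_eq, Submodule.span_insert]
    rw [h]
    have h1 := Submodule.finrank_add_le_finrank_add_finrank (Submodule.span K {sreW A e})
      (Submodule.span K (sreW A '' (F : Set ℕ)))
    have h2 : Module.finrank K (Submodule.span K {sreW A e}) ≤ 1 := by
      by_cases hz : sreW A e = 0
      · rw [hz, Submodule.span_zero_singleton, finrank_bot]
        exact Nat.zero_le 1
      · exact (finrank_span_singleton hz).le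
    exact_mod_cast (by omega : Module.finrank K ((Submodule.span K {sreW A e} ⊔
      Submodule.span K (sreW A '' (F : Set ℕ)) : Submodule K _)) ≤
      Module.finrank K (Submodule.span K (sreW A '' (F : Set ℕ))) + 1)
  · intro F G
    rw [sre_crk, sre_crk, sre_crk, sre_crk]
    have h1 : Submodule.span K (sreW A '' ((F ∪ G : Finset ℕ) : Set ℕ)) =
        Submodule.span K (sreW A '' (F : Set ℕ)) ⊔ Submodule.span K (sreW A '' (G : Set ℕ)) := by
      rw [Finset.coe_union, Set.image_union, Submodule.span_union]
    have h2 : Submodule.span K (sreW A '' ((F ∩ G : Finset ℕ) : Set ℕ)) ≤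
        Submodule.span K (sreW A '' (F : Set ℕ)) ⊓ Submodule.span K (sreW A '' (G : Set ℕ)) := by
      rw [Finset.coe_inter]
      exact le_inf (Submodule.span_mono (Set.image_mono Set.inter_subset_left))
        (Submodule.span_mono (Set.image_mono Set.inter_subset_right))
    have h3 := Submodule.finrank_sup_add_finrank_inf_eq (Submodule.span K (sreW A '' (F : Set ℕ)))
      (Submodule.span K (sreW A '' (G : Set ℕ)))
    have h4 := Submodule.finrank_mono h2
    rw [h1]
    exact_mod_cast (by omega : Module.finrank K ((Submodule.span K (sreW A '' (F : Set ℕ)) ⊔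
      Submodule.span K (sreW A '' (G : Set ℕ)) : Submodule K _)) +
      Module.finrank K (Submodule.span K (sreW A '' ((F ∩ G : Finset ℕ) : Set ℕ))) ≤
      Module.finrank K (Submodule.span K (sreW A '' (F : Set ℕ))) +
      Module.finrank K (Submodule.span K (sreW A '' (G : Set ℕ))))

end

theorem exists_srep {K : Type} [Field K] {a n : ℕ} (A : Matrix (Fin a) (Fin n) K)
    {ρ : List ℕ → ℕ} (hρ : RkS ρ (List.range n) (crk A)) :
    ∃ u : ℕ → ℕ → K, SRep ρ (List.range n) (grdy ρ (List.range n) []) u := by
  classical
  obtain ⟨g1, g2, g3, _⟩ := BW.grdy_spec (sre_rk A) hρ (Y := List.range n) (C := [])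
    (List.Subset.refl _) List.nodup_range (by simp)
  set B := grdy ρ (List.range n) [] with hB
  have hnd : B.Nodup := g1.nodup List.nodup_range
  have hBE : ∀ b ∈ B, b ∈ List.range n := fun b hb => g1.subset hb
  rw [List.toFinset_nil, Finset.empty_union] at g2 g3
  have he : crk A ∅ = 0 := (sre_rk A).empty
  rw [he, zero_add] at g2
  rw [Finset.empty_union] at g3
  have hcard : B.toFinset.card = B.length := List.toFinset_card_of_nodup hnd
  -- linear independence
  have hli : LinearIndependent K (fun b : B.toFinset => sreW A b) := by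
    rw [linearIndependent_iff_card_eq_finrank_span]
    have h1 : Set.range (fun b : B.toFinset => sreW A b) = sreW A '' (B.toFinset : Set ℕ) := by
      ext x
      constructor
      · rintro ⟨b, rfl⟩
        exact ⟨b, b.2, rfl⟩
      · rintro ⟨b, hb, rfl⟩
        exact ⟨⟨b, hb⟩, rfl⟩
    rw [h1, Fintype.card_coe, hcard]
    rw [sre_crk] at g2
    unfold Set.finrank
    exact_mod_cast g2.symm
  have hspan : ∀ y < n, sreW A y ∈ Submodule.span K (sreW A '' (B.toFinset : Set ℕ)) := by
    intro y hy
    have h1 : Submodule.span K (sreW A '' (B.toFinset : Set ℕ)) =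
        Submodule.span K (sreW A '' ((List.range n).toFinset : Set ℕ)) := by
      refine Submodule.eq_of_le_of_finrank_eq (Submodule.span_mono (Set.image_mono ?_)) ?_
      · intro b hb
        have := hBE b (by simpa using hb)
        simpa using this
      · rw [sre_crk, sre_crk] at g3
        exact_mod_cast g3
    rw [h1]
    exact Submodule.subset_span ⟨y, by simpa using hy, rfl⟩
  have hco : ∀ y < n, ∃ c : ℕ → K, ∑ b ∈ B.toFinset, c b • sreW A b = sreW A y := by
    intro y hy
    have h1 := hspan y hy
    rw [Submodule.mem_span_image_finset_iff_exists_fun] at h1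
    obtain ⟨c, hc⟩ := h1
    refine ⟨fun b => if h : b ∈ B.toFinset then c ⟨b, h⟩ else 0, ?_⟩
    rw [← hc, ← Finset.sum_attach B.toFinset, Finset.univ_eq_attach]
    refine Finset.sum_congr rfl fun b _ => ?_
    simp only [b.2, dif_pos]
  choose c hc using hco
  set u : ℕ → ℕ → K := fun y i => if y ∈ B then (if i = y then 1 else 0) else
    if hy : y < n then (if i ∈ B then c y hy i else 0) else 0 with hu
  have huB : ∀ b ∈ B, ∀ i, u b i = if i = b then 1 else 0 := by
    intro b hb i
    rw [hu]
    simp only [hb, if_true]
  have hsup : ∀ y i, i ∉ B → u y i = 0 := by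
    intro y i hi
    rw [hu]
    by_cases hy : y ∈ B
    · have hne : i ≠ y := by
        rintro rfl
        exact hi hy
      simp only [hy, if_true, hne, if_false]
    · simp only [hy, if_false, hi]
      split_ifs <;> rfl
  -- the linear map
  let L : (ℕ → K) →ₗ[K] (Fin a → K) :=
    { toFun := fun x => ∑ b ∈ B.toFinset, x b • sreW A b
      map_add' := by
        intro x y
        rw [← Finset.sum_add_distrib]
        refine Finset.sum_congr rfl fun b _ => ?_
        rw [Pi.add_apply, add_smul]
      map_smul' := by
        intro k x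
        rw [RingHom.id_apply, Finset.smul_sum]
        refine Finset.sum_congr rfl fun b _ => ?_
        rw [Pi.smul_apply, smul_eq_mul, mul_smul] }
  have hLdef : ∀ x, L x = ∑ b ∈ B.toFinset, x b • sreW A b := fun _ => rfl
  have hL : ∀ y < n, L (u y) = sreW A y := by
    intro y hy
    rw [hLdef]
    by_cases hyB : y ∈ B
    · rw [Finset.sum_eq_single_of_mem y (List.mem_toFinset.2 hyB)]
      · rw [huB y hyB, if_pos rfl, one_smul]
      · intro b _ hb
        rw [huB y hyB, if_neg hb, zero_smul]
    · rw [← hc y hy]
      refine Finset.sum_congr rfl fun b hb => ?_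
      have h1 : u y b = c y hy b := by
        rw [hu]
        simp only [hyB, if_false, hy, dif_pos, List.mem_toFinset.1 hb, if_true]
      rw [h1]
  have hinj : ∀ x : ℕ → K, (∀ i, i ∉ B → x i = 0) → L x = 0 → x = 0 := by
    intro x hx h0
    rw [hLdef] at h0
    have h1 := Fintype.linearIndependent_iff.1 hli (fun b => x b) (by
      rw [← h0]
      exact (Finset.sum_coe_sort B.toFinset (fun b => x b • sreW A b)))
    funext i
    by_cases hi : i ∈ B
    · exact h1 ⟨i, List.mem_toFinset.2 hi⟩
    · exact hx i hi
  refine ⟨u, hnd, hBE, hsup, ?_, ?_, ?_⟩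
  · intro b hb i hi
    rw [huB b hb, if_neg hi]
  · intro b hb
    rw [huB b hb, if_pos rfl]
    exact one_ne_zero
  · intro T hT
    have h1 := hρ T hT
    rw [sre_crk] at h1
    unfold rkU
    set S := Submodule.span K {x : ℕ → K | ∃ t ∈ T, u t = x} with hS
    haveI : FiniteDimensional K S := by
      have h : ({x : ℕ → K | ∃ t ∈ T, u t = x}).Finite := by
        refine (Set.Finite.image u (T.toFinset.finite_toSet)).subset ?_
        rintro x ⟨t, ht, rfl⟩
        exact ⟨t, by simpa using ht, rfl⟩
      exact FiniteDimensional.span_of_finite K h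
    have hmap : S.map L = Submodule.span K (sreW A '' (T.toFinset : Set ℕ)) := by
      rw [hS, Submodule.map_span]
      refine le_antisymm (Submodule.span_mono ?_) (Submodule.span_mono ?_)
      · rintro _ ⟨_, ⟨t, ht, rfl⟩, rfl⟩
        exact ⟨t, by simpa using ht, (hL t (List.mem_range.1 (hT t ht))).symm⟩
      · rintro _ ⟨t, ht, rfl⟩
        have ht' : t ∈ T := by simpa using ht
        exact ⟨u t, ⟨t, ht', rfl⟩, hL t (List.mem_range.1 (hT t ht'))⟩
    have hSs : ∀ x ∈ S, ∀ i, i ∉ B → x i = 0 := by
      intro x hx
      induction hx using Submodule.span_induction with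
      | mem x hx =>
        obtain ⟨t, _, rfl⟩ := hx
        exact hsup t
      | zero => intro i _; rfl
      | add x y _ _ hx hy =>
        intro i hi
        rw [Pi.add_apply, hx i hi, hy i hi, add_zero]
      | smul c x _ hx =>
        intro i hi
        rw [Pi.smul_apply, hx i hi, smul_zero]
    have hker : LinearMap.ker (L.domRestrict S) = ⊥ := by
      rw [Submodule.eq_bot_iff]
      rintro ⟨x, hx⟩ h0
      have h2 : L x = 0 := h0
      have h3 := hinj x (hSs x hx) h2
      exact Subtype.ext h3
    have hrn := LinearMap.finrank_range_add_finrank_ker (L.domRestrict S)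
    rw [LinearMap.range_domRestrict, hmap, hker, finrank_bot, add_zero] at hrn
    rw [← hrn]
    exact_mod_cast h1

end Pool.Agent.AM
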