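import Pool.Agent.AM.RepO
import Pool.Agent.AM.RichI
import Pool.Agent.AM.SrE

set_option autoImplicit false

/-!
# Module Main: correctness of the algorithm
-/

namespace Pool.Agent.AM

open Pool.Agent.G4 (nor dif word prd)
open Pool.Agent.BW (rkX grdy cod dcd RkS crk)

open Pool.Agent.Helper22

theorem rkS_of {K : Type} [Field K] {m n : ℕ} {M : Matroid (Fin n)} {A : Matrix (Fin m) (Fin n) K}
    (hA : IsRep M A) {X : Oracle} (hX : IsOracle X M) :
    RkS (fun T => rkX X (List.range n) T) (List.range n) (crk A) := fun T hT =>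
  Pool.Agent.BW.rkX_spec A (fun J => (hX J).trans (hA J)) T hT

theorem alg_main {K : Type} [Field K] [Fintype K] (e : Fin (Fintype.card K) ≃ K) {n : ℕ}
    {M : Matroid (Fin n)} (hM : M ∈ RepM K n) {X : Oracle} (hX : IsOracle X M) :
    ((algA (prmQ e) X (List.replicate n true)).1 = true ↔ Rich (Fintype.card K) M) ∧
    (Rich (Fintype.card K) M →
      (∀ r ∈ (algA (prmQ e) X (List.replicate n true)).2,
        r.length = n ∧ ∀ c ∈ r, c < Fintype.card K) ∧
      IsRep M (outM K e n (algA (prmQ e) X (List.replicate n true)).2)) := by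
  obtain ⟨hE, m, A, hA⟩ := hM
  have hρ := rkS_of hA hX
  obtain ⟨u, hu⟩ := exists_srep A hρ
  have hr := rich_iff hE hA hX hu
  have hf := flg_iff e hu
  have hal : algA (prmQ e) X (List.replicate n true) =
      outA (prmQ e) (fun T => rkX X (List.range n) T)
        (grdy (fun T => rkX X (List.range n) T) (List.range n) []) (List.range n) := by
    unfold algA
    rw [List.length_replicate]
  rw [hal]
  have h1 : (outA (prmQ e) (fun T => rkX X (List.range n) T)
        (grdy (fun T => rkX X (List.range n) T) (List.range n) []) (List.range n)).1 = true ↔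
      flg (prmQ e) (fun T => rkX X (List.range n) T)
        (grdy (fun T => rkX X (List.range n) T) (List.range n) []) (List.range n) = true := by
    unfold outA
    split_ifs with h
    · simp [h]
    · simp [h]
  refine ⟨h1.trans (hf.trans hr.symm), fun hR => ?_⟩
  have hU := hr.1 hR
  have h2 := hf.2 hU
  unfold outA
  rw [if_pos h2]
  have h3 := rep_out e hu hU
  exact ⟨h3.1, fun J => (hA J).trans ((li_iff A hρ hu J).symm.trans (h3.2 J).symm)⟩

end Pool.Agent.AM
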