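import Pool.Agent.AM.PtsF
import Pool.Agent.AM.PrmL

set_option autoImplicit false

/-!
# Module Psi: a consistent candidate is a chart

`Z ∈ zips ..` is `(pts ρ B E [a, b, c]).zip φ` with `φ ∈ (prmQ e).maps`; the plane is full, so `pts` has
`q ^ 2 + q + 1` elements (`pts_full`), as many as `φ` (`prm_maps`; `q ^ 2 + q - 2 + 3 = q ^ 2 + q + 1` as
`2 ≤ q`, `Fintype.one_lt_card`).

Plan. Write `L = pts ρ B E [a, b, c] = a :: b :: c :: L'` and `φ = xs.map (cod3 e)` with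
`xs = e0 :: e1 :: e2 :: xs'` all normalized, `xs.length = L.length`. Each `s ∈ L` occurs once; let
`Φ s` be the corresponding vector of `xs` (nonzero, as `Nrm x` implies `x ≠ 0`). For `y ∈ E` with `v3 y ≠ 0`
the filter in `chv` is nonempty (`pts_spec`, `cr_v1`; members of `Z` have first component in `L`), its
first member is `(s, cod3 e (Φ s))` with `s ∈ L` and `Prp (v3 s) (v3 y)`; define `Ψ y := Φ s`; in other
words `Ψ y := dec3 e (chv (prmQ e) ρ B [a, b, c] Z y)`, `0` if `v3 y = 0` (`cr_v0`; `(prmQ e).zer = cod e 0`).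
`IsCht.z`: clear. `IsCht.d`: if one of the three vectors is zero, both determinants are zero;
otherwise replace `x, y, z` by the representatives `s, s', s''` (scaling the determinant by a nonzero
factor); `conB` (membership in `prd`) gives `cr ρ B T [s, s', s''] < 3 ↔ (..) ∈ sg`, use `cr_v2`, `prm_sg`.
`ea`: for `y = a` the first member of `Z` is `(a, cod3 e e0)` and it passes the filter (`Prp` is
reflexive), so `Ψ a = e0`; `b`, `c`: the members before are not proportional to `b` (`c`), as `pts` is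
pairwise not proportional; so `Ψ b = e1`, `Ψ c = e2`.
-/

namespace Pool.Agent.AM

open Pool.Agent.G4 (nor dif word prd)
open Pool.Agent.BW (rkX grdy cod dcd RkS crk)

variable {K : Type} [Field K] {ρ : List ℕ → ℕ} {E B : List ℕ} {u w : ℕ → ℕ → K}


variable [Fintype K] (e : Fin (Fintype.card K) ≃ K)

omit [Fintype K] in
private theorem psi_rfl (x : Fin 3 → K) : Prp x x := ⟨1, one_ne_zero, by simp⟩

omit [Fintype K] in
private theorem psi_det3_smul (a b c : K) (x y z : Fin 3 → K) :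
    det3 (a • x) (b • y) (c • z) = a * b * c * det3 x y z := by
  simp only [det3, Pi.smul_apply, smul_eq_mul]
  ring

omit [Fintype K] in
private theorem psi_det3_prp {x y z x' y' z' : Fin 3 → K} (hx : Prp x x') (hy : Prp y y')
    (hz : Prp z z') : det3 x y z = 0 ↔ det3 x' y' z' = 0 := by
  obtain ⟨a, ha, rfl⟩ := hx
  obtain ⟨b, hb, rfl⟩ := hy
  obtain ⟨c, hc, rfl⟩ := hz
  rw [psi_det3_smul]
  constructor
  · intro h
    rw [h, mul_zero]
  · intro h
    exact (mul_eq_zero.mp h).resolve_left (mul_ne_zero (mul_ne_zero ha hb) hc)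

omit [Fintype K] in
private theorem psi_nrm_ne {x : Fin 3 → K} (h : Nrm x) : x ≠ 0 := by
  rintro rfl
  rcases h with h | ⟨_, h⟩ | ⟨_, _, h⟩ <;> simp at h

omit [Fintype K] in
private theorem psi_det3_z1 (y z : Fin 3 → K) : det3 0 y z = 0 := by simp [det3]

omit [Fintype K] in
private theorem psi_det3_z2 (x z : Fin 3 → K) : det3 x 0 z = 0 := by simp [det3]

omit [Fintype K] in
private theorem psi_det3_z3 (x y : Fin 3 → K) : det3 x y 0 = 0 := by simp [det3]

theorem psi (h : SRep ρ E B u) {a b c : ℕ} (ha : a ∈ B) (hb : b ∈ B) (hc : c ∈ B)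
    (hab : a ≠ b) (hac : a ≠ c) (hbc : b ≠ c) (hf : Full E u a b c) {Z : List (ℕ × Tri)}
    (hZ : Z ∈ zips (prmQ e) ρ B E [a, b, c]) (hcon : conB (prmQ e) ρ B [a, b, c] Z = true) :
    ∃ Ψ : ℕ → Fin 3 → K, IsCht E u a b c Ψ ∧
      (∀ y ∈ E, chv (prmQ e) ρ B [a, b, c] Z y = cod3 e (Ψ y) ∧ (Ψ y ≠ 0 → Nrm (Ψ y))) ∧
      ∀ y ∈ E, v3 u a b c y ≠ 0 →
        ∃ s ∈ E, (s, cod3 e (Ψ y)) ∈ Z ∧ Prp (v3 u a b c s) (v3 u a b c y) := by
  classical
  have hlen := (pts_full h ha hb hc hab hac hbc).mpr hf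
  obtain ⟨⟨L, hL⟩, hptE, hptP, hptx⟩ := pts_spec h ha hb hc hab hac hbc
  obtain ⟨φ, hφ, hZφ⟩ := List.mem_map.mp hZ
  obtain ⟨xs, hxs, hxl, rfl⟩ := (prm_maps e φ).mp hφ
  have hq : 2 ≤ Fintype.card K := Fintype.one_lt_card
  have hLl : L.length = xs.length := by
    rw [hL] at hlen
    simp only [List.length_cons] at hlen
    rw [hxl]
    have : 2 * 2 ≤ Fintype.card K ^ 2 := by nlinarith
    omega
  have hZe : Z = (a, cod3 e ![1, 0, 0]) :: (b, cod3 e ![0, 1, 0]) :: (c, cod3 e ![0, 0, 1]) ::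
      L.zip (xs.map (cod3 e)) := by
    rw [← hZφ, hL]
    rfl
  have hZf : Z.map Prod.fst = pts ρ B E [a, b, c] := by
    rw [← hZφ, List.map_fst_zip]
    rw [hL]
    simp [hLl]
  have hmem : ∀ p ∈ Z, p.1 ∈ pts ρ B E [a, b, c] ∧ ∃ x, Nrm x ∧ p.2 = cod3 e x := by
    intro p hp
    rw [← hZφ] at hp
    obtain ⟨h1, h2⟩ := List.of_mem_zip (show (p.1, p.2) ∈ _ from hp)
    refine ⟨h1, ?_⟩
    obtain ⟨x, hx, hx'⟩ := List.mem_map.mp h2
    refine ⟨x, ?_, hx'.symm⟩
    simp only [List.mem_cons] at hx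
    rcases hx with rfl | rfl | rfl | hx
    · left; simp
    · right; left; simp
    · right; right; simp
    · exact hxs x hx
  have hex : ∀ s ∈ pts ρ B E [a, b, c], ∃ p ∈ Z, p.1 = s := by
    intro s hs
    rw [← hZf] at hs
    exact List.mem_map.mp hs
  have haE := h.BE a ha
  have hbE := h.BE b hb
  have hcE := h.BE c hc
  -- the head of the filter
  have hhead : ∀ (F : List (ℕ × Tri)) (d : ℕ × Tri), F ≠ [] → F.headD d ∈ F := by
    intro F d hF
    cases F with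
    | nil => exact absurd rfl hF
    | cons x F => simp
  have key : ∀ y ∈ E, v3 u a b c y ≠ 0 → ∃ s ∈ E, ∃ x, Nrm x ∧ (s, cod3 e x) ∈ Z ∧
      Prp (v3 u a b c s) (v3 u a b c y) ∧ chv (prmQ e) ρ B [a, b, c] Z y = cod3 e x := by
    intro y hy hy0
    obtain ⟨s, hs, hsy⟩ := hptx y hy hy0
    obtain ⟨p, hpZ, hps⟩ := hex s hs
    have hc0 : cr ρ B [a, b, c] [y] ≠ 0 := fun h' => hy0 ((cr_v0 h ha hb hc hy).mp h')
    have hF : (Z.filter fun p => decide (cr ρ B [a, b, c] [p.1, y] ≤ 1)) ≠ [] := by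
      intro hF
      have : p ∈ (Z.filter fun p => decide (cr ρ B [a, b, c] [p.1, y] ≤ 1)) := by
        rw [List.mem_filter]
        refine ⟨hpZ, ?_⟩
        rw [decide_eq_true_iff, hps]
        exact (cr_v1 h ha hb hc hab hac hbc (hptE s hs).1 hy (hptE s hs).2 hy0).mpr hsy
      rw [hF] at this
      exact absurd this (List.not_mem_nil)
    have hh := hhead _ (0, ((prmQ e).zer, ((prmQ e).zer, (prmQ e).zer))) hF
    set p' := (Z.filter fun p => decide (cr ρ B [a, b, c] [p.1, y] ≤ 1)).headD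
      (0, ((prmQ e).zer, ((prmQ e).zer, (prmQ e).zer))) with hp'
    rw [List.mem_filter] at hh
    obtain ⟨hh1, hh2⟩ := hh
    rw [decide_eq_true_iff] at hh2
    obtain ⟨h1, x, hx, hx'⟩ := hmem p' hh1
    refine ⟨p'.1, (hptE _ h1).1, x, hx, ?_, ?_, ?_⟩
    · rw [← hx']
      exact hh1
    · exact (cr_v1 h ha hb hc hab hac hbc (hptE _ h1).1 hy (hptE _ h1).2 hy0).mp hh2
    · unfold chv
      rw [if_neg hc0, ← hp', hx']
  have hz0 : ∀ y ∈ E, v3 u a b c y = 0 → chv (prmQ e) ρ B [a, b, c] Z y = cod3 e 0 := by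
    intro y hy hy0
    unfold chv
    rw [if_pos ((cr_v0 h ha hb hc hy).mpr hy0)]
    rfl
  have hcon' : ∀ s x s' x' s'' x'', (s, cod3 e x) ∈ Z → (s', cod3 e x') ∈ Z →
      (s'', cod3 e x'') ∈ Z →
      (det3 (v3 u a b c s) (v3 u a b c s') (v3 u a b c s'') = 0 ↔ det3 x x' x'' = 0) := by
    intro s x s' x' s'' x'' h1 h2 h3
    have hc1 := List.all_eq_true.mp hcon ((s, cod3 e x), ((s', cod3 e x'), (s'', cod3 e x'')))
      (by
        unfold prd
        simp only [List.mem_flatMap, List.mem_map]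
        exact ⟨_, h1, _, ⟨_, h2, _, h3, rfl⟩, rfl⟩)
    simp only at hc1
    rw [beq_iff_eq, decide_eq_decide, prm_sg,
      cr_v2 h ha hb hc hab hac hbc (hptE _ (hmem _ h1).1).1 (hptE _ (hmem _ h2).1).1
        (hptE _ (hmem _ h3).1).1] at hc1
    exact hc1
  let Ψ : ℕ → Fin 3 → K := fun y =>
    if v3 u a b c y = 0 then 0 else dec3 e (chv (prmQ e) ρ B [a, b, c] Z y)
  have hΨ0 : ∀ y, v3 u a b c y = 0 → Ψ y = 0 := fun y hy => if_pos hy
  have hΨ1 : ∀ y, v3 u a b c y ≠ 0 → ∀ x, chv (prmQ e) ρ B [a, b, c] Z y = cod3 e x →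
      Ψ y = x := by
    intro y hy x hx
    show (if v3 u a b c y = 0 then 0 else dec3 e (chv (prmQ e) ρ B [a, b, c] Z y)) = x
    rw [if_neg hy, hx, dec_cod3]
  have hna : v3 u a b c a ≠ 0 := (hptE a (by rw [hL]; simp)).2
  have hnb : v3 u a b c b ≠ 0 := (hptE b (by rw [hL]; simp)).2
  have hnc : v3 u a b c c ≠ 0 := (hptE c (by rw [hL]; simp)).2
  rw [hL] at hptP
  simp only [List.pairwise_cons] at hptP
  obtain ⟨hpa, hpb, hpc, hpL⟩ := hptP
  have Pab := hpa b (by simp)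
  have Pac := hpa c (by simp)
  have Pbc := hpb c (by simp)
  have hca : chv (prmQ e) ρ B [a, b, c] Z a = cod3 e ![1, 0, 0] := by
    unfold chv
    rw [if_neg (fun h' => hna ((cr_v0 h ha hb hc haE).mp h')), hZe]
    rw [List.filter_cons_of_pos]
    · rfl
    · rw [decide_eq_true_iff]
      exact (cr_v1 h ha hb hc hab hac hbc haE haE hna hna).mpr (psi_rfl _)
  have hcb : chv (prmQ e) ρ B [a, b, c] Z b = cod3 e ![0, 1, 0] := by
    unfold chv
    rw [if_neg (fun h' => hnb ((cr_v0 h ha hb hc hbE).mp h')), hZe]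
    rw [List.filter_cons_of_neg, List.filter_cons_of_pos]
    · rfl
    · rw [decide_eq_true_iff]
      exact (cr_v1 h ha hb hc hab hac hbc hbE hbE hnb hnb).mpr (psi_rfl _)
    · rw [decide_eq_true_iff]
      intro h'
      exact Pab ((cr_v1 h ha hb hc hab hac hbc haE hbE hna hnb).mp h')
  have hcc : chv (prmQ e) ρ B [a, b, c] Z c = cod3 e ![0, 0, 1] := by
    unfold chv
    rw [if_neg (fun h' => hnc ((cr_v0 h ha hb hc hcE).mp h')), hZe]
    rw [List.filter_cons_of_neg, List.filter_cons_of_neg, List.filter_cons_of_pos]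
    · rfl
    · rw [decide_eq_true_iff]
      exact (cr_v1 h ha hb hc hab hac hbc hcE hcE hnc hnc).mpr (psi_rfl _)
    · rw [decide_eq_true_iff]
      intro h'
      exact Pbc ((cr_v1 h ha hb hc hab hac hbc hbE hcE hnb hnc).mp h')
    · rw [decide_eq_true_iff]
      intro h'
      exact Pac ((cr_v1 h ha hb hc hab hac hbc haE hcE hna hnc).mp h')
  refine ⟨Ψ, ⟨?_, ?_, ?_, ?_, ?_⟩, ?_, ?_⟩
  · intro y hy
    constructor
    · exact hΨ0 y
    · intro h'
      by_contra hy0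
      obtain ⟨s, hs, x, hx, hxZ, hp, hch⟩ := key y hy hy0
      rw [hΨ1 y hy0 x hch] at h'
      exact psi_nrm_ne hx h'
  · intro x hx y hy z hz
    by_cases hx0 : v3 u a b c x = 0
    · rw [hx0, hΨ0 x hx0, psi_det3_z1, psi_det3_z1]
    by_cases hy0 : v3 u a b c y = 0
    · rw [hy0, hΨ0 y hy0, psi_det3_z2, psi_det3_z2]
    by_cases hz0' : v3 u a b c z = 0
    · rw [hz0', hΨ0 z hz0', psi_det3_z3, psi_det3_z3]
    obtain ⟨s, hs, X, hX, hXZ, hXp, hXc⟩ := key x hx hx0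
    obtain ⟨s', hs', Y, hY, hYZ, hYp, hYc⟩ := key y hy hy0
    obtain ⟨s'', hs'', W, hW, hWZ, hWp, hWc⟩ := key z hz hz0'
    rw [hΨ1 x hx0 X hXc, hΨ1 y hy0 Y hYc, hΨ1 z hz0' W hWc, ← hcon' s X s' Y s'' W hXZ hYZ hWZ]
    exact (psi_det3_prp hXp hYp hWp).symm
  · rw [hΨ1 a hna _ hca]
    exact psi_rfl _
  · rw [hΨ1 b hnb _ hcb]
    exact psi_rfl _
  · rw [hΨ1 c hnc _ hcc]
    exact psi_rfl _
  · intro y hy
    by_cases hy0 : v3 u a b c y = 0
    · rw [hΨ0 y hy0]
      exact ⟨hz0 y hy hy0, fun h' => absurd rfl h'⟩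
    · obtain ⟨s, hs, x, hx, hxZ, hp, hch⟩ := key y hy hy0
      rw [hΨ1 y hy0 x hch]
      exact ⟨hch, fun _ => hx⟩
  · intro y hy hy0
    obtain ⟨s, hs, x, hx, hxZ, hp, hch⟩ := key y hy hy0
    refine ⟨s, hs, ?_, hp⟩
    rw [hΨ1 y hy0 x hch]
    exact hxZ

end Pool.Agent.AM
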