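import Pool.Agent.AM.PtsL
import Pool.Agent.AM.PtsC

set_option autoImplicit false

/-!
# Module PtsF: the test of the algorithm
-/

namespace Pool.Agent.AM

open Pool.Agent.G4 (nor dif word prd)
open Pool.Agent.BW (rkX grdy cod dcd RkS crk)

variable {K : Type} [Field K] {ρ : List ℕ → ℕ} {E B : List ℕ} {u w : ℕ → ℕ → K}

private theorem ptf_refl (x : Fin 3 → K) : Prp x x := ⟨1, one_ne_zero, (one_smul _ _).symm⟩

private theorem ptf_symm {x y : Fin 3 → K} (h : Prp x y) : Prp y x := by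
  obtain ⟨c, hc, rfl⟩ := h
  exact ⟨c⁻¹, inv_ne_zero hc, by rw [smul_smul, inv_mul_cancel₀ hc, one_smul]⟩

private theorem ptf_trans {x y z : Fin 3 → K} (h : Prp x y) (h' : Prp y z) : Prp x z := by
  obtain ⟨c, hc, rfl⟩ := h
  obtain ⟨d, hd, rfl⟩ := h'
  exact ⟨d * c, mul_ne_zero hd hc, by rw [smul_smul]⟩

private theorem ptf_prd {α β : Type} {l : List α} {m : List β} {p : α × β} :
    p ∈ prd l m ↔ p.1 ∈ l ∧ p.2 ∈ m := by
  unfold prd
  rw [List.mem_flatMap]
  constructor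
  · rintro ⟨a, ha, hp⟩
    obtain ⟨b, hb, rfl⟩ := List.mem_map.1 hp
    exact ⟨ha, hb⟩
  · rintro ⟨h1, h2⟩
    exact ⟨p.1, h1, List.mem_map.2 ⟨p.2, h2, rfl⟩⟩

variable [Fintype K]

theorem pts_full (h : SRep ρ E B u) {a b c : ℕ} (ha : a ∈ B) (hb : b ∈ B) (hc : c ∈ B)
    (hab : a ≠ b) (hac : a ≠ c) (hbc : b ≠ c) :
    (pts ρ B E [a, b, c]).length = Fintype.card K ^ 2 + Fintype.card K + 1 ↔
      Full E u a b c := by
  obtain ⟨-, h1, h2, h3⟩ := pts_spec h ha hb hc hab hac hbc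
  have hnd : (pts ρ B E [a, b, c]).Nodup := by
    refine h2.imp ?_
    intro s t hst he
    rw [he] at hst
    exact hst (ptf_refl _)
  have hsym : Std.Symm fun s t => ¬ Prp (v3 u a b c s) (v3 u a b c t) := ⟨fun s t hst hts =>
    hst (ptf_symm hts)⟩
  have hp : ∀ s ∈ (pts ρ B E [a, b, c]).toFinset, ∀ t ∈ (pts ρ B E [a, b, c]).toFinset, s ≠ t →
      ¬ Prp (v3 u a b c s) (v3 u a b c t) := by
    intro s hs t ht hst
    exact h2.forall (List.mem_toFinset.1 hs) (List.mem_toFinset.1 ht) hst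
  have h4 := (pts_card (v3 u a b c) (pts ρ B E [a, b, c]).toFinset
    (fun s hs => (h1 s (List.mem_toFinset.1 hs)).2) hp).2
  rw [List.toFinset_card_of_nodup hnd] at h4
  rw [h4]
  constructor
  · intro h5 z hz
    obtain ⟨s, hs, hzs⟩ := h5 z hz
    exact ⟨s, (h1 s (List.mem_toFinset.1 hs)).1, hzs⟩
  · intro h5 z hz
    obtain ⟨y, hy, hzy⟩ := h5 z hz
    have hy0 : v3 u a b c y ≠ 0 := by
      obtain ⟨d, hd, he⟩ := hzy
      rw [he]
      exact smul_ne_zero hd hz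
    obtain ⟨s, hs, hsy⟩ := h3 y hy hy0
    exact ⟨s, List.mem_toFinset.2 hs, ptf_trans hzy (ptf_symm hsy)⟩

theorem flg_iff (e : Fin (Fintype.card K) ≃ K) (h : SRep ρ E B u) :
    flg (prmQ e) ρ B E = true ↔ RichU E B u := by
  unfold flg RichU
  rw [Bool.and_eq_true, decide_eq_true_eq, List.all_eq_true]
  refine and_congr_right fun h3 => ?_
  rcases B with _ | ⟨a, B'⟩
  · exact absurd h3 (by simp)
  have hnd := List.nodup_cons.1 h.nd
  have hne : ∀ i ∈ B', a ≠ i := fun i hi he => hnd.1 (he ▸ hi)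
  have hnum : (prmQ e).num = Fintype.card K ^ 2 + Fintype.card K + 1 := rfl
  rw [List.tail_cons, List.headD_cons, hnum]
  constructor
  · intro h1 i hi j hj hij
    have h2 := h1 (i, j) (ptf_prd.2 ⟨hi, hj⟩)
    rw [Bool.or_eq_true, decide_eq_true_eq, decide_eq_true_eq] at h2
    rcases h2 with h2 | h2
    · exact absurd h2 hij
    · exact (pts_full h List.mem_cons_self (List.mem_cons_of_mem _ hi) (List.mem_cons_of_mem _ hj)
        (hne i hi) (hne j hj) hij).1 h2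
  · rintro h1 ⟨i, j⟩ hp
    obtain ⟨hi, hj⟩ := ptf_prd.1 hp
    rw [Bool.or_eq_true, decide_eq_true_eq, decide_eq_true_eq]
    by_cases hij : i = j
    · exact Or.inl hij
    · exact Or.inr ((pts_full h List.mem_cons_self (List.mem_cons_of_mem _ hi)
        (List.mem_cons_of_mem _ hj) (hne i hi) (hne j hj) hij).2 (h1 i hi j hj hij))

end Pool.Agent.AM
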