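import Pool.Agent.AM.Crk2

set_option autoImplicit false

/-!
# Module PtsL: the representatives of the points of a plane

The fold keeps pairwise nonproportional vectors; it starts with `a`, `b`, `c`.
-/

namespace Pool.Agent.AM

open Pool.Agent.G4 (nor dif word prd)
open Pool.Agent.BW (rkX grdy cod dcd RkS crk)

variable {K : Type} [Field K] {ρ : List ℕ → ℕ} {E B : List ℕ} {u w : ℕ → ℕ → K}


private def plStep (ρ : List ℕ → ℕ) (B T : List ℕ) (L : List ℕ) (y : ℕ) : List ℕ :=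
  if decide (cr ρ B T [y] = 0) || L.any (fun s => decide (cr ρ B T [s, y] ≤ 1)) then L else L ++ [y]

private theorem plPrp_refl (x : Fin 3 → K) : Prp x x := ⟨1, one_ne_zero, (one_smul K x).symm⟩

/-- one step -/
private theorem pl_step (h : SRep ρ E B u) {a b c : ℕ} (ha : a ∈ B) (hb : b ∈ B) (hc : c ∈ B)
    (hab : a ≠ b) (hac : a ≠ c) (hbc : b ≠ c) (L : List ℕ)
    (hL : ∀ s ∈ L, s ∈ E ∧ v3 u a b c s ≠ 0) {y : ℕ} (hy : y ∈ E) :
    (plStep ρ B [a, b, c] L y = L ∧ (v3 u a b c y ≠ 0 → ∃ s ∈ L, Prp (v3 u a b c s) (v3 u a b c y))) ∨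
    (plStep ρ B [a, b, c] L y = L ++ [y] ∧ v3 u a b c y ≠ 0 ∧
      ∀ s ∈ L, ¬ Prp (v3 u a b c s) (v3 u a b c y)) := by
  unfold plStep
  by_cases h1 : cr ρ B [a, b, c] [y] = 0
  · left
    have h2 := (cr_v0 h ha hb hc hy).1 h1
    refine ⟨by rw [if_pos (by simp [h1])], fun h3 => absurd h2 h3⟩
  · have h2 : v3 u a b c y ≠ 0 := fun h3 => h1 ((cr_v0 h ha hb hc hy).2 h3)
    by_cases h3 : ∃ s ∈ L, cr ρ B [a, b, c] [s, y] ≤ 1
    · left
      obtain ⟨s, hs, h4⟩ := h3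
      have h5 : L.any (fun s => decide (cr ρ B [a, b, c] [s, y] ≤ 1)) = true := by
        rw [List.any_eq_true]
        exact ⟨s, hs, by simpa using h4⟩
      refine ⟨by rw [if_pos (by rw [h5, Bool.or_true])], fun _ => ⟨s, hs, ?_⟩⟩
      exact (cr_v1 h ha hb hc hab hac hbc (hL s hs).1 hy (hL s hs).2 h2).1 h4
    · right
      have h5 : L.any (fun s => decide (cr ρ B [a, b, c] [s, y] ≤ 1)) = false := by
        rw [List.any_eq_false]
        intro s hs h4
        exact h3 ⟨s, hs, by simpa using h4⟩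
      refine ⟨?_, h2, fun s hs h4 => ?_⟩
      · rw [h5, Bool.or_false, if_neg (by simpa using h1)]
      · exact h3 ⟨s, hs, (cr_v1 h ha hb hc hab hac hbc (hL s hs).1 hy (hL s hs).2 h2).2 h4⟩

/-- the fold -/
private theorem pl_fold (h : SRep ρ E B u) {a b c : ℕ} (ha : a ∈ B) (hb : b ∈ B) (hc : c ∈ B)
    (hab : a ≠ b) (hac : a ≠ c) (hbc : b ≠ c) (D : List ℕ) (hD : ∀ y ∈ D, y ∈ E) :
    ∀ L : List ℕ, (∀ s ∈ L, s ∈ E ∧ v3 u a b c s ≠ 0) →
      (L.Pairwise fun s t => ¬ Prp (v3 u a b c s) (v3 u a b c t)) →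
      (∃ M, D.foldl (plStep ρ B [a, b, c]) L = L ++ M) ∧
      (∀ s ∈ D.foldl (plStep ρ B [a, b, c]) L, s ∈ E ∧ v3 u a b c s ≠ 0) ∧
      ((D.foldl (plStep ρ B [a, b, c]) L).Pairwise
        fun s t => ¬ Prp (v3 u a b c s) (v3 u a b c t)) ∧
      ∀ y ∈ D, v3 u a b c y ≠ 0 →
        ∃ s ∈ D.foldl (plStep ρ B [a, b, c]) L, Prp (v3 u a b c s) (v3 u a b c y) := by
  induction D with
  | nil =>
    intro L h1 h2
    exact ⟨⟨[], by simp⟩, h1, h2, fun y hy => absurd hy (by simp)⟩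
  | cons y D ih =>
    intro L h1 h2
    have hy : y ∈ E := hD y List.mem_cons_self
    have hD' : ∀ x ∈ D, x ∈ E := fun x hx => hD x (List.mem_cons_of_mem _ hx)
    rw [List.foldl_cons]
    rcases pl_step h ha hb hc hab hac hbc L h1 hy with ⟨e1, e2⟩ | ⟨e1, e2, e3⟩
    · rw [e1]
      obtain ⟨⟨M, g1⟩, g2, g3, g4⟩ := ih hD' L h1 h2
      refine ⟨⟨M, g1⟩, g2, g3, fun x hx hx0 => ?_⟩
      rcases List.mem_cons.1 hx with rfl | hx
      · obtain ⟨s, hs, hp⟩ := e2 hx0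
        refine ⟨s, ?_, hp⟩
        rw [g1]
        exact List.mem_append_left _ hs
      · exact g4 x hx hx0
    · rw [e1]
      have h1' : ∀ s ∈ L ++ [y], s ∈ E ∧ v3 u a b c s ≠ 0 := by
        intro s hs
        rcases List.mem_append.1 hs with hs | hs
        · exact h1 s hs
        · rw [List.mem_singleton.1 hs]
          exact ⟨hy, e2⟩
      have h2' : (L ++ [y]).Pairwise fun s t => ¬ Prp (v3 u a b c s) (v3 u a b c t) := by
        rw [List.pairwise_append]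
        refine ⟨h2, List.pairwise_singleton _ _, fun s hs t ht => ?_⟩
        rw [List.mem_singleton.1 ht]
        exact e3 s hs
      obtain ⟨⟨M, g1⟩, g2, g3, g4⟩ := ih hD' (L ++ [y]) h1' h2'
      refine ⟨⟨[y] ++ M, by rw [g1, List.append_assoc]⟩, g2, g3, fun x hx hx0 => ?_⟩
      rcases List.mem_cons.1 hx with rfl | hx
      · refine ⟨x, ?_, plPrp_refl _⟩
        rw [g1]
        exact List.mem_append_left _ (List.mem_append_right _ (List.mem_singleton.2 rfl))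
      · exact g4 x hx hx0

/-- not proportional -/
private theorem pl_np {x y : Fin 3 → K} (i : Fin 3) (hx : x i = 0) (hy : y i ≠ 0) : ¬ Prp x y := by
  rintro ⟨c, _, rfl⟩
  apply hy
  rw [Pi.smul_apply, hx, smul_zero]

theorem pts_spec (h : SRep ρ E B u) {a b c : ℕ} (ha : a ∈ B) (hb : b ∈ B) (hc : c ∈ B)
    (hab : a ≠ b) (hac : a ≠ c) (hbc : b ≠ c) :
    (∃ L : List ℕ, pts ρ B E [a, b, c] = a :: b :: c :: L) ∧
    (∀ s ∈ pts ρ B E [a, b, c], s ∈ E ∧ v3 u a b c s ≠ 0) ∧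
    ((pts ρ B E [a, b, c]).Pairwise fun s t => ¬ Prp (v3 u a b c s) (v3 u a b c t)) ∧
    ∀ y ∈ E, v3 u a b c y ≠ 0 →
      ∃ s ∈ pts ρ B E [a, b, c], Prp (v3 u a b c s) (v3 u a b c y) := by
  have haE := h.BE a ha
  have hbE := h.BE b hb
  have hcE := h.BE c hc
  have a0 : v3 u a b c a ≠ 0 := fun h0 => h.dia a ha (congrFun h0 0)
  have b0 : v3 u a b c b ≠ 0 := fun h0 => h.dia b hb (congrFun h0 1)
  have c0 : v3 u a b c c ≠ 0 := fun h0 => h.dia c hc (congrFun h0 2)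
  have nab : ¬ Prp (v3 u a b c a) (v3 u a b c b) :=
    pl_np 1 (h.off a ha b hab.symm) (h.dia b hb)
  have nac : ¬ Prp (v3 u a b c a) (v3 u a b c c) :=
    pl_np 2 (h.off a ha c hac.symm) (h.dia c hc)
  have nbc : ¬ Prp (v3 u a b c b) (v3 u a b c c) :=
    pl_np 2 (h.off b hb c hbc.symm) (h.dia c hc)
  have hz : ∀ s ∈ ([] : List ℕ), s ∈ E ∧ v3 u a b c s ≠ 0 := fun s hs => absurd hs (by simp)
  have s1 : plStep ρ B [a, b, c] [] a = [a] := by
    rcases pl_step h ha hb hc hab hac hbc [] hz haE with ⟨_, e2⟩ | ⟨e1, _, _⟩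
    · obtain ⟨s, hs, _⟩ := e2 a0
      exact absurd hs (by simp)
    · exact e1
  have h1 : ∀ s ∈ [a], s ∈ E ∧ v3 u a b c s ≠ 0 := by
    intro s hs
    rw [List.mem_singleton.1 hs]
    exact ⟨haE, a0⟩
  have s2 : plStep ρ B [a, b, c] [a] b = [a, b] := by
    rcases pl_step h ha hb hc hab hac hbc [a] h1 hbE with ⟨_, e2⟩ | ⟨e1, _, _⟩
    · obtain ⟨s, hs, hp⟩ := e2 b0
      rw [List.mem_singleton.1 hs] at hp
      exact absurd hp nab
    · exact e1
  have h2 : ∀ s ∈ [a, b], s ∈ E ∧ v3 u a b c s ≠ 0 := by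
    intro s hs
    rcases List.mem_cons.1 hs with rfl | hs
    · exact ⟨haE, a0⟩
    · rw [List.mem_singleton.1 hs]
      exact ⟨hbE, b0⟩
  have s3 : plStep ρ B [a, b, c] [a, b] c = [a, b, c] := by
    rcases pl_step h ha hb hc hab hac hbc [a, b] h2 hcE with ⟨_, e2⟩ | ⟨e1, _, _⟩
    · obtain ⟨s, hs, hp⟩ := e2 c0
      rcases List.mem_cons.1 hs with rfl | hs
      · exact absurd hp nac
      · rw [List.mem_singleton.1 hs] at hp
        exact absurd hp nbc
    · exact e1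
  have h3 : ∀ s ∈ [a, b, c], s ∈ E ∧ v3 u a b c s ≠ 0 := by
    intro s hs
    rcases List.mem_cons.1 hs with rfl | hs
    · exact ⟨haE, a0⟩
    · rcases List.mem_cons.1 hs with rfl | hs
      · exact ⟨hbE, b0⟩
      · rw [List.mem_singleton.1 hs]
        exact ⟨hcE, c0⟩
  have h4 : [a, b, c].Pairwise fun s t => ¬ Prp (v3 u a b c s) (v3 u a b c t) := by
    rw [List.pairwise_cons, List.pairwise_cons]
    refine ⟨fun t ht => ?_, fun t ht => ?_, List.pairwise_singleton _ _⟩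
    · rcases List.mem_cons.1 ht with rfl | ht
      · exact nab
      · rw [List.mem_singleton.1 ht]
        exact nac
    · rw [List.mem_singleton.1 ht]
      exact nbc
  have e0 : pts ρ B E [a, b, c] = E.foldl (plStep ρ B [a, b, c]) [a, b, c] := by
    have e1 : pts ρ B E [a, b, c] = ([a, b, c] ++ E).foldl (plStep ρ B [a, b, c]) [] := rfl
    rw [e1, List.foldl_append]
    have e2 : [a, b, c].foldl (plStep ρ B [a, b, c]) [] = [a, b, c] := by
      show plStep ρ B [a, b, c] (plStep ρ B [a, b, c] (plStep ρ B [a, b, c] [] a) b) c = [a, b, c]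
      rw [s1, s2, s3]
    rw [e2]
  obtain ⟨⟨M, g1⟩, g2, g3, g4⟩ := pl_fold h ha hb hc hab hac hbc E (fun y hy => hy) [a, b, c] h3 h4
  rw [e0]
  exact ⟨⟨M, g1⟩, g2, g3, g4⟩

end Pool.Agent.AM
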