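import Pool.Agent.AM.Ent
import Pool.Agent.BW.Cod

set_option autoImplicit false

/-!
# Module RepO: the output matrix
-/

namespace Pool.Agent.AM

open Pool.Agent.G4 (nor dif word prd)
open Pool.Agent.BW (rkX grdy cod dcd RkS crk)

variable {K : Type} [Field K] {ρ : List ℕ → ℕ} {n : ℕ} {B : List ℕ} {u : ℕ → ℕ → K} [Fintype K]
  (e : Fin (Fintype.card K) ≃ K)

/-- the entries of the output matrix -/
private theorem ro_entry {F : ℕ → ℕ → ℕ} {x : ℕ → ℕ → K}
    (hF : ∀ y ∈ List.range n, ∀ i ∈ B, F i y = cod e (x y i))
    (l : Fin (B.map fun i => (List.range n).map fun y => F i y).length) (j : Fin n) :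
    ∃ i ∈ B, (∀ h : (l : ℕ) < B.length, i = B[(l : ℕ)]) ∧
      outM K e n (B.map fun i => (List.range n).map fun y => F i y) l j = x j i := by
  have hl : (l : ℕ) < B.length := by
    have h9 : (l : ℕ) < (B.map fun i => (List.range n).map fun y => F i y).length := l.2
    exact lt_of_lt_of_eq h9 (List.length_map _)
  have h0 : (j : ℕ) < n := j.2
  refine ⟨B[(l : ℕ)], List.getElem_mem hl, fun _ => rfl, ?_⟩
  have h1 : ((B.map fun i => (List.range n).map fun y => F i y).get l).getD (j : ℕ) 0 =
      cod e (x j (B[(l : ℕ)])) := by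
    rw [List.get_eq_getElem, List.getElem_map, List.getD_eq_getElem _ _ (by
      rw [List.length_map, List.length_range]; exact h0), List.getElem_map, List.getElem_range]
    exact hF _ (List.mem_range.2 h0) _ (List.getElem_mem hl)
  unfold outM
  have h2 : ((B.map fun i => (List.range n).map fun y => F i y).get l).getD (j : ℕ) 0 <
      Fintype.card K := by
    rw [h1]
    exact Pool.Agent.BW.cod_lt e _
  rw [dif_pos h2]
  have h3 : (⟨_, h2⟩ : Fin (Fintype.card K)) = e.symm (x j (B[(l : ℕ)])) := Fin.ext h1
  rw [h3, e.apply_symm_apply]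

theorem rep_out (h : SRep ρ (List.range n) B u) (hr : RichU (List.range n) B u) :
    (∀ r ∈ (B.map fun i => (List.range n).map fun y => ent (prmQ e) ρ B (List.range n) i y),
      r.length = n ∧ ∀ c ∈ r, c < Fintype.card K) ∧
    ∀ J : Finset (Fin n), (LinearIndependent K fun j : J => fun i => outM K e n
        (B.map fun i => (List.range n).map fun y => ent (prmQ e) ρ B (List.range n) i y) i j) ↔
      LinearIndependent K fun j : J => u (j : ℕ) := by
  obtain ⟨σ, d, κ, hd, hκ, hent⟩ := ent_spec e h hr
  constructor
  · intro r hrr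
    obtain ⟨i, hi, rfl⟩ := List.mem_map.1 hrr
    refine ⟨by rw [List.length_map, List.length_range], fun c hc => ?_⟩
    obtain ⟨y, hy, rfl⟩ := List.mem_map.1 hc
    rw [hent y hy i hi]
    exact Pool.Agent.BW.cod_lt e _
  · intro J
    rw [Fintype.linearIndependent_iff, Fintype.linearIndependent_iff]
    have hlen : (B.map fun i => (List.range n).map fun y =>
        ent (prmQ e) ρ B (List.range n) i y).length = B.length := List.length_map _
    constructor
    · intro hA g hg j
      have h1 := hA (fun j => σ (g j) * (κ ((j : Fin n) : ℕ))⁻¹) ?_ j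
      · have h2 : σ (g j) * (κ ((j : Fin n) : ℕ))⁻¹ = 0 := h1
        rcases mul_eq_zero.1 h2 with h3 | h3
        · exact (map_eq_zero_iff σ σ.injective).1 h3
        · exact absurd h3 (inv_ne_zero (hκ _))
      · funext l
        rw [Finset.sum_apply]
        obtain ⟨i, hi, hib, -⟩ : ∃ i ∈ B, (∀ h : (l : ℕ) < B.length, i = B[(l : ℕ)]) ∧ True := by
          have hl : (l : ℕ) < B.length := by rw [← hlen]; exact l.2
          exact ⟨B[(l : ℕ)], List.getElem_mem hl, fun _ => rfl, trivial⟩
        have h2 : ∀ j : J, ((fun j => σ (g j) * (κ ((j : Fin n) : ℕ))⁻¹) j • fun i => outM K e n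
            (B.map fun i => (List.range n).map fun y => ent (prmQ e) ρ B (List.range n) i y) i
            (j : Fin n)) l = d i * σ (g j * u ((j : Fin n) : ℕ) i) := by
          intro j
          obtain ⟨i', hi', hib', h3⟩ := ro_entry e (F := fun i y => ent (prmQ e) ρ B (List.range n) i y)
            (x := fun y i => κ y * (d i * σ (u y i))) hent l (j : Fin n)
          have hl : (l : ℕ) < B.length := by rw [← hlen]; exact l.2
          have h4 : i' = i := by rw [hib' hl, hib hl]
          rw [h4] at h3
          rw [Pi.smul_apply, h3, smul_eq_mul, map_mul]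
          have h5 := hκ ((j : Fin n) : ℕ)
          field_simp
        rw [Finset.sum_congr rfl fun j _ => h2 j, ← Finset.mul_sum, ← map_sum]
        have h3 := congrFun hg i
        rw [Finset.sum_apply] at h3
        have h4 : ∑ j : J, g j * u ((j : Fin n) : ℕ) i = 0 := h3
        rw [h4, map_zero, mul_zero]
        rfl
    · intro hA g hg j
      have h1 := hA (fun j => σ.symm (g j * κ ((j : Fin n) : ℕ))) ?_ j
      · have h2 : σ.symm (g j * κ ((j : Fin n) : ℕ)) = 0 := h1
        have h3 : g j * κ ((j : Fin n) : ℕ) = 0 := (map_eq_zero_iff σ.symm σ.symm.injective).1 h2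
        exact (mul_eq_zero.1 h3).resolve_right (hκ _)
      · funext i
        rw [Finset.sum_apply]
        by_cases hi : i ∈ B
        · obtain ⟨l, hl, hli⟩ := List.getElem_of_mem hi
          have h2 := congrFun hg ⟨l, by rw [hlen]; exact hl⟩
          rw [Finset.sum_apply] at h2
          have h3 : ∀ j : J, (g j • fun i => outM K e n
              (B.map fun i => (List.range n).map fun y => ent (prmQ e) ρ B (List.range n) i y) i
              (j : Fin n)) ⟨l, by rw [hlen]; exact hl⟩ =
              d i * σ (σ.symm (g j * κ ((j : Fin n) : ℕ)) * u ((j : Fin n) : ℕ) i) := by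
            intro j
            obtain ⟨i', hi', hib', h4⟩ := ro_entry e (F := fun i y => ent (prmQ e) ρ B (List.range n) i y)
              (x := fun y i => κ y * (d i * σ (u y i))) hent ⟨l, by rw [hlen]; exact hl⟩ (j : Fin n)
            have h5 : i' = i := by rw [hib' hl]; exact hli
            rw [h5] at h4
            rw [Pi.smul_apply, h4, smul_eq_mul, map_mul, RingEquiv.apply_symm_apply]
            ring
          rw [Finset.sum_congr rfl fun j _ => h3 j, ← Finset.mul_sum, ← map_sum] at h2
          have h4 : d i * σ (∑ j : J, σ.symm (g j * κ ((j : Fin n) : ℕ)) * u ((j : Fin n) : ℕ) i) = 0 := h2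
          exact (map_eq_zero_iff σ σ.injective).1 ((mul_eq_zero.1 h4).resolve_left (hd i))
        · apply Finset.sum_eq_zero
          intro j _
          rw [Pi.smul_apply, h.sup _ i hi, smul_zero]

end Pool.Agent.AM
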