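import Pool.Agent.AM.FstB

set_option autoImplicit false

/-!
# Module SrP: the coordinates given by an echelon matrix; oracles exist
-/

namespace Pool.Agent.AM

open Pool.Agent.G4 (nor dif word prd)
open Pool.Agent.BW (rkX grdy cod dcd RkS crk)

variable {K : Type} [Field K] {n : ℕ}


open Pool.Agent.Helper22

theorem exists_oracle (M : Matroid (Fin n)) : ∃ X : Oracle, IsOracle X M := by
  classical
  refine ⟨fun w => decide (M.Indep {i : Fin n | w.getD i false = true}), fun J => ?_⟩
  rw [decide_eq_true_iff]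
  have h : {i : Fin n | (List.ofFn fun i => decide (i ∈ J)).getD i false = true} =
      (J : Set (Fin n)) := by
    ext i
    have hi : (i : ℕ) < (List.ofFn fun i : Fin n => decide (i ∈ J)).length := by
      rw [List.length_ofFn]
      exact i.2
    rw [Set.mem_setOf_eq, List.getD_eq_getElem _ _ hi, List.getElem_ofFn, decide_eq_true_iff,
      Finset.mem_coe]
  rw [h]

theorem mem_grdy_ech (p : Ech K n) {X : Oracle} (hX : IsOracle X (linM p.mat)) (x : Fin n) :
    (x : ℕ) ∈ grdy (fun T => rkX X (List.range n) T) (List.range n) [] ↔ x ∈ p.B := by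
  rw [grdy_first (linM_E _) (linM_rep _) hX x, first_ech, Finset.mem_coe]

/-- extension by zero -/
private def ext0 (K : Type) [Field K] (n : ℕ) : (Fin n → K) →ₗ[K] (ℕ → K) where
  toFun f k := if h : k < n then f ⟨k, h⟩ else 0
  map_add' f g := by
    funext k
    by_cases h : k < n
    · simp [h]
    · simp [h]
  map_smul' c f := by
    funext k
    by_cases h : k < n
    · simp [h]
    · simp [h]

private theorem ext0_inj : Function.Injective (ext0 K n) := by
  intro f g h
  funext k
  have h1 := congrFun h (k : ℕ)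
  simpa [ext0] using h1

private theorem ext0_col (p : Ech K n) (j : Fin n) :
    ext0 K n (fun i => p.mat i j) = p.fn j := by
  funext k
  show (if h : k < n then p.col j ⟨k, h⟩ else 0) = _
  unfold Ech.fn
  by_cases h : k < n
  · rw [dif_pos h, dif_pos ⟨j.2, h⟩]
  · rw [dif_neg h, dif_neg fun h1 => h h1.2]

theorem srep_ech (p : Ech K n) {X : Oracle} (hX : IsOracle X (linM p.mat)) :
    SRep (fun T => rkX X (List.range n) T) (List.range n)
      (grdy (fun T => rkX X (List.range n) T) (List.range n) []) p.fn := by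
  have hmem := fun x : Fin n => mem_grdy_ech p hX x
  have hsub := grdy_sorted n (fun T => rkX X (List.range n) T)
  obtain ⟨B, hB⟩ : ∃ B : List ℕ, B = grdy (fun T => rkX X (List.range n) T) (List.range n) [] :=
    ⟨_, rfl⟩
  rw [← hB] at hsub ⊢
  simp only [← hB] at hmem
  have hlt : ∀ b ∈ B, b < n := fun b hb => List.mem_range.1 (hsub.subset hb)
  refine ⟨List.Nodup.sublist hsub List.nodup_range, fun b hb => hsub.subset hb, ?_, ?_, ?_, ?_⟩
  · intro y i hi
    unfold Ech.fn
    split
    · rename_i h
      have hi' : (⟨i, h.2⟩ : Fin n) ∉ p.B := fun h1 => hi ((hmem ⟨i, h.2⟩).2 h1)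
      unfold Ech.col
      split
      · rename_i hy
        rw [if_neg]
        intro h1
        exact hi' (h1 ▸ hy)
      · by_contra hne
        exact hi' (p.ech _ _ hne).1
    · rfl
  · intro b hb i hib
    have hb' : (⟨b, hlt b hb⟩ : Fin n) ∈ p.B := (hmem ⟨b, hlt b hb⟩).1 hb
    unfold Ech.fn
    split
    · unfold Ech.col
      rw [if_pos hb', if_neg]
      intro h1
      exact hib (congrArg Fin.val h1)
    · rfl
  · intro b hb
    have hb' : (⟨b, hlt b hb⟩ : Fin n) ∈ p.B := (hmem ⟨b, hlt b hb⟩).1 hb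
    unfold Ech.fn
    rw [dif_pos ⟨hlt b hb, hlt b hb⟩]
    unfold Ech.col
    rw [if_pos hb', if_pos rfl]
    exact one_ne_zero
  · intro T hT
    have h1 := Pool.Agent.BW.rkX_spec p.mat (fun J => (hX J).trans (linM_rep p.mat J)) T hT
    have h2 : crk p.mat T.toFinset = (rkU p.fn T : ℤ) := by
      unfold crk rkU
      norm_cast
      have h3 : {x : ℕ → K | ∃ t ∈ T, p.fn t = x} = ext0 K n '' {w : Fin n → K |
          ∃ j : Fin n, (j : ℕ) ∈ T.toFinset ∧ (fun i => p.mat i j) = w} := by
        ext x
        constructor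
        · rintro ⟨t, ht, rfl⟩
          have htn : t < n := List.mem_range.1 (hT t ht)
          exact ⟨fun i => p.mat i ⟨t, htn⟩, ⟨⟨t, htn⟩, List.mem_toFinset.2 ht, rfl⟩,
            ext0_col p ⟨t, htn⟩⟩
        · rintro ⟨w, ⟨j, hj, rfl⟩, rfl⟩
          exact ⟨j, List.mem_toFinset.1 hj, (ext0_col p j).symm⟩
      rw [h3, ← Submodule.map_span]
      exact (Submodule.equivMapOfInjective (ext0 K n) ext0_inj _).finrank_eq
    rw [h2] at h1
    exact_mod_cast h1

end Pool.Agent.AM
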