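import Pool.Agent.AM.Defs
import Pool.Agent.BW.UE

set_option autoImplicit false

/-!
# Module U1: ranks and representatives are computed in polynomial time with the oracle
-/

namespace Pool.Agent.AM

open Turing Function N487b59b3 N68a2faeb Pool.Agent.Helper22 Pool.Agent.Helper49.Cons
open Pool.Agent.Helper6.WB
open Pool.Agent.G4 (nor dif word prd UP)
open Pool.Agent.BW (rkX grdy cod dcd up_rkX)

private theorem u1_fst {β γ : Type} [N487b59b3 β] [N487b59b3 γ] {f : Oracle → β → List ℕ}
    (hf : UP f) : UP fun X (p : β × γ) => f X p.1 := hf.pre (f := fun p : β × γ => p.1) (by fun_prop)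

private theorem u1_app {β : Type} [N487b59b3 β] {f g : Oracle → β → List ℕ} (hf : UP f)
    (hg : UP g) : UP fun X x => f X x ++ g X x :=
  UP.fp2 (h := fun u v : List ℕ => u ++ v) (by fun_prop) hf hg

private theorem u1_dif {β : Type} [N487b59b3 β] {f g : Oracle → β → List ℕ} (hf : UP f)
    (hg : UP g) : UP fun X x => dif (f X x) (g X x) :=
  UP.fp2 (h := fun u v : List ℕ => dif u v) (by fun_prop) hf hg

section

variable {α : Type} [N487b59b3 α] {E B T Y C : Oracle → α → List ℕ}

theorem up_grdyX (hE : UP E) (hY : UP Y) (hC : UP C) :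
    UP fun X x => grdy (fun S => rkX X (E X x) S) (Y X x) (C X x) := by
  obtain ⟨B, hB, -, hBle⟩ := hY.bound
  have hE' : UP fun X (p : α × (List ℕ × ℕ)) => E X p.1 := u1_fst hE
  have hA : UP fun X (p : α × (List ℕ × ℕ)) => C X p.1 ++ p.2.1 :=
    u1_app (u1_fst hC) (UP.of_FP (by fun_prop))
  have hA' : UP fun X (p : α × (List ℕ × ℕ)) => p.2.2 :: (C X p.1 ++ p.2.1) :=
    UP.fp2 (h := fun (a : ℕ) (u : List ℕ) => a :: u) (by fun_prop) (UP.of_FP (by fun_prop)) hA
  have hc : UP fun X (p : α × (List ℕ × ℕ)) => decide (rkX X (E X p.1) (C X p.1 ++ p.2.1) <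
      rkX X (E X p.1) (p.2.2 :: (C X p.1 ++ p.2.1))) :=
    UP.fp2 (h := fun a b : ℕ => decide (a < b)) (by fun_prop) (up_rkX hE' hA) (up_rkX hE' hA')
  have hg : UP fun X (p : α × (List ℕ × ℕ)) =>
      if decide (rkX X (E X p.1) (C X p.1 ++ p.2.1) <
        rkX X (E X p.1) (p.2.2 :: (C X p.1 ++ p.2.1))) then p.2.1 ++ [p.2.2] else p.2.1 :=
    UP.ite hc (UP.of_FP (by fun_prop)) (UP.of_FP (by fun_prop))
  have h := UP.foldA (g := fun X (x : α) (T : List ℕ) (y : ℕ) =>
      if decide (rkX X (E X x) (C X x ++ T) < rkX X (E X x) (y :: (C X x ++ T))) then T ++ [y]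
      else T) (l := Y) (x := fun _ _ => []) hg (B := fun n => B n * (2 * B n + 1)) (by fun_prop)
    hY (UP.const []) (by
      intro X a i hi
      have h2 := Pool.Agent.G4.foldl_take_ind (P := fun i s => sz s ≤ i * (2 * sz (Y X a) + 1))
        (g := fun (T : List ℕ) (y : ℕ) =>
          if decide (rkX X (E X a) (C X a ++ T) < rkX X (E X a) (y :: (C X a ++ T))) then T ++ [y]
          else T) (l := Y X a) (x := []) (by simp) (by
          intro i s e he hs
          have h3 := sz_mem_le he
          have h5 : (i + 1) * (2 * sz (Y X a) + 1) =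
            i * (2 * sz (Y X a) + 1) + (2 * sz (Y X a) + 1) := by ring
          split
          · rw [sz_append, sz_cons, sz_nil]
            omega
          · omega) i hi
      have h6 := hBle X a
      have h7 : i ≤ B (sz a) := (hi.trans (length_le_sz _)).trans h6
      refine h2.trans (Nat.mul_le_mul h7 ?_)
      omega)
  unfold grdy
  refine h.congr fun X x => ?_
  simp only [decide_eq_true_eq]

theorem up_cr (hE : UP E) (hB : UP B) (hT : UP T) (hY : UP Y) :
    UP fun X x => cr (fun S => rkX X (E X x) S) (B X x) (T X x) (Y X x) :=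
  UP.fp2 (h := fun a b : ℕ => a - b) (by fun_prop) (up_rkX hE (u1_app (u1_dif hB hT) hY))
    (up_rkX hE (u1_dif hB hT))

theorem up_pts (hE : UP E) (hB : UP B) (hT : UP T) :
    UP fun X x => pts (fun S => rkX X (E X x) S) (B X x) (E X x) (T X x) := by
  have hL : UP fun X x => T X x ++ E X x := u1_app hT hE
  obtain ⟨D, hD, -, hDle⟩ := hL.bound
  have h1 : UP fun X (s : α × (List ℕ × ℕ)) =>
      decide (cr (fun S => rkX X (E X s.1) S) (B X s.1) (T X s.1) [s.2.2] = 0) :=
    (up_cr (u1_fst hE) (u1_fst hB) (u1_fst hT)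
      (UP.of_FP (f := fun s : α × (List ℕ × ℕ) => [s.2.2]) (by fun_prop))).fp
      (g := fun n : ℕ => decide (n = 0)) (by fun_prop)
  have h2 : UP fun X (s : α × (List ℕ × ℕ)) =>
      s.2.1.any fun t => decide (cr (fun S => rkX X (E X s.1) S) (B X s.1) (T X s.1)
        [t, s.2.2] ≤ 1) := by
    refine UP.anyA (h := fun X (s : α × (List ℕ × ℕ)) (t : ℕ) =>
      decide (cr (fun S => rkX X (E X s.1) S) (B X s.1) (T X s.1) [t, s.2.2] ≤ 1)) ?_
      (UP.of_FP (by fun_prop))
    exact UP.fp2 (h := fun a b : ℕ => decide (a ≤ b))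
      (Pool.Agent.Helper47.TR.FP.natLe FP.fst FP.snd)
      (up_cr (E := fun X (p : (α × (List ℕ × ℕ)) × ℕ) => E X p.1.1)
        (B := fun X p => B X p.1.1) (T := fun X p => T X p.1.1) (Y := fun _ p => [p.2, p.1.2.2])
        (hE.pre (f := fun p : (α × (List ℕ × ℕ)) × ℕ => p.1.1) (by fun_prop))
        (hB.pre (f := fun p : (α × (List ℕ × ℕ)) × ℕ => p.1.1) (by fun_prop))
        (hT.pre (f := fun p : (α × (List ℕ × ℕ)) × ℕ => p.1.1) (by fun_prop))
        (UP.of_FP (by fun_prop))) (UP.const 1)
  have h3 : UP fun X (s : α × (List ℕ × ℕ)) =>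
      if decide (cr (fun S => rkX X (E X s.1) S) (B X s.1) (T X s.1) [s.2.2] = 0) ||
        s.2.1.any (fun t => decide (cr (fun S => rkX X (E X s.1) S) (B X s.1) (T X s.1)
          [t, s.2.2] ≤ 1)) then s.2.1 else s.2.1 ++ [s.2.2] :=
    UP.ite (h1.or h2) (UP.of_FP (f := fun s : α × (List ℕ × ℕ) => s.2.1) (by fun_prop))
      (UP.of_FP (f := fun s : α × (List ℕ × ℕ) => s.2.1 ++ [s.2.2]) (by fun_prop))
  refine UP.foldA (g := fun X (x : α) (L : List ℕ) (y : ℕ) =>
    if decide (cr (fun S => rkX X (E X x) S) (B X x) (T X x) [y] = 0) ||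
        L.any (fun t => decide (cr (fun S => rkX X (E X x) S) (B X x) (T X x)
          [t, y] ≤ 1)) then L else L ++ [y]) h3 hD hL (UP.const [])
    fun X a i hi => ?_
  have key : ∀ (P : List ℕ → ℕ → Bool) (l R : List ℕ),
      (l.foldl (fun R F => if P R F then R else R ++ [F]) R).Sublist (R ++ l) := by
    intro P l
    induction l with
    | nil => intro R; rw [List.append_nil]; exact List.Sublist.refl _
    | cons b l ih =>
      intro R
      rw [List.foldl_cons]
      refine (ih _).trans ?_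
      split
      · exact List.Sublist.append_left (List.sublist_cons_self _ _) _
      · rw [List.append_assoc]
        exact List.Sublist.refl _
  have h4 := key (fun L y => decide (cr (fun S => rkX X (E X a) S) (B X a) (T X a) [y] = 0) ||
    L.any (fun t => decide (cr (fun S => rkX X (E X a) S) (B X a) (T X a) [t, y] ≤ 1)))
    ((T X a ++ E X a).take i) []
  rw [List.nil_append] at h4
  exact (Pool.Agent.G4.sz_sublist (h4.trans (List.take_sublist _ _))).trans (hDle X a)

end

end Pool.Agent.AM
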