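import Pool.Agent.AM.U1

set_option autoImplicit false

/-!
# Module U2: values of charts and the tests
-/

namespace Pool.Agent.AM

open Turing Function N487b59b3 N68a2faeb Pool.Agent.Helper22 Pool.Agent.Helper49.Cons
open Pool.Agent.Helper6.WB
open Pool.Agent.G4 (nor dif word prd UP)
open Pool.Agent.BW (rkX grdy cod dcd)

theorem up_iteP' {α β : Type} [N487b59b3 α] [N487b59b3 β] {c : Oracle → α → Prop}
    {d : ∀ X x, Decidable (c X x)} {f g : Oracle → α → β}
    (h : UP fun X x => @decide (c X x) (d X x)) (hf : UP f) (hg : UP g) :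
    UP fun X x => @ite β (c X x) (d X x) (f X x) (g X x) :=
  (UP.ite h hf hg).congr fun X x => by by_cases hx : c X x <;> simp [hx]

section

variable {α : Type} [N487b59b3 α] {E B T T₁ Y : Oracle → α → List ℕ}
  {Z Z₁ : Oracle → α → List (ℕ × Tri)} {y : Oracle → α → ℕ}

/-- comparison of a rank with zero -/
theorem up_cr0 (hE : UP E) (hB : UP B) (hT : UP T) (hY : UP Y) :
    UP fun X x => decide (cr (fun S => rkX X (E X x) S) (B X x) (T X x) (Y X x) = 0) :=
  (up_cr hE hB hT hY).fp (g := fun n : ℕ => decide (n = 0)) (by fun_prop)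

/-- comparison of a rank with one -/
theorem up_cr1 (hE : UP E) (hB : UP B) (hT : UP T) (hY : UP Y) :
    UP fun X x => decide (cr (fun S => rkX X (E X x) S) (B X x) (T X x) (Y X x) ≤ 1) :=
  UP.fp2 (h := fun a b : ℕ => decide (a ≤ b))
    (Pool.Agent.Helper47.TR.FP.natLe FP.fst FP.snd) (up_cr hE hB hT hY) (UP.const 1)

theorem up_chv (P : Prm) (hE : UP E) (hB : UP B) (hT : UP T) (hZ : UP Z) (hy : UP y) :
    UP fun X x => chv P (fun S => rkX X (E X x) S) (B X x) (T X x) (Z X x) (y X x) := by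
  have h1 : UP fun X x => decide (cr (fun S => rkX X (E X x) S) (B X x) (T X x) [y X x] = 0) :=
    up_cr0 hE hB hT (hy.fp (g := fun n : ℕ => [n]) (by fun_prop))
  have h2 : UP fun X x => (Z X x).filter fun p =>
      decide (cr (fun S => rkX X (E X x) S) (B X x) (T X x) [p.1, y X x] ≤ 1) := by
    refine UP.filterA (h := fun X x (p : ℕ × Tri) =>
      decide (cr (fun S => rkX X (E X x) S) (B X x) (T X x) [p.1, y X x] ≤ 1)) ?_ hZ
    refine up_cr1 (E := fun X (q : α × (ℕ × Tri)) => E X q.1) (B := fun X q => B X q.1)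
      (T := fun X q => T X q.1) (Y := fun X q => [q.2.1, y X q.1])
      (hE.pre (by fun_prop)) (hB.pre (by fun_prop)) (hT.pre (by fun_prop)) ?_
    exact UP.fp2 (h := fun a b : ℕ => [a, b]) (by fun_prop)
      (UP.of_FP (f := fun q : α × (ℕ × Tri) => q.2.1) (by fun_prop))
      (hy.pre (f := fun q : α × (ℕ × Tri) => q.1) (by fun_prop))
  have h3 := h2.fp (g := fun l : List (ℕ × Tri) => (l.headD (0, (P.zer, (P.zer, P.zer)))).2)
    (by fun_prop)
  unfold chv
  exact up_iteP' h1 (UP.const _) h3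

theorem up_conB (P : Prm) (hE : UP E) (hB : UP B) (hT : UP T) (hZ : UP Z) :
    UP fun X x => conB P (fun S => rkX X (E X x) S) (B X x) (T X x) (Z X x) := by
  have hp : UP fun X x => prd (Z X x) (prd (Z X x) (Z X x)) :=
    hZ.fp (g := fun l : List (ℕ × Tri) => prd l (prd l l)) (by fun_prop)
  have h1 : UP fun X (q : α × ((ℕ × Tri) × ((ℕ × Tri) × (ℕ × Tri)))) =>
      decide (cr (fun S => rkX X (E X q.1) S) (B X q.1) (T X q.1)
        [q.2.1.1, q.2.2.1.1, q.2.2.2.1] < 3) :=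
    UP.fp2 (h := fun a b : ℕ => decide (a < b)) (by fun_prop)
      (up_cr (E := fun X (q : α × ((ℕ × Tri) × ((ℕ × Tri) × (ℕ × Tri)))) => E X q.1)
        (B := fun X q => B X q.1)
        (T := fun X q => T X q.1) (Y := fun _ q => [q.2.1.1, q.2.2.1.1, q.2.2.2.1])
        (hE.pre (by fun_prop)) (hB.pre (by fun_prop)) (hT.pre (by fun_prop))
        (UP.of_FP (by fun_prop))) (UP.const 3)
  have h2 : FP fun q : α × ((ℕ × Tri) × ((ℕ × Tri) × (ℕ × Tri))) =>
      decide ((q.2.1.2, (q.2.2.1.2, q.2.2.2.2)) ∈ P.sg) := by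
    have h3 : FP fun _ : α × ((ℕ × Tri) × ((ℕ × Tri) × (ℕ × Tri))) => P.sg := FP.const _
    fun_prop
  have h3 := UP.all_ctx (P := fun X (x : α) (t : (ℕ × Tri) × ((ℕ × Tri) × (ℕ × Tri))) =>
      decide (cr (fun S => rkX X (E X x) S) (B X x) (T X x) [t.1.1, t.2.1.1, t.2.2.1] < 3) ==
        decide ((t.1.2, (t.2.1.2, t.2.2.2)) ∈ P.sg))
    (UP.fp2 (h := fun a b : Bool => a == b) (by fun_prop) h1 (UP.of_FP h2))
    (c := fun _ x => x) (l := fun X x => prd (Z X x) (prd (Z X x) (Z X x))) UP.id hp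
  exact h3

theorem up_ancB (P : Prm) (hE : UP E) (hB : UP B) (hT : UP T₁) (hZ₁ : UP Z₁) (hZ : UP Z) :
    UP fun X x => ancB P (fun S => rkX X (E X x) S) (B X x) (T₁ X x) (Z₁ X x) (Z X x) := by
  have h1 : UP fun X (q : α × (ℕ × Tri)) => chv P (fun S => rkX X (E X q.1) S) (B X q.1)
      (T₁ X q.1) (Z₁ X q.1) q.2.1 :=
    up_chv P (E := fun X (q : α × (ℕ × Tri)) => E X q.1) (B := fun X q => B X q.1)
      (T := fun X q => T₁ X q.1) (Z := fun X q => Z₁ X q.1) (y := fun _ q => q.2.1)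
      (hE.pre (by fun_prop)) (hB.pre (by fun_prop)) (hT.pre (by fun_prop))
      (hZ₁.pre (by fun_prop)) (UP.of_FP (by fun_prop))
  have h2 : FP fun w : (ℕ × Tri) × Tri => decide (w.1.2.1 = w.2.1) &&
      decide (w.1.2.2.1 = w.2.2.1) := by fun_prop
  have h3 := UP.all_ctx (P := fun X (x : α) (p : ℕ × Tri) =>
      decide (p.2.1 = (chv P (fun S => rkX X (E X x) S) (B X x) (T₁ X x) (Z₁ X x) p.1).1) &&
        decide (p.2.2.1 = (chv P (fun S => rkX X (E X x) S) (B X x) (T₁ X x) (Z₁ X x) p.1).2.1))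
    (((UP.snd (α := α) (β := ℕ × Tri)).pair h1).fp h2)
    (c := fun _ x => x) (l := Z) UP.id hZ
  exact h3

end

end Pool.Agent.AM
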