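import Pool.Agent.AM.U2

set_option autoImplicit false

/-!
# Module U3: the charts are computed in polynomial time
-/

namespace Pool.Agent.AM

open Turing Function N487b59b3 N68a2faeb Pool.Agent.Helper22 Pool.Agent.Helper49.Cons
open Pool.Agent.Helper6.WB
open Pool.Agent.G4 (nor dif word prd UP)
open Pool.Agent.BW (rkX grdy cod dcd)

section

variable {α : Type} [N487b59b3 α] {E B T T₁ : Oracle → α → List ℕ} {i y : Oracle → α → ℕ}

theorem up_zips (P : Prm) (hE : UP E) (hB : UP B) (hT : UP T) :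
    UP fun X x => zips P (fun S => rkX X (E X x) S) (B X x) (E X x) (T X x) := by
  have h1 : UP fun X (s : α × List Tri) => (pts (fun S => rkX X (E X s.1) S) (B X s.1) (E X s.1)
      (T X s.1)).zip s.2 :=
    UP.fp2 (h := fun (l : List ℕ) (φ : List Tri) => l.zip φ) (by fun_prop)
      ((up_pts hE hB hT).comp UP.fst) UP.snd
  exact UP.mapA (h := fun X (x : α) (φ : List Tri) => (pts (fun S => rkX X (E X x) S) (B X x) (E X x)
    (T X x)).zip φ) h1 (UP.const P.maps)

theorem up_cht1 (P : Prm) (hE : UP E) (hB : UP B) (hT : UP T₁) :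
    UP fun X x => cht1 P (fun S => rkX X (E X x) S) (B X x) (E X x) (T₁ X x) := by
  have h1 := up_zips P hE hB hT
  have h2 : UP fun X (s : α × List (ℕ × Tri)) => conB P (fun S => rkX X (E X s.1) S) (B X s.1)
      (T₁ X s.1) s.2 :=
    up_conB P (hE.comp UP.fst) (hB.comp UP.fst) (hT.comp UP.fst) UP.snd
  have h3 := UP.filterA (h := fun X (x : α) (Z : List (ℕ × Tri)) =>
    conB P (fun S => rkX X (E X x) S) (B X x) (T₁ X x) Z) h2 h1
  exact h3.fp (g := fun l : List (List (ℕ × Tri)) => l.headD []) (by fun_prop)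

theorem up_cht2 (P : Prm) (hE : UP E) (hB : UP B) (hT₁ : UP T₁) (hT : UP T) :
    UP fun X x => cht2 P (fun S => rkX X (E X x) S) (B X x) (E X x) (T₁ X x) (T X x) := by
  have h1 := up_zips P hE hB hT
  have h2 : UP fun X (s : α × List (ℕ × Tri)) => conB P (fun S => rkX X (E X s.1) S) (B X s.1)
      (T X s.1) s.2 :=
    up_conB P (hE.comp UP.fst) (hB.comp UP.fst) (hT.comp UP.fst) UP.snd
  have h3 : UP fun X (s : α × List (ℕ × Tri)) => ancB P (fun S => rkX X (E X s.1) S) (B X s.1)
      (T₁ X s.1) (cht1 P (fun S => rkX X (E X s.1) S) (B X s.1) (E X s.1) (T₁ X s.1)) s.2 :=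
    up_ancB P (hE.comp UP.fst) (hB.comp UP.fst) (hT₁.comp UP.fst)
      ((up_cht1 P hE hB hT₁).comp UP.fst) UP.snd
  have h4 := UP.filterA (h := fun X (x : α) (Z : List (ℕ × Tri)) =>
    conB P (fun S => rkX X (E X x) S) (B X x) (T X x) Z &&
      ancB P (fun S => rkX X (E X x) S) (B X x) (T₁ X x)
        (cht1 P (fun S => rkX X (E X x) S) (B X x) (E X x) (T₁ X x)) Z) (UP.and h2 h3) h1
  exact h4.fp (g := fun l : List (List (ℕ × Tri)) => l.headD []) (by fun_prop)

theorem up_tv (P : Prm) (hE : UP E) (hB : UP B) (hi : UP i) (hy : UP y) :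
    UP fun X x => tv P (fun S => rkX X (E X x) S) (B X x) (E X x) (i X x) (y X x) := by
  have h0 : UP fun X x => trip (B X x) :=
    hB.fp (g := fun l : List ℕ => trip l) (by unfold trip; fun_prop)
  have h1 : UP fun X x => [(B X x).headD 0, (B X x).tail.headD 0, i X x] :=
    UP.fp2 (h := fun (l : List ℕ) (k : ℕ) => [l.headD 0, l.tail.headD 0, k]) (by fun_prop) hB hi
  have h2 := (up_chv P hE hB h0 (up_cht1 P hE hB h0) hy).snd'.fst'
  have h3 := (up_chv P hE hB h1 (up_cht2 P hE hB h0 h1) hy).snd'.snd'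
  have h4 : UP fun X x => decide (i X x = (B X x).tail.headD 0) :=
    UP.fp2 (h := fun (l : List ℕ) (k : ℕ) => decide (k = l.tail.headD 0)) (by fun_prop) hB hi
  refine (UP.ite h4 h2 h3).congr fun X x => ?_
  unfold tv
  by_cases h : i X x = (B X x).tail.headD 0
  · rw [if_pos h, if_pos (by simpa using h)]
  · rw [if_neg h, if_neg (by simpa using h)]

end

end Pool.Agent.AM
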