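import Pool.Agent.AM.U3

set_option autoImplicit false

/-!
# Module U4: the entries, the flag and the algorithm

`hdv`: the division table is computable in polynomial time.
-/

namespace Pool.Agent.AM

open Turing Function N487b59b3 N68a2faeb Pool.Agent.Helper22 Pool.Agent.Helper49.Cons
open Pool.Agent.Helper6.WB
open Pool.Agent.G4 (nor dif word prd UP)
open Pool.Agent.BW (rkX grdy cod dcd)

private theorem u4_sing {β : Type} [N487b59b3 β] {f : Oracle → β → ℕ} (hf : UP f) :
    UP fun X x => [f X x] := hf.fp (g := fun n : ℕ => [n]) (by fun_prop)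

private theorem u4_two {β : Type} [N487b59b3 β] {f g : Oracle → β → ℕ} (hf : UP f) (hg : UP g) :
    UP fun X x => [f X x, g X x] :=
  UP.fp2 (h := fun a b : ℕ => [a, b]) (by fun_prop) hf hg

private theorem u4_isz {β : Type} [N487b59b3 β] {f : Oracle → β → ℕ} (hf : UP f) :
    UP fun X x => decide (f X x = 0) :=
  hf.fp (g := fun n : ℕ => decide (n = 0)) (by fun_prop)

private theorem u4_eq {β : Type} [N487b59b3 β] {f g : Oracle → β → ℕ} (hf : UP f) (hg : UP g) :
    UP fun X x => decide (f X x = g X x) :=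
  UP.fp2 (h := fun a b : ℕ => decide (a = b)) (by fun_prop) hf hg

private theorem u4_hd {β : Type} [N487b59b3 β] {f : Oracle → β → List ℕ} (hf : UP f) :
    UP fun X x => (f X x).headD 0 :=
  hf.fp (g := fun l : List ℕ => l.headD 0) (by fun_prop)

section

variable {α : Type} [N487b59b3 α] {E B : Oracle → α → List ℕ} {i k y : Oracle → α → ℕ}

theorem up_piv (hE : UP E) (hB : UP B) (hy : UP y) :
    UP fun X x => piv (fun S => rkX X (E X x) S) (B X x) (y X x) := by
  have h1 : UP fun X (p : α × ℕ) =>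
      !decide (cr (fun S => rkX X (E X p.1) S) (B X p.1) [p.2] [y X p.1] = 0) :=
    (u4_isz (up_cr (hE.comp UP.fst) (hB.comp UP.fst) (u4_sing UP.snd)
      (u4_sing (hy.comp UP.fst)))).not
  exact u4_hd (UP.filterA (h := fun X (x : α) (k : ℕ) =>
    !decide (cr (fun S => rkX X (E X x) S) (B X x) [k] [y X x] = 0)) h1 hB)

theorem up_prox (hE : UP E) (hB : UP B) (hi : UP i) (hk : UP k) (hy : UP y) :
    UP fun X x => prox (fun S => rkX X (E X x) S) (B X x) (E X x) (i X x) (k X x) (y X x) := by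
  have h1 : UP fun X (p : α × ℕ) =>
      !decide (cr (fun S => rkX X (E X p.1) S) (B X p.1) [(B X p.1).headD 0] [p.2] = 0) :=
    (u4_isz (up_cr (hE.comp UP.fst) (hB.comp UP.fst) (u4_sing (u4_hd (hB.comp UP.fst)))
      (u4_sing UP.snd))).not
  have h2 : UP fun X (p : α × ℕ) =>
      !decide (cr (fun S => rkX X (E X p.1) S) (B X p.1) [i X p.1, k X p.1] [p.2] = 0) :=
    (u4_isz (up_cr (hE.comp UP.fst) (hB.comp UP.fst)
      (u4_two (hi.comp UP.fst) (hk.comp UP.fst)) (u4_sing UP.snd))).not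
  have h3 : UP fun X (p : α × ℕ) =>
      decide (cr (fun S => rkX X (E X p.1) S) (B X p.1) [i X p.1, k X p.1] [p.2, y X p.1] ≤ 1) :=
    UP.fp2 (h := fun a b : ℕ => decide (a ≤ b))
      (Pool.Agent.Helper47.TR.FP.natLe FP.fst FP.snd)
      (up_cr (hE.comp UP.fst) (hB.comp UP.fst)
        (u4_two (hi.comp UP.fst) (hk.comp UP.fst)) (u4_two UP.snd (hy.comp UP.fst)))
      (UP.const 1)
  exact u4_hd (UP.filterA (h := fun X (x : α) (z : ℕ) =>
    !decide (cr (fun S => rkX X (E X x) S) (B X x) [(B X x).headD 0] [z] = 0) &&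
      (!decide (cr (fun S => rkX X (E X x) S) (B X x) [i X x, k X x] [z] = 0) &&
        decide (cr (fun S => rkX X (E X x) S) (B X x) [i X x, k X x] [z, y X x] ≤ 1)))
    (h1.and (h2.and h3)) hE)

theorem up_ent (P : Prm) (hdv : FP fun p : ℕ × ℕ => P.dv p.1 p.2) (hE : UP E) (hB : UP B)
    (hi : UP i) (hy : UP y) :
    UP fun X x => ent P (fun S => rkX X (E X x) S) (B X x) (E X x) (i X x) (y X x) := by
  have hp := up_piv hE hB hy
  have hq := up_prox hE hB hi hp hy
  have c1 := u4_isz (up_cr hE hB (u4_sing hi) (u4_sing hy))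
  have c2 := u4_eq hi hp
  have c3 := u4_eq hp (u4_hd hB)
  have t1 := up_tv P hE hB hi hy
  have t2 := up_tv P hE hB hi hq
  have t3 := up_tv P hE hB hp hq
  have d := UP.fp2 (h := fun a b : ℕ => P.dv a b) hdv t2 t3
  have h := UP.ite c1 (UP.const P.zer) (UP.ite c2 (UP.const P.one) (UP.ite c3 t1 d))
  refine h.congr fun X x => ?_
  unfold ent
  simp only [decide_eq_true_eq]

theorem up_flg (P : Prm) (hE : UP E) (hB : UP B) :
    UP fun X x => flg P (fun S => rkX X (E X x) S) (B X x) (E X x) := by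
  have h1 : UP fun X x => decide (3 ≤ (B X x).length) :=
    hB.fp (g := fun l : List ℕ => decide (3 ≤ l.length))
      (Pool.Agent.Helper47.TR.FP.natLe (FP.const 3) (by fun_prop))
  have h2 : UP fun X x => prd (B X x).tail (B X x).tail :=
    hB.fp (g := fun l : List ℕ => prd l.tail l.tail) (by fun_prop)
  have hT : UP fun X (p : α × (ℕ × ℕ)) => [(B X p.1).headD 0, p.2.1, p.2.2] :=
    UP.fp2 (h := fun (a : ℕ) (b : List ℕ) => a :: b) (by fun_prop) (u4_hd (hB.comp UP.fst))
      (UP.of_FP (f := fun p : α × (ℕ × ℕ) => [p.2.1, p.2.2]) (by fun_prop))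
  have h3 : UP fun X (p : α × (ℕ × ℕ)) => decide (p.2.1 = p.2.2) ||
      decide ((pts (fun S => rkX X (E X p.1) S) (B X p.1) (E X p.1)
        [(B X p.1).headD 0, p.2.1, p.2.2]).length = P.num) :=
    (UP.of_FP (f := fun p : α × (ℕ × ℕ) => decide (p.2.1 = p.2.2)) (by fun_prop)).or
      ((up_pts (hE.comp UP.fst) (hB.comp UP.fst) hT).fp
        (g := fun l : List ℕ => decide (l.length = P.num)) (by fun_prop))
  exact h1.and (UP.all_ctx (P := fun X (x : α) (p : ℕ × ℕ) => decide (p.1 = p.2) ||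
      decide ((pts (fun S => rkX X (E X x) S) (B X x) (E X x)
        [(B X x).headD 0, p.1, p.2]).length = P.num)) h3 UP.id h2)

theorem up_outA (P : Prm) (hdv : FP fun p : ℕ × ℕ => P.dv p.1 p.2) (hE : UP E) (hB : UP B) :
    UP fun X x => outA P (fun S => rkX X (E X x) S) (B X x) (E X x) := by
  have h1 : UP fun X (p : (α × ℕ) × ℕ) => ent P (fun S => rkX X (E X p.1.1) S) (B X p.1.1)
      (E X p.1.1) p.1.2 p.2 :=
    up_ent P hdv (hE.comp (UP.fst.comp UP.fst)) (hB.comp (UP.fst.comp UP.fst))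
      (UP.snd.comp UP.fst) UP.snd
  have h2 : UP fun X (p : α × ℕ) => (E X p.1).map fun y =>
      ent P (fun S => rkX X (E X p.1) S) (B X p.1) (E X p.1) p.2 y :=
    UP.mapA (h := fun X (p : α × ℕ) (y : ℕ) =>
      ent P (fun S => rkX X (E X p.1) S) (B X p.1) (E X p.1) p.2 y) h1 (hE.comp UP.fst)
  have h3 : UP fun X x => (B X x).map fun i => (E X x).map fun y =>
      ent P (fun S => rkX X (E X x) S) (B X x) (E X x) i y :=
    UP.mapA (h := fun X (x : α) (i : ℕ) => (E X x).map fun y =>
      ent P (fun S => rkX X (E X x) S) (B X x) (E X x) i y) h2 hB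
  exact UP.ite (up_flg P hE hB) ((UP.const true).pair h3) (UP.const (false, []))

end

theorem up_algA (P : Prm) (hdv : FP fun p : ℕ × ℕ => P.dv p.1 p.2) : UP (algA P) := by
  have hE : UP fun _ (a : List Bool) => List.range a.length :=
    UP.of_FP (f := fun a : List Bool => List.range a.length) (by fun_prop)
  have hB := up_grdyX (C := fun _ _ => []) hE hE (UP.const [])
  exact (up_outA P hdv hE hB).congr fun X a => rfl

end Pool.Agent.AM
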