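import Pool.Agent.AM.U4
import Pool.Agent.BW.UT

set_option autoImplicit false

/-!
# Module U5: the algorithm with the constants of the field is polynomial

`fp_table` in `Pool/Agent/BW/UT.lean` (see `prm_add` there).
-/

namespace Pool.Agent.AM

open Turing Function N487b59b3 N68a2faeb Pool.Agent.Helper22 Pool.Agent.Helper49.Cons
open Pool.Agent.Helper6.WB
open Pool.Agent.G4 (nor dif word prd UP)
open Pool.Agent.BW (rkX grdy cod dcd)

variable {K : Type} [Field K] [Fintype K] (e : Fin (Fintype.card K) ≃ K)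

theorem fp_dvQ : FP fun p : ℕ × ℕ => (prmQ e).dv p.1 p.2 := by
  refine Pool.Agent.BW.fp_table
    {p : ℕ × ℕ | p.1 < Fintype.card K ∧ p.2 < Fintype.card K} ?_ _ 0 ?_
  · exact (Set.finite_lt_nat _).prod (Set.finite_lt_nat _)
  · intro x hx
    exact if_neg hx

theorem up_algQ : UP (algA (prmQ e)) := up_algA (prmQ e) (fp_dvQ e)

end Pool.Agent.AM
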